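import Pool.Agent.Helper985.CP.Base

/-! Containers of general shape, with a bounded external potential. -/

set_option autoImplicit false

open MeasureTheory
open scoped Topology

namespace Run7.h213.P

open Pool.Agent.Helper985.CP hiding IsState cube energy kin energies

/-- Containers `dom ℓ` (open, inside the cube of side `A ℓ` centred at the origin, and containing
the unit neighbourhood of the cube of side `ℓ / 2` centred at the origin) and a continuous external
potential `0 ≤ U ≤ 1`, which acts on all particles. -/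
class Env where
  dom : ℝ → Set E3
  A : ℝ
  U : E3 → ℝ
  A_ge : 1 ≤ A
  dom_open : ∀ ℓ, IsOpen (dom ℓ)
  dom_sub : ∀ ℓ, dom ℓ ⊆ {y | ∀ k, -(A * ℓ / 2) < y k ∧ y k < A * ℓ / 2}
  dom_in : ∀ ℓ, 4 ≤ ℓ → ∀ y : E3, (∀ k, |y k| ≤ ℓ / 4) → Metric.closedBall y 1 ⊆ dom ℓ
  U_cont : Continuous U
  U_nn : ∀ x, 0 ≤ U x
  U_le : ∀ x, U x ≤ 1

variable [Env]

/-- The container. -/
def cube (ℓ : ℝ) : Set E3 := Env.dom ℓ

/-- The circumscribed cube. -/
def obox (ℓ : ℝ) : Set E3 := {y | ∀ k, -(Env.A * ℓ / 2) < y k ∧ y k < Env.A * ℓ / 2}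

theorem cube_sub (ℓ : ℝ) : cube ℓ ⊆ obox ℓ := Env.dom_sub ℓ

theorem cube_open (ℓ : ℝ) : IsOpen (cube ℓ) := Env.dom_open ℓ

section

variable {S : Type} (D : Species S) {I : Type} [Fintype I] [DecidableEq I] (sp : I → S)

/-- The states of the particles `I` (particle `i` is of species `sp i`) in the container:
smooth wave functions with compact support in the container, with the spins of the species and the
symmetry required by the statistics. -/
structure IsState (ℓ : ℝ) (Ψ : Wave D I) : Prop where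
  smooth : ∀ τ, ContDiff ℝ SM (Ψ τ)
  compact : ∀ τ, HasCompactSupport (Ψ τ)
  support : ∀ τ, tsupport (Ψ τ) ⊆ {x | ∀ i, x i ∈ cube ℓ}
  spin : ∀ τ, Ψ τ ≠ 0 → ∀ i, τ i ∈ D.spin (sp i)
  symm : ∀ i j, i ≠ j → sp i = sp j → ∀ τ x,
    Ψ (fun k => τ (Equiv.swap i j k)) (fun k => x (Equiv.swap i j k)) = exch D (sp i) * Ψ τ x

/-- The one-particle energy density `(1/2μᵢ) |∇ᵢ u|² + U(xᵢ) |u|²` of particle `i`. -/
noncomputable def kin (i : I) (u : (I → E3) → ℂ) (x : I → E3) : ℝ :=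
  Pool.Agent.Helper985.CP.kin D sp i u x + Env.U (x i) * ‖u x‖ ^ 2

/-- The quadratic form `⟨Ψ, H Ψ⟩`. -/
noncomputable def energy (Ψ : Wave D I) : ℝ :=
  ∑ τ, ∫ x, ((∑ i, kin D sp i (Ψ τ) x) + coul D sp x * ‖Ψ τ x‖ ^ 2)

theorem kin_ge (i : I) (u : (I → E3) → ℂ) (x : I → E3) :
    Pool.Agent.Helper985.CP.kin D sp i u x ≤ kin D sp i u x := by
  unfold kin
  have := mul_nonneg (Env.U_nn (x i)) (sq_nonneg ‖u x‖)
  linarith

omit [Env] [Fintype I] in
theorem kin0_nn (hD : D.Valid) (i : I) (u : (I → E3) → ℂ) (x : I → E3) :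
    0 ≤ Pool.Agent.Helper985.CP.kin D sp i u x := by
  unfold Pool.Agent.Helper985.CP.kin
  have := (hD.mass_pos (sp i)).le
  exact mul_nonneg (by positivity) (Finset.sum_nonneg fun _ _ => by positivity)

theorem kinP_nn (hD : D.Valid) (i : I) (u : (I → E3) → ℂ) (x : I → E3) :
    0 ≤ kin D sp i u x := (kin0_nn D sp hD i u x).trans (kin_ge D sp i u x)

end

end Run7.h213.P
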