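import Pool.Agent.Helper985.CP.Defs
import Pool.Agent.Run7.h213.P.CBase

set_option autoImplicit false

open MeasureTheory
open scoped Topology

namespace Run7.h213.P

open Pool.Agent.Helper985.CP hiding IsState cube energy kin pe

variable [Env]

/-- energy of particle `i`: kinetic energy plus all its interactions -/
noncomputable def pe {S : Type} (D : Species S) {I : Type} [Fintype I] [DecidableEq I]
    (sp : I → S) (i : I) (Ψ : Wave D I) : ℝ :=
  ∑ τ, ∫ x, (kin D sp i (Ψ τ) x +
    (∑ j, if i = j then 0 else D.charge (sp i) * D.charge (sp j) / ‖x i - x j‖) * ‖Ψ τ x‖ ^ 2)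


/-- kinetic and potential energy of the one-particle state `φ` -/
noncomputable def kU {S : Type} (D : Species S) (s : S) (φ : E3 → ℝ) : ℝ :=
  (1 / (2 * D.mass s)) * grad2 φ + ∫ z, Env.U z * φ z ^ 2

/-- energy density of the one-particle state `φ` -/
noncomputable def kd1 {S : Type} (D : Species S) (s : S) (φ : E3 → ℝ) (z : E3) : ℝ :=
  (1 / (2 * D.mass s)) * (∑ k : Fin 3, (fderiv ℝ φ z (EuclideanSpace.single k (1 : ℝ))) ^ 2) +
    Env.U z * φ z ^ 2

theorem U_int {φ : E3 → ℝ} (hφ : Continuous φ) (hc : HasCompactSupport φ) :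
    Integrable (fun z => Env.U z * φ z ^ 2) := by
  have h1 : Continuous (fun z => Env.U z * φ z ^ 2) := Env.U_cont.mul (hφ.pow 2)
  have h2 : HasCompactSupport (fun z => φ z ^ 2) :=
    hc.comp_left (g := fun t : ℝ => t ^ 2) (by simp)
  have h3 : HasCompactSupport (fun z => Env.U z * φ z ^ 2) := h2.mul_left
  exact h1.integrable_of_hasCompactSupport h3

theorem grad_int {φ : E3 → ℝ} (hφ : ContDiff ℝ SM φ) (hc : HasCompactSupport φ) :
    Integrable (fun z => ∑ k : Fin 3,
      (fderiv ℝ φ z (EuclideanSpace.single k (1 : ℝ))) ^ 2) := by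
  have hgc : Continuous (fun z => ∑ k : Fin 3,
      (fderiv ℝ φ z (EuclideanSpace.single k (1 : ℝ))) ^ 2) := by
    refine continuous_finsetSum _ fun k _ => ?_
    exact ((hφ.continuous_fderiv (by simp)).clm_apply continuous_const).pow 2
  refine hgc.integrable_of_hasCompactSupport ?_
  refine (hc.fderiv (𝕜 := ℝ)).mono ?_
  intro z hz
  simp only [Function.mem_support] at hz ⊢
  exact fun h => hz (by simp [h])

theorem kd1_int {S : Type} (D : Species S) (s : S) {φ : E3 → ℝ} (hφ : ContDiff ℝ SM φ)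
    (hc : HasCompactSupport φ) : Integrable (kd1 D s φ) ∧ ∫ z, kd1 D s φ z = kU D s φ := by
  have h1 := (grad_int hφ hc).const_mul (1 / (2 * D.mass s))
  have h2 := U_int hφ.continuous hc
  refine ⟨h1.add h2, ?_⟩
  unfold kd1 kU grad2
  rw [integral_add h1 h2, integral_const_mul]

theorem kU_le {S : Type} (D : Species S) (s : S) {φ : E3 → ℝ} (hφ : Continuous φ)
    (hc : HasCompactSupport φ) (h1 : ∫ z, φ z ^ 2 = 1) :
    kU D s φ ≤ (1 / (2 * D.mass s)) * grad2 φ + 1 := by
  unfold kU
  have h2 : ∫ z, Env.U z * φ z ^ 2 ≤ ∫ z, φ z ^ 2 := by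
    refine integral_mono (U_int hφ hc) ?_ fun z => ?_
    · have h4 : Continuous (fun z => φ z ^ 2) := hφ.pow 2
      have h5 : HasCompactSupport (fun z => φ z ^ 2) :=
        hc.comp_left (g := fun t : ℝ => t ^ 2) (by simp)
      exact h4.integrable_of_hasCompactSupport h5
    · have := Env.U_le z
      have h3 := sq_nonneg (φ z)
      show Env.U z * φ z ^ 2 ≤ φ z ^ 2
      nlinarith
  linarith

theorem kU_ge {S : Type} (D : Species S) (s : S) (φ : E3 → ℝ) :
    (1 / (2 * D.mass s)) * grad2 φ ≤ kU D s φ := by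
  unfold kU
  have h2 : 0 ≤ ∫ z, Env.U z * φ z ^ 2 :=
    integral_nonneg fun z => mul_nonneg (Env.U_nn z) (sq_nonneg _)
  linarith

end Run7.h213.P
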