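import Pool.Agent.Helper985.CT.Base
import Pool.Agent.Run7.h213.P.CBase

set_option autoImplicit false

open MeasureTheory
open scoped Topology

namespace Run7.h213.P

open Pool.Agent.Helper985.CP hiding IsState Ortho cube energy kin peierls

variable [Env]

section

variable {S : Type} (D : Species S) {I : Type} [Fintype I] [DecidableEq I] (sp : I → S)


/-- Finite orthonormal families of states. -/
def Ortho (ℓ : ℝ) {k : ℕ} (ψ : Fin k → Wave D I) : Prop :=
  (∀ i, IsState D sp ℓ (ψ i)) ∧ ∀ i j, ip D (ψ i) (ψ j) = if i = j then 1 else 0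

/-- The sums `∑ⱼ exp(-⟨ψⱼ, H ψⱼ⟩ / T)` over finite orthonormal families of states. -/
def peierls (ℓ T : ℝ) : Set ℝ :=
  {z : ℝ | ∃ (k : ℕ) (ψ : Fin k → Wave D I), Ortho D sp ℓ ψ ∧
    z = ∑ j, Real.exp (-(energy D sp (ψ j)) / T)}

end


end Run7.h213.P
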