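import Pool.Agent.Helper985.CT.Defs
import Pool.Agent.Run7.h213.P.TBase
import Pool.Agent.Run7.h213.P.CDefs
import Pool.Agent.Run7.h213.P.CBase

set_option autoImplicit false

open MeasureTheory
open scoped Topology

namespace Run7.h213.P

open Pool.Agent.Helper985.CP hiding IsState Ortho cube energy kin kinE pe peierls

variable [Env]

/-- kinetic energy of particle `i` -/
noncomputable def kinE {S : Type} (D : Species S) {I : Type} [Fintype I] [DecidableEq I]
    (sp : I → S) (i : I) (Ψ : Wave D I) : ℝ :=
  ∑ τ, ∫ x, kin D sp i (Ψ τ) x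


end Run7.h213.P
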