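import Pool.Agent.Helper985.CT.M_pw_parseval
import Pool.Agent.Run7.h213.P.TDefs
import Pool.Agent.Run7.h213.P.CBase

set_option autoImplicit false

open MeasureTheory
open scoped Topology

namespace Run7.h213.P

open Pool.Agent.Helper985.CP hiding IsState Ortho cube energy kin kinE pe peierls pw_parseval pwaux_parseval

variable [Env]

omit [Env] in
theorem pwave_shift (L : ℝ) (m : Fin 3 → ℤ) (v z : E3) :
    pwave L m (z + v) = Complex.exp (2 * Real.pi * Complex.I *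
      ((∑ i, (m i : ℝ) * v i : ℝ) : ℂ) / (L : ℂ)) * pwave L m z := by
  unfold pwave
  rw [← mul_div_assoc, ← Complex.exp_add]
  congr 2
  have : (∑ i, (m i : ℝ) * (z + v) i) = (∑ i, (m i : ℝ) * v i) + ∑ i, (m i : ℝ) * z i := by
    rw [← Finset.sum_add_distrib]
    refine Finset.sum_congr rfl fun i _ => ?_
    simp only [PiLp.add_apply]
    ring
  rw [this]
  push_cast
  ring

omit [Env] in
theorem pwave_phase (L : ℝ) (m : Fin 3 → ℤ) (v : E3) :
    ‖Complex.exp (2 * Real.pi * Complex.I *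
      ((∑ i, (m i : ℝ) * v i : ℝ) : ℂ) / (L : ℂ))‖ = 1 := by
  have : (2 * Real.pi * Complex.I * ((∑ i, (m i : ℝ) * v i : ℝ) : ℂ) / (L : ℂ)) =
      ((2 * Real.pi * (∑ i, (m i : ℝ) * v i) / L : ℝ) : ℂ) * Complex.I := by
    push_cast
    ring
  rw [this, Complex.norm_exp_ofReal_mul_I]

omit [Env] in
theorem pwave_int_shift (L : ℝ) (m : Fin 3 → ℤ) (v : E3) (f : E3 → ℂ) :
    ‖∫ z, (starRingEnd ℂ) (pwave L m z) * f (z - v)‖ = ‖∫ z, (starRingEnd ℂ) (pwave L m z) * f z‖ := by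
  have h := integral_add_right_eq_self (μ := (volume : Measure E3))
    (fun z => (starRingEnd ℂ) (pwave L m z) * f (z - v)) v
  rw [← h]
  simp only [add_sub_cancel_right, pwave_shift, map_mul]
  have : (∫ z, (starRingEnd ℂ) (Complex.exp (2 * Real.pi * Complex.I *
      ((∑ i, (m i : ℝ) * v i : ℝ) : ℂ) / (L : ℂ))) * (starRingEnd ℂ) (pwave L m z) * f z) =
      (starRingEnd ℂ) (Complex.exp (2 * Real.pi * Complex.I *
      ((∑ i, (m i : ℝ) * v i : ℝ) : ℂ) / (L : ℂ))) *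
        ∫ z, (starRingEnd ℂ) (pwave L m z) * f z := by
    rw [← integral_const_mul]
    congr 1
    funext z
    ring
  rw [this, norm_mul, Complex.norm_conj, pwave_phase, one_mul]

/-- half the diagonal of the circumscribed cube -/
noncomputable def hv (ℓ : ℝ) : E3 := WithLp.toLp 2 (fun _ => Env.A * ℓ / 2)

theorem hv_apply (ℓ : ℝ) (k : Fin 3) : hv ℓ k = Env.A * ℓ / 2 := rfl

theorem pw_parseval (ℓ : ℝ) (hℓ : 0 < ℓ) (f : E3 → ℂ) (hf : ContDiff ℝ SM f)
    (hc : HasCompactSupport f) (hs : tsupport f ⊆ obox ℓ) :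
    HasSum (fun m => ‖∫ z, (starRingEnd ℂ) (pwave (Env.A * ℓ) m z) * f z‖ ^ 2) (∫ z, ‖f z‖ ^ 2) ∧
    HasSum (fun m => pen (Env.A * ℓ) m *
        ‖∫ z, (starRingEnd ℂ) (pwave (Env.A * ℓ) m z) * f z‖ ^ 2)
      (∫ z, ∑ k : Fin 3, ‖fderiv ℝ f z (EuclideanSpace.single k (1 : ℝ))‖ ^ 2) := by
  have hA : 0 < Env.A * ℓ := mul_pos (lt_of_lt_of_le one_pos Env.A_ge) hℓ
  have hhom : tsupport (fun z => f (z - hv ℓ)) ⊆ (fun z => z - hv ℓ) ⁻¹' tsupport f := by
    refine closure_minimal ?_ ((isClosed_tsupport f).preimage (continuous_id.sub continuous_const))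
    intro z hz
    exact subset_tsupport f hz
  have h := Pool.Agent.Helper985.CP.pw_parseval (Env.A * ℓ) hA (fun z => f (z - hv ℓ))
    (hf.comp (contDiff_id.sub contDiff_const))
    (by
      have := hc.comp_homeomorph (Homeomorph.addRight (-hv ℓ))
      simpa [Function.comp_def, sub_eq_add_neg] using this)
    (by
      intro z hz
      have h1 := hs (hhom hz)
      intro k
      have h2 := h1 k
      simp only [PiLp.sub_apply, hv_apply] at h2
      constructor <;> linarith [h2.1, h2.2])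
  have e1 : ∫ z, ‖f (z - hv ℓ)‖ ^ 2 = ∫ z, ‖f z‖ ^ 2 :=
    integral_sub_right_eq_self (fun z => ‖f z‖ ^ 2) (hv ℓ)
  have e2 : ∫ z, ∑ k : Fin 3, ‖fderiv ℝ (fun z => f (z - hv ℓ)) z
      (EuclideanSpace.single k (1 : ℝ))‖ ^ 2 =
      ∫ z, ∑ k : Fin 3, ‖fderiv ℝ f z (EuclideanSpace.single k (1 : ℝ))‖ ^ 2 := by
    have : ∀ z, fderiv ℝ (fun z => f (z - hv ℓ)) z = fderiv ℝ f (z - hv ℓ) := fun z => by
      rw [fderiv_comp_sub]
    simp only [this]
    exact integral_sub_right_eq_self (fun z => ∑ k : Fin 3,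
      ‖fderiv ℝ f z (EuclideanSpace.single k (1 : ℝ))‖ ^ 2) (hv ℓ)
  simp only [pwave_int_shift, e1, e2] at h
  exact h

end Run7.h213.P
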