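import Pool.Agent.Helper780_CP.RTR
import Pool.Agent.Run7.h213.P.CM_int_state
import Pool.Agent.Run7.h213.P.TM_pw_parseval

/-! Translation of the states to the cube `(0, Aℓ)³`. -/

set_option autoImplicit false

open MeasureTheory
open scoped Topology

namespace Run7.h213.P

open Pool.Agent.Helper985.CP hiding IsState cube energy int_state kin pe kinE
open Pool.Agent.Helper780_CP (trW dv wm)

/-- pure kinetic energy density -/
noncomputable abbrev kin0 {S : Type} (D : Species S) {I : Type} [Fintype I] [DecidableEq I]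
    (sp : I → S) (i : I) (u : (I → E3) → ℂ) (x : I → E3) : ℝ :=
  Pool.Agent.Helper985.CP.kin D sp i u x

/-- pure energy -/
noncomputable abbrev energy0 {S : Type} (D : Species S) {I : Type} [Fintype I] [DecidableEq I]
    (sp : I → S) (Ψ : Wave D I) : ℝ := Pool.Agent.Helper985.CP.energy D sp Ψ

section

variable {S : Type} (D : Species S) {I : Type} [Fintype I] [DecidableEq I] (sp : I → S)

theorem tr_fderiv (v : E3) (u : (I → E3) → ℂ) (x : I → E3) :
    fderiv ℝ (fun x : I → E3 => u (fun i => x i - v)) x = fderiv ℝ u (fun i => x i - v) := by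
  have h : (fun x : I → E3 => u (fun i => x i - v)) = fun x => u (x - fun _ => v) := rfl
  rw [h, fderiv_comp_sub]
  rfl

theorem tr_kin (v : E3) (i : I) (Ψ : Wave D I) (τ : I → Fin D.g) (x : I → E3) :
    kin0 D sp i (trW D v Ψ τ) x = kin0 D sp i (Ψ τ) (fun i => x i - v) := by
  unfold kin0 Pool.Agent.Helper985.CP.kin
  have h : trW D v Ψ τ = fun x : I → E3 => Ψ τ (fun i => x i - v) := rfl
  rw [h]
  simp only [tr_fderiv]

theorem tr_int (v : E3) (F : (I → E3) → ℝ) : ∫ x : I → E3, F (fun i => x i - v) = ∫ x, F x :=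
  integral_sub_right_eq_self (μ := (volume : Measure (I → E3))) F (fun _ : I => v)

theorem tr_nrm2 (v : E3) (Ψ : Wave D I) : nrm2 D (trW D v Ψ) = nrm2 D Ψ := by
  unfold nrm2
  exact Finset.sum_congr rfl fun τ _ => tr_int v (fun x => ‖Ψ τ x‖ ^ 2)

theorem tr_kinE (v : E3) (i : I) (Ψ : Wave D I) :
    Pool.Agent.Helper985.CP.kinE D sp i (trW D v Ψ) = Pool.Agent.Helper985.CP.kinE D sp i Ψ := by
  unfold Pool.Agent.Helper985.CP.kinE
  refine Finset.sum_congr rfl fun τ _ => ?_
  simp only [tr_kin]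
  exact tr_int v (fun x => kin0 D sp i (Ψ τ) x)

theorem tr_energy (v : E3) (Ψ : Wave D I) : energy0 D sp (trW D v Ψ) = energy0 D sp Ψ := by
  unfold energy0 Pool.Agent.Helper985.CP.energy
  refine Finset.sum_congr rfl fun τ _ => ?_
  have h := tr_int v (fun x => (∑ i, kin0 D sp i (Ψ τ) x) + coul D sp x * ‖Ψ τ x‖ ^ 2)
  rw [← h]
  refine integral_congr_ae (Filter.Eventually.of_forall fun x => ?_)
  have e : coul D sp (fun i => x i - v) = coul D sp x := by
    unfold coul
    simp only [sub_sub_sub_cancel_right]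
  show (∑ i, kin0 D sp i (trW D v Ψ τ) x) + coul D sp x * ‖trW D v Ψ τ x‖ ^ 2 = _
  simp only [tr_kin, e]
  rfl

theorem tr_pe (v : E3) (i : I) (Ψ : Wave D I) :
    Pool.Agent.Helper985.CP.pe D sp i (trW D v Ψ) = Pool.Agent.Helper985.CP.pe D sp i Ψ := by
  unfold Pool.Agent.Helper985.CP.pe
  refine Finset.sum_congr rfl fun τ _ => ?_
  have h := tr_int v (fun x => (kin0 D sp i (Ψ τ) x +
    (∑ j, if i = j then 0 else D.charge (sp i) * D.charge (sp j) / ‖x i - x j‖) * ‖Ψ τ x‖ ^ 2))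
  rw [← h]
  refine integral_congr_ae (Filter.Eventually.of_forall fun x => ?_)
  show kin0 D sp i (trW D v Ψ τ) x + _ * ‖trW D v Ψ τ x‖ ^ 2 = _
  simp only [tr_kin, sub_sub_sub_cancel_right]
  rfl

end

variable [Env]

section

variable {S : Type} (D : Species S) {I : Type} [Fintype I] [DecidableEq I] (sp : I → S)

theorem br_state (ℓ : ℝ) (Ψ : Wave D I) (hΨ : IsState D sp ℓ Ψ) :
    Pool.Agent.Helper985.CP.IsState D sp (Env.A * ℓ) (trW D (hv ℓ) Ψ) where
  smooth τ := (hΨ.smooth τ).comp (contDiff_id.sub contDiff_const)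
  compact τ := (hΨ.compact τ).comp_homeomorph (Homeomorph.subRight (fun _ : I => hv ℓ))
  support τ := by
    have hsub : tsupport (trW D (hv ℓ) Ψ τ) ⊆
        (fun x : I → E3 => x - fun _ => hv ℓ) ⁻¹' tsupport (Ψ τ) := by
      refine closure_minimal ?_ ((isClosed_tsupport _).preimage
        (continuous_id.sub continuous_const))
      intro z hz
      exact subset_tsupport (Ψ τ) hz
    intro x hx i k
    have h1 := cube_sub ℓ (hΨ.support τ (hsub hx) i) k
    have h2 : (x - fun _ : I => hv ℓ) i k = x i k - Env.A * ℓ / 2 := rfl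
    rw [h2] at h1
    constructor <;> linarith [h1.1, h1.2]
  spin τ hτ := by
    refine hΨ.spin τ fun h0 => hτ ?_
    funext x
    show Ψ τ _ = 0
    rw [h0]
    rfl
  symm i j hij hs τ x := hΨ.symm i j hij hs τ (fun k => x k - hv ℓ)

theorem energy_ge (ℓ : ℝ) (Ψ : Wave D I) (hΨ : IsState D sp ℓ Ψ) :
    energy0 D sp Ψ ≤ energy D sp Ψ := by
  unfold energy0 Pool.Agent.Helper985.CP.energy energy
  refine Finset.sum_le_sum fun τ _ => ?_
  obtain ⟨-, h2, h3, -, -⟩ := int_state D sp ℓ Ψ hΨ τ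
  refine integral_mono ((integrable_finset_sum _ fun i _ => int_kin0 D sp ℓ Ψ hΨ τ i).add h3)
    ((integrable_finset_sum _ fun i _ => h2 i).add h3) fun x => ?_
  exact add_le_add (Finset.sum_le_sum fun i _ => kin_ge D sp i (Ψ τ) x) le_rfl

theorem kinE_ge (ℓ : ℝ) (Ψ : Wave D I) (hΨ : IsState D sp ℓ Ψ) (i : I) :
    Pool.Agent.Helper985.CP.kinE D sp i Ψ ≤ ∑ τ, ∫ x, kin D sp i (Ψ τ) x := by
  unfold Pool.Agent.Helper985.CP.kinE
  refine Finset.sum_le_sum fun τ _ => ?_
  obtain ⟨-, h2, -, -, -⟩ := int_state D sp ℓ Ψ hΨ τ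
  exact integral_mono (int_kin0 D sp ℓ Ψ hΨ τ i) (h2 i) fun x => kin_ge D sp i (Ψ τ) x

end

end Run7.h213.P
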