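import Pool.Agent.Helper985.CP.M_ims
import Pool.Agent.Run7.h213.P.CM_int_state
import Pool.Agent.Run7.h213.P.CDefs
import Pool.Agent.Run7.h213.P.CBase

set_option autoImplicit false

open MeasureTheory
open scoped Topology

namespace Run7.h213.P

open Pool.Agent.Helper985.CP hiding IsState cube energy ims_state int_state kin pe

variable [Env]


theorem ims_state {S : Type} (D : Species S) {I : Type} [Fintype I] [DecidableEq I] (sp : I → S)
    (ℓ : ℝ) (Ψ : Wave D I) (hΨ : IsState D sp ℓ Ψ) (f : (I → E3) → ℝ) (hf : ContDiff ℝ SM f)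
    (hs : ∀ i j x, f (fun k => x (Equiv.swap i j k)) = f x) :
    IsState D sp ℓ (fun τ x => ((f x : ℝ) : ℂ) * Ψ τ x) where
  smooth τ := (Complex.ofRealCLM.contDiff.comp hf).mul (hΨ.smooth τ)
  compact τ := (hΨ.compact τ).mul_left
  support τ := by
    refine Set.Subset.trans ?_ (hΨ.support τ)
    exact closure_mono (Function.support_mul_subset_right _ _)
  spin τ h := by
    refine hΨ.spin τ fun h0 => h ?_
    funext x
    rw [h0]
    simp
  symm i j hij hsp τ x := by
    rw [hs i j x, hΨ.symm i j hij hsp τ x]
    ring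


end Run7.h213.P
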