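import Pool.Agent.Helper985.CP.M_ins0_num
import Pool.Agent.Run7.h213.P.CM_int_state
import Pool.Agent.Run7.h213.P.CDefs
import Pool.Agent.Run7.h213.P.CBase
import Pool.Agent.Run7.h213.P.CBridge
import Pool.Agent.Run7.h213.P.CDefs

set_option autoImplicit false

open MeasureTheory
open scoped Topology

namespace Run7.h213.P

open Pool.Agent.Helper985.CP hiding IsState cube energy ins0_num int_state kin pe q985_point

variable [Env]


theorem q985_point {S : Type} (D : Species S) {I : Type} [Fintype I]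
    [DecidableEq I] (sp : I → S) (s : S) (φ : E3 → ℝ) (ψ : (I → E3) → ℂ)
    (hφ : ContDiff ℝ SM φ) (hψ : ContDiff ℝ SM ψ) (x : Option I → E3) :
    ((∑ o, kin D (fun o : Option I => o.elim s sp) o
        (fun x : Option I → E3 => ((φ (x none) : ℝ) : ℂ) * ψ (fun i => x (some i))) x) +
      coul D (fun o : Option I => o.elim s sp) x *
        ‖((φ (x none) : ℝ) : ℂ) * ψ (fun i => x (some i))‖ ^ 2)
    = kd1 D s φ (x none) * ‖ψ (fun i => x (some i))‖ ^ 2
      + (φ (x none)) ^ 2 * ((∑ i, kin D sp i ψ (fun i => x (some i))) +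
          coul D sp (fun i => x (some i)) * ‖ψ (fun i => x (some i))‖ ^ 2)
      + ∑ i, D.charge s * D.charge (sp i) * ((1 / ‖x none - x (some i)‖) *
          ((φ (x none)) ^ 2 * ‖ψ (fun i => x (some i))‖ ^ 2)) := by
  have hN : ‖((φ (x none) : ℝ) : ℂ) * ψ (fun i => x (some i))‖ ^ 2
      = φ (x none) ^ 2 * ‖ψ (fun i => x (some i))‖ ^ 2 := by
    rw [norm_mul, mul_pow, Complex.norm_real, Real.norm_eq_abs, sq_abs]
  have hk0' : kin0 D (fun o : Option I => o.elim s sp) none
        (fun x : Option I → E3 => ((φ (x none) : ℝ) : ℂ) * ψ (fun i => x (some i))) x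
      = (1 / (2 * D.mass s)) *
        ((∑ k : Fin 3, (fderiv ℝ φ (x none) (EuclideanSpace.single k (1 : ℝ))) ^ 2) *
          ‖ψ (fun i => x (some i))‖ ^ 2) := by
    unfold kin0 Pool.Agent.Helper985.CP.kin
    simp only [Option.elim]
    rw [Finset.sum_mul]
    congr 1
    refine Finset.sum_congr rfl fun k _ => ?_
    rw [q985_fd φ ψ hφ hψ]
    have hz : (fun i : I => (Pi.single (none : Option I) (EuclideanSpace.single k (1 : ℝ)) :
        Option I → E3) (some i)) = 0 := by
      funext i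
      simp
    rw [hz, map_zero, mul_zero, zero_add, Pi.single_eq_same, norm_mul, mul_pow,
      Complex.norm_real, Real.norm_eq_abs, sq_abs]
  have hk0 : kin D (fun o : Option I => o.elim s sp) none
        (fun x : Option I → E3 => ((φ (x none) : ℝ) : ℂ) * ψ (fun i => x (some i))) x
      = kd1 D s φ (x none) * ‖ψ (fun i => x (some i))‖ ^ 2 := by
    unfold kin kd1
    unfold kin0 at hk0'
    rw [hk0', hN]
    ring
  have hks' : ∀ i : I, kin0 D (fun o : Option I => o.elim s sp) (some i)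
        (fun x : Option I → E3 => ((φ (x none) : ℝ) : ℂ) * ψ (fun i => x (some i))) x
      = φ (x none) ^ 2 * kin0 D sp i ψ (fun i => x (some i)) := by
    intro i
    unfold kin0 Pool.Agent.Helper985.CP.kin
    simp only [Option.elim]
    rw [mul_left_comm]
    congr 1
    rw [Finset.mul_sum]
    refine Finset.sum_congr rfl fun k _ => ?_
    rw [q985_fd φ ψ hφ hψ]
    have hz : (fun j : I => (Pi.single (some i : Option I) (EuclideanSpace.single k (1 : ℝ)) :
        Option I → E3) (some j)) = Pi.single i (EuclideanSpace.single k (1 : ℝ)) := by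
      funext j
      by_cases hj : j = i
      · subst hj
        simp
      · rw [Pi.single_eq_of_ne hj, Pi.single_eq_of_ne (by simpa using hj)]
    rw [hz, Pi.single_eq_of_ne (by simp), map_zero, Complex.ofReal_zero, zero_mul, add_zero,
      norm_mul, mul_pow, Complex.norm_real, Real.norm_eq_abs, sq_abs]
  have hks : ∀ i : I, kin D (fun o : Option I => o.elim s sp) (some i)
        (fun x : Option I → E3 => ((φ (x none) : ℝ) : ℂ) * ψ (fun i => x (some i))) x
      = φ (x none) ^ 2 * kin D sp i ψ (fun i => x (some i)) := by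
    intro i
    have := hks' i
    unfold kin0 at this
    unfold kin
    rw [this, hN]
    ring
  rw [Fintype.sum_option, hk0, hN, q985_coul]
  simp only [hks]
  have : (∑ i, D.charge s * D.charge (sp i) * (1 / ‖x none - x (some i)‖)) *
      (φ (x none) ^ 2 * ‖ψ (fun i => x (some i))‖ ^ 2)
      = ∑ i, D.charge s * D.charge (sp i) * ((1 / ‖x none - x (some i)‖) *
          ((φ (x none)) ^ 2 * ‖ψ (fun i => x (some i))‖ ^ 2)) := by
    rw [Finset.sum_mul]
    refine Finset.sum_congr rfl fun i _ => ?_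
    ring
  rw [← Finset.mul_sum, add_mul, this]
  ring


theorem ins0_num {S : Type} (D : Species S) {I : Type} [Fintype I]
    [DecidableEq I] (sp : I → S) (ℓ : ℝ) (s : S) (σ0 : Fin D.g) (φ : E3 → ℝ)
    (hφ : ContDiff ℝ SM φ) (hφc : HasCompactSupport φ) (hφ1 : ∫ z, φ z ^ 2 = 1)
    (Ψ : Wave D I) (hΨ : IsState D sp ℓ Ψ) :
    nrm2 D (ins0 D σ0 φ Ψ) = nrm2 D Ψ ∧
      energy D (fun o : Option I => o.elim s sp) (ins0 D σ0 φ Ψ) = energy D sp Ψ +
        kU D s φ * nrm2 D Ψ + D.charge s * mean D sp Ψ (pot φ) ∧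
      (∀ u : E3 → ℝ, Continuous u → mean D (fun o : Option I => o.elim s sp) (ins0 D σ0 φ Ψ) u =
        mean D sp Ψ u + D.charge s * (∫ z, u z * φ z ^ 2) * nrm2 D Ψ) := by
  classical
  have hφcont : Continuous φ := hφ.continuous
  have hφ2 : Continuous (fun z => φ z ^ 2) := hφcont.pow 2
  have hφ2c : HasCompactSupport (fun z => φ z ^ 2) :=
    hφc.mono (by intro z hz; simp only [Function.mem_support] at hz ⊢; exact fun h => hz (by simp [h]))
  have hφ2i : Integrable (fun z => φ z ^ 2) := hφ2.integrable_of_hasCompactSupport hφ2c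
  have hΨcont : ∀ τ, Continuous (Ψ τ) := fun τ => (hΨ.smooth τ).continuous
  have hΨ2 : ∀ τ, Continuous (fun y => ‖Ψ τ y‖ ^ 2) := fun τ => ((hΨcont τ).norm).pow 2
  have hΨ2c : ∀ τ, HasCompactSupport (fun y => ‖Ψ τ y‖ ^ 2) := fun τ =>
    (hΨ.compact τ).mono (by intro z hz; simp only [Function.mem_support] at hz ⊢; exact fun h => hz (by simp [h]))
  have hS := fun τ => int_state D sp ℓ Ψ hΨ τ
  have hnrm : ∀ (x : Option I → E3) (τ' : I → Fin D.g),
      ‖((φ (x none) : ℝ) : ℂ) * Ψ τ' (fun i => x (some i))‖ ^ 2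
      = (fun z => φ z ^ 2) (x none) * (fun y => ‖Ψ τ' y‖ ^ 2) (fun i => x (some i)) := by
    intro x τ'
    simp only
    rw [norm_mul, mul_pow, Complex.norm_real, Real.norm_eq_abs, sq_abs]
  refine ⟨?_, ?_, ?_⟩
  · -- norm
    unfold nrm2
    rw [q985_sumtau σ0 (fun τ => ∫ x, ‖ins0 D σ0 φ Ψ τ x‖ ^ 2)
      (fun τ hτ => by simp [q985_ins0_out D σ0 φ Ψ τ hτ])]
    refine Finset.sum_congr rfl fun τ' _ => ?_
    simp only [q985_ins0_in, hnrm]
    rw [q985_prod (fun z => φ z ^ 2) (fun y => ‖Ψ τ' y‖ ^ 2)]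
    rw [hφ1, one_mul]
  · -- energy
    unfold energy
    rw [q985_sumtau σ0 (fun τ => ∫ x, ((∑ i, kin D (fun o : Option I => o.elim s sp) i
        (ins0 D σ0 φ Ψ τ) x) + coul D (fun o : Option I => o.elim s sp) x *
          ‖ins0 D σ0 φ Ψ τ x‖ ^ 2))
      (fun τ hτ => by
        simp [q985_ins0_out D σ0 φ Ψ τ hτ, kin, Pool.Agent.Helper985.CP.kin])]
    have hterm : ∀ τ' : I → Fin D.g,
        (∫ x, ((∑ i, kin D (fun o : Option I => o.elim s sp) i
        (ins0 D σ0 φ Ψ (fun o => o.elim σ0 τ')) x) + coul D (fun o : Option I => o.elim s sp) x *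
          ‖ins0 D σ0 φ Ψ (fun o => o.elim σ0 τ') x‖ ^ 2))
        = kU D s φ * (∫ y, ‖Ψ τ' y‖ ^ 2)
          + (∫ y, ((∑ i, kin D sp i (Ψ τ') y) + coul D sp y * ‖Ψ τ' y‖ ^ 2))
          + D.charge s * ∫ y, (∑ i, D.charge (sp i) * pot φ (y i)) * ‖Ψ τ' y‖ ^ 2 := by
      intro τ'
      simp only [q985_ins0_in]
      simp only [q985_point D sp s φ (Ψ τ') hφ (hΨ.smooth τ')]
      have hgc : Continuous (fun z => ∑ k : Fin 3,
          (fderiv ℝ φ z (EuclideanSpace.single k (1 : ℝ))) ^ 2) := by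
        refine continuous_finsetSum _ fun k _ => ?_
        exact ((hφ.continuous_fderiv (by simp)).clm_apply continuous_const).pow 2
      have hgcc : HasCompactSupport (fun z => ∑ k : Fin 3,
          (fderiv ℝ φ z (EuclideanSpace.single k (1 : ℝ))) ^ 2) := by
        refine (hφc.fderiv (𝕜 := ℝ)).mono ?_
        intro z hz
        simp only [Function.mem_support] at hz ⊢
        exact fun h => hz (by simp [h])
      have hgi : Integrable (fun z => ∑ k : Fin 3,
          (fderiv ℝ φ z (EuclideanSpace.single k (1 : ℝ))) ^ 2) :=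
        hgc.integrable_of_hasCompactSupport hgcc
      have hHi : Integrable (fun y => (∑ i, kin D sp i (Ψ τ') y) +
          coul D sp y * ‖Ψ τ' y‖ ^ 2) :=
        (integrable_finsetSum _ fun i _ => (hS τ').2.1 i).add (hS τ').2.2.1
      have i1 := q985_prodi (kd1 D s φ) (fun y => ‖Ψ τ' y‖ ^ 2) (kd1_int D s hφ hφc).1
          (hS τ').1
      have i2 := q985_prodi (fun z => φ z ^ 2) (fun y => (∑ i, kin D sp i (Ψ τ') y) +
          coul D sp y * ‖Ψ τ' y‖ ^ 2) hφ2i hHi
      have i3 : ∀ i : I, Integrable (fun x : Option I → E3 =>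
          D.charge s * D.charge (sp i) * ((1 / ‖x none - x (some i)‖) *
          ((φ (x none)) ^ 2 * ‖Ψ τ' (fun i => x (some i))‖ ^ 2))) := fun i =>
        (q985_cinti i (fun z => φ z ^ 2) (fun y => ‖Ψ τ' y‖ ^ 2) hφ2 hφ2c (hΨ2 τ')
          (hΨ2c τ')).const_mul _
      have i3' : Integrable (fun x : Option I → E3 =>
          ∑ i, D.charge s * D.charge (sp i) * ((1 / ‖x none - x (some i)‖) *
          ((φ (x none)) ^ 2 * ‖Ψ τ' (fun i => x (some i))‖ ^ 2))) :=
        integrable_finsetSum _ fun i _ => i3 i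
      refine (q985_add3 i1 i2 i3').trans ?_
      rw [q985_prod (kd1 D s φ) (fun y => ‖Ψ τ' y‖ ^ 2), (kd1_int D s hφ hφc).2,
        q985_prod (fun z => φ z ^ 2) (fun y => (∑ i, kin D sp i (Ψ τ') y) +
          coul D sp y * ‖Ψ τ' y‖ ^ 2), hφ1, one_mul,
        integral_finsetSum _ (fun i _ => i3 i)]
      congr 1
      have hpc := (pot_props φ hφ hφc).1
      have hpi : ∀ i : I, Integrable (fun y : I → E3 => pot φ (y i) * ‖Ψ τ' y‖ ^ 2) := by
        intro i
        refine Continuous.integrable_of_hasCompactSupport ?_ ?_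
        · exact (hpc.comp (continuous_apply i)).mul (hΨ2 τ')
        · exact (hΨ2c τ').mul_left
      have e1 : ∀ i : I, ∫ x : Option I → E3,
          D.charge s * D.charge (sp i) * ((1 / ‖x none - x (some i)‖) *
          ((φ (x none)) ^ 2 * ‖Ψ τ' (fun i => x (some i))‖ ^ 2))
          = D.charge s * (D.charge (sp i) * ∫ y : I → E3, pot φ (y i) * ‖Ψ τ' y‖ ^ 2) := by
        intro i
        rw [integral_const_mul, q985_cint i (fun z => φ z ^ 2) (fun y => ‖Ψ τ' y‖ ^ 2) hφ2 hφ2c
          (hΨ2 τ') (hΨ2c τ'), mul_assoc]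
        rfl
      simp only [e1]
      rw [← Finset.mul_sum]
      congr 1
      have e2 : ∀ i : I, D.charge (sp i) * ∫ y : I → E3, pot φ (y i) * ‖Ψ τ' y‖ ^ 2
          = ∫ y : I → E3, D.charge (sp i) * (pot φ (y i) * ‖Ψ τ' y‖ ^ 2) := fun i =>
        (integral_const_mul _ _).symm
      simp only [e2]
      rw [← integral_finsetSum _ (fun i _ => (hpi i).const_mul _)]
      congr 1
      funext y
      rw [Finset.sum_mul]
      refine Finset.sum_congr rfl fun i _ => ?_
      ring
    simp only [hterm]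
    rw [Finset.sum_add_distrib, Finset.sum_add_distrib, ← Finset.mul_sum, ← Finset.mul_sum]
    unfold nrm2 mean
    ring
  · intro u hu
    unfold mean nrm2
    rw [q985_sumtau σ0 (fun τ => ∫ x : Option I → E3, (∑ i : Option I, D.charge (i.elim s sp) * u (x i)) *
        ‖ins0 D σ0 φ Ψ τ x‖ ^ 2)
      (fun τ hτ => by simp [q985_ins0_out D σ0 φ Ψ τ hτ])]
    have hterm : ∀ τ' : I → Fin D.g,
        (∫ x : Option I → E3, (∑ i : Option I, D.charge (i.elim s sp) * u (x i)) *
        ‖ins0 D σ0 φ Ψ (fun o => o.elim σ0 τ') x‖ ^ 2)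
        = (∫ y, (∑ i, D.charge (sp i) * u (y i)) * ‖Ψ τ' y‖ ^ 2)
          + D.charge s * (∫ z, u z * φ z ^ 2) * ∫ y, ‖Ψ τ' y‖ ^ 2 := by
      intro τ'
      have huc : Continuous (fun z => u z * φ z ^ 2) := hu.mul hφ2
      have hucc : HasCompactSupport (fun z => u z * φ z ^ 2) := hφ2c.mul_left
      have hui : Integrable (fun z => u z * φ z ^ 2) := huc.integrable_of_hasCompactSupport hucc
      have hpt : ∀ x : Option I → E3, (∑ i : Option I, D.charge (i.elim s sp) * u (x i)) *
        ‖ins0 D σ0 φ Ψ (fun o => o.elim σ0 τ') x‖ ^ 2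
        = (fun z => φ z ^ 2) (x none) * (fun y : I → E3 =>
            (∑ i, D.charge (sp i) * u (y i)) * ‖Ψ τ' y‖ ^ 2) (fun i => x (some i))
          + D.charge s * ((fun z => u z * φ z ^ 2) (x none) *
            (fun y : I → E3 => ‖Ψ τ' y‖ ^ 2) (fun i => x (some i))) := by
        intro x
        rw [q985_ins0_in, Fintype.sum_option]
        simp only [hnrm, Option.elim]
        ring
      simp only [hpt]
      have i1 := q985_prodi (fun z => φ z ^ 2) (fun y : I → E3 =>
            (∑ i, D.charge (sp i) * u (y i)) * ‖Ψ τ' y‖ ^ 2) hφ2i ((hS τ').2.2.2.2 u hu)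
      have i2 := (q985_prodi (fun z => u z * φ z ^ 2)
            (fun y : I → E3 => ‖Ψ τ' y‖ ^ 2) hui (hS τ').1).const_mul (D.charge s)
      have e1 := q985_prod (fun z => φ z ^ 2) (fun y : I → E3 =>
            (∑ i, D.charge (sp i) * u (y i)) * ‖Ψ τ' y‖ ^ 2)
      have e2 := q985_prod (fun z => u z * φ z ^ 2)
            (fun y : I → E3 => ‖Ψ τ' y‖ ^ 2)
      rw [hφ1, one_mul] at e1
      rw [← e1, mul_assoc, ← e2, ← integral_const_mul]
      exact integral_add i1 i2
    simp only [hterm]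
    rw [Finset.sum_add_distrib, ← Finset.mul_sum]

end Run7.h213.P
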