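import Pool.Agent.Helper985.CP.M_relabel_num
import Pool.Agent.Run7.h213.P.CDefs
import Pool.Agent.Run7.h213.P.CBase

set_option autoImplicit false

open MeasureTheory
open scoped Topology

namespace Run7.h213.P

open Pool.Agent.Helper985.CP hiding IsState cube energy kin pe relabel_num relaux_kin

variable [Env]


theorem relaux_kin {S : Type} (D : Species S) {I J : Type} [Fintype I] [DecidableEq I]
    [Fintype J] [DecidableEq J] (e : I ≃ J) (sp : I → S) (sp' : J → S)
    (h : ∀ i, sp' (e i) = sp i) (i : I) (u : (I → E3) → ℂ) (x : J → E3) :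
    kin D sp' (e i) (fun y : J → E3 => u (fun k => y (e k))) x =
      kin D sp i u (fun k => x (e k)) := by
  unfold kin
  rw [Pool.Agent.Helper985.CP.relaux_kin D e sp sp' h i u x]


theorem relabel_num {S : Type} (D : Species S) {I J : Type} [Fintype I] [DecidableEq I]
    [Fintype J] [DecidableEq J] (e : I ≃ J) (sp : I → S) (sp' : J → S)
    (h : ∀ i, sp' (e i) = sp i) (Ψ : Wave D I) :
    nrm2 D (relab D e Ψ) = nrm2 D Ψ ∧
    energy D sp' (relab D e Ψ) = energy D sp Ψ ∧
    (∀ i, pe D sp' (e i) (relab D e Ψ) = pe D sp i Ψ) ∧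
    (∀ u : E3 → ℝ, mean D sp' (relab D e Ψ) u = mean D sp Ψ u) := by
  refine ⟨?_, ?_, ?_, ?_⟩
  · unfold nrm2
    rw [← relaux_sum e]
    apply Finset.sum_congr rfl
    intro τ _
    rw [← relaux_int e]
    rfl
  · unfold energy
    rw [← relaux_sum e]
    apply Finset.sum_congr rfl
    intro τ _
    rw [← relaux_int e]
    congr 1
    funext x
    have h1 : ∑ j, kin D sp' j (relab D e Ψ τ) x =
        ∑ i, kin D sp i (Ψ (fun i => τ (e i))) (fun i => x (e i)) := by
      rw [← Equiv.sum_comp e]
      apply Finset.sum_congr rfl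
      intro i _
      exact relaux_kin D e sp sp' h i (Ψ (fun i => τ (e i))) x
    rw [h1, relaux_coul D e sp sp' h x]
    rfl
  · intro i
    unfold pe
    rw [← relaux_sum e]
    apply Finset.sum_congr rfl
    intro τ _
    rw [← relaux_int e]
    congr 1
    funext x
    have h1 : kin D sp' (e i) (relab D e Ψ τ) x =
        kin D sp i (Ψ (fun i => τ (e i))) (fun i => x (e i)) :=
      relaux_kin D e sp sp' h i (Ψ (fun i => τ (e i))) x
    rw [h1, relaux_inter D e sp sp' h i x]
    rfl
  · intro u
    unfold mean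
    rw [← relaux_sum e]
    apply Finset.sum_congr rfl
    intro τ _
    rw [← relaux_int e]
    congr 1
    funext x
    have h1 : ∑ j, D.charge (sp' j) * u (x j) = ∑ i, D.charge (sp i) * u (x (e i)) := by
      rw [← Equiv.sum_comp e]
      apply Finset.sum_congr rfl
      intro i _
      rw [h i]
    rw [h1]
    rfl

end Run7.h213.P
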