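import Pool.Agent.Helper985.CP.M_insert_one
import Pool.Agent.Run7.h213.P.CM_ins0_num
import Pool.Agent.Run7.h213.P.CM_ins_disj
import Pool.Agent.Run7.h213.P.CM_ins_state
import Pool.Agent.Run7.h213.P.CDefs
import Pool.Agent.Run7.h213.P.CBase

set_option autoImplicit false

open MeasureTheory
open scoped Topology

namespace Run7.h213.P

open Pool.Agent.Helper985.CP hiding IsState QQ31988 QQ_ins0_31988 QQ_mul31988 QQ_perm31988 QQ_sum31988 cube energy idjT_act idjT_compact idjT_smooth idj_W0_act idj_W0_bound idj_W0_smooth idj_int idj_sum ins0_num ins0_swap31988 ins_disj ins_state int_state kin pe q985_point relabel_num relaux_kin sm_ins0_31988 spin_ins0_31988 term_A31988 term_B31988 term_swap31988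

variable [Env]


end Run7.h213.P
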