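import Pool.Agent.Helper985.CP.M_nrm2_pos
import Pool.Agent.Run7.h213.P.CM_int_state
import Pool.Agent.Run7.h213.P.CDefs
import Pool.Agent.Run7.h213.P.CBase

set_option autoImplicit false

open MeasureTheory
open scoped Topology

namespace Run7.h213.P

open Pool.Agent.Helper985.CP hiding IsState cube energy int_state kin nrm2_pos pe

variable [Env]


theorem nrm2_pos {S : Type} (D : Species S) {I : Type} [Fintype I] [DecidableEq I]
    (sp : I → S) (ℓ : ℝ) (Ψ : Wave D I) (hΨ : IsState D sp ℓ Ψ) (h0 : Ψ ≠ 0) :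
    0 < nrm2 D Ψ := by
  classical
  obtain ⟨τ, hτ⟩ : ∃ τ, Ψ τ ≠ 0 := by
    by_contra hcon
    push Not at hcon
    exact h0 (funext hcon)
  obtain ⟨x0, hx0⟩ : ∃ x, Ψ τ x ≠ 0 := by
    by_contra hcon
    push Not at hcon
    exact hτ (funext hcon)
  have hcont : Continuous (fun x => ‖Ψ τ x‖ ^ 2) := ((hΨ.smooth τ).continuous.norm).pow 2
  have hcs : HasCompactSupport (fun x => ‖Ψ τ x‖ ^ 2) := by
    have h1 := (hΨ.compact τ).norm
    exact h1.comp_left (g := fun r : ℝ => r ^ 2) (by norm_num)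
  have hpos : 0 < ∫ x, ‖Ψ τ x‖ ^ 2 := by
    apply Continuous.integral_pos_of_hasCompactSupport_nonneg_nonzero hcont hcs (x := x0)
    · intro x
      positivity
    · have : ‖Ψ τ x0‖ ≠ 0 := norm_ne_zero_iff.mpr hx0
      positivity
  unfold nrm2
  exact Finset.sum_pos' (fun τ' _ => integral_nonneg (fun x => by positivity))
    ⟨τ, Finset.mem_univ τ, hpos⟩

end Run7.h213.P
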