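import Pool.Agent.Helper985.CP.M_relabel_state
import Pool.Agent.Run7.h213.P.CDefs
import Pool.Agent.Run7.h213.P.CBase

set_option autoImplicit false

open MeasureTheory
open scoped Topology

namespace Run7.h213.P

open Pool.Agent.Helper985.CP hiding IsState cube energy kin pe relabel_state

variable [Env]


theorem relabel_state {S : Type} (D : Species S) {I J : Type} [Fintype I] [DecidableEq I]
    [Fintype J] [DecidableEq J] (e : I ≃ J) (sp : I → S) (sp' : J → S)
    (h : ∀ i, sp' (e i) = sp i) (ℓ : ℝ) (Ψ : Wave D I) (hΨ : IsState D sp ℓ Ψ) :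
    IsState D sp' ℓ (relab D e Ψ) := by
  let L : (J → E3) ≃L[ℝ] (I → E3) := (ContinuousLinearEquiv.piCongrLeft ℝ (fun _ : J => E3) e).symm
  have hL : ∀ (x : J → E3) (i : I), L x i = x (e i) := fun x i => rfl
  have hL' : ∀ (x : J → E3), L x = fun i => x (e i) := fun x => rfl
  have key : ∀ i j k, Equiv.swap i j (e k) = e (Equiv.swap (e.symm i) (e.symm j) k) := by
    intro i j k
    simp only [Equiv.swap_apply_def, Equiv.eq_symm_apply]
    split_ifs <;> simp
  have hcomp : ∀ τ : J → Fin D.g, relab D e Ψ τ = (Ψ (fun i => τ (e i))) ∘ L := fun τ => rfl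
  refine ⟨?_, ?_, ?_, ?_, ?_⟩
  · intro τ
    rw [hcomp]
    exact (hΨ.smooth _).comp L.contDiff
  · intro τ
    rw [hcomp]
    exact (hΨ.compact _).comp_homeomorph L.toHomeomorph
  · intro τ x hx j
    rw [hcomp] at hx
    have h1 : tsupport ((Ψ (fun i => τ (e i))) ∘ L) = L ⁻¹' tsupport (Ψ (fun i => τ (e i))) :=
      tsupport_comp_eq_preimage _ L.toHomeomorph
    rw [h1] at hx
    have h2 := hΨ.support _ hx (e.symm j)
    rw [hL] at h2
    simpa using h2
  · intro τ hτ j
    have h1 : Ψ (fun i => τ (e i)) ≠ 0 := by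
      intro h0
      apply hτ
      rw [hcomp, h0]
      rfl
    have h2 := hΨ.spin _ h1 (e.symm j)
    have h3 : sp' j = sp (e.symm j) := by
      rw [← h (e.symm j)]; simp
    rw [h3]
    simpa using h2
  · intro i j hij hsp τ x
    have h3 : ∀ j, sp' j = sp (e.symm j) := by
      intro j
      rw [← h (e.symm j)]; simp
    have h4 := hΨ.symm (e.symm i) (e.symm j) (fun h5 => hij (e.symm.injective h5))
      (by rw [← h3, ← h3]; exact hsp) (fun i => τ (e i)) (fun i => x (e i))
    rw [h3]
    show Ψ (fun k => τ (Equiv.swap i j (e k))) (fun k => x (Equiv.swap i j (e k))) = _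
    simp only [key]
    exact h4

end Run7.h213.P
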