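import Pool.Agent.Helper985.CP.M_slice_basic
import Pool.Agent.Run7.h213.P.CM_int_state
import Pool.Agent.Run7.h213.P.CM_slice_state
import Pool.Agent.Run7.h213.P.CDefs
import Pool.Agent.Run7.h213.P.CBase

set_option autoImplicit false

open MeasureTheory
open scoped Topology

namespace Run7.h213.P

open Pool.Agent.Helper985.CP hiding IsState cube energy int_state kin pe slice_basic slice_state

variable [Env]


theorem slice_basic {S : Type} (D : Species S) {I : Type} [Fintype I] [DecidableEq I]
    (sp : Option I → S) (ℓ : ℝ) (Φ : Wave D (Option I)) (hΦ : IsState D sp ℓ Φ) :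
    ((∀ σ, Integrable (fun z => nrm2 D (slice D σ z Φ))) ∧
      ∑ σ, ∫ z, nrm2 D (slice D σ z Φ) = nrm2 D Φ) ∧
    (∀ u : E3 → ℝ, Continuous u →
      (∀ σ, Integrable (fun z => mean D (fun i => sp (some i)) (slice D σ z Φ) u)) ∧
      ∑ σ, ∫ z, mean D (fun i => sp (some i)) (slice D σ z Φ) u = mean D sp Φ u -
        ∑ τ, ∫ x, D.charge (sp none) * u (x none) * ‖Φ τ x‖ ^ 2) := by
  constructor
  · exact sb_sum (fun τ' x' => ‖Φ τ' x'‖ ^ 2) (fun τ' => (int_state D sp ℓ Φ hΦ τ').1)
  · intro u hu
    have hA : ∀ τ', Integrable (fun x : Option I → E3 =>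
        (∑ i, D.charge (sp i) * u (x i)) * ‖Φ τ' x‖ ^ 2) :=
      fun τ' => (int_state D sp ℓ Φ hΦ τ').2.2.2.2 u hu
    have hB : ∀ τ', Integrable (fun x : Option I → E3 =>
        D.charge (sp none) * u (x none) * ‖Φ τ' x‖ ^ 2) := by
      intro τ'
      have hc : Continuous (Φ τ') := (hΦ.smooth τ').continuous
      apply Continuous.integrable_of_hasCompactSupport
      · have h1 : Continuous (fun x : Option I → E3 => u (x none)) :=
          hu.comp (continuous_apply none)
        exact (continuous_const.mul h1).mul (hc.norm.pow 2)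
      · refine (hΦ.compact τ').mono ?_
        intro x hx
        rw [Function.mem_support] at hx ⊢
        intro h0
        apply hx
        rw [h0, norm_zero]
        ring
    have hC : ∀ τ', (fun x : Option I → E3 =>
        (∑ i : I, D.charge (sp (some i)) * u (x (some i))) * ‖Φ τ' x‖ ^ 2) =
        fun x => (∑ i, D.charge (sp i) * u (x i)) * ‖Φ τ' x‖ ^ 2 -
          D.charge (sp none) * u (x none) * ‖Φ τ' x‖ ^ 2 := by
      intro τ'
      funext x
      rw [Fintype.sum_option]
      ring
    have hF : ∀ τ', Integrable (fun x : Option I → E3 =>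
        (∑ i : I, D.charge (sp (some i)) * u (x (some i))) * ‖Φ τ' x‖ ^ 2) := by
      intro τ'
      rw [hC τ']
      exact (hA τ').sub (hB τ')
    obtain ⟨h1, h2⟩ := sb_sum (fun (τ' : Option I → Fin D.g) (x' : Option I → E3) =>
      (∑ i : I, D.charge (sp (some i)) * u (x' (some i))) * ‖Φ τ' x'‖ ^ 2) hF
    refine ⟨h1, ?_⟩
    have h3 : ∑ σ, ∫ z, mean D (fun i => sp (some i)) (slice D σ z Φ) u =
        ∑ τ', ∫ x' : Option I → E3,
          (∑ i : I, D.charge (sp (some i)) * u (x' (some i))) * ‖Φ τ' x'‖ ^ 2 := h2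
    rw [h3]
    unfold mean
    rw [← Finset.sum_sub_distrib]
    refine Finset.sum_congr rfl (fun τ' _ => ?_)
    rw [← integral_sub (hA τ') (hB τ'), ← hC τ']

end Run7.h213.P
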