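import Pool.Agent.Helper985.CP.M_slice_energy
import Pool.Agent.Run7.h213.P.CM_int_state
import Pool.Agent.Run7.h213.P.CM_slice_state
import Pool.Agent.Run7.h213.P.CDefs
import Pool.Agent.Run7.h213.P.CBase

set_option autoImplicit false

open MeasureTheory
open scoped Topology

namespace Run7.h213.P

open Pool.Agent.Helper985.CP hiding IsState cube energy int_state kin pe slice_energy slice_state

variable [Env]


theorem slice_energy {S : Type} (D : Species S) {I : Type} [Fintype I] [DecidableEq I]
    (sp : Option I → S) (ℓ : ℝ) (Φ : Wave D (Option I)) (hΦ : IsState D sp ℓ Φ) :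
    (∀ σ, Integrable (fun z => energy D (fun i => sp (some i)) (slice D σ z Φ))) ∧
      ∑ σ, ∫ z, energy D (fun i => sp (some i)) (slice D σ z Φ) =
        energy D sp Φ - pe D sp none Φ := by
  -- the density
  set G : (Option I → Fin D.g) → (Option I → E3) → ℝ := fun T X =>
    (∑ i : I, kin D sp (some i) (Φ T) X) +
      coul D (fun i => sp (some i)) (fun i => X (some i)) * ‖Φ T X‖ ^ 2 with hG
  set A : (Option I → Fin D.g) → (Option I → E3) → ℝ := fun T X =>
    (∑ i, kin D sp i (Φ T) X) + coul D sp X * ‖Φ T X‖ ^ 2 with hA
  set B : (Option I → Fin D.g) → (Option I → E3) → ℝ := fun T X =>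
    kin D sp none (Φ T) X +
    (∑ j, if none = j then 0 else D.charge (sp none) * D.charge (sp j) / ‖X none - X j‖) *
      ‖Φ T X‖ ^ 2 with hB
  have hpt : ∀ T X, G T X = A T X - B T X := by
    intro T X
    have e1 : coul D sp X = coul D (fun i => sp (some i)) (fun i => X (some i)) +
        (∑ j, if none = j then 0 else D.charge (sp none) * D.charge (sp j) / ‖X none - X j‖) := by
      unfold coul
      simp only [Fintype.sum_option, Option.some_inj, if_true, reduceCtorEq, if_false, zero_add]
      rw [Finset.sum_add_distrib]
      have e2 : ∑ x : I, D.charge (sp (some x)) * D.charge (sp none) / ‖X (some x) - X none‖ =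
          ∑ x : I, D.charge (sp none) * D.charge (sp (some x)) / ‖X none - X (some x)‖ := by
        refine Finset.sum_congr rfl fun i _ => ?_
        rw [norm_sub_rev, mul_comm (D.charge (sp (some i)))]
      rw [e2]
      ring
    rw [hG, hA, hB]
    simp only
    rw [e1, Fintype.sum_option]
    ring
  have hAint : ∀ T, Integrable (A T) := by
    intro T
    obtain ⟨-, hk, hc, -, -⟩ := int_state D sp ℓ Φ hΦ T
    rw [hA]
    exact (integrable_finsetSum _ fun i _ => hk i).add hc
  have hBint : ∀ T, Integrable (B T) := by
    intro T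
    obtain ⟨-, hk, -, hp, -⟩ := int_state D sp ℓ Φ hΦ T
    rw [hB]
    refine (hk none).add ?_
    have e3 : (fun X : Option I → E3 =>
        (∑ j, if none = j then 0 else D.charge (sp none) * D.charge (sp j) / ‖X none - X j‖) *
          ‖Φ T X‖ ^ 2) = fun X => ∑ j : I, D.charge (sp none) * D.charge (sp (some j)) /
            ‖X none - X (some j)‖ * ‖Φ T X‖ ^ 2 := by
      funext X
      rw [Fintype.sum_option, if_pos rfl, zero_add, Finset.sum_mul]
      refine Finset.sum_congr rfl fun j _ => ?_
      rw [if_neg (by simp)]
    rw [e3]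
    exact integrable_finsetSum _ fun j _ => hp none (some j) (by simp)
  have hGint : ∀ T, Integrable (G T) := by
    intro T
    have : G T = fun X => A T X - B T X := funext (hpt T)
    rw [this]
    exact (hAint T).sub (hBint T)
  -- the energy of a slice
  have hen : ∀ (σ : Fin D.g) (z : E3), energy D (fun i => sp (some i)) (slice D σ z Φ) =
      ∑ τ : I → Fin D.g, ∫ x, G (slice_energy_ins σ τ) (slice_energy_ins z x) := by
    intro σ z
    unfold energy
    refine Finset.sum_congr rfl fun τ _ => ?_
    congr 1
    funext x
    rw [hG]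
    simp only
    congr 1
    refine Finset.sum_congr rfl fun i _ => ?_
    unfold kin
    refine congrArg₂ (· + ·) ?_ rfl
    unfold Pool.Agent.Helper985.CP.kin
    congr 1
    refine Finset.sum_congr rfl fun k _ => ?_
    have hdiff : Differentiable ℝ (Φ (slice_energy_ins σ τ)) :=
      (hΦ.smooth _).differentiable (by simp)
    have := slice_energy_fderiv (Φ (slice_energy_ins σ τ)) hdiff z x i
      (EuclideanSpace.single k (1 : ℝ))
    rw [← this]
    rfl
  constructor
  · intro σ
    simp only [hen]
    exact integrable_finsetSum _ fun τ _ => (slice_energy_fub _ (hGint _)).1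
  · have h1 : ∀ σ : Fin D.g, ∫ z, energy D (fun i => sp (some i)) (slice D σ z Φ) =
        ∑ τ : I → Fin D.g, ∫ X, G (slice_energy_ins σ τ) X := by
      intro σ
      simp only [hen]
      rw [integral_finsetSum _ fun τ _ => (slice_energy_fub _ (hGint _)).1]
      exact Finset.sum_congr rfl fun τ _ => (slice_energy_fub _ (hGint _)).2
    simp only [h1]
    have h2 : ∑ σ : Fin D.g, ∑ τ : I → Fin D.g, ∫ X, G (slice_energy_ins σ τ) X =
        ∑ T : Option I → Fin D.g, ∫ X, G T X := by
      rw [← Fintype.sum_prod_type' (f := fun (σ : Fin D.g) (τ : I → Fin D.g) =>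
        ∫ X, G (slice_energy_ins σ τ) X)]
      refine Fintype.sum_equiv (Equiv.piOptionEquivProd (β := fun _ : Option I => Fin D.g)).symm _ _ ?_
      rintro ⟨σ, τ⟩
      have : slice_energy_ins σ τ =
          (Equiv.piOptionEquivProd (β := fun _ : Option I => Fin D.g)).symm (σ, τ) := by
        funext o
        cases o <;> rfl
      rw [← this]
    rw [h2]
    unfold energy pe
    rw [← Finset.sum_sub_distrib]
    refine Finset.sum_congr rfl fun T _ => ?_
    rw [← integral_sub (hAint T) (hBint T)]
    exact integral_congr_ae (Filter.Eventually.of_forall fun X => hpt T X)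

end Run7.h213.P
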