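import Pool.Agent.Helper985.CP.M_remove_none
import Pool.Agent.Run7.h213.P.CM_int_state
import Pool.Agent.Run7.h213.P.CM_slice_basic
import Pool.Agent.Run7.h213.P.CM_slice_energy
import Pool.Agent.Run7.h213.P.CM_slice_state
import Pool.Agent.Run7.h213.P.CDefs
import Pool.Agent.Run7.h213.P.CBase

set_option autoImplicit false

open MeasureTheory
open scoped Topology

namespace Run7.h213.P

open Pool.Agent.Helper985.CP hiding IsState cube energy int_state kin pe remove_none_aux slice_basic slice_energy slice_state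

variable [Env]


-- auxiliary
theorem remove_none_aux {S : Type} (D : Species S) {I : Type} [Fintype I] [DecidableEq I]
    (sp : Option I → S) (ℓ : ℝ) (E : ℝ)
    (hE : ∀ Φ : Wave D I, IsState D (fun i => sp (some i)) ℓ Φ →
      E * nrm2 D Φ ≤ energy D (fun i => sp (some i)) Φ)
    (Ψ : Wave D (Option I)) (hΨ : IsState D sp ℓ Ψ) :
    E * nrm2 D Ψ ≤ energy D sp Ψ - pe D sp none Ψ := by
  obtain ⟨⟨i1, e1⟩, -⟩ := slice_basic D sp ℓ Ψ hΨ
  obtain ⟨i2, e2⟩ := slice_energy D sp ℓ Ψ hΨ
  rw [← e1, ← e2, Finset.mul_sum]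
  apply Finset.sum_le_sum
  intro σ _
  rw [← integral_const_mul]
  apply integral_mono ((i1 σ).const_mul E) (i2 σ)
  intro z
  exact hE _ (slice_state D sp ℓ Ψ hΨ σ z)


end Run7.h213.P
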