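import Pool.Agent.Helper985.CP.M_stable_any
import Pool.Agent.Run7.h213.P.CM_relabel_num
import Pool.Agent.Run7.h213.P.CM_relabel_state
import Pool.Agent.Run7.h213.P.CDefs
import Pool.Agent.Run7.h213.P.CBase
import Pool.Agent.Run7.h213.P.CBridge

set_option autoImplicit false

open MeasureTheory
open scoped Topology

namespace Run7.h213.P

open Pool.Agent.Helper985.CP hiding IsState cube energy kin pe relabel_num relabel_state relaux_kin stable_any

variable [Env]


theorem stable_any {S : Type} [Fintype S] [DecidableEq S] (D : Species S) (A : ℝ)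
    (hA : ∀ ℓ : ℝ, 0 < ℓ → ∀ (n : S → ℕ) (Ψ : Wave D (Σ s, Fin (n s))),
      Pool.Agent.Helper985.CP.IsState D (fun i : (Σ s, Fin (n s)) => i.1) ℓ Ψ →
        -A * (∑ s, (n s : ℝ)) * nrm2 D Ψ ≤
          Pool.Agent.Helper985.CP.energy D (fun i : (Σ s, Fin (n s)) => i.1) Ψ)
    {I : Type} [Fintype I] [DecidableEq I] (sp : I → S) (ℓ : ℝ) (hℓ : 0 < ℓ) (Ψ : Wave D I)
    (hΨ : IsState D sp ℓ Ψ) :
    -A * (Fintype.card I : ℝ) * nrm2 D Ψ ≤ energy D sp Ψ := by
  have hAl : 0 < Env.A * ℓ := mul_pos (lt_of_lt_of_le one_pos Env.A_ge) hℓ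
  have h := Pool.Agent.Helper985.CP.stable_any D A hA sp (Env.A * ℓ) hAl _
    (br_state D sp ℓ Ψ hΨ)
  rw [tr_nrm2] at h
  have h2 := tr_energy D sp (hv ℓ) Ψ
  have h3 := energy_ge D sp ℓ Ψ hΨ
  unfold energy0 at h2 h3
  rw [h2] at h
  exact h.trans h3

end Run7.h213.P
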