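import Pool.Agent.Helper780_CP.Split
import Pool.Agent.Run7.h213.P.CDefs
import Pool.Agent.Run7.h213.P.TDefs
import Pool.Agent.Run7.h213.P.CM_ims
import Pool.Agent.Run7.h213.P.CM_int_state
import Pool.Agent.Run7.h213.P.CBase

set_option autoImplicit false

open MeasureTheory
open scoped Topology

namespace Run7.h213.P.K

open Pool.Agent.Helper985.CP hiding IsState Ortho cube energy ims_state int_state kin kinE pe peierls
open Pool.Agent.Helper780_CP hiding WI WI_add WI_const WI_coul WI_near2 WI_one WI_pair WI_phi WI_smul WI_sum WI_zero qf qf_int qf_split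

variable [Env]


section

variable {S : Type} (D : Species S) {I : Type} [Fintype I] [DecidableEq I] (sp : I → S)

/-- general quadratic functional -/
noncomputable def qf (a : I → ℝ) (W : (I → E3) → ℝ) (Ψ : Wave D I) : ℝ :=
  ∑ τ, ∫ x, ((∑ i, a i * kin D sp i (Ψ τ) x) + W x * ‖Ψ τ x‖ ^ 2)

/-- weights which are integrable against all states -/
def WI (ℓ : ℝ) (W : (I → E3) → ℝ) : Prop :=
  ∀ Ψ : Wave D I, IsState D sp ℓ Ψ → ∀ τ, Integrable (fun x => W x * ‖Ψ τ x‖ ^ 2)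


end

section

variable {S : Type} (D : Species S) {I : Type} [Fintype I] [DecidableEq I] (sp : I → S)


theorem WI_add (ℓ : ℝ) {V W : (I → E3) → ℝ} (hV : WI D sp ℓ V) (hW : WI D sp ℓ W) :
    WI D sp ℓ (fun x => V x + W x) := by
  intro Ψ hΨ τ
  refine ((hV Ψ hΨ τ).add (hW Ψ hΨ τ)).congr (Filter.Eventually.of_forall fun x => ?_)
  simp only [Pi.add_apply]
  ring

theorem WI_smul (ℓ : ℝ) {V : (I → E3) → ℝ} (hV : WI D sp ℓ V) (c : ℝ) :
    WI D sp ℓ (fun x => c * V x) := by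
  intro Ψ hΨ τ
  refine ((hV Ψ hΨ τ).const_mul c).congr (Filter.Eventually.of_forall fun x => ?_)
  simp only
  ring

theorem WI_sum (ℓ : ℝ) {A : Type} (s : Finset A) (V : A → (I → E3) → ℝ)
    (hV : ∀ a ∈ s, WI D sp ℓ (V a)) : WI D sp ℓ (fun x => ∑ a ∈ s, V a x) := by
  intro Ψ hΨ τ
  refine (integrable_finsetSum s fun a ha => hV a ha Ψ hΨ τ).congr
    (Filter.Eventually.of_forall fun x => ?_)
  simp only
  rw [Finset.sum_mul]

theorem WI_zero (ℓ : ℝ) : WI D sp ℓ (fun _ => 0) := by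
  intro Ψ hΨ τ
  simp

theorem WI_const (ℓ : ℝ) (c : ℝ) : WI D sp ℓ (fun _ => c) := by
  intro Ψ hΨ τ
  exact (int_state D sp ℓ Ψ hΨ τ).1.const_mul c

theorem WI_coul (ℓ : ℝ) : WI D sp ℓ (coul D sp) := by
  intro Ψ hΨ τ
  exact (int_state D sp ℓ Ψ hΨ τ).2.2.1

theorem WI_one (ℓ : ℝ) (i : I) (w : E3 → ℝ) (hw : LocallyIntegrable w volume) :
    WI D sp ℓ (fun x => w (x i)) := by
  intro Ψ hΨ τ
  have hcs := hΨ.compact τ
  have hsq : Continuous (fun x => ‖Ψ τ x‖ ^ 2) := ((hΨ.smooth τ).continuous.norm).pow 2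
  have hsqc : HasCompactSupport (fun x => ‖Ψ τ x‖ ^ 2) :=
    hcs.comp_left (g := fun z : ℂ => ‖z‖ ^ 2) (by simp)
  exact int_one i w hw _ hsq hsqc

theorem WI_pair (ℓ : ℝ) (i : I) : WI D sp ℓ (fun x => ∑ j, if i = j then 0 else
    D.charge (sp i) * D.charge (sp j) / ‖x i - x j‖) := by
  apply WI_sum
  intro j _
  by_cases hij : i = j
  · simp only [if_pos hij]
    exact WI_zero D sp ℓ
  · simp only [if_neg hij]
    intro Ψ hΨ τ
    exact (int_state D sp ℓ Ψ hΨ τ).2.2.2.1 i j hij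

theorem WI_phi (ℓ : ℝ) (y : E3) : WI D sp ℓ (fun x => ∑ i, D.charge (sp i) * (1 / ‖x i - y‖)) := by
  apply WI_sum
  intro i _
  apply WI_smul
  have h := locInt_shift pot_props_locInt y
  have h2 := WI_one D sp ℓ i (fun z => ‖z - y‖⁻¹) h
  simpa only [one_div] using h2


theorem WI_near2 (ℓ : ℝ) (y : E3) : WI D sp ℓ (near2 y) := by
  intro Ψ hΨ τ
  have h1 : WI D sp ℓ (fun x : I → E3 => ∑ i, ‖x i - y‖⁻¹ ^ 2) := by
    apply WI_sum
    intro i _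
    exact WI_one D sp ℓ i (fun z => ‖z - y‖⁻¹ ^ 2) (locInt_shift locInt_inv2 y)
  have h2 := h1 Ψ hΨ τ
  refine h2.mono ?_ (Filter.Eventually.of_forall fun x => ?_)
  · exact (near2_meas y).aestronglyMeasurable.mul
      (((hΨ.smooth τ).continuous.norm).pow 2).aestronglyMeasurable
  · rw [Real.norm_of_nonneg (mul_nonneg (near2_nonneg y x) (sq_nonneg _)),
      Real.norm_of_nonneg (mul_nonneg (Finset.sum_nonneg fun i _ => by positivity) (sq_nonneg _))]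
    exact mul_le_mul_of_nonneg_right (near2_le y x) (sq_nonneg _)

theorem qf_int (ℓ : ℝ) (a : I → ℝ) {W : (I → E3) → ℝ} (hW : WI D sp ℓ W) (Ψ : Wave D I)
    (hΨ : IsState D sp ℓ Ψ) (τ : I → Fin D.g) :
    Integrable (fun x => (∑ i, a i * kin D sp i (Ψ τ) x) + W x * ‖Ψ τ x‖ ^ 2) := by
  obtain ⟨-, h2, -, -, -⟩ := int_state D sp ℓ Ψ hΨ τ
  exact (integrable_finsetSum Finset.univ fun i _ => (h2 i).const_mul (a i)).add (hW Ψ hΨ τ)

theorem qf_split (ℓ : ℝ) (a : I → ℝ) {W : (I → E3) → ℝ} (hW : WI D sp ℓ W) (Ψ : Wave D I)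
    (hΨ : IsState D sp ℓ Ψ) (θ : (I → E3) → ℝ) (hθ : ContDiff ℝ SM θ)
    (hs : ∀ i j x, θ (fun k => x (Equiv.swap i j k)) = θ x) :
    qf D sp a W (mulW D (fun x => Real.cos (θ x)) Ψ) +
      qf D sp a W (mulW D (fun x => Real.sin (θ x)) Ψ) = qf D sp a W Ψ +
      ∑ τ, ∫ x, (∑ i, a i * ((1 / (2 * D.mass (sp i))) * ∑ k : Fin 3,
        (fderiv ℝ θ x (Pi.single i (EuclideanSpace.single k (1 : ℝ)))) ^ 2)) *
          ‖Ψ τ x‖ ^ 2 := by
  have hcos : ContDiff ℝ SM (fun x => Real.cos (θ x)) := Real.contDiff_cos.comp hθ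
  have hsin : ContDiff ℝ SM (fun x => Real.sin (θ x)) := Real.contDiff_sin.comp hθ
  have hC : IsState D sp ℓ (mulW D (fun x => Real.cos (θ x)) Ψ) :=
    ims_state D sp ℓ Ψ hΨ _ hcos (fun i j x => by rw [hs])
  have hS : IsState D sp ℓ (mulW D (fun x => Real.sin (θ x)) Ψ) :=
    ims_state D sp ℓ Ψ hΨ _ hsin (fun i j x => by rw [hs])
  unfold qf
  rw [← Finset.sum_add_distrib, ← Finset.sum_add_distrib]
  refine Finset.sum_congr rfl fun τ _ => ?_
  have iC := qf_int D sp ℓ a hW _ hC τ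
  have iS := qf_int D sp ℓ a hW _ hS τ
  have iP := qf_int D sp ℓ a hW _ hΨ τ
  have hdθ : ∀ x, HasFDerivAt θ (fderiv ℝ θ x) x := fun x =>
    ((hθ.differentiable (by simp)) x).hasFDerivAt
  have hdΨ : ∀ x, DifferentiableAt ℝ (Ψ τ) x := fun x =>
    ((hΨ.smooth τ).differentiable (by simp)) x
  have hkin : ∀ i x, kin D sp i (mulW D (fun x => Real.cos (θ x)) Ψ τ) x +
      kin D sp i (mulW D (fun x => Real.sin (θ x)) Ψ τ) x =
      kin D sp i (Ψ τ) x + ((1 / (2 * D.mass (sp i))) * ∑ k : Fin 3,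
        (fderiv ℝ θ x (Pi.single i (EuclideanSpace.single k (1 : ℝ)))) ^ 2) * ‖Ψ τ x‖ ^ 2 := by
    intro i x
    have e0 : ‖mulW D (fun x => Real.cos (θ x)) Ψ τ x‖ ^ 2 +
      ‖mulW D (fun x => Real.sin (θ x)) Ψ τ x‖ ^ 2 = ‖Ψ τ x‖ ^ 2 := ims_alg0 (Ψ τ x) (θ x)
    have h0 : Pool.Agent.Helper985.CP.kin D sp i (mulW D (fun x => Real.cos (θ x)) Ψ τ) x +
      Pool.Agent.Helper985.CP.kin D sp i (mulW D (fun x => Real.sin (θ x)) Ψ τ) x =
      Pool.Agent.Helper985.CP.kin D sp i (Ψ τ) x +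
        ((1 / (2 * D.mass (sp i))) * ∑ k : Fin 3,
        (fderiv ℝ θ x (Pi.single i (EuclideanSpace.single k (1 : ℝ)))) ^ 2) * ‖Ψ τ x‖ ^ 2 := by
      unfold Pool.Agent.Helper985.CP.kin
      rw [← mul_add, mul_assoc, ← mul_add, ← Finset.sum_add_distrib, Finset.sum_mul,
        ← Finset.sum_add_distrib]
      congr 1
      refine Finset.sum_congr rfl fun k _ => ?_
      have e1 : mulW D (fun x => Real.cos (θ x)) Ψ τ =
        fun x => ((Real.cos (θ x) : ℝ) : ℂ) * Ψ τ x := rfl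
      have e2 : mulW D (fun x => Real.sin (θ x)) Ψ τ =
        fun x => ((Real.sin (θ x) : ℝ) : ℂ) * Ψ τ x := rfl
      rw [e1, e2, ims_deriv (fun x => Real.cos (θ x)) (Ψ τ) x _ _ (hdθ x).cos (hdΨ x),
        ims_deriv (fun x => Real.sin (θ x)) (Ψ τ) x _ _ (hdθ x).sin (hdΨ x)]
      simp only [_root_.smul_apply, smul_eq_mul]
      exact ims_alg _ _ _ _
    unfold kin
    linear_combination h0 + Env.U (x i) * e0
  have hpt : ∀ x, (∑ i, a i * ((1 / (2 * D.mass (sp i))) * ∑ k : Fin 3,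
      (fderiv ℝ θ x (Pi.single i (EuclideanSpace.single k (1 : ℝ)))) ^ 2)) * ‖Ψ τ x‖ ^ 2 =
      (((∑ i, a i * kin D sp i (mulW D (fun x => Real.cos (θ x)) Ψ τ) x) +
        W x * ‖mulW D (fun x => Real.cos (θ x)) Ψ τ x‖ ^ 2) +
      ((∑ i, a i * kin D sp i (mulW D (fun x => Real.sin (θ x)) Ψ τ) x) +
        W x * ‖mulW D (fun x => Real.sin (θ x)) Ψ τ x‖ ^ 2)) -
      ((∑ i, a i * kin D sp i (Ψ τ) x) + W x * ‖Ψ τ x‖ ^ 2) := by
    intro x
    have e1 : ‖mulW D (fun x => Real.cos (θ x)) Ψ τ x‖ ^ 2 +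
      ‖mulW D (fun x => Real.sin (θ x)) Ψ τ x‖ ^ 2 = ‖Ψ τ x‖ ^ 2 := ims_alg0 (Ψ τ x) (θ x)
    have e2 : (∑ i, a i * kin D sp i (mulW D (fun x => Real.cos (θ x)) Ψ τ) x) +
        (∑ i, a i * kin D sp i (mulW D (fun x => Real.sin (θ x)) Ψ τ) x) =
        (∑ i, a i * kin D sp i (Ψ τ) x) + (∑ i, a i * ((1 / (2 * D.mass (sp i))) *
          ∑ k : Fin 3, (fderiv ℝ θ x (Pi.single i (EuclideanSpace.single k (1 : ℝ)))) ^ 2)) *
            ‖Ψ τ x‖ ^ 2 := by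
      rw [Finset.sum_mul, ← Finset.sum_add_distrib, ← Finset.sum_add_distrib]
      refine Finset.sum_congr rfl fun i _ => ?_
      rw [← mul_add, hkin i x]
      ring
    linear_combination -e2 - W x * e1
  have e3 : ∫ x, (∑ i, a i * ((1 / (2 * D.mass (sp i))) * ∑ k : Fin 3,
      (fderiv ℝ θ x (Pi.single i (EuclideanSpace.single k (1 : ℝ)))) ^ 2)) * ‖Ψ τ x‖ ^ 2 =
      ((∫ x, ((∑ i, a i * kin D sp i (mulW D (fun x => Real.cos (θ x)) Ψ τ) x) +
        W x * ‖mulW D (fun x => Real.cos (θ x)) Ψ τ x‖ ^ 2)) +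
      (∫ x, ((∑ i, a i * kin D sp i (mulW D (fun x => Real.sin (θ x)) Ψ τ) x) +
        W x * ‖mulW D (fun x => Real.sin (θ x)) Ψ τ x‖ ^ 2))) -
      ∫ x, ((∑ i, a i * kin D sp i (Ψ τ) x) + W x * ‖Ψ τ x‖ ^ 2) := by
    rw [integral_congr_ae (Filter.Eventually.of_forall hpt)]
    have a1 := integral_sub (iC.add iS) iP
    have a2 := integral_add iC iS
    exact a1.trans (congrArg₂ (fun y z : ℝ => y - z) a2 rfl)
  rw [e3]
  ring

end

end Run7.h213.P.K
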