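import Pool.Agent.Helper780_CP.Scales
import Pool.Agent.Run7.h213.P.KSplit
import Pool.Agent.Run7.h213.P.CBase
import Pool.Agent.Run7.h213.P.CDefs

set_option autoImplicit false

open MeasureTheory
open scoped Topology

namespace Run7.h213.P.K

open Pool.Agent.Helper985.CP hiding IsState Ortho cube energy ims_state int_state kin kinE pe peierls
open Pool.Agent.Helper780_CP hiding WI WI_add WI_const WI_coul WI_near2 WI_one WI_pair WI_phi WI_smul WI_sum WI_zero ms_qf mulW_state qf qf_int qf_split wm_add wm_mono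

variable [Env]


section

variable {I : Type} [Fintype I] [DecidableEq I]


end

section

variable {S : Type} (D : Species S) {I : Type} [Fintype I] [DecidableEq I] (sp : I → S)

theorem mulW_state (ℓ : ℝ) (Ψ : Wave D I) (hΨ : IsState D sp ℓ Ψ) (f : (I → E3) → ℝ)
    (hf : ContDiff ℝ SM f) (hs : ∀ i j x, f (fun k => x (Equiv.swap i j k)) = f x) :
    IsState D sp ℓ (mulW D f Ψ) := ims_state D sp ℓ Ψ hΨ f hf hs


theorem ms_qf (ℓ : ℝ) (a : I → ℝ) {W : (I → E3) → ℝ} (hW : WI D sp ℓ W) (Ψ : Wave D I)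
    (hΨ : IsState D sp ℓ Ψ) (θ : ℕ → (I → E3) → ℝ) (hθ : ∀ k, ContDiff ℝ SM (θ k))
    (hs : ∀ k i j x, θ k (fun l => x (Equiv.swap i j l)) = θ k x) (K : ℕ) :
    ∑ k ∈ Finset.range K, qf D sp a W (mulW D (gS θ k) Ψ) + qf D sp a W (mulW D (hS θ K) Ψ) =
      qf D sp a W Ψ + ∑ k ∈ Finset.range K, ∑ τ, ∫ x, (∑ i, a i *
        ((1 / (2 * D.mass (sp i))) * ∑ l : Fin 3,
        (fderiv ℝ (θ k) x (Pi.single i (EuclideanSpace.single l (1 : ℝ)))) ^ 2)) *
          ‖mulW D (hS θ k) Ψ τ x‖ ^ 2 := by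
  induction K with
  | zero =>
    have : mulW D (hS θ 0) Ψ = Ψ := by
      funext τ x
      simp [mulW, hS]
    rw [this]
    simp
  | succ K ih =>
    rw [Finset.sum_range_succ, Finset.sum_range_succ]
    have h1 := qf_split D sp ℓ a hW (mulW D (hS θ K) Ψ)
      (mulW_state D sp ℓ Ψ hΨ _ (hS_smooth θ hθ K) (hS_symm θ hs K)) (θ K) (hθ K) (hs K)
    have e1 : mulW D (fun x => Real.cos (θ K x)) (mulW D (hS θ K) Ψ) = mulW D (gS θ K) Ψ := by
      rw [mulW_mulW]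
      rfl
    have e2 : mulW D (fun x => Real.sin (θ K x)) (mulW D (hS θ K) Ψ) =
        mulW D (hS θ (K + 1)) Ψ := by
      rw [mulW_mulW]
      congr 1
      funext x
      rw [hS_succ]
    rw [e1, e2] at h1
    linarith


theorem wm_mono (ℓ : ℝ) {V W : (I → E3) → ℝ} (hV : WI D sp ℓ V) (hW : WI D sp ℓ W)
    (Ψ : Wave D I) (hΨ : IsState D sp ℓ Ψ) (h : ∀ᵐ x, V x ≤ W x) : wm D V Ψ ≤ wm D W Ψ := by
  unfold wm
  refine Finset.sum_le_sum fun τ _ => ?_
  refine integral_mono_ae (hV Ψ hΨ τ) (hW Ψ hΨ τ) ?_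
  filter_upwards [h] with x hx
  exact mul_le_mul_of_nonneg_right hx (sq_nonneg _)

theorem wm_add (ℓ : ℝ) {V W : (I → E3) → ℝ} (hV : WI D sp ℓ V) (hW : WI D sp ℓ W)
    (Ψ : Wave D I) (hΨ : IsState D sp ℓ Ψ) :
    wm D (fun x => V x + W x) Ψ = wm D V Ψ + wm D W Ψ := by
  unfold wm
  rw [← Finset.sum_add_distrib]
  refine Finset.sum_congr rfl fun τ _ => ?_
  rw [← integral_add (hV Ψ hΨ τ) (hW Ψ hΨ τ)]
  refine integral_congr_ae (Filter.Eventually.of_forall fun x => ?_)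
  simp only
  ring


end

end Run7.h213.P.K
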