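import Pool.Agent.Helper985.CT.M_psl_deriv
import Pool.Agent.Run7.h213.P.TDefs
import Pool.Agent.Run7.h213.P.CBase

set_option autoImplicit false

open MeasureTheory
open scoped Topology

namespace Run7.h213.P

open Pool.Agent.Helper985.CP hiding IsState Ortho cube energy kin kinE pe peierls psl_deriv

variable [Env]


/-- partial integrals are smooth, with compact support -/
theorem psl_deriv {I : Type} [Fintype I] [DecidableEq I] (ℓ : ℝ)
    (F : (Option I → E3) → ℂ) (hF : ContDiff ℝ SM F) (hc : HasCompactSupport F)
    (hs : tsupport F ⊆ {x | ∀ o, x o ∈ cube ℓ}) (u : E3 → ℂ) (hu : Continuous u) :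
    ContDiff ℝ SM (fun x : I → E3 => ∫ z, (starRingEnd ℂ) (u z) * F (fun o => o.elim z x)) ∧
    HasCompactSupport (fun x : I → E3 => ∫ z, (starRingEnd ℂ) (u z) * F (fun o => o.elim z x)) ∧
    tsupport (fun x : I → E3 => ∫ z, (starRingEnd ℂ) (u z) * F (fun o => o.elim z x)) ⊆
      {x | ∀ i, x i ∈ cube ℓ} ∧
    ∀ (x : I → E3) (j : I) (v : E3),
      fderiv ℝ (fun x : I → E3 => ∫ z, (starRingEnd ℂ) (u z) * F (fun o => o.elim z x)) x
        (Pi.single j v) =
      ∫ z, (starRingEnd ℂ) (u z) * fderiv ℝ F (fun o => o.elim z x) (Pi.single (some j) v) := by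
  set f : E3 → ℂ := fun z => (starRingEnd ℂ) (u z) with hf
  have hfc : Continuous f := Complex.continuous_conj.comp hu
  have hfl : LocallyIntegrable f volume := hfc.locallyIntegrable
  set g : (I → E3) → E3 → ℂ := fun p y => F (pslA I (p, y)) with hg
  have hgu : (↿g : (I → E3) × E3 → ℂ) = F ∘ pslA I := by
    funext q
    rfl
  have hgs : ContDiff ℝ SM (↿g : (I → E3) × E3 → ℂ) := by
    rw [hgu]
    exact hF.comp (pslA I).contDiff
  set k : Set E3 := (fun y : Option I → E3 => -(y none)) '' tsupport F with hk
  have hkc : IsCompact k := hc.image (by fun_prop)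
  have hg0 : ∀ p, ∀ x, p ∈ (Set.univ : Set (I → E3)) → x ∉ k → g p x = 0 := by
    intro p x _ hx
    by_contra hne
    apply hx
    refine ⟨pslA I (p, x), subset_tsupport F hne, ?_⟩
    rw [pslA_apply]
    simp
  have hh : (fun x : I → E3 => ∫ z, (starRingEnd ℂ) (u z) * F (fun o : Option I => o.elim z x))
      = (fun q : (I → E3) × E3 => convolution f (g q.1) (ContinuousLinearMap.mul ℝ ℂ) volume q.2) ∘
        (fun x => (x, (0:E3))) := by
    funext x
    exact psl_conv F u x
  set K1 : Set (I → E3) := (fun (y : Option I → E3) (i : I) => y (some i)) '' tsupport F with hK1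
  have hK1c : IsCompact K1 := hc.image (by fun_prop)
  have hzero : ∀ x ∉ K1, ∫ z, (starRingEnd ℂ) (u z) * F (fun o : Option I => o.elim z x) = 0 := by
    intro x hx
    have : ∀ z, (starRingEnd ℂ) (u z) * F (fun o : Option I => o.elim z x) = 0 := by
      intro z
      have : F (fun o : Option I => o.elim z x) = 0 := by
        by_contra hne
        exact hx ⟨_, subset_tsupport F hne, rfl⟩
      rw [this, mul_zero]
    simp [this]
  refine ⟨?_, ?_, ?_, ?_⟩
  · rw [hh]
    have h1 := contDiffOn_convolution_right_with_param (n := ⊤) (ContinuousLinearMap.mul ℝ ℂ)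
      isOpen_univ hkc hg0 hfl (hgs.contDiffOn (s := Set.univ ×ˢ Set.univ))
    rw [Set.univ_prod_univ, contDiffOn_univ] at h1
    exact h1.comp (by fun_prop)
  · exact HasCompactSupport.intro hK1c hzero
  · refine (closure_minimal ?_ hK1c.isClosed).trans ?_
    · intro x hx
      by_contra hcon
      exact hx (hzero x hcon)
    · rintro _ ⟨y, hy, rfl⟩ i
      exact hs hy (some i)
  · intro x j v
    have h1 := hasFDerivAt_convolution_right_with_param (ContinuousLinearMap.mul ℝ ℂ)
      isOpen_univ hkc hg0 hfl ((hgs.of_le (by simp)).contDiffOn (s := Set.univ ×ˢ Set.univ)) (x, (0:E3)) (Set.mem_univ _)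
    have h2 : HasFDerivAt (fun x : I → E3 => (x, (0:E3))) (ContinuousLinearMap.inl ℝ (I → E3) E3) x :=
      hasFDerivAt_prodMk_left x 0
    have h3 := h1.comp x h2
    have hfd : ∀ q : (I → E3) × E3, fderiv ℝ (↿g : (I → E3) × E3 → ℂ) q = (fderiv ℝ F (pslA I q)).comp (pslA I) := by
      intro q
      rw [hgu, fderiv_comp q (hF.differentiable (by simp) _) (pslA I).differentiableAt, (pslA I).fderiv]
    rw [hh, h3.fderiv]
    rw [ContinuousLinearMap.comp_apply, ContinuousLinearMap.inl_apply, convolution_def]
    rw [ContinuousLinearMap.integral_apply]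
    · refine integral_congr_ae (Filter.Eventually.of_forall fun z => ?_)
      simp only [hf]
      rw [ContinuousLinearMap.precompR_apply, ContinuousLinearMap.compL_apply, ContinuousLinearMap.comp_apply,
        ContinuousLinearMap.mul_apply', hfd, ContinuousLinearMap.comp_apply,
        zero_sub, pslA_apply, pslA_apply, neg_neg, neg_zero]
      congr 2
      funext o
      cases o with
      | none => simp
      | some i =>
        by_cases hij : i = j
        · subst hij; simp
        · simp [hij]
    · refine Continuous.integrable_of_hasCompactSupport ?_ ?_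
      · have hc1 : Continuous (fderiv ℝ (↿g : (I → E3) × E3 → ℂ)) := hgs.continuous_fderiv (by simp)
        have hc2 : Continuous fun t : E3 => fderiv ℝ (↿g : (I → E3) × E3 → ℂ) (x, 0 - t) :=
          hc1.comp (by fun_prop)
        exact (((ContinuousLinearMap.mul ℝ ℂ).precompR ((I → E3) × E3)).continuous.comp hfc).clm_apply hc2
      · refine HasCompactSupport.intro (K := (fun y : Option I → E3 => y none) '' tsupport F)
          (hc.image (by fun_prop)) ?_
        intro t ht
        have hz : fderiv ℝ F (pslA I (x, 0 - t)) = 0 := by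
          refine fderiv_of_notMem_tsupport ℝ ?_
          intro hmem
          refine ht ⟨_, hmem, ?_⟩
          rw [pslA_apply]
          simp
        show ((ContinuousLinearMap.mul ℝ ℂ).precompR ((I → E3) × E3)) (f t)
          (fderiv ℝ (↿g : (I → E3) × E3 → ℂ) (x, 0 - t)) = 0
        rw [hfd, hz]
        simp

end Run7.h213.P
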