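import Pool.Agent.Helper985.CT.M_psl_state
import Pool.Agent.Run7.h213.P.TM_psl_deriv
import Pool.Agent.Run7.h213.P.TDefs
import Pool.Agent.Run7.h213.P.CBase

set_option autoImplicit false

open MeasureTheory
open scoped Topology

namespace Run7.h213.P

open Pool.Agent.Helper985.CP hiding IsState Ortho cube energy kin kinE pe peierls psl_deriv psl_state

variable [Env]


theorem psl_state {S : Type} (D : Species S) {I : Type} [Fintype I] [DecidableEq I]
    (sp : Option I → S) (ℓ : ℝ) (Φ : Wave D (Option I)) (hΦ : IsState D sp ℓ Φ) (u : E3 → ℂ)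
    (hu : Continuous u) (σ : Fin D.g) : IsState D (fun i => sp (some i)) ℓ (psl D u σ Φ) := by
  have key := fun τ : I → Fin D.g => psl_deriv ℓ (Φ (fun o => o.elim σ τ)) (hΦ.smooth _) (hΦ.compact _)
    (hΦ.support _) u hu
  refine ⟨fun τ => (key τ).1, fun τ => (key τ).2.1, fun τ => (key τ).2.2.1, ?_, ?_⟩
  · intro τ hτ i
    have h1 : Φ (fun o => o.elim σ τ) ≠ 0 := by
      intro h0
      apply hτ
      funext x
      show ∫ z, (starRingEnd ℂ) (u z) * Φ (fun o => o.elim σ τ) (fun o => o.elim z x) = 0
      rw [h0]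
      simp
    exact hΦ.spin _ h1 (some i)
  · intro i j hij hs τ x
    show ∫ z, (starRingEnd ℂ) (u z) * Φ (fun o => o.elim σ (fun k => τ (Equiv.swap i j k)))
        (fun o => o.elim z (fun k => x (Equiv.swap i j k))) =
      exch D (sp (some i)) * ∫ z, (starRingEnd ℂ) (u z) * Φ (fun o => o.elim σ τ) (fun o => o.elim z x)
    rw [← integral_const_mul]
    congr 1
    ext z
    rw [h290_swap_some i j σ τ, h290_swap_some i j z x]
    have hsym := hΦ.symm (some i) (some j) (by simpa using hij) hs (fun o => o.elim σ τ)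
      (fun o => o.elim z x)
    rw [hsym]
    ring

end Run7.h213.P
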