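import Pool.Agent.Helper985.CT.M_psl_weight
import Pool.Agent.Run7.h213.P.TM_pw_parseval
import Pool.Agent.Run7.h213.P.TDefs
import Pool.Agent.Run7.h213.P.CBase
import Pool.Agent.Run7.h213.P.CDefs

set_option autoImplicit false

open MeasureTheory
open scoped Topology

namespace Run7.h213.P

open Pool.Agent.Helper985.CP hiding IsState Ortho cube energy kin kinE pe peierls psl_slice psl_weight pw_parseval pwaux_parseval

variable [Env]


theorem psl_slice {I : Type} [Fintype I] [DecidableEq I] (ℓ : ℝ)
    (F : (Option I → E3) → ℂ) (hF : ContDiff ℝ SM F) (hc : HasCompactSupport F)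
    (hs : tsupport F ⊆ {x | x none ∈ obox ℓ}) (x : I → E3) :
    ContDiff ℝ SM (fun z : E3 => F (fun o => o.elim z x)) ∧
    HasCompactSupport (fun z : E3 => F (fun o => o.elim z x)) ∧
    tsupport (fun z : E3 => F (fun o => o.elim z x)) ⊆ obox ℓ ∧
    ∀ z v : E3, fderiv ℝ (fun z : E3 => F (fun o => o.elim z x)) z v =
      fderiv ℝ F (fun o => o.elim z x) (Pi.single none v) := by
  have hιc : Continuous (fun z : E3 => (fun o : Option I => o.elim z x)) :=
    psl_cont.comp (continuous_const.prodMk continuous_id)
  have hι : ContDiff ℝ SM (fun z : E3 => (fun o : Option I => o.elim z x)) := by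
    refine contDiff_pi.2 fun o => ?_
    cases o with
    | none => exact contDiff_id
    | some i => exact contDiff_const
  refine ⟨hF.comp hι, ?_, ?_, ?_⟩
  · refine HasCompactSupport.intro (K := (fun y : Option I → E3 => y none) '' tsupport F)
      (hc.isCompact.image (continuous_apply none)) ?_
    intro z hz
    by_contra hne
    exact hz ⟨fun o => o.elim z x, subset_tsupport F hne, rfl⟩
  · have h1 : tsupport (fun z : E3 => F (fun o => o.elim z x)) ⊆
        (fun z : E3 => (fun o : Option I => o.elim z x)) ⁻¹' tsupport F := by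
      refine closure_minimal ?_ ((isClosed_tsupport F).preimage hιc)
      intro z hz
      exact subset_tsupport F hz
    intro z hz
    exact hs (h1 hz)
  · intro z v
    have hd : HasFDerivAt (fun z : E3 => (fun o : Option I => o.elim z x))
        (ContinuousLinearMap.pi fun o : Option I =>
          o.elim (ContinuousLinearMap.id ℝ E3) (fun _ => 0)) z := by
      refine hasFDerivAt_pi.2 fun o => ?_
      cases o with
      | none => exact hasFDerivAt_id z
      | some i => exact hasFDerivAt_const _ _
    have hFd : HasFDerivAt F (fderiv ℝ F (fun o => o.elim z x)) (fun o => o.elim z x) :=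
      (hF.differentiable (by simp) _).hasFDerivAt
    have h2 := (hFd.comp z hd).fderiv
    have h3 : fderiv ℝ (fun z : E3 => F (fun o => o.elim z x)) z =
        (fderiv ℝ F (fun o => o.elim z x)).comp (ContinuousLinearMap.pi fun o : Option I =>
          o.elim (ContinuousLinearMap.id ℝ E3) (fun _ => 0)) := h2
    rw [h3, ContinuousLinearMap.comp_apply]
    congr 1
    funext o
    cases o with
    | none => simp
    | some i => simp


/-- expansion in the variable `none` with a weight in the other variables -/
theorem psl_weight {I : Type} [Fintype I] [DecidableEq I] (ℓ : ℝ) (hℓ : 0 < ℓ)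
    (F : (Option I → E3) → ℂ) (hF : ContDiff ℝ SM F) (hc : HasCompactSupport F)
    (hs : tsupport F ⊆ {x | x none ∈ obox ℓ}) (w : (I → E3) → ℝ) (hwm : Measurable w)
    (hw : Integrable (fun x : Option I → E3 => w (fun i => x (some i)) * ‖F x‖ ^ 2)) :
    HasSum (fun m => ∫ x : I → E3, w x *
        ‖∫ z, (starRingEnd ℂ) (pwave (Env.A * ℓ) m z) * F (fun o => o.elim z x)‖ ^ 2)
      (∫ x : Option I → E3, w (fun i => x (some i)) * ‖F x‖ ^ 2) ∧
    HasSum (fun m => pen (Env.A * ℓ) m * ∫ x : I → E3,
        ‖∫ z, (starRingEnd ℂ) (pwave (Env.A * ℓ) m z) * F (fun o => o.elim z x)‖ ^ 2)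
      (∫ x : Option I → E3, ∑ k : Fin 3,
        ‖fderiv ℝ F x (Pi.single none (EuclideanSpace.single k (1 : ℝ)))‖ ^ 2) := by
  have hFc : Continuous F := hF.continuous
  constructor
  · have hfub := psl_fubini (fun x : Option I → E3 => w (fun i => x (some i)) * ‖F x‖ ^ 2) hw
    have hmain : HasSum (fun m => ∫ x : I → E3, w x *
        ‖∫ z, (starRingEnd ℂ) (pwave (Env.A * ℓ) m z) * F (fun o => o.elim z x)‖ ^ 2)
        (∫ x : I → E3, w x * ∫ z : E3, ‖F (fun o => o.elim z x)‖ ^ 2) := by
      refine hasSum_integral_of_dominated_convergence (fun m x => |w x| *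
        ‖∫ z, (starRingEnd ℂ) (pwave (Env.A * ℓ) m z) * F (fun o => o.elim z x)‖ ^ 2) ?_ ?_ ?_ ?_ ?_
      · intro m
        exact (hwm.mul (psl_meas (Env.A * ℓ) m F hFc)).aestronglyMeasurable
      · intro m
        refine Filter.Eventually.of_forall fun x => ?_
        rw [norm_mul, Real.norm_eq_abs, Real.norm_of_nonneg (by positivity)]
      · refine Filter.Eventually.of_forall fun x => ?_
        obtain ⟨h1, h2, h3, _⟩ := psl_slice ℓ F hF hc hs x
        exact ((pw_parseval ℓ hℓ _ h1 h2 h3).1.summable).mul_left _
      · have h4 := hfub.1.integral_norm_prod_left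
        refine h4.congr (Filter.Eventually.of_forall fun x => ?_)
        obtain ⟨h1, h2, h3, _⟩ := psl_slice ℓ F hF hc hs x
        have h5 := ((pw_parseval ℓ hℓ _ h1 h2 h3).1.mul_left |w x|).tsum_eq
        simp only
        rw [h5, ← integral_const_mul]
        refine integral_congr_ae (Filter.Eventually.of_forall fun z => ?_)
        simp only [norm_mul, Real.norm_eq_abs, norm_pow, abs_norm]
        rfl
      · refine Filter.Eventually.of_forall fun x => ?_
        obtain ⟨h1, h2, h3, _⟩ := psl_slice ℓ F hF hc hs x
        exact (pw_parseval ℓ hℓ _ h1 h2 h3).1.mul_left (w x)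
    have e : (∫ x : I → E3, w x * ∫ z : E3, ‖F (fun o => o.elim z x)‖ ^ 2) =
        ∫ x : Option I → E3, w (fun i => x (some i)) * ‖F x‖ ^ 2 := by
      rw [hfub.2]
      refine integral_congr_ae (Filter.Eventually.of_forall fun x => ?_)
      simp only
      rw [← integral_const_mul]
      rfl
    rw [← e]
    exact hmain
  · -- second part
    set G2 : (Option I → E3) → ℝ := fun y => ∑ k : Fin 3,
        ‖fderiv ℝ F y (Pi.single none (EuclideanSpace.single k (1 : ℝ)))‖ ^ 2 with hG2
    have hG2c : Continuous G2 := by
      refine continuous_finsetSum _ fun k _ => ?_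
      have h1 : Continuous (fderiv ℝ F) := hF.continuous_fderiv (by simp)
      exact ((h1.clm_apply continuous_const).norm).pow 2
    have hG2s : HasCompactSupport G2 := by
      refine HasCompactSupport.intro (K := tsupport F) hc.isCompact ?_
      intro y hy
      have h1 : fderiv ℝ F y = 0 := by
        by_contra hne
        exact hy (support_fderiv_subset ℝ hne)
      simp [hG2, h1]
    have hG2i : Integrable G2 := hG2c.integrable_of_hasCompactSupport hG2s
    have hfub := psl_fubini G2 hG2i
    have hG2n : ∀ y, 0 ≤ G2 y := fun y => Finset.sum_nonneg fun k _ => by positivity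
    have hslice : ∀ x : I → E3, HasSum (fun m => pen (Env.A * ℓ) m *
        ‖∫ z, (starRingEnd ℂ) (pwave (Env.A * ℓ) m z) * F (fun o => o.elim z x)‖ ^ 2)
        (∫ z : E3, G2 (fun o => o.elim z x)) := by
      intro x
      obtain ⟨h1, h2, h3, h4⟩ := psl_slice ℓ F hF hc hs x
      have h5 := (pw_parseval ℓ hℓ _ h1 h2 h3).2
      simp only [h4] at h5
      exact h5
    have hpen : ∀ m, 0 ≤ pen (Env.A * ℓ) m := by
      intro m
      unfold pen
      positivity
    have hmain : HasSum (fun m => ∫ x : I → E3, pen (Env.A * ℓ) m *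
        ‖∫ z, (starRingEnd ℂ) (pwave (Env.A * ℓ) m z) * F (fun o => o.elim z x)‖ ^ 2)
        (∫ x : I → E3, ∫ z : E3, G2 (fun o => o.elim z x)) := by
      refine hasSum_integral_of_dominated_convergence (fun m x => pen (Env.A * ℓ) m *
        ‖∫ z, (starRingEnd ℂ) (pwave (Env.A * ℓ) m z) * F (fun o => o.elim z x)‖ ^ 2) ?_ ?_ ?_ ?_ ?_
      · intro m
        exact (measurable_const.mul (psl_meas (Env.A * ℓ) m F hFc)).aestronglyMeasurable
      · intro m
        refine Filter.Eventually.of_forall fun x => ?_
        rw [Real.norm_of_nonneg (mul_nonneg (hpen m) (by positivity))]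
      · exact Filter.Eventually.of_forall fun x => (hslice x).summable
      · refine hfub.1.integral_prod_left.congr (Filter.Eventually.of_forall fun x => ?_)
        exact (hslice x).tsum_eq.symm
      · exact Filter.Eventually.of_forall fun x => hslice x
    rw [hfub.2]
    simpa only [integral_const_mul] using hmain


end Run7.h213.P
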