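import Pool.Agent.Helper985.CT.M_psl_nrm
import Pool.Agent.Run7.h213.P.CM_int_state
import Pool.Agent.Run7.h213.P.TM_psl_deriv
import Pool.Agent.Run7.h213.P.TM_psl_state
import Pool.Agent.Run7.h213.P.TM_psl_weight
import Pool.Agent.Run7.h213.P.TDefs
import Pool.Agent.Run7.h213.P.CBase

set_option autoImplicit false

open MeasureTheory
open scoped Topology

namespace Run7.h213.P

open Pool.Agent.Helper985.CP hiding IsState Ortho cube energy int_state kin kinE pe peierls psl_deriv psl_nrm psl_slice psl_state psl_weight pw_parseval pwaux_parseval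

variable [Env]


theorem psl_nrm {S : Type} (D : Species S) (hD : D.Valid) {I : Type} [Fintype I] [DecidableEq I]
    (sp : Option I → S) (ℓ : ℝ) (hℓ : 0 < ℓ) (Φ : Wave D (Option I)) (hΦ : IsState D sp ℓ Φ) :
    HasSum (fun m => ∑ σ, nrm2 D (psl D (pwave (Env.A * ℓ) m) σ Φ)) (nrm2 D Φ) ∧
    HasSum (fun m => pen (Env.A * ℓ) m * ∑ σ, nrm2 D (psl D (pwave (Env.A * ℓ) m) σ Φ))
      (2 * D.mass (sp none) * Pool.Agent.Helper985.CP.kinE D sp none Φ) := by
  classical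
  have hsm : ∀ τ', ContDiff ℝ SM (Φ τ') := hΦ.smooth
  have hcp : ∀ τ', HasCompactSupport (Φ τ') := hΦ.compact
  have hsu : ∀ τ', tsupport (Φ τ') ⊆ {x | ∀ o, x o ∈ cube ℓ} := hΦ.support
  have hW : ∀ (F : (Option I → E3) → ℂ), ContDiff ℝ SM F → HasCompactSupport F →
      tsupport F ⊆ {x | ∀ o, x o ∈ cube ℓ} →
      HasSum (fun m => ∫ x : I → E3,
        ‖∫ z, (starRingEnd ℂ) (pwave (Env.A * ℓ) m z) * F (fun o => o.elim z x)‖ ^ 2)
      (∫ x : Option I → E3, ‖F x‖ ^ 2) ∧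
      HasSum (fun m => pen (Env.A * ℓ) m * ∫ x : I → E3,
        ‖∫ z, (starRingEnd ℂ) (pwave (Env.A * ℓ) m z) * F (fun o => o.elim z x)‖ ^ 2)
      (∫ x : Option I → E3, ∑ k : Fin 3,
        ‖fderiv ℝ F x (Pi.single none (EuclideanSpace.single k (1 : ℝ)))‖ ^ 2) := by
    intro F hF hc hs
    have h := psl_weight ℓ hℓ F hF hc (fun x hx => cube_sub ℓ (hs hx none)) (fun _ => (1 : ℝ))
      measurable_const (by simpa using pslx_int F hF.continuous hc)
    simpa using h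
  refine ⟨?_, ?_⟩
  · have h : HasSum (fun m => ∑ σ : Fin D.g, ∑ τ : I → Fin D.g, ∫ x : I → E3,
        ‖∫ z, (starRingEnd ℂ) (pwave (Env.A * ℓ) m z) * Φ (fun o => o.elim σ τ) (fun o => o.elim z x)‖ ^ 2)
        (∑ σ : Fin D.g, ∑ τ : I → Fin D.g, ∫ x, ‖Φ (fun o => o.elim σ τ) x‖ ^ 2) :=
      hasSum_sum fun σ _ => hasSum_sum fun τ _ => (hW _ (hsm _) (hcp _) (hsu _)).1
    have e : nrm2 D Φ = ∑ σ : Fin D.g, ∑ τ : I → Fin D.g, ∫ x, ‖Φ (fun o => o.elim σ τ) x‖ ^ 2 := by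
      unfold nrm2
      rw [pslx_sum]
    rw [e]
    exact h
  · have h : HasSum (fun m => ∑ σ : Fin D.g, ∑ τ : I → Fin D.g, (pen (Env.A * ℓ) m * ∫ x : I → E3,
        ‖∫ z, (starRingEnd ℂ) (pwave (Env.A * ℓ) m z) * Φ (fun o => o.elim σ τ) (fun o => o.elim z x)‖ ^ 2))
        (∑ σ : Fin D.g, ∑ τ : I → Fin D.g, ∫ x : Option I → E3, ∑ k : Fin 3,
        ‖fderiv ℝ (Φ (fun o => o.elim σ τ)) x
          (Pi.single none (EuclideanSpace.single k (1 : ℝ)))‖ ^ 2) :=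
      hasSum_sum fun σ _ => hasSum_sum fun τ _ => (hW _ (hsm _) (hcp _) (hsu _)).2
    have e : 2 * D.mass (sp none) * Pool.Agent.Helper985.CP.kinE D sp none Φ =
        ∑ σ : Fin D.g, ∑ τ : I → Fin D.g, ∫ x : Option I → E3, ∑ k : Fin 3,
        ‖fderiv ℝ (Φ (fun o => o.elim σ τ)) x
          (Pi.single none (EuclideanSpace.single k (1 : ℝ)))‖ ^ 2 := by
      unfold Pool.Agent.Helper985.CP.kinE
      rw [pslx_sum, Finset.mul_sum]
      refine Finset.sum_congr rfl fun σ _ => ?_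
      rw [Finset.mul_sum]
      refine Finset.sum_congr rfl fun τ _ => ?_
      unfold Pool.Agent.Helper985.CP.kin
      rw [integral_const_mul]
      have hm := (hD.mass_pos (sp none)).ne'
      field_simp
    have e2 : (fun m => pen (Env.A * ℓ) m * ∑ σ, nrm2 D (psl D (pwave (Env.A * ℓ) m) σ Φ)) =
        (fun m => ∑ σ : Fin D.g, ∑ τ : I → Fin D.g, (pen (Env.A * ℓ) m * ∫ x : I → E3,
        ‖∫ z, (starRingEnd ℂ) (pwave (Env.A * ℓ) m z) *
          Φ (fun o => o.elim σ τ) (fun o => o.elim z x)‖ ^ 2)) := by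
      funext m
      rw [Finset.mul_sum]
      refine Finset.sum_congr rfl fun σ _ => ?_
      unfold nrm2
      rw [Finset.mul_sum]
      rfl
    rw [e, e2]
    exact h

end Run7.h213.P
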