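import Pool.Agent.Helper780_CP.Avg
import Pool.Agent.Run7.h213.P.KScales
import Pool.Agent.Run7.h213.P.TM_row_bound
import Pool.Agent.Run7.h213.P.CBase

set_option autoImplicit false

open MeasureTheory
open scoped Topology

namespace Run7.h213.P.K

open Pool.Agent.Helper985.CP hiding IsState Ortho cube energy ims_state int_state kin kinE nrm2_pos pe peierls psl_deriv psl_nrm psl_slice psl_state psl_weight pw_parseval pwaux_parseval rb833_X rb833_state rbX rb_act_X rb_bessel rb_bessel0 rb_ip_X rb_ip_XX rb_ip_XX_meas rb_ip_XX_one rb_ip_XX_vol rb_ip_swap rb_nice_X rb_nice_state row_bound state_comb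
open Pool.Agent.Helper780_CP hiding WI WI_add WI_const WI_coul WI_near2 WI_one WI_pair WI_phi WI_smul WI_sum WI_zero cost_avg ms_qf mulW_state qf qf_int qf_split wm_add wm_mono

variable [Env]


/-- the cube of side `ℓ` centred at the origin -/
def qcb (ℓ : ℝ) : Set E3 := {y | ∀ k, -(ℓ / 2) < y k ∧ y k < ℓ / 2}

omit [Env] in
theorem qcb_vol (ℓ : ℝ) (hℓ : 0 < ℓ) : volume (qcb ℓ) = ENNReal.ofReal (ℓ ^ 3) := by
  have h1 : qcb ℓ = (@WithLp.ofLp 2 (Fin 3 → ℝ)) ⁻¹'
      (Set.pi Set.univ (fun _ : Fin 3 => Set.Ioo (-(ℓ / 2)) (ℓ / 2))) := by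
    ext y
    simp [qcb, Set.mem_pi]
  rw [h1, (PiLp.volume_preserving_ofLp (Fin 3)).measure_preimage
    (MeasurableSet.univ_pi fun _ => measurableSet_Ioo).nullMeasurableSet,
    Real.volume_pi_Ioo]
  have h2 : ℓ / 2 - -(ℓ / 2) = ℓ := by ring
  rw [h2]
  simp only [Finset.prod_const, Finset.card_univ, Fintype.card_fin]
  rw [ENNReal.ofReal_pow hℓ.le]

omit [Env] in
theorem qcb_meas (ℓ : ℝ) : MeasurableSet (qcb ℓ) := by
  have h1 : qcb ℓ = ⋂ k : Fin 3, {y : E3 | -(ℓ / 2) < y k} ∩ {y : E3 | y k < ℓ / 2} := by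
    ext y
    simp [qcb]
  rw [h1]
  refine MeasurableSet.iInter fun k => MeasurableSet.inter ?_ ?_
  · exact (isOpen_lt continuous_const (by fun_prop)).measurableSet
  · exact (isOpen_lt (by fun_prop) continuous_const).measurableSet

/-- The mean of the inverse square distance to the nearest particle. -/
theorem cost_avg {S : Type} (D : Species S) {I : Type} [Fintype I] [DecidableEq I] (sp : I → S)
    (ℓ : ℝ) (hℓ : 0 < ℓ) (Ψ : Wave D I) (hΨ : IsState D sp ℓ Ψ) :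
    Integrable (fun y : E3 => (qcb ℓ).indicator (fun _ => (1 : ℝ)) y * wm D (near2 y) Ψ) ∧
    ∫ y : E3, (qcb ℓ).indicator (fun _ => (1 : ℝ)) y * wm D (near2 y) Ψ ≤
      (ℓ ^ 3 + (∫ z, kk z) * (Fintype.card I : ℝ)) * nrm2 D Ψ := by
  obtain ⟨c, hc⟩ : ∃ c : E3 → ℝ, c = (qcb ℓ).indicator (fun _ => (1 : ℝ)) := ⟨_, rfl⟩
  have hcm : Measurable c := by rw [hc]; exact measurable_const.indicator (qcb_meas ℓ)
  have hc0 : ∀ y, 0 ≤ c y := by
    intro y; rw [hc]; exact Set.indicator_nonneg (fun _ _ => zero_le_one) y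
  have hc1 : ∀ y, c y ≤ 1 := by
    intro y; rw [hc]; exact Set.indicator_le_self' (fun _ _ => zero_le_one) y
  have hci : Integrable c := by
    rw [hc]
    refine (integrable_indicator_iff (qcb_meas ℓ)).2 ?_
    refine integrableOn_const ?_
    rw [qcb_vol ℓ hℓ]
    exact ENNReal.ofReal_ne_top
  have hcint : ∫ y, c y = ℓ ^ 3 := by
    rw [hc, integral_indicator (qcb_meas ℓ)]
    rw [setIntegral_const, Measure.real, qcb_vol ℓ hℓ,
      ENNReal.toReal_ofReal (by positivity)]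
    simp
  have hΨm : ∀ τ, Measurable (fun x => ‖Ψ τ x‖ ^ 2) := fun τ =>
    ((hΨ.smooth τ).continuous.measurable.norm).pow_const 2
  have hΨi : ∀ τ, Integrable (fun x => ‖Ψ τ x‖ ^ 2) := fun τ => (int_state D sp ℓ Ψ hΨ τ).1
  have hdom : ∀ τ, Integrable (fun q : (I → E3) × E3 => c q.2 * ‖Ψ τ q.1‖ ^ 2 +
      ∑ i, kk (q.1 i - q.2) * ‖Ψ τ q.1‖ ^ 2)
      ((volume : Measure (I → E3)).prod (volume : Measure E3)) := by
    intro τ
    refine Integrable.add ?_ (integrable_finsetSum _ fun i _ => kk_prod _ (hΨi τ) (hΨm τ) i)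
    have h1 := (hΨi τ).mul_prod hci
    refine h1.congr (Filter.Eventually.of_forall fun q => ?_)
    show ‖Ψ τ q.1‖ ^ 2 * c q.2 = _
    ring
  have hpt : ∀ τ (q : (I → E3) × E3), c q.2 * (near2 q.2 q.1 * ‖Ψ τ q.1‖ ^ 2) ≤
      c q.2 * ‖Ψ τ q.1‖ ^ 2 + ∑ i, kk (q.1 i - q.2) * ‖Ψ τ q.1‖ ^ 2 := by
    intro τ q
    have h1 := near2_le_kk q.2 q.1
    have h2 : 0 ≤ ∑ i, kk (q.1 i - q.2) := Finset.sum_nonneg fun i _ => kk_nonneg _
    have h3 : 0 ≤ ‖Ψ τ q.1‖ ^ 2 := by positivity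
    rw [← Finset.sum_mul]
    have h4 : c q.2 * near2 q.2 q.1 ≤ c q.2 + ∑ i, kk (q.1 i - q.2) := by
      calc c q.2 * near2 q.2 q.1 ≤ c q.2 * (1 + ∑ i, kk (q.1 i - q.2)) :=
            mul_le_mul_of_nonneg_left h1 (hc0 _)
        _ = c q.2 + c q.2 * ∑ i, kk (q.1 i - q.2) := by ring
        _ ≤ c q.2 + 1 * ∑ i, kk (q.1 i - q.2) := by
            have := mul_le_mul_of_nonneg_right (hc1 q.2) h2
            linarith
        _ = _ := by ring
    calc c q.2 * (near2 q.2 q.1 * ‖Ψ τ q.1‖ ^ 2) = (c q.2 * near2 q.2 q.1) * ‖Ψ τ q.1‖ ^ 2 := by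
          ring
      _ ≤ (c q.2 + ∑ i, kk (q.1 i - q.2)) * ‖Ψ τ q.1‖ ^ 2 := mul_le_mul_of_nonneg_right h4 h3
      _ = _ := by ring
  have hF : ∀ τ, Integrable (fun q : (I → E3) × E3 => c q.2 * (near2 q.2 q.1 * ‖Ψ τ q.1‖ ^ 2))
      ((volume : Measure (I → E3)).prod (volume : Measure E3)) := by
    intro τ
    refine (hdom τ).mono' ?_ (Filter.Eventually.of_forall fun q => ?_)
    · exact ((hcm.comp measurable_snd).mul (near2_meas2.mul
        ((hΨm τ).comp measurable_fst))).aestronglyMeasurable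
    · rw [Real.norm_of_nonneg (mul_nonneg (hc0 _) (mul_nonneg (near2_nonneg _ _)
        (by positivity)))]
      exact hpt τ q
  have e1 : ∀ y, c y * wm D (near2 y) Ψ = ∑ τ, ∫ x : I → E3, c y * (near2 y x * ‖Ψ τ x‖ ^ 2) := by
    intro y
    unfold wm
    rw [Finset.mul_sum]
    refine Finset.sum_congr rfl fun τ _ => ?_
    rw [integral_const_mul]
  rw [← hc]
  simp only [e1]
  refine ⟨integrable_finsetSum _ fun τ _ => (hF τ).integral_prod_right, ?_⟩
  rw [integral_finsetSum _ fun τ _ => (hF τ).integral_prod_right]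
  unfold nrm2
  rw [Finset.mul_sum]
  refine Finset.sum_le_sum fun τ _ => ?_
  rw [← integral_integral_swap (f := fun (x : I → E3) (y : E3) =>
    c y * (near2 y x * ‖Ψ τ x‖ ^ 2)) (hF τ), ← integral_const_mul]
  refine integral_mono (hF τ).integral_prod_left ((hΨi τ).const_mul _) fun x => ?_
  have h5 : Integrable (fun y => c y * ‖Ψ τ x‖ ^ 2 + ∑ i, kk (x i - y) * ‖Ψ τ x‖ ^ 2) :=
    (hci.mul_const _).add (integrable_finsetSum _ fun i _ =>
      (kk_int.comp_sub_left (x i)).mul_const _)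
  have h6 : ∫ y, c y * (near2 y x * ‖Ψ τ x‖ ^ 2) ≤
      ∫ y, (c y * ‖Ψ τ x‖ ^ 2 + ∑ i, kk (x i - y) * ‖Ψ τ x‖ ^ 2) := by
    refine integral_mono_of_nonneg (Filter.Eventually.of_forall fun y => ?_) h5
      (Filter.Eventually.of_forall fun y => hpt τ (x, y))
    exact mul_nonneg (hc0 _) (mul_nonneg (near2_nonneg _ _) (by positivity))
  refine h6.trans (le_of_eq ?_)
  rw [integral_add (hci.mul_const _) (integrable_finsetSum _ fun i _ =>
      (kk_int.comp_sub_left (x i)).mul_const _), integral_mul_const, hcint,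
    integral_finsetSum _ fun i _ => (kk_int.comp_sub_left (x i)).mul_const _]
  simp only [integral_mul_const, integral_sub_left_eq_self (fun z => kk z) volume]
  rw [Finset.sum_const, Finset.card_univ, nsmul_eq_mul]
  ring


end Run7.h213.P.K
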