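import Pool.Agent.Helper780_CP.Multi
import Pool.Agent.Run7.h213.P.KScales
import Pool.Agent.Run7.h213.P.CBase

set_option autoImplicit false

open MeasureTheory
open scoped Topology

namespace Run7.h213.P.K

open Pool.Agent.Helper985.CP hiding IsState Ortho cube energy ims_state int_state kin kinE pe peierls
open Pool.Agent.Helper780_CP hiding WI WI_add WI_const WI_coul WI_mul WI_near2 WI_one WI_pair WI_phi WI_smul WI_sum WI_zero ms_qf mulW_state qf qf_int qf_split wm_add wm_mono wm_sum wm_tendsto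

variable [Env]


section

variable {S : Type} (D : Species S) {I : Type} [Fintype I] [DecidableEq I] (sp : I → S)

theorem WI_mul (ℓ : ℝ) {W : (I → E3) → ℝ} (hW : WI D sp ℓ W) (f : (I → E3) → ℝ)
    (hf : Continuous f) (hb : ∀ x, |f x| ≤ 1) : WI D sp ℓ (fun x => f x * W x) := by
  intro Ψ hΨ τ
  have h := (hW Ψ hΨ τ).bdd_mul (c := 1) hf.aestronglyMeasurable
    (Filter.Eventually.of_forall fun x => by rw [Real.norm_eq_abs]; exact hb x)
  refine h.congr (Filter.Eventually.of_forall fun x => ?_)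
  simp only
  ring


theorem wm_sum (ℓ : ℝ) {A : Type} (s : Finset A) (V : A → (I → E3) → ℝ)
    (hV : ∀ a ∈ s, WI D sp ℓ (V a)) (Ψ : Wave D I) (hΨ : IsState D sp ℓ Ψ) :
    wm D (fun x => ∑ a ∈ s, V a x) Ψ = ∑ a ∈ s, wm D (V a) Ψ := by
  unfold wm
  rw [Finset.sum_comm]
  refine Finset.sum_congr rfl fun τ _ => ?_
  rw [← integral_finsetSum _ (fun a ha => hV a ha Ψ hΨ τ)]
  refine integral_congr_ae (Filter.Eventually.of_forall fun x => ?_)
  simp only
  rw [Finset.sum_mul]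

theorem wm_tendsto (ℓ : ℝ) {W : (I → E3) → ℝ} (hW : WI D sp ℓ W) (Ψ : Wave D I)
    (hΨ : IsState D sp ℓ Ψ) (f : ℕ → (I → E3) → ℝ) (hf : ∀ k, Continuous (f k))
    (h1 : ∀ k x, f k x ^ 2 ≤ 1) (h0 : ∀ᵐ x, Filter.Tendsto (fun k => f k x) Filter.atTop (𝓝 0)) :
    Filter.Tendsto (fun k => wm D W (mulW D (f k) Ψ)) Filter.atTop (𝓝 0) := by
  have e : (0 : ℝ) = ∑ τ : I → Fin D.g, 0 := by simp
  rw [e]
  refine tendsto_finset_sum _ fun τ _ => ?_
  have hz : (0 : ℝ) = ∫ x : I → E3, (0 : ℝ) := by simp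
  rw [hz]
  refine tendsto_integral_of_dominated_convergence (fun x => |W x * ‖Ψ τ x‖ ^ 2|) ?_
    (hW Ψ hΨ τ).abs ?_ ?_
  · intro k
    have := (WI_mul D sp ℓ hW (fun x => f k x ^ 2) ((hf k).pow 2) (fun x => by
      rw [abs_of_nonneg (sq_nonneg _)]; exact h1 k x)) Ψ hΨ τ
    refine this.aestronglyMeasurable.congr (Filter.Eventually.of_forall fun x => ?_)
    simp only
    rw [mulW_norm]
    ring
  · intro k
    refine Filter.Eventually.of_forall fun x => ?_
    rw [mulW_norm, Real.norm_eq_abs]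
    have e2 : W x * (f k x ^ 2 * ‖Ψ τ x‖ ^ 2) = f k x ^ 2 * (W x * ‖Ψ τ x‖ ^ 2) := by ring
    rw [e2, abs_mul, abs_of_nonneg (sq_nonneg _)]
    exact mul_le_of_le_one_left (abs_nonneg _) (h1 k x)
  · filter_upwards [h0] with x hx
    have h2 : Filter.Tendsto (fun k => W x * (f k x ^ 2 * ‖Ψ τ x‖ ^ 2)) Filter.atTop
        (𝓝 (W x * (0 ^ 2 * ‖Ψ τ x‖ ^ 2))) := ((hx.pow 2).mul_const _).const_mul _
    simpa only [mulW_norm, ne_eq, OfNat.ofNat_ne_zero, not_false_eq_true, zero_pow, zero_mul,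
      mul_zero] using h2

end


end Run7.h213.P.K
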