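import Pool.Agent.Helper985.CT.M_pe_symm
import Pool.Agent.Run7.h213.P.CM_int_state
import Pool.Agent.Run7.h213.P.CM_relabel_num
import Pool.Agent.Run7.h213.P.TDefs
import Pool.Agent.Run7.h213.P.CBase

set_option autoImplicit false

open MeasureTheory
open scoped Topology

namespace Run7.h213.P

open Pool.Agent.Helper985.CP hiding IsState Ortho cube energy int_state kin kinE pe pe_symm peierls relabel_num relaux_kin

variable [Env]


/-- particles of the same species have the same energies in a state -/
theorem pe_symm {S : Type} (D : Species S) {I : Type} [Fintype I] [DecidableEq I]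
    (sp : I → S) (ℓ : ℝ) (Ψ : Wave D I) (hΨ : IsState D sp ℓ Ψ) (i j : I) (h : sp i = sp j) :
    pe D sp i Ψ = pe D sp j Ψ ∧ kinE D sp i Ψ = kinE D sp j Ψ := by
  rcases eq_or_ne i j with hij | hne
  · subst hij
    exact ⟨rfl, rfl⟩
  set e : I ≃ I := Equiv.swap i j with he
  have hrel : ∀ τ, relab D e Ψ τ = fun x => exch D (sp i) * Ψ τ x := by
    intro τ
    funext x
    exact hΨ.symm i j hne h τ x
  have hc : ‖exch D (sp i)‖ = 1 := by
    unfold exch
    split_ifs <;> simp
  have hkin : ∀ τ x, kin D sp i (relab D e Ψ τ) x = kin D sp i (Ψ τ) x := by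
    intro τ x
    have hn1 : ‖relab D e Ψ τ x‖ = ‖Ψ τ x‖ := by
      rw [hrel τ]
      simp [hc]
    unfold kin
    rw [hn1]
    rw [hrel τ]
    refine congrArg₂ (· + ·) ?_ rfl
    unfold Pool.Agent.Helper985.CP.kin
    congr 1
    apply Finset.sum_congr rfl
    intro k _
    have hd : DifferentiableAt ℝ (Ψ τ) x := ((hΨ.smooth τ).differentiable (by simp)) x
    rw [fderiv_const_mul hd]
    simp [hc]
  have hnorm : ∀ τ x, ‖relab D e Ψ τ x‖ = ‖Ψ τ x‖ := by
    intro τ x
    rw [hrel τ]
    simp [hc]
  have hsp : ∀ k, sp (e k) = sp k := by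
    intro k
    rw [he, Equiv.swap_apply_def]
    split_ifs with h1 h2
    · rw [h1, h]
    · rw [h2, h]
    · rfl
  have hej : e j = i := by rw [he]; exact Equiv.swap_apply_right i j
  have hei : e i = j := by rw [he]; exact Equiv.swap_apply_left i j
  have hee : ∀ k, e (e k) = k := by
    intro k
    rw [he]
    exact Equiv.swap_apply_self i j k
  constructor
  · have h3 := (relabel_num D e sp sp hsp Ψ).2.2.1 j
    rw [hej] at h3
    rw [← h3]
    unfold pe
    apply Finset.sum_congr rfl
    intro τ _
    refine integral_congr_ae (Filter.Eventually.of_forall fun x => ?_)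
    show kin D sp i (Ψ τ) x + _ * ‖Ψ τ x‖ ^ 2 = kin D sp i (relab D e Ψ τ) x + _ * ‖relab D e Ψ τ x‖ ^ 2
    rw [hkin, hnorm]
  · have hLlin : ∀ (τ : I → Fin D.g) (x : I → E3), kin D sp i (relab D e Ψ τ) x =
        kin D sp j (Ψ (fun k => τ (e k))) (fun k => x (e k)) := by
      intro τ x
      have hdd : DifferentiableAt ℝ (Ψ (fun k => τ (e k))) (fun k => x (e k)) :=
        ((hΨ.smooth _).differentiable (by simp)) _
      let L : (I → E3) →L[ℝ] (I → E3) :=
        ContinuousLinearMap.pi (fun k => ContinuousLinearMap.proj (R := ℝ) (φ := fun _ : I => E3) (e k))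
      have hL : ∀ y : I → E3, L y = fun k => y (e k) := fun y => rfl
      have hcomp : relab D e Ψ τ = (Ψ (fun k => τ (e k))) ∘ L := rfl
      have hfd : fderiv ℝ (relab D e Ψ τ) x =
          (fderiv ℝ (Ψ (fun k => τ (e k))) (fun k => x (e k))).comp L := by
        rw [hcomp]
        have h1 := fderiv_comp x (f := L) (g := Ψ (fun k => τ (e k))) (by rw [hL]; exact hdd)
          L.differentiableAt
        rw [h1, ContinuousLinearMap.fderiv, hL]
      unfold kin
      refine congrArg₂ (· + ·) ?_ (by
        have : x i = x (e j) := by rw [hej]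
        rw [this]
        rfl)
      unfold Pool.Agent.Helper985.CP.kin
      rw [h]
      congr 1
      apply Finset.sum_congr rfl
      intro k _
      rw [hfd, ContinuousLinearMap.comp_apply]
      congr 3
      rw [hL]
      funext m
      by_cases hm : m = j
      · rw [hm, hej, Pi.single_eq_same, Pi.single_eq_same]
      · have hm' : e m ≠ i := by
          intro hh
          apply hm
          rw [← hee m, hh, hei]
        rw [Pi.single_eq_of_ne hm', Pi.single_eq_of_ne hm]
    have h1 : kinE D sp i Ψ = kinE D sp i (relab D e Ψ) := by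
      unfold kinE
      apply Finset.sum_congr rfl
      intro τ _
      refine integral_congr_ae (Filter.Eventually.of_forall fun x => ?_)
      exact (hkin τ x).symm
    rw [h1]
    unfold kinE
    have h2 : ∀ τ : I → Fin D.g, ∫ x, kin D sp i (relab D e Ψ τ) x =
        ∫ x, kin D sp j (Ψ (fun k => τ (e k))) x := by
      intro τ
      have hmp := MeasureTheory.volume_measurePreserving_piCongrLeft (fun _ : I => E3) e
      have hap : ∀ x : I → E3, (MeasurableEquiv.piCongrLeft (fun _ : I => E3) e) x =
          fun k => x (e k) := by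
        intro x
        funext k
        have h5 := MeasurableEquiv.piCongrLeft_apply_apply (β := fun _ : I => E3) e x (e k)
        rw [hee k] at h5
        exact h5
      rw [← hmp.integral_comp' (kin D sp j (Ψ (fun k => τ (e k))))]
      refine integral_congr_ae (Filter.Eventually.of_forall fun x => ?_)
      show kin D sp i (relab D e Ψ τ) x = kin D sp j (Ψ (fun k => τ (e k)))
        ((MeasurableEquiv.piCongrLeft (fun _ : I => E3) e) x)
      rw [hLlin, hap]
    rw [Finset.sum_congr rfl (fun τ _ => h2 τ)]
    exact Fintype.sum_equiv (Equiv.arrowCongr e (Equiv.refl (Fin D.g)))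
      (fun τ => ∫ x, kin D sp j (Ψ (fun k => τ (e k))) x) (fun τ => ∫ x, kin D sp j (Ψ τ) x)
      (fun τ => by
        have h6 : (Equiv.arrowCongr e (Equiv.refl (Fin D.g))) τ = fun k => τ (e k) := by
          funext k
          show τ (e.symm k) = τ (e k)
          rw [he, Equiv.symm_swap]
        rw [h6])

end Run7.h213.P
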