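import Pool.Agent.Helper985.CT.M_sum_pe_half
import Pool.Agent.Run7.h213.P.CM_int_state
import Pool.Agent.Run7.h213.P.TDefs
import Pool.Agent.Run7.h213.P.CBase
import Pool.Agent.Run7.h213.P.CBridge
import Pool.Agent.Run7.h213.P.CDefs

set_option autoImplicit false

open MeasureTheory
open scoped Topology

namespace Run7.h213.P

open Pool.Agent.Helper985.CP hiding IsState Ortho cube energy int_state kin kinE pe peierls sphK sph_K sph_energy sph_isState sph_kin sph_sum sum_pe_half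

variable [Env]


/-- stability with part of the kinetic energy left out -/
theorem sum_pe_half {S : Type} (D : Species S) (hD : D.Valid) (A : ℝ) {I : Type} [Fintype I]
    [DecidableEq I] (sp : I → S)
    (hA : ∀ ℓ : ℝ, 0 < ℓ → ∀ Ψ : Wave D I, Pool.Agent.Helper985.CP.IsState D sp ℓ Ψ →
      -A * (Fintype.card I : ℝ) * nrm2 D Ψ ≤ Pool.Agent.Helper985.CP.energy D sp Ψ)
    (ℓ : ℝ) (hℓ : 0 < ℓ) (Ψ : Wave D I) (hΨ : IsState D sp ℓ Ψ) :
    -(8 * A) * (Fintype.card I : ℝ) * nrm2 D Ψ ≤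
      ∑ i, (pe D sp i Ψ - (1 / 2) * kinE D sp i Ψ) := by
  have hAl : 0 < Env.A * ℓ := mul_pos (lt_of_lt_of_le one_pos Env.A_ge) hℓ
  have h := Pool.Agent.Helper985.CP.sum_pe_half D hD A sp hA (Env.A * ℓ) hAl _
    (br_state D sp ℓ Ψ hΨ)
  rw [tr_nrm2] at h
  refine h.trans (Finset.sum_le_sum fun i _ => ?_)
  rw [tr_pe, tr_kinE]
  have hU : ∀ τ, 0 ≤ ∫ x, Env.U (x i) * ‖Ψ τ x‖ ^ 2 := fun τ =>
    integral_nonneg fun x => mul_nonneg (Env.U_nn _) (sq_nonneg _)
  have e1 : pe D sp i Ψ = Pool.Agent.Helper985.CP.pe D sp i Ψ +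
      ∑ τ, ∫ x, Env.U (x i) * ‖Ψ τ x‖ ^ 2 := by
    unfold pe Pool.Agent.Helper985.CP.pe
    rw [← Finset.sum_add_distrib]
    refine Finset.sum_congr rfl fun τ _ => ?_
    obtain ⟨-, -, -, h4, -⟩ := int_state D sp ℓ Ψ hΨ τ
    have h5 : Integrable (fun x : I → E3 => (∑ j, if i = j then 0 else
        D.charge (sp i) * D.charge (sp j) / ‖x i - x j‖) * ‖Ψ τ x‖ ^ 2) := by
      simp_rw [Finset.sum_mul]
      refine integrable_finset_sum _ fun j _ => ?_
      by_cases hij : i = j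
      · simp [hij]
      · simp only [if_neg hij]
        exact h4 i j hij
    refine Eq.trans ?_ (integral_add ((int_kin0 D sp ℓ Ψ hΨ τ i).add h5)
      (int_U D sp ℓ Ψ hΨ τ i))
    refine integral_congr_ae (Filter.Eventually.of_forall fun x => ?_)
    simp only [kin, Pi.add_apply]
    ring
  have e2 : kinE D sp i Ψ = Pool.Agent.Helper985.CP.kinE D sp i Ψ +
      ∑ τ, ∫ x, Env.U (x i) * ‖Ψ τ x‖ ^ 2 := by
    unfold kinE Pool.Agent.Helper985.CP.kinE
    rw [← Finset.sum_add_distrib]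
    refine Finset.sum_congr rfl fun τ _ => ?_
    rw [← integral_add (int_kin0 D sp ℓ Ψ hΨ τ i) (int_U D sp ℓ Ψ hΨ τ i)]
    rfl
  rw [e1, e2]
  have := Finset.sum_nonneg fun τ (_ : τ ∈ Finset.univ) => hU τ
  linarith

end Run7.h213.P
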