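import Pool.Agent.Helper780_CP.Move0
import Pool.Agent.Run7.h213.P.KMulti
import Pool.Agent.Run7.h213.P.CM_remove_none
import Pool.Agent.Run7.h213.P.CM_stable_any
import Pool.Agent.Run7.h213.P.TM_sum_pe_half
import Pool.Agent.Run7.h213.P.TM_pe_symm
import Pool.Agent.Run7.h213.P.CBase
import Pool.Agent.Run7.h213.P.CM_insert_one
import Pool.Agent.Run7.h213.P.CM_int_state
import Pool.Agent.Run7.h213.P.CDefs
import Pool.Agent.Run7.h213.P.CM_slice_basic
import Pool.Agent.Run7.h213.P.CM_slice_energy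
import Pool.Agent.Run7.h213.P.CM_slice_state
import Pool.Agent.Run7.h213.P.CM_relabel_num
import Pool.Agent.Run7.h213.P.CM_relabel_state

set_option autoImplicit false

open MeasureTheory
open scoped Topology

namespace Run7.h213.P.K

open Pool.Agent.Helper985.CP hiding IsState Ortho QQ31988 QQ_ins0_31988 QQ_mul31988 QQ_perm31988 QQ_sum31988 cube energy idjT_act idjT_compact idjT_smooth idj_W0_act idj_W0_bound idj_W0_smooth idj_int idj_sum ims_state ins0_num ins0_swap31988 ins_disj ins_state int_state kin kinE pe pe_symm peierls q985_point relabel_num relabel_state relaux_kin remove_none_aux slice_basic slice_energy slice_state sm_ins0_31988 sphK sph_K sph_energy sph_isState sph_kin sph_sum spin_ins0_31988 stable_any sum_pe_half term_A31988 term_B31988 term_swap31988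
open Pool.Agent.Helper780_CP hiding WI WI_add WI_const WI_coul WI_mul WI_near2 WI_one WI_pair WI_phi WI_smul WI_sum WI_wW WI_zero ms_qf mulW_state qf qf_int qf_split qf_wa rest_lower wm_add wm_mono wm_sum wm_tendsto

variable [Env]


section

variable {S : Type} (D : Species S) {I : Type} [Fintype I] [DecidableEq I] (sp : I → S)


theorem WI_wW (ℓ : ℝ) (i : I) (y : E3) : WI D sp ℓ (wW D sp i y) :=
  WI_add D sp ℓ (WI_add D sp ℓ (WI_coul D sp ℓ) (WI_smul D sp ℓ (WI_pair D sp ℓ i) _))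
    (WI_smul D sp ℓ (WI_phi D sp ℓ y) _)

theorem qf_wa (ℓ : ℝ) (t : ℝ) (i : I) (y : E3) (Ψ : Wave D I) (hΨ : IsState D sp ℓ Ψ) :
    qf D sp (wa t i) (wW D sp i y) Ψ =
      energy D sp Ψ - pe D sp i Ψ + t * kinE D sp i Ψ + D.charge (sp i) * phim D sp Ψ y := by
  unfold qf energy pe kinE phim mean
  rw [Finset.mul_sum, Finset.mul_sum, ← Finset.sum_sub_distrib, ← Finset.sum_add_distrib,
    ← Finset.sum_add_distrib]
  refine Finset.sum_congr rfl fun τ _ => ?_
  obtain ⟨h1, h2, h3, -, -⟩ := int_state D sp ℓ Ψ hΨ τ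
  have h4 := WI_pair D sp ℓ i Ψ hΨ τ
  have h5 := WI_phi D sp ℓ y Ψ hΨ τ
  have i1 : Integrable (fun x => (∑ i, kin D sp i (Ψ τ) x) + coul D sp x * ‖Ψ τ x‖ ^ 2) :=
    (integrable_finsetSum _ fun j _ => h2 j).add h3
  have i2 : Integrable (fun x => kin D sp i (Ψ τ) x + (∑ j, if i = j then 0 else
      D.charge (sp i) * D.charge (sp j) / ‖x i - x j‖) * ‖Ψ τ x‖ ^ 2) := (h2 i).add h4
  have i3 : Integrable (fun x => t * kin D sp i (Ψ τ) x) := (h2 i).const_mul t
  have i4 : Integrable (fun x => D.charge (sp i) *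
      ((∑ j, D.charge (sp j) * (1 / ‖x j - y‖)) * ‖Ψ τ x‖ ^ 2)) := h5.const_mul _
  rw [← integral_const_mul, ← integral_const_mul]
  refine Eq.trans ?_ (int4 i1 i2 i3 i4)
  refine integral_congr_ae (Filter.Eventually.of_forall fun x => ?_)
  simp only
  have e1 : ∑ j, wa t i j * kin D sp j (Ψ τ) x =
      (∑ j, kin D sp j (Ψ τ) x) - kin D sp i (Ψ τ) x + t * kin D sp i (Ψ τ) x := by
    unfold wa
    rw [← Finset.add_sum_erase _ _ (Finset.mem_univ i),
      ← Finset.add_sum_erase _ (fun j => kin D sp j (Ψ τ) x) (Finset.mem_univ i)]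
    rw [if_pos rfl]
    have : ∑ j ∈ Finset.univ.erase i, (if j = i then t else 1) * kin D sp j (Ψ τ) x =
        ∑ j ∈ Finset.univ.erase i, kin D sp j (Ψ τ) x := by
      refine Finset.sum_congr rfl fun j hj => ?_
      rw [if_neg (Finset.ne_of_mem_erase hj), one_mul]
    rw [this]
    ring
  rw [e1]
  unfold wW
  ring

/-- the energy of the other particles is bounded below -/
theorem rest_lower (ℓ : ℝ) (A : ℝ)
    (hA : ∀ {J : Type} [Fintype J] [DecidableEq J] (sp' : J → S) (Ψ : Wave D J),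
      IsState D sp' ℓ Ψ → -A * (Fintype.card J : ℝ) * nrm2 D Ψ ≤ energy D sp' Ψ)
    (i : I) (Ψ : Wave D I) (hΨ : IsState D sp ℓ Ψ) :
    -(A * ((Fintype.card I : ℝ) - 1)) * nrm2 D Ψ ≤ energy D sp Ψ - pe D sp i Ψ := by
  classical
  let e : I ≃ Option {j // j ≠ i} := (Equiv.optionSubtypeNe i).symm
  have hei : e i = none := by
    simp [e]
  let sp' : Option {j // j ≠ i} → S := fun o => sp (e.symm o)
  have h : ∀ j, sp' (e j) = sp j := fun j => by simp [sp']
  obtain ⟨r1, r2, r3, r4⟩ := relabel_num D e sp sp' h Ψ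
  have hst := relabel_state D e sp sp' h ℓ Ψ hΨ
  have hcard : (Fintype.card I : ℝ) = (Fintype.card {j // j ≠ i} : ℝ) + 1 := by
    have h1 : Fintype.card I = Fintype.card (Option {j // j ≠ i}) := Fintype.card_congr e
    rw [h1, Fintype.card_option]
    push_cast
    ring
  have key := remove_none_aux D sp' ℓ (-A * (Fintype.card {j // j ≠ i} : ℝ))
    (fun Φ hΦ => hA _ Φ hΦ) (relab D e Ψ) hst
  have r3' := r3 i
  rw [hei] at r3'
  rw [r1, r2, r3'] at key
  rw [hcard]
  linarith [key]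

end


end Run7.h213.P.K
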