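import Pool.Agent.Helper780_CP.InsC
import Pool.Agent.Run7.h213.P.CM_insert_one
import Pool.Agent.Run7.h213.P.CBase
import Pool.Agent.Run7.h213.P.KMultiC
import Pool.Agent.Run7.h213.P.KMove0

set_option autoImplicit false

open MeasureTheory
open scoped Topology

namespace Run7.h213.P.K

open Pool.Agent.Helper985.CP hiding IsState Ortho QQ31988 QQ_ins0_31988 QQ_mul31988 QQ_perm31988 QQ_sum31988 cube energy idjT_act idjT_compact idjT_smooth idj_W0_act idj_W0_bound idj_W0_smooth idj_int idj_sum ims_state ins0_num ins0_swap31988 ins_disj ins_state int_state kin kinE pe pe_symm peierls q985_point relabel_num relabel_state relaux_kin remove_none_aux slice_basic slice_energy slice_state sm_ins0_31988 sphK sph_K sph_energy sph_isState sph_kin sph_sum spin_ins0_31988 stable_any sum_pe_half term_A31988 term_B31988 term_swap31988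
open Pool.Agent.Helper780_CP hiding WI WI_add WI_const WI_coul WI_mul WI_near2 WI_one WI_pair WI_phi WI_smul WI_sum WI_wW WI_zero ms_qf mulW_state multiC qf qf_int qf_one qf_split qf_wa rest_lower wm_add wm_mono wm_sum wm_tendsto

variable [Env]


theorem qf_one {S : Type} (D : Species S) {I : Type} [Fintype I] [DecidableEq I] (sp : I → S)
    (ℓ c : ℝ) (v : E3) (Ψ : Wave D I) (hΨ : IsState D sp ℓ Ψ) :
    qf D sp (fun _ => 1) (fun x => coul D sp x + c * ∑ i, D.charge (sp i) * (1 / ‖x i - v‖)) Ψ =
      energy D sp Ψ + c * phim D sp Ψ v := by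
  unfold qf energy phim mean
  rw [Finset.mul_sum, ← Finset.sum_add_distrib]
  refine Finset.sum_congr rfl fun τ _ => ?_
  obtain ⟨h1, h2, h3, -, -⟩ := int_state D sp ℓ Ψ hΨ τ
  have h5 := WI_phi D sp ℓ v Ψ hΨ τ
  have i1 : Integrable (fun x => (∑ i, kin D sp i (Ψ τ) x) + coul D sp x * ‖Ψ τ x‖ ^ 2) :=
    (integrable_finsetSum _ fun j _ => h2 j).add h3
  have i4 : Integrable (fun x => c *
      ((∑ j, D.charge (sp j) * (1 / ‖x j - v‖)) * ‖Ψ τ x‖ ^ 2)) := h5.const_mul _
  rw [← integral_const_mul, ← integral_add i1 i4]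
  refine integral_congr_ae (Filter.Eventually.of_forall fun x => ?_)
  simp only [one_mul]
  ring


end Run7.h213.P.K
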