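import Pool.Agent.Helper780_CP.LLDefs2
import Pool.Agent.Run7.h213.P.CBase
import Pool.Agent.Run7.h213.P.KInsC
import Pool.Agent.Run7.h213.P.KAvg
import Pool.Agent.Run7.h213.P.KMove0
import Pool.Agent.Run7.h213.P.CM_nrm2_pos
import Pool.Agent.Run7.h213.P.CM_stable_any
import Pool.Agent.Run7.h213.P.CDefs
import Pool.Agent.Run7.h213.P.CM_int_state
import Pool.Agent.Run7.h213.P.CM_ims
import Pool.Agent.Run7.h213.P.CM_insert_one
import Pool.Agent.Run7.h213.P.CM_relabel_num
import Pool.Agent.Run7.h213.P.CM_relabel_state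

/-! More definitions for the uniform local law. -/

set_option autoImplicit false

open MeasureTheory
open scoped Topology

namespace Run7.h213.P.K

open Pool.Agent.Helper985.CP hiding IsState Ortho QQ31988 QQ_ins0_31988 QQ_mul31988 QQ_perm31988 QQ_sum31988 cube energy idjT_act idjT_compact idjT_smooth idj_W0_act idj_W0_bound idj_W0_smooth idj_int idj_sum ims_state ins0_num ins0_swap31988 ins_disj ins_state int_state kin kinE nrm2_pos pe pe_symm peierls psl_deriv psl_nrm psl_slice psl_state psl_weight pw_parseval pwaux_parseval q985_point rb833_X rb833_state rbX rb_act_X rb_bessel rb_bessel0 rb_ip_X rb_ip_XX rb_ip_XX_meas rb_ip_XX_one rb_ip_XX_vol rb_ip_swap rb_nice_X rb_nice_state relabel_num relabel_state relaux_kin remove_none_aux row_bound slice_basic slice_energy slice_state sm_ins0_31988 sphK sph_K sph_energy sph_isState sph_kin sph_sum spin_ins0_31988 stable_any state_comb sum_pe_half term_A31988 term_B31988 term_swap31988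
open Pool.Agent.Helper780_CP hiding WI WI_add WI_const WI_coul WI_mul WI_near2 WI_one WI_pair WI_phi WI_smul WI_sum WI_wW WI_zero cost_avg icb kb klc ms_qf mulW_state multiC phb qf qf_int qf_one qf_split qf_wa rest_lower vb wm_add wm_mono wm_sum wm_tendsto

variable [Env]


/-- the inner cube -/
def icb (ℓ : ℝ) : Set E3 := {y | ∀ k, -(ℓ / 4) ≤ y k ∧ y k ≤ ℓ / 4}

/-- potential of the uniform probability distribution on the inner cube -/
noncomputable def vb (ℓ : ℝ) (z : E3) : ℝ := 8 / ℓ ^ 3 * ∫ y in icb ℓ, 1 / ‖z - y‖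

/-- the potential averaged over the inner cube -/
noncomputable def phb {S : Type} (D : Species S) {I : Type} [Fintype I] (sp : I → S) (ℓ : ℝ)
    (x : I → E3) : ℝ := ∑ i, D.charge (sp i) * vb ℓ (x i)

/-- kinetic energy near `y` -/
noncomputable def klc {S : Type} (D : Species S) {I : Type} [Fintype I] [DecidableEq I]
    (sp : I → S) (y : E3) (r : ℝ) (Ψ : Wave D I) : ℝ :=
  ∑ τ, ∫ x, ∑ j, cy y r (x j) ^ 2 * kin D sp j (Ψ τ) x

/-- kinetic energy in a ball -/
noncomputable def kb {S : Type} (D : Species S) {I : Type} [Fintype I] [DecidableEq I]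
    (sp : I → S) (y : E3) (R : ℝ) (Ψ : Wave D I) : ℝ :=
  ∑ τ, ∫ x, ∑ j, if ‖x j - y‖ < R then kin D sp j (Ψ τ) x else 0


end Run7.h213.P.K
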