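import Pool.Agent.Helper780_CP.LLDefs3
import Pool.Agent.Run7.h213.P.KLLDefs2
import Pool.Agent.Run7.h213.P.CBase

/-! Localised energy. -/

set_option autoImplicit false

open MeasureTheory
open scoped Topology

namespace Run7.h213.P.K

open Pool.Agent.Helper985.CP hiding IsState Ortho QQ31988 QQ_ins0_31988 QQ_mul31988 QQ_perm31988 QQ_sum31988 cube energy idjT_act idjT_compact idjT_smooth idj_W0_act idj_W0_bound idj_W0_smooth idj_int idj_sum ims_state ins0_num ins0_swap31988 ins_disj ins_state int_state kin kinE nrm2_pos pe pe_symm peierls psl_deriv psl_nrm psl_slice psl_state psl_weight pw_parseval pwaux_parseval q985_point rb833_X rb833_state rbX rb_act_X rb_bessel rb_bessel0 rb_ip_X rb_ip_XX rb_ip_XX_meas rb_ip_XX_one rb_ip_XX_vol rb_ip_swap rb_nice_X rb_nice_state relabel_num relabel_state relaux_kin remove_none_aux row_bound slice_basic slice_energy slice_state sm_ins0_31988 sphK sph_K sph_energy sph_isState sph_kin sph_sum spin_ins0_31988 stable_any state_comb sum_pe_half term_A31988 term_B31988 term_swap31988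
open Pool.Agent.Helper780_CP hiding MM WI WI_add WI_const WI_coul WI_mul WI_near2 WI_one WI_pair WI_phi WI_smul WI_sum WI_wW WI_zero cost_avg icb kb klc ms_qf mulW_state multiC phb qf qf_int qf_one qf_split qf_wa rest_lower vb wm_add wm_mono wm_sum wm_tendsto

variable [Env]


/-- localised energy -/
noncomputable def MM {S : Type} (D : Species S) {I : Type} [Fintype I] [DecidableEq I] (sp : I → S)
    (K₁ : ℝ) (y : E3) (r : ℝ) (Ψ : Wave D I) : ℝ :=
  klc D sp y r Ψ + wm D (mx D sp K₁ y r) Ψ

end Run7.h213.P.K
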