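import Pool.Agent.Helper985.CT.M_insN_props
import Pool.Agent.Run7.h213.P.CM_ins0_num
import Pool.Agent.Run7.h213.P.CM_ins_disj
import Pool.Agent.Run7.h213.P.CM_ins_state
import Pool.Agent.Run7.h213.P.CM_int_state
import Pool.Agent.Run7.h213.P.TDefs
import Pool.Agent.Run7.h213.P.CBase

set_option autoImplicit false

open MeasureTheory
open scoped Topology

namespace Run7.h213.P

open Pool.Agent.Helper985.CP hiding IsState Ortho QQ31988 QQ_ins0_31988 QQ_mul31988 QQ_perm31988 QQ_sum31988 cube energy idjT_act idjT_compact idjT_smooth idj_W0_act idj_W0_bound idj_W0_smooth idj_int idj_sum ins0_num ins0_swap31988 insN_props insNp_energy insNp_kin insNp_state ins_disj ins_state int_state kin kinE pe peierls q985_point relabel_num relaux_kin sm_ins0_31988 spin_ins0_31988 term_A31988 term_B31988 term_swap31988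

variable [Env]


theorem insNp_state {S : Type} (D : Species S) {I : Type} [Fintype I] [DecidableEq I]
    (sp : I → S) (ℓ : ℝ) (c : ℝ) (Φ : Wave D I) (hΦ : IsState D sp ℓ Φ) :
    IsState D sp ℓ (fun τ x => (c : ℂ) * Φ τ x) where
  smooth := fun τ => contDiff_const.mul (hΦ.smooth τ)
  compact := fun τ => (hΦ.compact τ).mul_left (f := fun _ => (c : ℂ))
  support := fun τ => (tsupport_mul_subset_right (f := fun _ => (c : ℂ)) (g := Φ τ)).trans
    (hΦ.support τ)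
  spin := by
    intro τ hτ
    apply hΦ.spin τ
    intro h0
    apply hτ
    funext x
    show (c : ℂ) * Φ τ x = 0
    rw [h0]
    simp
  symm := by
    intro i j hij hs τ x
    show (c : ℂ) * Φ (fun k => τ (Equiv.swap i j k)) (fun k => x (Equiv.swap i j k)) =
      exch D (sp i) * ((c : ℂ) * Φ τ x)
    rw [hΦ.symm i j hij hs τ x]
    ring


theorem insNp_kin {S : Type} (D : Species S) {I : Type} [Fintype I] [DecidableEq I]
    (sp : I → S) (c : ℝ) (u : (I → E3) → ℂ) (hu : ContDiff ℝ SM u) (i : I) (x : I → E3) :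
    kin D sp i (fun x => (c : ℂ) * u x) x = c ^ 2 * kin D sp i u x := by
  unfold kin
  rw [Pool.Agent.Helper985.CP.insNp_kin D sp c u hu i x, insNp_norm]
  ring


theorem insNp_energy {S : Type} (D : Species S) {I : Type} [Fintype I] [DecidableEq I]
    (sp : I → S) (c : ℝ) (Φ : Wave D I) (hΦ : ∀ τ, ContDiff ℝ SM (Φ τ)) :
    energy D sp (fun τ x => (c : ℂ) * Φ τ x) = c ^ 2 * energy D sp Φ := by
  unfold energy
  rw [Finset.mul_sum]
  refine Finset.sum_congr rfl fun τ _ => ?_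
  rw [← integral_const_mul]
  refine integral_congr_ae (Filter.Eventually.of_forall fun x => ?_)
  show (∑ i, kin D sp i (fun x => (c : ℂ) * Φ τ x) x) + coul D sp x * ‖(c : ℂ) * Φ τ x‖ ^ 2 =
    c ^ 2 * ((∑ i, kin D sp i (Φ τ) x) + coul D sp x * ‖Φ τ x‖ ^ 2)
  rw [insNp_norm, Finset.sum_congr rfl fun i _ => insNp_kin D sp c (Φ τ) (hΦ τ) i x,
    ← Finset.mul_sum]
  ring


theorem insN_props {S : Type} [DecidableEq S] (D : Species S) (hD : D.Valid) {I : Type}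
    [Fintype I] [DecidableEq I] (sp : I → S) (ℓ : ℝ) (s : S) (σ0 : Fin D.g)
    (hσ : σ0 ∈ D.spin s) (φ : E3 → ℝ) (hφ : ContDiff ℝ SM φ)
    (hφc : HasCompactSupport φ) (hφs : tsupport φ ⊆ cube ℓ) (hφ1 : ∫ z, φ z ^ 2 = 1)
    (Ψ : Wave D I) (hΨ : IsState D sp ℓ Ψ)
    (hv : ∀ τ x i, sp i = s → x i ∈ tsupport φ → Ψ τ x = 0) :
    IsState D (fun o : Option I => o.elim s sp) ℓ (insN D sp s σ0 φ Ψ) ∧
      nrm2 D (insN D sp s σ0 φ Ψ) = nrm2 D Ψ ∧
      energy D (fun o : Option I => o.elim s sp) (insN D sp s σ0 φ Ψ) = energy D sp Ψ +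
        kU D s φ * nrm2 D Ψ + D.charge s * mean D sp Ψ (pot φ) ∧
      (∀ u : E3 → ℝ, Continuous u →
        mean D (fun o : Option I => o.elim s sp) (insN D sp s σ0 φ Ψ) u =
        mean D sp Ψ u + D.charge s * (∫ z, u z * φ z ^ 2) * nrm2 D Ψ) ∧
      (∀ t, t ≠ s → ∀ K : Set E3, (∀ τ x i, sp i = t → x i ∈ K → Ψ τ x = 0) →
        ∀ (τ : Option I → Fin D.g) (x : Option I → E3) (i : I), sp i = t → x (some i) ∈ K →
          insN D sp s σ0 φ Ψ τ x = 0) := by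
  obtain ⟨c, hc⟩ : ∃ c : ℝ, c = 1 / Real.sqrt ((cnt sp s : ℝ) + 1) := ⟨_, rfl⟩
  have hcnt : (0 : ℝ) < (cnt sp s : ℝ) + 1 := by positivity
  have hc2 : c ^ 2 * ((cnt sp s : ℝ) + 1) = 1 := by
    rw [hc, div_pow, one_pow, Real.sq_sqrt hcnt.le, one_div, inv_mul_cancel₀ hcnt.ne']
  have hins : insN D sp s σ0 φ Ψ = fun τ x => (c : ℂ) * ins1 D sp s σ0 φ Ψ τ x := by
    rw [hc]; rfl
  obtain ⟨hst, hK⟩ := ins_state D sp ℓ s σ0 hσ φ hφ hφc hφs Ψ hΨ
  obtain ⟨d1, d2, d3⟩ := ins_disj D sp ℓ s σ0 φ hφ hφc Ψ hΨ hv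
  obtain ⟨n1, n2, n3⟩ := ins0_num D sp ℓ s σ0 φ hφ hφc hφ1 Ψ hΨ
  have hcard : (((Finset.univ.filter (fun i => sp i = s)).card : ℝ) + 1) =
      (cnt sp s : ℝ) + 1 := rfl
  rw [hcard] at d1 d2
  rw [hins]
  refine ⟨insNp_state D _ ℓ c _ hst, ?_, ?_, ?_, ?_⟩
  · rw [insNp_nrm2, d1, ← mul_assoc, hc2, one_mul, n1]
  · rw [insNp_energy D _ c _ hst.smooth, d2, ← mul_assoc, hc2, one_mul, n2]
  · intro u hu
    have h3 := d3 u hu
    rw [hcard] at h3
    rw [insNp_mean, h3, ← mul_assoc, hc2, one_mul, n3 u hu]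
  · intro t ht K hKz τ x i hi hx
    show (c : ℂ) * ins1 D sp s σ0 φ Ψ τ x = 0
    rw [hK t ht K hKz τ x i hi hx, mul_zero]

end Run7.h213.P
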