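import Pool.Agent.Helper985.CT.M_trace_bound
import Pool.Agent.Run7.h213.P.CM_int_state
import Pool.Agent.Run7.h213.P.CM_nrm2_pos
import Pool.Agent.Run7.h213.P.TM_state_comb
import Pool.Agent.Run7.h213.P.TDefs
import Pool.Agent.Run7.h213.P.CBase

set_option autoImplicit false

open MeasureTheory
open scoped Topology

namespace Run7.h213.P

open Pool.Agent.Helper985.CP hiding IsState Ortho cube energy int_state kin kinE nrm2_pos pe peierls state_comb trace_bound trace_bound_dens

variable [Env]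


section traceBoundAux
open scoped ComplexOrder


end traceBoundAux

open Matrix in
/-- matrix of the energy density -/
theorem trace_bound_dens {S : Type} (D : Species S) {I : Type} [Fintype I] [DecidableEq I]
    (sp : I → S) {A : Type} [Fintype A] (u : A → (I → E3) → ℂ)
    (hu : ∀ a, ContDiff ℝ SM (u a)) (x : I → E3) (γ : A → ℂ) :
    (((∑ i, kin D sp i (fun x => ∑ a, γ a * u a x) x) +
      coul D sp x * ‖∑ a, γ a * u a x‖ ^ 2 : ℝ) : ℂ) =
      star γ ⬝ᵥ (((∑ i, ((1 / (2 * D.mass (sp i)) : ℝ) : ℂ) • ∑ k : Fin 3,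
        Matrix.of fun a b =>
          star (fderiv ℝ (u a) x (Pi.single i (EuclideanSpace.single k (1 : ℝ)))) *
            fderiv ℝ (u b) x (Pi.single i (EuclideanSpace.single k (1 : ℝ)))) +
        ((coul D sp x + ∑ i, Env.U (x i) : ℝ) : ℂ) • Matrix.of fun a b => star (u a x) * u b x) *ᵥ γ) := by
  have hn : ∀ z : ℂ, ((‖z‖ ^ 2 : ℝ) : ℂ) = star z * z := by
    intro z
    rw [Complex.star_def, Complex.conj_mul']
    push_cast
    rfl
  have hd : ∀ w, fderiv ℝ (fun x => ∑ a, γ a * u a x) x w = ∑ a, γ a * fderiv ℝ (u a) x w := by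
    intro w
    have hda : ∀ a, DifferentiableAt ℝ (u a) x := fun a =>
      ((hu a).differentiable (by simp)).differentiableAt
    rw [fderiv_fun_sum (fun a _ => (hda a).const_mul (γ a))]
    rw [ContinuousLinearMap.sum_apply]
    refine Finset.sum_congr rfl fun a _ => ?_
    rw [fderiv_const_mul (hda a)]
    rfl
  have he : (∑ i, kin D sp i (fun x => ∑ a, γ a * u a x) x) +
      coul D sp x * ‖∑ a, γ a * u a x‖ ^ 2 =
      (∑ i, Pool.Agent.Helper985.CP.kin D sp i (fun x => ∑ a, γ a * u a x) x) +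
      (coul D sp x + ∑ i, Env.U (x i)) * ‖∑ a, γ a * u a x‖ ^ 2 := by
    unfold kin
    rw [Finset.sum_add_distrib, ← Finset.sum_mul]
    ring
  rw [he]
  rw [add_mulVec, dotProduct_add, sum_mulVec, dotProduct_sum, smul_mulVec, dotProduct_smul,
    ← trace_bound_rank]
  rw [Complex.ofReal_add, Complex.ofReal_mul, hn, smul_eq_mul, Complex.ofReal_sum]
  congr 1
  refine Finset.sum_congr rfl fun i _ => ?_
  rw [smul_mulVec, dotProduct_smul, sum_mulVec, dotProduct_sum, Pool.Agent.Helper985.CP.kin, Complex.ofReal_mul,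
    Complex.ofReal_sum, smul_eq_mul]
  congr 1
  refine Finset.sum_congr rfl fun k _ => ?_
  rw [← trace_bound_rank, hd, hn]

/-- Peierls' inequality for families that are not orthonormal -/
theorem trace_bound {S : Type} (D : Species S) {I : Type} [Fintype I] [DecidableEq I]
    (sp : I → S) (ℓ T : ℝ) (hT : 0 < T) (Z : ℝ) (hZ : ∀ z ∈ peierls D sp ℓ T, z ≤ Z)
    {A : Type} [Fintype A] (v : A → Wave D I) (hv : ∀ a, IsState D sp ℓ (v a)) (c : ℝ)
    (hc : 0 ≤ c)
    (hB : ∀ γ : A → ℂ, nrm2 D (fun τ x => ∑ a, γ a * v a τ x) ≤ c * ∑ a, ‖γ a‖ ^ 2) :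
    ∑ a, nrm2 D (v a) * Real.exp (-(energy D sp (v a)) / (nrm2 D (v a) * T)) ≤ c * Z := by
  classical
  have hs : ∀ γ : A → ℂ, IsState D sp ℓ (fun τ x => ∑ a, γ a * v a τ x) :=
    fun γ => state_comb D sp ℓ v hv γ
  let gx : (I → Fin D.g) → (I → E3) → Matrix A A ℂ := fun τ x =>
    Matrix.of fun a b => star (v a τ x) * v b τ x
  let hx : (I → Fin D.g) → (I → E3) → Matrix A A ℂ := fun τ x =>
    (∑ i, ((1 / (2 * D.mass (sp i)) : ℝ) : ℂ) • ∑ k : Fin 3,
        Matrix.of fun a b =>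
          star (fderiv ℝ (v a τ) x (Pi.single i (EuclideanSpace.single k (1 : ℝ)))) *
            fderiv ℝ (v b τ) x (Pi.single i (EuclideanSpace.single k (1 : ℝ)))) +
        ((coul D sp x + ∑ i, Env.U (x i) : ℝ) : ℂ) • Matrix.of fun a b => star (v a τ x) * v b τ x
  have hGint : ∀ τ (γ δ : A → ℂ), ∫ x, star γ ⬝ᵥ (Matrix.mulVec (gx τ x) δ) =
      star γ ⬝ᵥ (Matrix.mulVec (Matrix.of fun a b => ∫ x, gx τ x a b) δ) := by
    intro τ
    apply trace_bound_int volume (fun γ x => ‖∑ a, γ a * v a τ x‖ ^ 2)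
    · intro γ x
      rw [← trace_bound_rank, Complex.star_def, Complex.conj_mul']
      push_cast
      rfl
    · intro γ
      exact (int_state D sp ℓ _ (hs γ) τ).1
  have hHint : ∀ τ (γ δ : A → ℂ), ∫ x, star γ ⬝ᵥ (Matrix.mulVec (hx τ x) δ) =
      star γ ⬝ᵥ (Matrix.mulVec (Matrix.of fun a b => ∫ x, hx τ x a b) δ) := by
    intro τ
    apply trace_bound_int volume (fun γ x => (∑ i, kin D sp i (fun x => ∑ a, γ a * v a τ x) x) +
      coul D sp x * ‖∑ a, γ a * v a τ x‖ ^ 2)
    · intro γ x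
      exact trace_bound_dens D sp (fun a => v a τ) (fun a => (hv a).smooth τ) x γ
    · intro γ
      obtain ⟨_, k, l, _⟩ := int_state D sp ℓ _ (hs γ) τ
      exact (integrable_finsetSum _ fun i _ => k i).add l
  let G : Matrix A A ℂ := ∑ τ, Matrix.of fun a b => ∫ x, gx τ x a b
  let H : Matrix A A ℂ := ∑ τ, Matrix.of fun a b => ∫ x, hx τ x a b
  have ipG : ∀ γ δ : A → ℂ, ip D (fun τ x => ∑ a, γ a * v a τ x)
      (fun τ x => ∑ a, δ a * v a τ x) = star γ ⬝ᵥ (Matrix.mulVec G δ) := by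
    intro γ δ
    simp only [ip, G]
    rw [Matrix.sum_mulVec, dotProduct_sum]
    refine Finset.sum_congr rfl fun τ _ => ?_
    rw [← hGint]
    refine integral_congr_ae (ae_of_all _ fun x => ?_)
    exact trace_bound_rank _ _ _
  have NG : ∀ γ : A → ℂ, ((nrm2 D (fun τ x => ∑ a, γ a * v a τ x) : ℝ) : ℂ) =
      star γ ⬝ᵥ (Matrix.mulVec G γ) := by
    intro γ
    rw [← ipG, nrm2, ip, Complex.ofReal_sum]
    refine Finset.sum_congr rfl fun τ _ => ?_
    rw [← integral_complex_ofReal]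
    refine integral_congr_ae (ae_of_all _ fun x => ?_)
    beta_reduce
    rw [Complex.conj_mul']
    push_cast
    rfl
  have EH : ∀ γ : A → ℂ, ((energy D sp (fun τ x => ∑ a, γ a * v a τ x) : ℝ) : ℂ) =
      star γ ⬝ᵥ (Matrix.mulVec H γ) := by
    intro γ
    simp only [H]
    rw [Matrix.sum_mulVec, dotProduct_sum, energy, Complex.ofReal_sum]
    refine Finset.sum_congr rfl fun τ _ => ?_
    rw [← hHint, ← integral_complex_ofReal]
    refine integral_congr_ae (ae_of_all _ fun x => ?_)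
    exact trace_bound_dens D sp (fun a => v a τ) (fun a => (hv a).smooth τ) x γ
  have hGH : G.IsHermitian := trace_bound_herm G _ NG
  have hHH : H.IsHermitian := trace_bound_herm H _ EH
  have hnn : ∀ Ψ : Wave D I, 0 ≤ nrm2 D Ψ := by
    intro Ψ
    exact Finset.sum_nonneg fun τ _ => integral_nonneg fun x => sq_nonneg _
  have hz : ∀ γ : A → ℂ, Matrix.mulVec G γ = 0 →
      (fun τ x => ∑ a, γ a * v a τ x) = (0 : Wave D I) := by
    intro γ h
    by_contra hne
    have h1 := nrm2_pos D sp ℓ _ (hs γ) hne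
    have h2 := NG γ
    rw [h, dotProduct_zero] at h2
    have h3 : nrm2 D (fun τ x => ∑ a, γ a * v a τ x) = 0 := by exact_mod_cast h2
    linarith
  have hker : ∀ γ : A → ℂ, Matrix.mulVec G γ = 0 → Matrix.mulVec H γ = 0 := by
    intro γ h
    have h0 := hz γ h
    have hE : ∀ (δ : A → ℂ) (s : ℂ), star (δ + s • γ) ⬝ᵥ (Matrix.mulVec H (δ + s • γ)) =
        star δ ⬝ᵥ (Matrix.mulVec H δ) := by
      intro δ s
      rw [← EH, ← EH]
      have h1 : (fun τ x => ∑ a, (δ + s • γ) a * v a τ x) =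
          (fun τ x => ∑ a, δ a * v a τ x : Wave D I) := by
        funext τ x
        have h2 : ∑ a, γ a * v a τ x = 0 := congrFun (congrFun h0 τ) x
        simp only [Pi.add_apply, Pi.smul_apply, smul_eq_mul, add_mul, Finset.sum_add_distrib,
          mul_assoc, ← Finset.mul_sum]
        rw [h2]
        simp
      rw [h1]
    have hγγ : star γ ⬝ᵥ (Matrix.mulVec H γ) = 0 := by
      have := hE 0 1
      simpa using this
    have hB0 : ∀ δ : A → ℂ, star δ ⬝ᵥ (Matrix.mulVec H γ) = 0 := by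
      intro δ
      have h1 := hE δ 1
      have h2 := hE δ Complex.I
      rw [trace_bound_exp2, hγγ] at h1 h2
      simp only [star_one, Complex.star_def, Complex.conj_I] at h1 h2
      have h3 : star δ ⬝ᵥ (Matrix.mulVec H γ) + star γ ⬝ᵥ (Matrix.mulVec H δ) = 0 := by
        linear_combination h1
      have h4 : Complex.I * (star δ ⬝ᵥ (Matrix.mulVec H γ) - star γ ⬝ᵥ (Matrix.mulVec H δ)) = 0 := by
        linear_combination h2
      linear_combination (1 / 2) * h3 - (Complex.I / 2) * h4 +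
        (1 / 2) * (star δ ⬝ᵥ (Matrix.mulVec H γ) - star γ ⬝ᵥ (Matrix.mulVec H δ)) * Complex.I_sq
    funext a
    have := hB0 (Pi.single a 1)
    simpa using this
  obtain ⟨J, i1, i2, Γ, lam, h1, h2, h3⟩ := trace_bound_abs G H
    (trace_bound_psd G hGH (fun γ => nrm2 D (fun τ x => ∑ a, γ a * v a τ x)) (fun γ => hnn _) NG)
    hHH hker c T hc (by
    intro γ
    rw [← NG, Complex.ofReal_re]
    exact hB γ)
  have hv1 : ∀ a, (fun τ x => ∑ b, (Pi.single a 1 : A → ℂ) b * v b τ x) = v a := by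
    intro a
    funext τ x
    simp [Pi.single_apply]
  have g1 : ∀ a, (G a a).re = nrm2 D (v a) := by
    intro a
    have h := NG (Pi.single a 1)
    rw [hv1] at h
    have e : star (Pi.single a (1:ℂ)) ⬝ᵥ (Matrix.mulVec G (Pi.single a 1)) = G a a := by simp
    rw [← e, ← h, Complex.ofReal_re]
  have e1 : ∀ a, (H a a).re = energy D sp (v a) := by
    intro a
    have h := EH (Pi.single a 1)
    rw [hv1] at h
    have e : star (Pi.single a (1:ℂ)) ⬝ᵥ (Matrix.mulVec H (Pi.single a 1)) = H a a := by simp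
    rw [← e, ← h, Complex.ofReal_re]
  simp only [g1, e1] at h3
  refine h3.trans (mul_le_mul_of_nonneg_left ?_ hc)
  let e := (Fintype.equivFin J).symm
  apply hZ
  refine ⟨Fintype.card J, fun j => (fun τ x => ∑ a, Γ (e j) a * v a τ x),
    ⟨fun i => hs _, fun i j => ?_⟩, ?_⟩
  · rw [ipG, h1]
    simp [e.injective.eq_iff]
  · rw [← e.sum_comp]
    refine Finset.sum_congr rfl fun j _ => ?_
    have h := EH (Γ (e j))
    rw [h2] at h
    have h' : energy D sp (fun τ x => ∑ a, Γ (e j) a * v a τ x) = lam (e j) := by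
      exact_mod_cast h
    rw [h']

end Run7.h213.P
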