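import Pool.Agent.Helper985.CT.M_moveT_none
import Pool.Agent.Run7.h213.P.CM_int_state
import Pool.Agent.Run7.h213.P.CM_nrm2_pos
import Pool.Agent.Run7.h213.P.TM_insN_props
import Pool.Agent.Run7.h213.P.TM_psl_energy
import Pool.Agent.Run7.h213.P.TM_psl_nrm
import Pool.Agent.Run7.h213.P.TM_psl_state
import Pool.Agent.Run7.h213.P.TM_row_bound
import Pool.Agent.Run7.h213.P.TM_state_comb
import Pool.Agent.Run7.h213.P.TM_trace_bound
import Pool.Agent.Run7.h213.P.TDefs
import Pool.Agent.Run7.h213.P.CBase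
import Pool.Agent.Run7.h213.P.CDefs

set_option autoImplicit false

open MeasureTheory
open scoped Topology

namespace Run7.h213.P

open Pool.Agent.Helper985.CP hiding IsState MT_core MT_energy_smul MT_psl_lin MT_slice_int MT_state_smul MT_zero Ortho QQ31988 QQ_ins0_31988 QQ_mul31988 QQ_perm31988 QQ_sum31988 cube energy idjT_act idjT_compact idjT_smooth idj_W0_act idj_W0_bound idj_W0_smooth idj_int idj_sum ins0_num ins0_swap31988 insN_props insNp_energy insNp_kin insNp_state ins_disj ins_state int_state kin kinE moveT_none nrm2_pos pe peierls psl_deriv psl_energy psl_energy_k psl_energy_kint psl_energy_vint psl_energy_w psl_nrm psl_slice psl_state psl_weight pw_parseval pwaux_parseval q985_point rb833_X rb833_state rbX rb_act_X rb_bessel rb_bessel0 rb_ip_X rb_ip_XX rb_ip_XX_meas rb_ip_XX_one rb_ip_XX_vol rb_ip_swap rb_nice_X rb_nice_state relabel_num relaux_kin row_bound slice_basic slice_energy slice_state sm_ins0_31988 spin_ins0_31988 state_comb term_A31988 term_B31988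 term_swap31988 trace_bound trace_bound_dens

variable [Env]


section MTaux

theorem MT_state_smul {S : Type} (D : Species S) {I : Type} [Fintype I] [DecidableEq I]
    (sp : I → S) (ℓ : ℝ) (Ψ : Wave D I) (hΨ : IsState D sp ℓ Ψ) (c : ℂ) :
    IsState D sp ℓ (fun τ x => c * Ψ τ x) := by
  have h := state_comb D sp ℓ (A := Unit) (fun _ => Ψ) (fun _ => hΨ) (fun _ => c)
  simpa using h


theorem MT_energy_smul {S : Type} (D : Species S) {I : Type} [Fintype I] [DecidableEq I]
    (sp : I → S) (ℓ : ℝ) (Ψ : Wave D I) (hΨ : IsState D sp ℓ Ψ) (c : ℝ) :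
    energy D sp (fun τ x => (c : ℂ) * Ψ τ x) = c ^ 2 * energy D sp Ψ := by
  unfold energy
  rw [Finset.mul_sum]
  refine Finset.sum_congr rfl fun τ _ => ?_
  rw [← integral_const_mul]
  refine integral_congr_ae (Filter.Eventually.of_forall fun x => ?_)
  have hd : DifferentiableAt ℝ (Ψ τ) x :=
    ((hΨ.smooth τ).differentiable (by simp)).differentiableAt
  have hk : ∀ i, kin D sp i (fun x => (c : ℂ) * Ψ τ x) x = c ^ 2 * kin D sp i (Ψ τ) x := by
    intro i
    exact insNp_kin D sp c (Ψ τ) (hΨ.smooth τ) i x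
  simp only [hk, norm_mul, Complex.norm_real, mul_pow, Real.norm_eq_abs, sq_abs]
  rw [← Finset.mul_sum]
  ring


theorem MT_slice_int {S : Type} (D : Species S) {I : Type} [Fintype I] [DecidableEq I]
    (sp : Option I → S) (ℓ : ℝ) (Φ : Wave D (Option I)) (hΦ : IsState D sp ℓ Φ) (u : E3 → ℂ)
    (hu : Continuous u) (σ : Fin D.g) (τ : I → Fin D.g) (x : I → E3) :
    Integrable (fun z => (starRingEnd ℂ) (u z) * slice D σ z Φ τ x) := by
  have hemb : Topology.IsClosedEmbedding
      (fun z : E3 => (fun o : Option I => o.elim z x : Option I → E3)) := by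
    have hc : Continuous (fun z : E3 => (fun o : Option I => o.elim z x : Option I → E3)) := by
      refine continuous_pi fun o => ?_
      cases o with
      | none => exact continuous_id
      | some i => exact continuous_const
    have hl : Function.LeftInverse (fun y : Option I → E3 => y none)
        (fun z : E3 => (fun o : Option I => o.elim z x : Option I → E3)) := fun z => rfl
    exact hl.isClosedEmbedding (continuous_apply none) hc
  have hc : Continuous (fun z => slice D σ z Φ τ x) := by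
    unfold slice
    exact ((hΦ.smooth _).continuous).comp hemb.continuous
  have hs : HasCompactSupport (fun z => slice D σ z Φ τ x) := by
    unfold slice
    exact (hΦ.compact (fun o => o.elim σ τ)).comp_isClosedEmbedding hemb
  have hc2 : Continuous (fun z => (starRingEnd ℂ) (u z) * slice D σ z Φ τ x) :=
    (Complex.continuous_conj.comp hu).mul hc
  exact hc2.integrable_of_hasCompactSupport hs.mul_left

theorem MT_psl_lin {S : Type} (D : Species S) {I : Type} [Fintype I] [DecidableEq I]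
    (sp : Option I → S) (ℓ : ℝ) {k : ℕ} (Φ : Fin k → Wave D (Option I))
    (hΦ : ∀ j, IsState D sp ℓ (Φ j)) (u : E3 → ℂ)
    (hu : Continuous u) (σ : Fin D.g) (γ : Fin k → ℂ) (τ : I → Fin D.g) (x : I → E3) :
    psl D u σ (fun τ x => ∑ j, γ j * Φ j τ x) τ x = ∑ j, γ j * psl D u σ (Φ j) τ x := by
  unfold psl
  have h1 : ∀ j, γ j * ∫ z, (starRingEnd ℂ) (u z) * slice D σ z (Φ j) τ x =
      ∫ z, γ j * ((starRingEnd ℂ) (u z) * slice D σ z (Φ j) τ x) := fun j =>
    (integral_const_mul _ _).symm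
  simp only [h1]
  rw [← integral_finset_sum _ (fun j _ => (MT_slice_int D sp ℓ (Φ j) (hΦ j) u hu σ τ x).const_mul _)]
  refine integral_congr_ae (Filter.Eventually.of_forall fun z => ?_)
  simp only [slice]
  rw [Finset.mul_sum]
  refine Finset.sum_congr rfl fun j _ => ?_
  ring


theorem MT_zero {S : Type} (D : Species S) {I : Type} [Fintype I] [DecidableEq I]
    (sp : I → S) (ℓ : ℝ) (Ψ : Wave D I) (hΨ : IsState D sp ℓ Ψ) (h : nrm2 D Ψ = 0) (u : E3 → ℝ) :
    energy D sp Ψ = 0 ∧ mean D sp Ψ u = 0 := by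
  have h0 : Ψ = 0 := by
    by_contra hne
    exact absurd h (nrm2_pos D sp ℓ Ψ hΨ hne).ne'
  have e : (fun τ x => ((0 : ℝ) : ℂ) * Ψ τ x) = Ψ := by
    rw [h0]
    funext τ x
    simp
  constructor
  · have := MT_energy_smul D sp ℓ Ψ hΨ 0
    rw [e] at this
    rw [this]; simp
  · have := MT_mean_smul D sp Ψ u 0
    rw [e] at this
    rw [this]; simp


/-- the synthesis bound and Peierls for one spin and a finite set of plane waves -/
theorem MT_core {S : Type} [DecidableEq S] (D : Species S) (hD : D.Valid) {I : Type}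
    [Fintype I] [DecidableEq I] (sp : Option I → S) (ℓ T : ℝ) (hℓ : 0 < ℓ) (hT : 0 < T)
    (Z : ℝ) (hZ : ∀ z ∈ peierls D sp ℓ T, z ≤ Z)
    (p : (Fin 3 → ℤ) → ℝ) (hp : ∀ m, 0 < p m) (K : Finset (Fin 3 → ℤ)) (hp1 : ∑ m ∈ K, p m ≤ 1)
    (M : ℝ) (hM0 : 0 ≤ M) (hM : ∀ m, p m * (cnt sp (sp none) : ℝ) ≤ M) (φ : E3 → ℝ)
    (hφ : ContDiff ℝ SM φ) (hφc : HasCompactSupport φ) (hφs : tsupport φ ⊆ cube ℓ)
    (hφ1 : ∫ z, φ z ^ 2 = 1) {k : ℕ} (Φ : Fin k → Wave D (Option I))
    (hΦ : ∀ j, IsState D sp ℓ (Φ j)) (hv : ∀ j τ x i, x i ∈ tsupport φ → Φ j τ x = 0)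
    (hB : ∀ γ : Fin k → ℂ, nrm2 D (fun τ x => ∑ j, γ j * Φ j τ x) ≤ ∑ j, ‖γ j‖ ^ 2)
    (σ : Fin D.g) :
    ∑ j, ∑ m ∈ K, p m * (nrm2 D (psl D (pwave (Env.A * ℓ) m) σ (Φ j)) *
      Real.exp (-(energy D (fun i => sp (some i)) (psl D (pwave (Env.A * ℓ) m) σ (Φ j)) +
        kU D (sp none) φ * nrm2 D (psl D (pwave (Env.A * ℓ) m) σ (Φ j)) +
        D.charge (sp none) * mean D (fun i => sp (some i)) (psl D (pwave (Env.A * ℓ) m) σ (Φ j)) (pot φ)) /
        (nrm2 D (psl D (pwave (Env.A * ℓ) m) σ (Φ j)) * T))) ≤ ((1 + M) / (cnt sp (sp none) : ℝ)) * Z := by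
  obtain ⟨σ0, hσ0⟩ := hD.spin_nonempty (sp none)
  have hcnt : (0 : ℝ) < (cnt sp (sp none) : ℝ) := by
    have : 0 < cnt sp (sp none) := by
      unfold cnt
      exact Finset.card_pos.2 ⟨none, by simp⟩
    exact_mod_cast this
  have hspe : (fun o : Option I => o.elim (sp none) (fun i => sp (some i))) = sp := by
    funext o
    cases o <;> rfl
  -- the vanishing of slices
  have hvan : ∀ (j : Fin k) (m : Fin 3 → ℤ) (τ : I → Fin D.g) (x : I → E3) (i : I),
      x i ∈ tsupport φ → psl D (pwave (Env.A * ℓ) m) σ (Φ j) τ x = 0 := by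
    intro j m τ x i hx
    unfold psl slice
    have : ∀ z : E3, (starRingEnd ℂ) (pwave (Env.A * ℓ) m z) *
        Φ j (fun o => o.elim σ τ) (fun o => o.elim z x) = 0 := by
      intro z
      rw [hv j _ _ (some i) hx, mul_zero]
    simp only [this, integral_zero]
  have hst : ∀ (j : Fin k) (m : Fin 3 → ℤ),
      IsState D (fun i => sp (some i)) ℓ (psl D (pwave (Env.A * ℓ) m) σ (Φ j)) := fun j m =>
    psl_state D sp ℓ (Φ j) (hΦ j) _ (MT_pwave_cont (Env.A * ℓ) m) σ
  have hst' : ∀ a : Fin k × K,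
      IsState D (fun i => sp (some i)) ℓ
        (fun τ x => ((Real.sqrt (p a.2) : ℝ) : ℂ) * psl D (pwave (Env.A * ℓ) a.2) σ (Φ a.1) τ x) := fun a =>
    MT_state_smul D _ ℓ _ (hst a.1 a.2) _
  have hvan' : ∀ a : Fin k × K, ∀ τ x i, (fun i => sp (some i)) i = sp none → x i ∈ tsupport φ →
      (fun τ x => ((Real.sqrt (p a.2) : ℝ) : ℂ) * psl D (pwave (Env.A * ℓ) a.2) σ (Φ a.1) τ x) τ x = 0 := by
    intro a τ x i _ hx
    show ((Real.sqrt (p a.2) : ℝ) : ℂ) * psl D (pwave (Env.A * ℓ) a.2) σ (Φ a.1) τ x = 0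
    rw [hvan a.1 a.2 τ x i hx, mul_zero]
  have hins := fun a : Fin k × K => insN_props D hD (fun i => sp (some i)) ℓ (sp none) σ0 hσ0 φ
    hφ hφc hφs hφ1 _ (hst' a) (hvan' a)
  have htb := trace_bound D sp ℓ T hT Z hZ (A := Fin k × K)
    (fun a => insN D (fun i => sp (some i)) (sp none) σ0 φ
      (fun τ x => ((Real.sqrt (p a.2) : ℝ) : ℂ) * psl D (pwave (Env.A * ℓ) a.2) σ (Φ a.1) τ x))
    (fun a => by have := (hins a).1; rw [hspe] at this; exact this)
    ((1 + M) / (cnt sp (sp none) : ℝ)) (by positivity) (by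
      intro γ
      have e1 := MT_insN_lin D (fun i => sp (some i)) (sp none) σ0 φ
        (fun a : Fin k × K => fun τ x => ((Real.sqrt (p a.2) : ℝ) : ℂ) *
          psl D (pwave (Env.A * ℓ) a.2) σ (Φ a.1) τ x) γ
      rw [← e1]
      have hstc := state_comb D (fun i => sp (some i)) ℓ _ hst' γ
      have e2 := (insN_props D hD (fun i => sp (some i)) ℓ (sp none) σ0 hσ0 φ
        hφ hφc hφs hφ1 _ hstc (by
          intro τ x i h1 h2
          exact Finset.sum_eq_zero fun a _ => by
            have := hvan' a τ x i h1 h2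
            simp only at this
            rw [this, mul_zero])).2.1
      rw [e2]
      classical
      -- regroup
      let γ' : (Fin 3 → ℤ) → Fin k → ℂ := fun m j => if h : m ∈ K then γ (j, ⟨m, h⟩) else 0
      have hreg : (fun (τ : I → Fin D.g) (x : I → E3) => ∑ a : Fin k × K, γ a *
          (((Real.sqrt (p a.2) : ℝ) : ℂ) * psl D (pwave (Env.A * ℓ) a.2) σ (Φ a.1) τ x)) =
          fun τ x => ∑ m ∈ K, ((Real.sqrt (p m) : ℝ) : ℂ) *
            psl D (pwave (Env.A * ℓ) m) σ (fun τ x => ∑ j, γ' m j * Φ j τ x) τ x := by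
        funext τ x
        rw [Fintype.sum_prod_type_right, ← Finset.sum_coe_sort K]
        refine Finset.sum_congr rfl fun m _ => ?_
        rw [MT_psl_lin D sp ℓ Φ hΦ _ (MT_pwave_cont (Env.A * ℓ) m) σ, Finset.mul_sum]
        refine Finset.sum_congr rfl fun j _ => ?_
        have : γ' m j = γ (j, m) := by
          simp only [γ', m.2, dif_pos]
        rw [this]
        ring
      rw [hreg]
      have hrb := row_bound D sp ℓ hℓ p (fun m => (hp m).le) K hp1 M hM σ
        (fun m => fun τ x => ∑ j, γ' m j * Φ j τ x) (fun m => state_comb D sp ℓ Φ hΦ _)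
      refine hrb.trans ?_
      refine mul_le_mul_of_nonneg_left ?_ (by positivity)
      refine (Finset.sum_le_sum fun m _ => hB (γ' m)).trans ?_
      rw [Fintype.sum_prod_type_right, ← Finset.sum_coe_sort K]
      refine le_of_eq (Finset.sum_congr rfl fun m _ => Finset.sum_congr rfl fun j _ => ?_)
      simp only [γ', m.2, dif_pos])
  refine le_trans (le_of_eq ?_) htb
  rw [Fintype.sum_prod_type]
  refine Finset.sum_congr rfl fun j _ => ?_
  rw [← Finset.sum_coe_sort K]
  refine Finset.sum_congr rfl fun m _ => ?_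
  have hi := hins (j, m)
  rw [hspe] at hi
  have hs2 : Real.sqrt (p m) ^ 2 = p m := Real.sq_sqrt (hp m).le
  have en : nrm2 D (insN D (fun i => sp (some i)) (sp none) σ0 φ
      (fun τ x => ((Real.sqrt (p m) : ℝ) : ℂ) * psl D (pwave (Env.A * ℓ) m) σ (Φ j) τ x)) =
      p m * nrm2 D (psl D (pwave (Env.A * ℓ) m) σ (Φ j)) := by
    have := hi.2.1
    simp only at this
    rw [this, MT_nrm2_smul, hs2]
  have ee : energy D sp (insN D (fun i => sp (some i)) (sp none) σ0 φ
      (fun τ x => ((Real.sqrt (p m) : ℝ) : ℂ) * psl D (pwave (Env.A * ℓ) m) σ (Φ j) τ x)) =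
      p m * (energy D (fun i => sp (some i)) (psl D (pwave (Env.A * ℓ) m) σ (Φ j)) +
        kU D (sp none) φ * nrm2 D (psl D (pwave (Env.A * ℓ) m) σ (Φ j)) +
        D.charge (sp none) * mean D (fun i => sp (some i)) (psl D (pwave (Env.A * ℓ) m) σ (Φ j)) (pot φ)) := by
    have := hi.2.2.1
    simp only at this
    rw [this, MT_nrm2_smul, MT_energy_smul D _ ℓ _ (hst j m), MT_mean_smul, hs2]
    ring
  simp only
  rw [en, ee]
  have key : ∀ P w E : ℝ, P ≠ 0 → P * (w * Real.exp (-E / (w * T))) =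
      P * w * Real.exp (-(P * E) / (P * w * T)) := by
    intro P w E hP
    have : -(P * E) / (P * w * T) = -E / (w * T) := by
      rw [← mul_neg, mul_assoc P w T, mul_div_mul_left _ _ hP]
    rw [this, mul_assoc]
  exact key _ _ _ (hp m).ne'

end MTaux

theorem moveT_none {S : Type} [DecidableEq S] (D : Species S) (hD : D.Valid) {I : Type}
    [Fintype I] [DecidableEq I] (sp : Option I → S) (ℓ T θ : ℝ) (hℓ : 0 < ℓ) (hT : 0 < T)
    (hθ : 0 < θ) (Z : ℝ) (hZ : ∀ z ∈ peierls D sp ℓ T, z ≤ Z) (L : ℝ)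
    (hL : HasSum (fun m => Real.exp (-(θ / (2 * D.mass (sp none) * T) * pen (Env.A * ℓ) m) - L)) 1)
    (M : ℝ) (hM : (cnt sp (sp none) : ℝ) * Real.exp (-L) ≤ M) (φ : E3 → ℝ)
    (hφ : ContDiff ℝ SM φ) (hφc : HasCompactSupport φ) (hφs : tsupport φ ⊆ cube ℓ)
    (hφ1 : ∫ z, φ z ^ 2 = 1) {k : ℕ} (Φ : Fin k → Wave D (Option I))
    (hΦ : ∀ j, IsState D sp ℓ (Φ j)) (hv : ∀ j τ x i, x i ∈ tsupport φ → Φ j τ x = 0)
    (hB : ∀ γ : Fin k → ℂ, nrm2 D (fun τ x => ∑ j, γ j * Φ j τ x) ≤ ∑ j, ‖γ j‖ ^ 2) :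
    ∑ j, nrm2 D (Φ j) * Real.exp (-(energy D sp (Φ j) - pe D sp none (Φ j) +
      θ * kinE D sp none (Φ j) + D.charge (sp none) * mean D sp (Φ j) (pot φ) +
      kU D (sp none) φ * nrm2 D (Φ j)) / (nrm2 D (Φ j) * T) - L +
      Real.log (cnt sp (sp none))) ≤ D.g * (1 + M) * Z := by
  have hcnt : (0 : ℝ) < (cnt sp (sp none) : ℝ) := by
    have : 0 < cnt sp (sp none) := by
      unfold cnt
      exact Finset.card_pos.2 ⟨none, by simp⟩
    exact_mod_cast this
  have hmass : 0 < D.mass (sp none) := hD.mass_pos _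
  have hM0 : 0 ≤ M := le_trans (by positivity) hM
  let p : (Fin 3 → ℤ) → ℝ := fun m =>
    Real.exp (-(θ / (2 * D.mass (sp none) * T) * pen (Env.A * ℓ) m) - L)
  have hp : ∀ m, 0 < p m := fun m => Real.exp_pos _
  have hpM : ∀ m, p m * (cnt sp (sp none) : ℝ) ≤ M := by
    intro m
    refine le_trans ?_ hM
    rw [mul_comm]
    refine mul_le_mul_of_nonneg_left ?_ hcnt.le
    refine Real.exp_le_exp.2 ?_
    have := MT_pen_nonneg (Env.A * ℓ) m
    have h2 : 0 ≤ θ / (2 * D.mass (sp none) * T) * pen (Env.A * ℓ) m := by positivity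
    linarith
  have hp1 : ∀ K : Finset (Fin 3 → ℤ), ∑ m ∈ K, p m ≤ 1 := fun K =>
    sum_le_hasSum K (fun m _ => (hp m).le) hL
  -- abbreviations
  let w : Fin k → (Fin 3 → ℤ) → Fin D.g → ℝ := fun j m σ => nrm2 D (psl D (pwave (Env.A * ℓ) m) σ (Φ j))
  let en : Fin k → (Fin 3 → ℤ) → Fin D.g → ℝ := fun j m σ =>
    energy D (fun i => sp (some i)) (psl D (pwave (Env.A * ℓ) m) σ (Φ j))
  let mn : Fin k → (Fin 3 → ℤ) → Fin D.g → ℝ := fun j m σ =>
    mean D (fun i => sp (some i)) (psl D (pwave (Env.A * ℓ) m) σ (Φ j)) (pot φ)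
  let G : ℝ := kU D (sp none) φ
  let q : ℝ := D.charge (sp none)
  let x : Fin k → (Fin 3 → ℤ) → Fin D.g → ℝ := fun j m σ =>
    -(en j m σ + G * w j m σ + q * mn j m σ) / T + w j m σ * Real.log (p m)
  have hst : ∀ (j : Fin k) (m : Fin 3 → ℤ) (σ : Fin D.g),
      IsState D (fun i => sp (some i)) ℓ (psl D (pwave (Env.A * ℓ) m) σ (Φ j)) := fun j m σ =>
    psl_state D sp ℓ (Φ j) (hΦ j) _ (MT_pwave_cont (Env.A * ℓ) m) σ
  have hw0 : ∀ j m σ, 0 ≤ w j m σ := fun j m σ => MT_nrm2_nonneg D _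
  have hx0 : ∀ j m σ, w j m σ = 0 → x j m σ = 0 := by
    intro j m σ h
    obtain ⟨h1, h2⟩ := MT_zero D _ ℓ _ (hst j m σ) h (pot φ)
    show -(en j m σ + G * w j m σ + q * mn j m σ) / T + w j m σ * Real.log (p m) = 0
    rw [h]
    show -(energy D (fun i => sp (some i)) (psl D (pwave (Env.A * ℓ) m) σ (Φ j)) + G * 0 +
      q * mean D (fun i => sp (some i)) (psl D (pwave (Env.A * ℓ) m) σ (Φ j)) (pot φ)) / T +
      0 * Real.log (p m) = 0
    rw [h1, h2]
    simp
  let c : ℝ := (1 + M) / (cnt sp (sp none) : ℝ)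
  let Q : Fin k → ℝ := fun j => ∑ τ, ∫ x, D.charge (sp none) * pot φ (x none) * ‖Φ j τ x‖ ^ 2
  let W : Fin k → ℝ := fun j => nrm2 D (Φ j)
  let X : Fin k → ℝ := fun j => -((energy D sp (Φ j) - pe D sp none (Φ j)) + G * W j +
    q * (mean D sp (Φ j) (pot φ) - Q j)) / T +
    (-(θ / (2 * D.mass (sp none) * T)) *
      (2 * D.mass (sp none) * Pool.Agent.Helper985.CP.kinE D sp none (Φ j)) - L * W j)
  have hjen := jensen_family (ι := Fin 3 → ℤ) (k := k) (fun j m => ∑ σ, w j m σ)
    (fun j m => ∑ σ, x j m σ) W X (D.g * (c * Z))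
    (fun j m => Finset.sum_nonneg fun σ _ => hw0 j m σ)
    (by
      intro j m h
      rw [Finset.sum_eq_zero_iff_of_nonneg (fun σ _ => hw0 j m σ)] at h
      exact Finset.sum_eq_zero fun σ hσ => hx0 j m σ (h σ hσ))
    (fun j => (psl_nrm D hD sp ℓ hℓ (Φ j) (hΦ j)).1)
    (by
      intro j
      have a1 := (psl_energy D sp ℓ hℓ (Φ j) (hΦ j)).1
      have a2 := (psl_nrm D hD sp ℓ hℓ (Φ j) (hΦ j)).1
      have a3 := (psl_energy D sp ℓ hℓ (Φ j) (hΦ j)).2.1 (pot φ) (pot_props φ hφ hφc).1
      have a4 := (psl_nrm D hD sp ℓ hℓ (Φ j) (hΦ j)).2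
      have b1 := (((a1.add (a2.mul_left G)).add (a3.mul_left q)).neg.div_const T).add
        ((a4.mul_left (-(θ / (2 * D.mass (sp none) * T)))).sub (a2.mul_left L))
      have hfe : (fun m => ∑ σ, x j m σ) = (fun m =>
          -((∑ σ, en j m σ) + G * (∑ σ, w j m σ) + q * (∑ σ, mn j m σ)) / T +
          (-(θ / (2 * D.mass (sp none) * T)) * (pen (Env.A * ℓ) m * ∑ σ, w j m σ) -
            L * ∑ σ, w j m σ)) := by
        funext m
        symm
        have hlog : Real.log (p m) = -(θ / (2 * D.mass (sp none) * T) * pen (Env.A * ℓ) m) - L :=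
          Real.log_exp _
        show -((∑ σ, en j m σ) + G * (∑ σ, w j m σ) + q * (∑ σ, mn j m σ)) / T +
          (-(θ / (2 * D.mass (sp none) * T)) * (pen (Env.A * ℓ) m * ∑ σ, w j m σ) - L * ∑ σ, w j m σ) =
          ∑ σ, (-(en j m σ + G * w j m σ + q * mn j m σ) / T + w j m σ * Real.log (p m))
        rw [hlog, Finset.sum_add_distrib, ← Finset.sum_div, Finset.sum_neg_distrib,
          Finset.sum_add_distrib, Finset.sum_add_distrib, ← Finset.mul_sum, ← Finset.mul_sum,
          ← Finset.sum_mul]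
        ring
      show HasSum (fun m => ∑ σ, x j m σ) (X j)
      rw [hfe]
      exact b1)
    (by
      intro K
      have hfin : ∀ j m, (∑ σ, w j m σ) * Real.exp ((∑ σ, x j m σ) / (∑ σ, w j m σ)) ≤
          ∑ σ, w j m σ * Real.exp (x j m σ / w j m σ) := fun j m =>
        MT_finjensen (w j m) (x j m) (hw0 j m) (hx0 j m)
      have hre : ∀ j m σ, w j m σ * Real.exp (x j m σ / w j m σ) =
          p m * (w j m σ * Real.exp (-(en j m σ + G * w j m σ + q * mn j m σ) /
            (w j m σ * T))) := by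
        intro j m σ
        rcases (hw0 j m σ).eq_or_lt with h | h
        · rw [← h]; simp
        · have hx : x j m σ / w j m σ = -(en j m σ + G * w j m σ + q * mn j m σ) /
              (w j m σ * T) + Real.log (p m) := by
            show (-(en j m σ + G * w j m σ + q * mn j m σ) / T + w j m σ * Real.log (p m)) /
              w j m σ = _
            field_simp
          rw [hx, Real.exp_add, Real.exp_log (hp m)]
          ring
      calc ∑ j, ∑ m ∈ K, (∑ σ, w j m σ) * Real.exp ((∑ σ, x j m σ) / (∑ σ, w j m σ))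
          ≤ ∑ j, ∑ m ∈ K, ∑ σ, w j m σ * Real.exp (x j m σ / w j m σ) :=
            Finset.sum_le_sum fun j _ => Finset.sum_le_sum fun m _ => hfin j m
        _ = ∑ σ, ∑ j, ∑ m ∈ K, p m * (w j m σ *
              Real.exp (-(en j m σ + G * w j m σ + q * mn j m σ) / (w j m σ * T))) := by
            simp only [hre]
            rw [Finset.sum_comm]
            rw [Finset.sum_comm]
            have : ∀ j, (∑ m ∈ K, ∑ σ, p m * (w j m σ *
              Real.exp (-(en j m σ + G * w j m σ + q * mn j m σ) / (w j m σ * T)))) =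
              ∑ σ, ∑ m ∈ K, p m * (w j m σ *
              Real.exp (-(en j m σ + G * w j m σ + q * mn j m σ) / (w j m σ * T))) := fun j =>
              Finset.sum_comm
            simp only [this]
            exact Finset.sum_comm
        _ ≤ ∑ σ : Fin D.g, c * Z := by
            refine Finset.sum_le_sum fun σ _ => ?_
            exact MT_core D hD sp ℓ T hℓ hT Z hZ p hp K (hp1 K) M hM0 hpM φ hφ hφc hφs hφ1 Φ hΦ
              hv hB σ
        _ = D.g * (c * Z) := by
            rw [Finset.sum_const, Finset.card_univ, Fintype.card_fin, nsmul_eq_mul])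
  have hZ0 : 0 ≤ Z := hZ 0 ⟨0, fun i => i.elim0, ⟨fun i => i.elim0, fun i => i.elim0⟩, by simp⟩
  have hterm : ∀ j, nrm2 D (Φ j) * Real.exp (-(energy D sp (Φ j) - pe D sp none (Φ j) +
      θ * kinE D sp none (Φ j) + D.charge (sp none) * mean D sp (Φ j) (pot φ) +
      kU D (sp none) φ * nrm2 D (Φ j)) / (nrm2 D (Φ j) * T) - L +
      Real.log (cnt sp (sp none))) ≤ (cnt sp (sp none) : ℝ) * (W j * Real.exp (X j / W j)) := by
    intro j
    rcases (MT_nrm2_nonneg D (Φ j)).eq_or_lt with h | h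
    · have hW : W j = 0 := h.symm
      rw [← h, hW]
      simp
    · have hQ : 0 ≤ q * Q j := by
        show 0 ≤ D.charge (sp none) * ∑ τ, ∫ x, D.charge (sp none) * pot φ (x none) *
          ‖Φ j τ x‖ ^ 2
        rw [Finset.mul_sum]
        refine Finset.sum_nonneg fun τ _ => ?_
        rw [← integral_const_mul]
        refine integral_nonneg fun x => ?_
        have h1 := (pot_props φ hφ hφc).2 (x none)
        have h2 : D.charge (sp none) * (D.charge (sp none) * pot φ (x none) * ‖Φ j τ x‖ ^ 2) =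
          D.charge (sp none) ^ 2 * (pot φ (x none) * ‖Φ j τ x‖ ^ 2) := by ring
        simp only
        rw [h2]
        positivity
      have hWp : 0 < W j := h
      rw [Real.exp_add, Real.exp_log hcnt]
      have hle : -(energy D sp (Φ j) - pe D sp none (Φ j) +
          θ * kinE D sp none (Φ j) + D.charge (sp none) * mean D sp (Φ j) (pot φ) +
          kU D (sp none) φ * nrm2 D (Φ j)) / (nrm2 D (Φ j) * T) - L ≤
          X j / W j := by
        rw [le_div_iff₀ hWp]
        show (-(energy D sp (Φ j) - pe D sp none (Φ j) +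
          θ * kinE D sp none (Φ j) + D.charge (sp none) * mean D sp (Φ j) (pot φ) +
          kU D (sp none) φ * nrm2 D (Φ j)) / (nrm2 D (Φ j) * T) - L) *
          nrm2 D (Φ j) ≤ -((energy D sp (Φ j) - pe D sp none (Φ j)) + G * nrm2 D (Φ j) +
            D.charge (sp none) * (mean D sp (Φ j) (pot φ) - Q j)) / T +
            (-(θ / (2 * D.mass (sp none) * T)) *
              (2 * D.mass (sp none) * Pool.Agent.Helper985.CP.kinE D sp none (Φ j)) -
              L * nrm2 D (Φ j))
        have hk : (-(θ / (2 * D.mass (sp none) * T)) *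
            (2 * D.mass (sp none) * kinE D sp none (Φ j))) ≤
            (-(θ / (2 * D.mass (sp none) * T)) *
              (2 * D.mass (sp none) * Pool.Agent.Helper985.CP.kinE D sp none (Φ j))) := by
          have h1 : Pool.Agent.Helper985.CP.kinE D sp none (Φ j) ≤ kinE D sp none (Φ j) :=
            kinE_ge D sp ℓ (Φ j) (hΦ j) none
          have h2 : 0 ≤ θ / (2 * D.mass (sp none) * T) := by positivity
          have h3 := mul_le_mul_of_nonneg_left (mul_le_mul_of_nonneg_left h1
            (by positivity : 0 ≤ 2 * D.mass (sp none))) h2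
          linarith
        have e1 : (-(energy D sp (Φ j) - pe D sp none (Φ j) +
          θ * kinE D sp none (Φ j) + D.charge (sp none) * mean D sp (Φ j) (pot φ) +
          kU D (sp none) φ * nrm2 D (Φ j)) / (nrm2 D (Φ j) * T) - L) *
          nrm2 D (Φ j) = -((energy D sp (Φ j) - pe D sp none (Φ j)) + G * nrm2 D (Φ j) +
            D.charge (sp none) * (mean D sp (Φ j) (pot φ) - Q j)) / T +
            (-(θ / (2 * D.mass (sp none) * T)) * (2 * D.mass (sp none) * kinE D sp none (Φ j)) -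
              L * nrm2 D (Φ j)) - D.charge (sp none) * Q j / T := by
          show (-(energy D sp (Φ j) - pe D sp none (Φ j) +
            θ * kinE D sp none (Φ j) + D.charge (sp none) * mean D sp (Φ j) (pot φ) +
            kU D (sp none) φ * nrm2 D (Φ j)) / (nrm2 D (Φ j) * T) - L) *
            nrm2 D (Φ j) = -((energy D sp (Φ j) - pe D sp none (Φ j)) +
              (kU D (sp none) φ) * nrm2 D (Φ j) +
              D.charge (sp none) * (mean D sp (Φ j) (pot φ) - Q j)) / T +
              (-(θ / (2 * D.mass (sp none) * T)) * (2 * D.mass (sp none) * kinE D sp none (Φ j)) -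
              L * nrm2 D (Φ j)) - D.charge (sp none) * Q j / T
          have hne : nrm2 D (Φ j) ≠ 0 := h.ne'
          field_simp
          ring
        have : 0 ≤ D.charge (sp none) * Q j / T := div_nonneg hQ hT.le
        linarith
      calc nrm2 D (Φ j) * (Real.exp (-(energy D sp (Φ j) - pe D sp none (Φ j) +
          θ * kinE D sp none (Φ j) + D.charge (sp none) * mean D sp (Φ j) (pot φ) +
          kU D (sp none) φ * nrm2 D (Φ j)) / (nrm2 D (Φ j) * T) - L) *
          (cnt sp (sp none) : ℝ))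
          ≤ nrm2 D (Φ j) * (Real.exp (X j / W j) * (cnt sp (sp none) : ℝ)) := by
            refine mul_le_mul_of_nonneg_left ?_ h.le
            refine mul_le_mul_of_nonneg_right ?_ hcnt.le
            exact Real.exp_le_exp.2 hle
        _ = (cnt sp (sp none) : ℝ) * (W j * Real.exp (X j / W j)) := by
            show nrm2 D (Φ j) * (Real.exp (X j / W j) * (cnt sp (sp none) : ℝ)) =
              (cnt sp (sp none) : ℝ) * (nrm2 D (Φ j) * Real.exp (X j / W j))
            ring
  refine (Finset.sum_le_sum fun j _ => hterm j).trans ?_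
  rw [← Finset.mul_sum]
  refine (mul_le_mul_of_nonneg_left hjen hcnt.le).trans (le_of_eq ?_)
  show (cnt sp (sp none) : ℝ) * (D.g * (((1 + M) / (cnt sp (sp none) : ℝ)) * Z)) = D.g * (1 + M) * Z
  field_simp

end Run7.h213.P
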