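import Pool.Agent.Helper985.CT.M_peierls_relabel
import Pool.Agent.Run7.h213.P.CM_relabel_num
import Pool.Agent.Run7.h213.P.CM_relabel_state
import Pool.Agent.Run7.h213.P.TDefs
import Pool.Agent.Run7.h213.P.CBase

set_option autoImplicit false

open MeasureTheory
open scoped Topology

namespace Run7.h213.P

open Pool.Agent.Helper985.CP hiding IsState Ortho cube energy kin kinE pe peierls peierls_relabel prl_kin prl_sub relabel_num relabel_state relaux_kin

variable [Env]


-- auxiliary


theorem prl_sub {S : Type} (D : Species S) {I J : Type} [Fintype I] [DecidableEq I]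
    [Fintype J] [DecidableEq J] (e : I ≃ J) (sp : I → S) (sp' : J → S)
    (h : ∀ i, sp' (e i) = sp i) (ℓ T : ℝ) : peierls D sp ℓ T ⊆ peierls D sp' ℓ T := by
  rintro z ⟨k, ψ, ⟨h1, h2⟩, rfl⟩
  refine ⟨k, fun j => relab D e (ψ j), ⟨fun j => relabel_state D e sp sp' h ℓ _ (h1 j),
    fun i j => ?_⟩, ?_⟩
  · rw [prl_ip]
    exact h2 i j
  · refine Finset.sum_congr rfl fun j _ => ?_
    rw [(relabel_num D e sp sp' h (ψ j)).2.1]

theorem prl_kin {S : Type} (D : Species S) {I J : Type} [Fintype I] [DecidableEq I]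
    [Fintype J] [DecidableEq J] (e : I ≃ J) (sp : I → S) (sp' : J → S)
    (h : ∀ i, sp' (e i) = sp i) (u : (I → E3) → ℂ) (i : I) (x : J → E3) :
    kin D sp' (e i) (fun x : J → E3 => u (fun i => x (e i))) x =
      kin D sp i u (fun i => x (e i)) := by
  unfold kin
  rw [Pool.Agent.Helper985.CP.prl_kin D e sp sp' h u i x]

theorem peierls_relabel {S : Type} (D : Species S) {I J : Type} [Fintype I] [DecidableEq I]
    [Fintype J] [DecidableEq J] (e : I ≃ J) (sp : I → S) (sp' : J → S)
    (h : ∀ i, sp' (e i) = sp i) (ℓ T : ℝ) : peierls D sp ℓ T = peierls D sp' ℓ T ∧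
      (∀ (Ψ : Wave D I) (i : I), kinE D sp' (e i) (relab D e Ψ) = kinE D sp i Ψ) := by
  refine ⟨Set.Subset.antisymm (prl_sub D e sp sp' h ℓ T)
    (prl_sub D e.symm sp' sp (fun j => ?_) ℓ T), fun Ψ i => ?_⟩
  · rw [← h, Equiv.apply_symm_apply]
  · unfold kinE
    rw [← prl_sum e (fun τ => ∫ x, kin D sp i (Ψ τ) x)]
    refine Finset.sum_congr rfl fun τ _ => ?_
    rw [← prl_cov e (fun x => kin D sp i (Ψ (fun i => τ (e i))) x)]
    refine integral_congr_ae (Filter.Eventually.of_forall fun x => ?_)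
    exact prl_kin D e sp sp' h (Ψ (fun i => τ (e i))) i x

end Run7.h213.P
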