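import Pool.Agent.Helper780_CP.MoveT
import Pool.Agent.Run7.h213.P.KMove0
import Pool.Agent.Run7.h213.P.TM_moveT_any
import Pool.Agent.Run7.h213.P.CBase

set_option autoImplicit false

open MeasureTheory
open scoped Topology

namespace Run7.h213.P.K

open Pool.Agent.Helper985.CP hiding IsState MT_core MT_energy_smul MT_psl_lin MT_slice_int MT_state_smul MT_zero Ortho QQ31988 QQ_ins0_31988 QQ_mul31988 QQ_perm31988 QQ_sum31988 cube energy idjT_act idjT_compact idjT_smooth idj_W0_act idj_W0_bound idj_W0_smooth idj_int idj_sum ims_state ins0_num ins0_swap31988 insN_props insNp_energy insNp_kin insNp_state ins_disj ins_state int_state kin kinE moveT_any moveT_none nrm2_pos pe pe_symm peierls peierls_relabel prl_kin prl_sub psl_deriv psl_energy psl_energy_k psl_energy_kint psl_energy_vint psl_energy_w psl_nrm psl_slice psl_state psl_weight pw_parseval pwaux_parseval q985_point rb833_X rb833_state rbX rb_act_X rb_bessel rb_bessel0 rb_ip_X rb_ip_XX rb_ip_XX_meas rb_ip_XX_one rb_ip_XX_vol rb_ip_swap rb_nice_X rb_nice_state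 relabel_num relabel_state relaux_kin remove_none_aux row_bound slice_basic slice_energy slice_state sm_ins0_31988 sphK sph_K sph_energy sph_isState sph_kin sph_sum spin_ins0_31988 stable_any state_comb sum_pe_half term_A31988 term_B31988 term_swap31988 trace_bound trace_bound_dens
open Pool.Agent.Helper780_CP hiding WI WI_add WI_const WI_coul WI_mul WI_near2 WI_one WI_pair WI_phi WI_smul WI_sum WI_wW WI_zero ms_qf mulW_nrm_le mulW_state qf qf_int qf_split qf_wa rest_lower wm_add wm_mono wm_sum wm_tendsto

variable [Env]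


/-- multiplication with a bounded function does not increase the norm -/
theorem mulW_nrm_le {S : Type} (D : Species S) {I : Type} [Fintype I] [DecidableEq I]
    (sp : I → S) (ℓ : ℝ) (Ψ : Wave D I) (hΨ : IsState D sp ℓ Ψ) (f : (I → E3) → ℝ)
    (hf : Continuous f) (h1 : ∀ x, f x ^ 2 ≤ 1) : nrm2 D (mulW D f Ψ) ≤ nrm2 D Ψ := by
  rw [← wm_one, ← wm_one, wm_mulW]
  refine wm_mono D sp ℓ (WI_mul D sp ℓ (WI_const D sp ℓ 1) _ (hf.pow 2) fun x => ?_)
    (WI_const D sp ℓ 1) Ψ hΨ (Filter.Eventually.of_forall fun x => ?_)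
  · rw [abs_of_nonneg (sq_nonneg _)]; exact h1 x
  · simp only [mul_one]
    exact h1 x


end Run7.h213.P.K
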