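import Pool.Agent.Helper780_CP.LTC3
import Pool.Agent.Run7.h213.P.CBase
import Pool.Agent.Run7.h213.P.TM_row_bound

set_option autoImplicit false

open MeasureTheory
open scoped Topology

namespace Run7.h213.P.K

open Pool.Agent.Helper985.CP hiding IsState Ortho cube energy int_state kin kinE nrm2_pos pe peierls psl_deriv psl_nrm psl_slice psl_state psl_weight pw_parseval pwaux_parseval rb833_X rb833_state rbX rb_act_X rb_bessel rb_bessel0 rb_ip_X rb_ip_XX rb_ip_XX_meas rb_ip_XX_one rb_ip_XX_vol rb_ip_swap rb_nice_X rb_nice_state row_bound state_comb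
open Pool.Agent.Helper780_CP hiding pinv_intg

variable [Env]


theorem pinv_intg {S : Type} (D : Species S) (hD : D.Valid) {I : Type} [Fintype I]
    [DecidableEq I] (sp : I → S) (ℓ : ℝ) (Ψ : Wave D I) (hΨ : IsState D sp ℓ Ψ) (i : I)
    (τ : I → Fin D.g) : Integrable (fun x => pinv D sp i x * ‖Ψ τ x‖ ^ 2) := by
  have h1 := (int_state D sp ℓ Ψ hΨ τ).2.2.2.1
  have h2 : Integrable (fun x : I → E3 => (∑ j, (if i = j then 0 else ‖x i - x j‖⁻¹)) *
      ‖Ψ τ x‖ ^ 2) := by
    simp only [Finset.sum_mul]
    refine integrable_finsetSum _ fun j _ => ?_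
    by_cases hij : i = j
    · simp only [if_pos hij, zero_mul]
      exact integrable_zero _ _ _
    · simp only [if_neg hij]
      have h3 := (h1 i j hij).const_mul ((D.charge (sp i) * D.charge (sp j))⁻¹)
      refine h3.congr (Filter.Eventually.of_forall fun x => ?_)
      have h4 := hD.charge_ne (sp i)
      have h5 := hD.charge_ne (sp j)
      show (D.charge (sp i) * D.charge (sp j))⁻¹ * (D.charge (sp i) * D.charge (sp j) /
        ‖x i - x j‖ * ‖Ψ τ x‖ ^ 2) = _
      field_simp
  refine h2.mono' ?_ (Filter.Eventually.of_forall fun x => ?_)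
  · exact ((pinv_meas D sp i).mul
      (((hΨ.smooth τ).continuous.measurable.norm).pow_const 2)).aestronglyMeasurable
  · rw [Real.norm_of_nonneg (mul_nonneg (pinv_nonneg D sp i x) (by positivity))]
    exact mul_le_mul_of_nonneg_right (pinv_le D sp i x) (by positivity)


end Run7.h213.P.K
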