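import Pool.Agent.Run7.h213.P.KMultiC
import Pool.Agent.Run7.h213.P.CDefs

set_option autoImplicit false

open MeasureTheory
open scoped Topology

namespace Run7.h213.P.K

open Pool.Agent.Helper985.CP hiding IsState Ortho cube energy ims_state int_state kin kinE pe peierls
open Pool.Agent.Helper780_CP hiding WI WI_add WI_const WI_coul WI_mul WI_near2 WI_one WI_pair WI_phi WI_smul WI_sum WI_zero ms_qf mulW_state multiC qf qf_int qf_split wm_add wm_mono wm_sum wm_tendsto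

variable [Env]

/-- `multiC` with the one-particle energies of the inserted bumps that include the one-body
potential. -/
theorem multiCU {S : Type} [Fintype S] (D : Species S) (hD : D.Valid) :
    ∃ C : ℝ, 0 < C ∧ ∀ (δ : ℝ), 0 < δ → δ ≤ 1 → ∀ {I : Type} [Fintype I] [DecidableEq I] (sp : I → S) (ℓ : ℝ) (y : E3),
      Metric.closedBall y δ ⊆ cube ℓ →
      ∃ (g h : ℕ → (I → E3) → ℝ) (φ : ℕ → E3 → ℝ),
        ((∀ k, ContDiff ℝ SM (g k)) ∧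
          (∀ k i j x, g k (fun l => x (Equiv.swap i j l)) = g k x) ∧ (∀ k x, g k x ^ 2 ≤ 1)) ∧
        ((∀ k, ContDiff ℝ SM (h k)) ∧
          (∀ k i j x, h k (fun l => x (Equiv.swap i j l)) = h k x) ∧ (∀ k x, h k x ^ 2 ≤ 1)) ∧
        (∀ k, ContDiff ℝ SM (φ k) ∧ HasCompactSupport (φ k) ∧ tsupport (φ k) ⊆ cube ℓ ∧
          ∫ z, φ k z ^ 2 = 1) ∧
        (∀ k x i, x i ∈ tsupport (φ k) → g k x = 0) ∧
        (∀ k x, g k x ≠ 0 → ∀ i, pot (φ k) (x i) = 1 / ‖x i - y‖) ∧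
        (∀ (a : I → ℝ), (∀ i, 0 ≤ a i ∧ a i ≤ 1) → ∀ W : (I → E3) → ℝ, WI D sp ℓ W →
          ∀ Ψ : Wave D I, IsState D sp ℓ Ψ → ∀ K : ℕ,
          ∑ k ∈ Finset.range K, qf D sp a W (mulW D (g k) Ψ) + qf D sp a W (mulW D (h K) Ψ) ≤
            qf D sp a W Ψ + C / δ ^ 2 * wm D (near2 y) Ψ) ∧
        (∀ W : (I → E3) → ℝ, WI D sp ℓ W → ∀ Ψ : Wave D I, IsState D sp ℓ Ψ → ∀ K : ℕ,
          ∑ k ∈ Finset.range K, wm D W (mulW D (g k) Ψ) + wm D W (mulW D (h K) Ψ) =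
            wm D W Ψ) ∧
        (∀ Ψ : Wave D I, IsState D sp ℓ Ψ → ∀ K : ℕ, ∀ s,
          ∑ k ∈ Finset.range K, (kU D s (φ k) + ((k : ℝ) + 1)) *
            nrm2 D (mulW D (g k) Ψ) ≤ C / δ ^ 2 * (nrm2 D Ψ + wm D (near2 y) Ψ)) ∧
        (∀ W : (I → E3) → ℝ, WI D sp ℓ W → ∀ Ψ : Wave D I, IsState D sp ℓ Ψ →
          Filter.Tendsto (fun K => wm D W (mulW D (h K) Ψ)) Filter.atTop (𝓝 0)) := by
  obtain ⟨C, hC, H⟩ := multiC D hD
  refine ⟨C + 1, by positivity, ?_⟩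
  intro δ hδ hδ1 I _ _ sp ℓ y hy
  obtain ⟨g, h, φ, h1, h2, h3, h4, h5, h6, h7, h8, h9⟩ := H δ hδ hδ1 sp ℓ y hy
  have hd2 : δ ^ 2 ≤ 1 := by nlinarith
  have hd0 : 0 < δ ^ 2 := by positivity
  have hCC : C / δ ^ 2 + 1 ≤ (C + 1) / δ ^ 2 := by
    rw [add_div]
    have : 1 ≤ 1 / δ ^ 2 := by rw [le_div_iff₀ hd0]; linarith
    linarith
  have hwn0 : ∀ Ψ : Wave D I, 0 ≤ wm D (near2 y) Ψ := by
    intro Ψ
    unfold wm
    exact Finset.sum_nonneg fun τ _ => integral_nonneg fun x =>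
      mul_nonneg (near2_nonneg y x) (sq_nonneg _)
  have hnn : ∀ Ψ : Wave D I, 0 ≤ nrm2 D Ψ := by
    intro Ψ
    unfold nrm2
    exact Finset.sum_nonneg fun τ _ => integral_nonneg fun x => sq_nonneg _
  refine ⟨g, h, φ, h1, h2, h3, h4, h5, ?_, h7, ?_, h9⟩
  · intro a ha W hW Ψ hΨ K
    have e1 := h6 a ha W hW Ψ hΨ K
    have e2 : C / δ ^ 2 * wm D (near2 y) Ψ ≤ (C + 1) / δ ^ 2 * wm D (near2 y) Ψ :=
      mul_le_mul_of_nonneg_right (by linarith) (hwn0 Ψ)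
    linarith
  · intro Ψ hΨ K s
    have e1 := h8 Ψ hΨ K s
    have e2 := h7 (fun _ => 1) (WI_const D sp ℓ 1) Ψ hΨ K
    simp only [wm_one] at e2
    have e3 : ∑ k ∈ Finset.range K, (kU D s (φ k) + ((k : ℝ) + 1)) * nrm2 D (mulW D (g k) Ψ) ≤
        ∑ k ∈ Finset.range K, ((1 / (2 * D.mass s)) * grad2 (φ k) + ((k : ℝ) + 1)) *
            nrm2 D (mulW D (g k) Ψ) + ∑ k ∈ Finset.range K, nrm2 D (mulW D (g k) Ψ) := by
      rw [← Finset.sum_add_distrib]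
      refine Finset.sum_le_sum fun k _ => ?_
      have e4 := kU_le D s (h3 k).1.continuous (h3 k).2.1 (h3 k).2.2.2
      have e5 := mul_le_mul_of_nonneg_right e4 (hnn (mulW D (g k) Ψ))
      linarith
    have e6 := hnn (mulW D (h K) Ψ)
    have e7 := mul_le_mul_of_nonneg_right hCC (add_nonneg (hnn Ψ) (hwn0 Ψ))
    have e8 : (C / δ ^ 2 + 1) * (nrm2 D Ψ + wm D (near2 y) Ψ) =
      C / δ ^ 2 * (nrm2 D Ψ + wm D (near2 y) Ψ) + (nrm2 D Ψ + wm D (near2 y) Ψ) := by ring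
    have e9 := hwn0 Ψ
    linarith

end Run7.h213.P.K
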