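import Pool.Agent.Helper780_CP.RC7
import Pool.Agent.Run7.h213.P.KLLDefs2
import Pool.Agent.Run7.h213.P.TM_row_bound
import Pool.Agent.Run7.h213.P.CBase

set_option autoImplicit false

open MeasureTheory

namespace Run7.h213.P.K.RC7

open Pool.Agent.Helper985.CP hiding IsState Ortho QQ31988 QQ_ins0_31988 QQ_mul31988 QQ_perm31988 QQ_sum31988 cube energy idjT_act idjT_compact idjT_smooth idj_W0_act idj_W0_bound idj_W0_smooth idj_int idj_sum ims_state ins0_num ins0_swap31988 ins_disj ins_state int_state kin kinE nrm2_pos pe pe_symm peierls psl_deriv psl_nrm psl_slice psl_state psl_weight pw_parseval pwaux_parseval q985_point rb833_X rb833_state rbX rb_act_X rb_bessel rb_bessel0 rb_ip_X rb_ip_XX rb_ip_XX_meas rb_ip_XX_one rb_ip_XX_vol rb_ip_swap rb_nice_X rb_nice_state relabel_num relabel_state relaux_kin remove_none_aux row_bound slice_basic slice_energy slice_state sm_ins0_31988 sphK sph_K sph_energy sph_isState sph_kin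 sph_sum spin_ins0_31988 stable_any state_comb sum_pe_half term_A31988 term_B31988 term_swap31988
open Pool.Agent.Helper780_CP hiding WI WI_add WI_const WI_coul WI_mul WI_near2 WI_one WI_pair WI_phi WI_smul WI_sum WI_wW WI_zero cost_avg icb kb klc ms_qf mulW_state multiC phb qf qf_int qf_one qf_split qf_wa rest_lower vb wm_add wm_mono wm_sum wm_tendsto gr
open Pool.Agent.Helper780_CP.RC7 hiding pauli_cube step_a step_b step_c step_pt wk_swap

variable [Env]

open Run7.h213.P.K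
open Pool.Agent.Helper780_CP.RC6 (poinc_cube)


section chi
variable {S : Type} {J : Type} [Fintype J] (sp : J → S) (s0 : S) (A : Set E3) (k : ℕ)


end chi


theorem wk_swap {S : Type} (D : Species S) {I : Type} [Fintype I] [DecidableEq I]
    (sp : Option I → S) (hferm : D.fermion (sp none) = true) (ℓ : ℝ) (q : E3) (s : ℝ) (k : ℕ)
    (Φ : Wave D (Option I)) (hΦ : IsState D sp ℓ Φ) (a b : Option I) (hab : a ≠ b)
    (ha : sp a = sp none) (hb : sp b = sp none) (τ : Option I → Fin D.g) (x : Option I → E3) :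
    wk D sp q s k Φ (fun k => τ (Equiv.swap a b k)) (fun k => x (Equiv.swap a b k)) =
      -1 * wk D sp q s k Φ τ x := by
  have h3 := hΦ.symm a b hab (ha.trans hb.symm) τ x
  have h4 : exch D (sp a) = -1 := by
    rw [ha, exch, hferm]
    simp
  rw [h4] at h3
  unfold wk
  have h5 : chi sp (sp none) (Qc q s) k (fun k => x (Equiv.swap a b k)) =
      chi sp (sp none) (Qc q s) k x := by
    unfold chi
    rw [nsp_swap sp (sp none) (Qc q s) x a b ha hb]
  rw [h3, h5]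
  ring


/-- step (a) -/
theorem step_a {S : Type} [DecidableEq S] (D : Species S) {I : Type} [Fintype I] [DecidableEq I]
    (sp : Option I → S) (hferm : D.fermion (sp none) = true) (ℓ : ℝ) (q : E3) (s : ℝ) (k : ℕ)
    (Φ : Wave D (Option I)) (hΦ : IsState D sp ℓ Φ) :
    (k : ℝ) * nrm2 D (wk D sp q s k Φ) = (cnt sp (sp none) : ℝ) *
      ∑ τ, ∫ x, iq q s (x none) * ‖wk D sp q s k Φ τ x‖ ^ 2 := by
  have hn : ∀ τ, rbNice (wk D sp q s k Φ τ) := fun τ =>
    wk_nice D sp q s k Φ (fun τ => rb_nice_state D sp ℓ Φ hΦ τ) τ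
  have hT : ∀ j, sp j = sp none →
      ∑ τ, ∫ x, iq q s (x j) * ‖wk D sp q s k Φ τ x‖ ^ 2 =
      ∑ τ, ∫ x, iq q s (x none) * ‖wk D sp q s k Φ τ x‖ ^ 2 := by
    intro j hj
    by_cases hjn : j = none
    · rw [hjn]
    · let e : Option I ≃ Option I := Equiv.swap none j
      have hes : ∀ b, e.symm b = Equiv.swap none j b := fun b => by
        show (Equiv.swap none j).symm b = _
        rw [Equiv.symm_swap]
      rw [← rb833_sum (g := D.g) e
        (fun τ : Option I → Fin D.g => ∫ x, iq q s (x j) * ‖wk D sp q s k Φ τ x‖ ^ 2)]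
      refine Finset.sum_congr rfl fun τ _ => ?_
      rw [← rb833_int e (fun x : Option I → E3 =>
        iq q s (x j) * ‖wk D sp q s k Φ (fun b => τ (e.symm b)) x‖ ^ 2)]
      congr 1
      funext x
      simp only [hes]
      rw [wk_swap D sp hferm ℓ q s k Φ hΦ none j (fun h => hjn h.symm) rfl hj τ x,
        Equiv.swap_apply_right]
      simp
  have hI : ∀ j τ, Integrable (fun x : Option I → E3 =>
      iq q s (x j) * ‖wk D sp q s k Φ τ x‖ ^ 2) := by
    intro j τ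
    refine (nice_sqR _ (hn τ)).bdd_mul (c := 1)
      ((iq_meas q s).comp (measurable_pi_apply j)).aestronglyMeasurable
      (Filter.Eventually.of_forall fun x => ?_)
    rw [Real.norm_of_nonneg (iq_nn q s _)]
    exact iq_le q s _
  have h1 : (k : ℝ) * nrm2 D (wk D sp q s k Φ) =
      ∑ j ∈ Finset.univ.filter (fun j => sp j = sp none),
        ∑ τ, ∫ x, iq q s (x j) * ‖wk D sp q s k Φ τ x‖ ^ 2 := by
    unfold nrm2
    rw [Finset.mul_sum, Finset.sum_comm]
    refine Finset.sum_congr rfl fun τ _ => ?_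
    rw [← integral_finsetSum _ fun j _ => hI j τ, ← integral_const_mul]
    congr 1
    funext x
    rw [← Finset.sum_mul, ← nsp_eq, wk_norm, ← mul_assoc, ← mul_assoc, chi_mul]
  rw [h1, Finset.sum_congr rfl fun j hj => hT j (Finset.mem_filter.1 hj).2, Finset.sum_const,
    nsmul_eq_mul]
  rfl


/-- pointwise form of step (b) -/
theorem step_pt {S : Type} (D : Species S) {I : Type} [Fintype I] [DecidableEq I]
    (sp : Option I → S) (ℓ : ℝ) (C : ℝ)
    (hP : ∀ (f : E3 → ℂ), ContDiff ℝ 1 f → ∀ (q : E3) (s : ℝ), 0 < s →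
    ∫ z in {z : E3 | ∀ k, q k ≤ z k ∧ z k < q k + s},
      ‖f z - ((s ^ 3)⁻¹ : ℝ) • ∫ w in {z : E3 | ∀ k, q k ≤ z k ∧ z k < q k + s}, f w‖ ^ 2 ≤
    C * s ^ 2 * ∫ z in {z : E3 | ∀ k, q k ≤ z k ∧ z k < q k + s},
      ∑ k : Fin 3, ‖fderiv ℝ f z (EuclideanSpace.single k (1 : ℝ))‖ ^ 2)
    (q : E3) (s : ℝ) (hs : 0 < s) (k : ℕ) (m : ℕ) (hm : 1 ≤ m)
    (Φ : Wave D (Option I)) (hΦ : IsState D sp ℓ Φ) (σ : Fin D.g) (τ : I → Fin D.g)
    (x : I → E3) :
    ∫ z : E3, iq q s z * ‖wk D sp q s k Φ (fun o => o.elim σ τ) (fun o => o.elim z x)‖ ^ 2 ≤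
      (∑ a : Fin 3 → Fin m, ‖psl D (oc (crn q s m a) (s / m)) σ (wk D sp q s k Φ) τ x‖ ^ 2) +
      C * (s / m) ^ 2 * ∫ z : E3, iq q s z * (chi sp (sp none) (Qc q s) k (fun o => o.elim z x) *
        gr3 (Φ (fun o => o.elim σ τ)) (fun o => o.elim z x)) := by
  have hm0 : (0 : ℝ) < m := by exact_mod_cast hm
  have hsm : 0 < s / m := by positivity
  have hz₀ : q ∈ Qc q s := fun k => ⟨le_rfl, by linarith⟩
  obtain ⟨f1, -, -, f4⟩ := psl_slice ℓ (Φ (fun o => o.elim σ τ)) (hΦ.smooth _) (hΦ.compact _)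
    (fun y hy => cube_sub ℓ (hΦ.support _ hy none)) x
  set f : E3 → ℂ := fun z => Φ (fun o => o.elim σ τ) (fun o => o.elim z x) with hf
  have hf1 : ContDiff ℝ 1 f := f1.of_le (by simp [SM])
  have hch : ∀ z ∈ Qc q s, chi sp (sp none) (Qc q s) k (fun o => o.elim z x) =
      chi sp (sp none) (Qc q s) k (fun o => o.elim q x) := by
    intro z hz
    unfold chi
    rw [nsp_elim sp (sp none) (Qc q s) x z q hz hz₀]
  set c : ℝ := chi sp (sp none) (Qc q s) k (fun o => o.elim q x) with hc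
  have hc0 : 0 ≤ c := chi_nn _ _ _ _ _
  have hc2 : c ^ 2 = c := chi_sq _ _ _ _ _
  have e1 : ∫ z : E3, iq q s z * ‖wk D sp q s k Φ (fun o => o.elim σ τ)
      (fun o => o.elim z x)‖ ^ 2 = c * ∫ z in Qc q s, ‖f z‖ ^ 2 := by
    rw [iq_int, ← integral_const_mul]
    refine setIntegral_congr_fun (Qc_meas q s) fun z hz => ?_
    show ‖wk D sp q s k Φ (fun o => o.elim σ τ) (fun o => o.elim z x)‖ ^ 2 = c * ‖f z‖ ^ 2
    rw [wk_norm, hch z hz]
  have e2 : ∫ z : E3, iq q s z * (chi sp (sp none) (Qc q s) k (fun o => o.elim z x) *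
        gr3 (Φ (fun o => o.elim σ τ)) (fun o => o.elim z x)) = c * ∫ z in Qc q s, gr f z := by
    rw [iq_int, ← integral_const_mul]
    refine setIntegral_congr_fun (Qc_meas q s) fun z hz => ?_
    show chi sp (sp none) (Qc q s) k (fun o => o.elim z x) *
      gr3 (Φ (fun o => o.elim σ τ)) (fun o => o.elim z x) = c * gr f z
    rw [hch z hz]
    unfold gr gr3
    simp only [f4]
  have e3 : ∀ a : Fin 3 → Fin m,
      ‖psl D (oc (crn q s m a) (s / m)) σ (wk D sp q s k Φ) τ x‖ ^ 2 =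
      c * (((s / m) ^ 3)⁻¹ * ‖∫ z in Qc (crn q s m a) (s / m), f z‖ ^ 2) := by
    intro a
    rw [psl_oc D sp q s k Φ _ _ (Qc_sub q s hs m hm a) q hz₀ σ τ x, norm_mul, mul_pow,
      Complex.norm_real, Real.norm_eq_abs, sq_abs, mul_pow, inv_pow,
      Real.sq_sqrt (by positivity)]
    rw [← hc, hc2]
    ring
  rw [e1, e2, Finset.sum_congr rfl fun a _ => e3 a, ← Finset.mul_sum]
  have h := mul_le_mul_of_nonneg_left (many_cubes C hP f hf1 q s hs m hm) hc0
  refine h.trans (le_of_eq ?_)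
  ring

/-- step (b) -/
theorem step_b {S : Type} (D : Species S) {I : Type} [Fintype I] [DecidableEq I]
    (sp : Option I → S) (ℓ : ℝ) (C : ℝ)
    (hP : ∀ (f : E3 → ℂ), ContDiff ℝ 1 f → ∀ (q : E3) (s : ℝ), 0 < s →
    ∫ z in {z : E3 | ∀ k, q k ≤ z k ∧ z k < q k + s},
      ‖f z - ((s ^ 3)⁻¹ : ℝ) • ∫ w in {z : E3 | ∀ k, q k ≤ z k ∧ z k < q k + s}, f w‖ ^ 2 ≤
    C * s ^ 2 * ∫ z in {z : E3 | ∀ k, q k ≤ z k ∧ z k < q k + s},
      ∑ k : Fin 3, ‖fderiv ℝ f z (EuclideanSpace.single k (1 : ℝ))‖ ^ 2)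
    (q : E3) (s : ℝ) (hs : 0 < s) (k : ℕ) (m : ℕ) (hm : 1 ≤ m)
    (Φ : Wave D (Option I)) (hΦ : IsState D sp ℓ Φ) :
    ∑ τ, ∫ x, iq q s (x none) * ‖wk D sp q s k Φ τ x‖ ^ 2 ≤
      (∑ a : Fin 3 → Fin m, ∑ σ, nrm2 D (psl D (oc (crn q s m a) (s / m)) σ (wk D sp q s k Φ))) +
      C * (s / m) ^ 2 * ∑ τ, ∫ x, iq q s (x none) *
        (chi sp (sp none) (Qc q s) k x * gr3 (Φ τ) x) := by
  have hn : ∀ τ, rbNice (wk D sp q s k Φ τ) := fun τ =>
    wk_nice D sp q s k Φ (fun τ => rb_nice_state D sp ℓ Φ hΦ τ) τ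
  have hmn : Measurable (fun x : Option I → E3 => iq q s (x none)) :=
    (iq_meas q s).comp (measurable_pi_apply none)
  have hI1 : ∀ τ, Integrable (fun x : Option I → E3 =>
      iq q s (x none) * ‖wk D sp q s k Φ τ x‖ ^ 2) := by
    intro τ
    refine (nice_sqR _ (hn τ)).bdd_mul (c := 1) hmn.aestronglyMeasurable
      (Filter.Eventually.of_forall fun x => ?_)
    rw [Real.norm_of_nonneg (iq_nn q s _)]
    exact iq_le q s _
  have hI2 : ∀ τ, Integrable (fun x : Option I → E3 =>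
      iq q s (x none) * (chi sp (sp none) (Qc q s) k x * gr3 (Φ τ) x)) := by
    intro τ
    refine Integrable.bdd_mul (c := 1) ?_ hmn.aestronglyMeasurable
      (Filter.Eventually.of_forall fun x => ?_)
    · refine (gr3_int _ (hΦ.smooth τ) (hΦ.compact τ)).bdd_mul (c := 1)
        (chi_meas _ _ _ _ (Qc_meas q s)).aestronglyMeasurable
        (Filter.Eventually.of_forall fun x => ?_)
      rw [Real.norm_of_nonneg (chi_nn _ _ _ _ _)]
      exact chi_le _ _ _ _ _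
    · rw [Real.norm_of_nonneg (iq_nn q s _)]
      exact iq_le q s _
  have hI3 : ∀ (a : Fin 3 → Fin m) (σ : Fin D.g) (τ : I → Fin D.g), Integrable
      (fun x => ‖psl D (oc (crn q s m a) (s / m)) σ (wk D sp q s k Φ) τ x‖ ^ 2) :=
    fun a σ τ => nice_sqR _ (Pool.Agent.Helper780_CP.nice_psl D _ (oc_nice _ _) σ _ hn τ)
  have eL : ∑ τ, ∫ x, iq q s (x none) * ‖wk D sp q s k Φ τ x‖ ^ 2 =
      ∑ σ : Fin D.g, ∑ τ : I → Fin D.g, ∫ x : I → E3, ∫ z : E3,
        iq q s z * ‖wk D sp q s k Φ (fun o => o.elim σ τ) (fun o => o.elim z x)‖ ^ 2 := by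
    rw [pslx_sum]
    refine Finset.sum_congr rfl fun σ _ => Finset.sum_congr rfl fun τ _ => ?_
    rw [(psl_fubini _ (hI1 (fun o => o.elim σ τ))).2]
    rfl
  have eR : ∑ τ, ∫ x, iq q s (x none) * (chi sp (sp none) (Qc q s) k x * gr3 (Φ τ) x) =
      ∑ σ : Fin D.g, ∑ τ : I → Fin D.g, ∫ x : I → E3, ∫ z : E3,
        iq q s z * (chi sp (sp none) (Qc q s) k (fun o => o.elim z x) *
        gr3 (Φ (fun o => o.elim σ τ)) (fun o => o.elim z x)) := by
    rw [pslx_sum]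
    refine Finset.sum_congr rfl fun σ _ => Finset.sum_congr rfl fun τ _ => ?_
    rw [(psl_fubini _ (hI2 (fun o => o.elim σ τ))).2]
    rfl
  have eM : ∑ a : Fin 3 → Fin m, ∑ σ,
      nrm2 D (psl D (oc (crn q s m a) (s / m)) σ (wk D sp q s k Φ)) =
      ∑ σ : Fin D.g, ∑ τ : I → Fin D.g, ∫ x : I → E3, ∑ a : Fin 3 → Fin m,
        ‖psl D (oc (crn q s m a) (s / m)) σ (wk D sp q s k Φ) τ x‖ ^ 2 := by
    rw [Finset.sum_comm]
    refine Finset.sum_congr rfl fun σ _ => ?_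
    unfold nrm2
    rw [Finset.sum_comm]
    refine Finset.sum_congr rfl fun τ _ => ?_
    rw [integral_finsetSum _ fun a _ => hI3 a σ τ]
  rw [eL, eR, eM, Finset.mul_sum, ← Finset.sum_add_distrib]
  refine Finset.sum_le_sum fun σ _ => ?_
  rw [Finset.mul_sum, ← Finset.sum_add_distrib]
  refine Finset.sum_le_sum fun τ _ => ?_
  have j1 : Integrable (fun x : I → E3 => ∫ z : E3,
      iq q s z * ‖wk D sp q s k Φ (fun o => o.elim σ τ) (fun o => o.elim z x)‖ ^ 2) :=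
    (psl_fubini _ (hI1 (fun o => o.elim σ τ))).1.integral_prod_left
  have j2 : Integrable (fun x : I → E3 => ∫ z : E3,
      iq q s z * (chi sp (sp none) (Qc q s) k (fun o => o.elim z x) *
        gr3 (Φ (fun o => o.elim σ τ)) (fun o => o.elim z x))) :=
    (psl_fubini _ (hI2 (fun o => o.elim σ τ))).1.integral_prod_left
  have j3 : Integrable (fun x : I → E3 => ∑ a : Fin 3 → Fin m,
        ‖psl D (oc (crn q s m a) (s / m)) σ (wk D sp q s k Φ) τ x‖ ^ 2) :=
    integrable_finsetSum _ fun a _ => hI3 a σ τ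
  rw [← integral_const_mul, ← integral_add j3 (j2.const_mul _)]
  exact integral_mono j1 (j3.add (j2.const_mul _)) fun x =>
    step_pt D sp ℓ C hP q s hs k m hm Φ hΦ σ τ x

/-- step (c) -/
theorem step_c {S : Type} [DecidableEq S] (D : Species S) {I : Type} [Fintype I] [DecidableEq I]
    (sp : Option I → S) (hferm : D.fermion (sp none) = true) (ℓ : ℝ) (C : ℝ)
    (hP : ∀ (f : E3 → ℂ), ContDiff ℝ 1 f → ∀ (q : E3) (s : ℝ), 0 < s →
    ∫ z in {z : E3 | ∀ k, q k ≤ z k ∧ z k < q k + s},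
      ‖f z - ((s ^ 3)⁻¹ : ℝ) • ∫ w in {z : E3 | ∀ k, q k ≤ z k ∧ z k < q k + s}, f w‖ ^ 2 ≤
    C * s ^ 2 * ∫ z in {z : E3 | ∀ k, q k ≤ z k ∧ z k < q k + s},
      ∑ k : Fin 3, ‖fderiv ℝ f z (EuclideanSpace.single k (1 : ℝ))‖ ^ 2)
    (q : E3) (s : ℝ) (hs : 0 < s) (k : ℕ) (m : ℕ) (hm : 1 ≤ m)
    (Φ : Wave D (Option I)) (hΦ : IsState D sp ℓ Φ) :
    ((k : ℝ) - D.g * (m : ℝ) ^ 3) * nrm2 D (wk D sp q s k Φ) ≤
      C * (s / m) ^ 2 * ((cnt sp (sp none) : ℝ) * ∑ τ, ∫ x, iq q s (x none) *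
        (chi sp (sp none) (Qc q s) k x * gr3 (Φ τ) x)) := by
  have hm0 : (0 : ℝ) < m := by exact_mod_cast hm
  have hsm : 0 < s / m := by positivity
  have hn : ∀ τ, rbNice (wk D sp q s k Φ τ) := fun τ =>
    wk_nice D sp q s k Φ (fun τ => rb_nice_state D sp ℓ Φ hΦ τ) τ
  have h1 := step_a D sp hferm ℓ q s k Φ hΦ
  have h2 := mul_le_mul_of_nonneg_left (step_b D sp ℓ C hP q s hs k m hm Φ hΦ)
    (Nat.cast_nonneg (α := ℝ) (cnt sp (sp none)))
  have h3 : (cnt sp (sp none) : ℝ) * ∑ a : Fin 3 → Fin m, ∑ σ,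
      nrm2 D (psl D (oc (crn q s m a) (s / m)) σ (wk D sp q s k Φ)) ≤
      D.g * (m : ℝ) ^ 3 * nrm2 D (wk D sp q s k Φ) := by
    rw [Finset.mul_sum]
    have h4 : ∀ a : Fin 3 → Fin m, (cnt sp (sp none) : ℝ) * ∑ σ,
        nrm2 D (psl D (oc (crn q s m a) (s / m)) σ (wk D sp q s k Φ)) ≤
        D.g * nrm2 D (wk D sp q s k Φ) := by
      intro a
      rw [Finset.mul_sum]
      have h5 : ∀ σ : Fin D.g, (cnt sp (sp none) : ℝ) *
          nrm2 D (psl D (oc (crn q s m a) (s / m)) σ (wk D sp q s k Φ)) ≤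
          nrm2 D (wk D sp q s k Φ) := by
        intro σ
        have h := pauli D sp (oc (crn q s m a) (s / m)) (oc_nice _ _) σ (wk D sp q s k Φ) hn
          (fun a b hab ha hb τ x => wk_swap D sp hferm ℓ q s k Φ hΦ a b hab ha hb τ x)
        rwa [oc_int _ _ hsm, one_mul] at h
      refine (Finset.sum_le_sum fun σ _ => h5 σ).trans (le_of_eq ?_)
      rw [Finset.sum_const, Finset.card_univ, Fintype.card_fin, nsmul_eq_mul]
    refine (Finset.sum_le_sum fun a _ => h4 a).trans (le_of_eq ?_)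
    rw [Finset.sum_const, Finset.card_univ, Fintype.card_fun, Fintype.card_fin, Fintype.card_fin,
      nsmul_eq_mul]
    push_cast
    ring
  rw [mul_add] at h2
  rw [← h1] at h2
  nlinarith [h2, h3]


/-- TARGET -/
theorem pauli_cube {S : Type} [DecidableEq S] (D : Species S) :
    ∃ C : ℝ, 0 < C ∧ ∀ {I : Type} [Fintype I] [DecidableEq I] (sp : Option I → S) (ℓ : ℝ),
      D.fermion (sp none) = true → ∀ (Φ : Wave D (Option I)), IsState D sp ℓ Φ →
      ∀ (q : E3) (s : ℝ), 0 < s →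
      ∑ τ, ∫ x, (if 2 * (D.g : ℝ) ≤ nsp sp (sp none) (Qc q s) x then
          nsp sp (sp none) (Qc q s) x ^ ((5 : ℝ) / 3) else 0) * ‖Φ τ x‖ ^ 2 ≤
        C * s ^ 2 * ((cnt sp (sp none) : ℝ) * ∑ τ, ∫ x, (Qc q s).indicator (fun _ => (1 : ℝ)) (x none) *
          ∑ k : Fin 3, ‖fderiv ℝ (Φ τ) x (Pi.single none (EuclideanSpace.single k (1 : ℝ)))‖ ^ 2) := by
  obtain ⟨C, hC0, hP⟩ := poinc_cube
  have h10 : 0 ≤ (2 * (D.g : ℝ)) ^ ((2 : ℝ) / 3) := by positivity
  refine ⟨8 * C * (2 * (D.g : ℝ)) ^ ((2 : ℝ) / 3) + 1, by positivity, ?_⟩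
  intro I _ _ sp ℓ hferm Φ hΦ q s hs
  have hnΦ : ∀ τ, rbNice (Φ τ) := fun τ => rb_nice_state D sp ℓ Φ hΦ τ
  set N : ℕ := cnt sp (sp none) with hN
  let w : ℝ → ℝ := fun n => if 2 * (D.g : ℝ) ≤ n then n ^ ((5 : ℝ) / 3) else 0
  have hmn : Measurable (fun x : Option I → E3 => iq q s (x none)) :=
    (iq_meas q s).comp (measurable_pi_apply none)
  have hIg : ∀ (k : ℕ) (τ : Option I → Fin D.g), Integrable (fun x : Option I → E3 =>
      iq q s (x none) * (chi sp (sp none) (Qc q s) k x * gr3 (Φ τ) x)) := by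
    intro k τ
    refine Integrable.bdd_mul (c := 1) ?_ hmn.aestronglyMeasurable
      (Filter.Eventually.of_forall fun x => ?_)
    · refine (gr3_int _ (hΦ.smooth τ) (hΦ.compact τ)).bdd_mul (c := 1)
        (chi_meas _ _ _ _ (Qc_meas q s)).aestronglyMeasurable
        (Filter.Eventually.of_forall fun x => ?_)
      rw [Real.norm_of_nonneg (chi_nn _ _ _ _ _)]
      exact chi_le _ _ _ _ _
    · rw [Real.norm_of_nonneg (iq_nn q s _)]
      exact iq_le q s _
  let K : ℕ → ℝ := fun k => (N : ℝ) * ∑ τ, ∫ x, iq q s (x none) *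
        (chi sp (sp none) (Qc q s) k x * gr3 (Φ τ) x)
  have hK0 : ∀ k, 0 ≤ K k := fun k => mul_nonneg (Nat.cast_nonneg _)
    (Finset.sum_nonneg fun τ _ => integral_nonneg fun x =>
      mul_nonneg (iq_nn _ _ _) (mul_nonneg (chi_nn _ _ _ _ _) (gr3_nn _ _)))
  have hX0 : ∀ k, 0 ≤ nrm2 D (wk D sp q s k Φ) := fun k =>
    Finset.sum_nonneg fun τ _ => integral_nonneg fun x => by positivity
  -- the left side
  have eL : ∑ τ, ∫ x, (if 2 * (D.g : ℝ) ≤ nsp sp (sp none) (Qc q s) x then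
          nsp sp (sp none) (Qc q s) x ^ ((5 : ℝ) / 3) else 0) * ‖Φ τ x‖ ^ 2 =
      ∑ k ∈ Finset.range (N + 1), w k * nrm2 D (wk D sp q s k Φ) := by
    unfold nrm2
    simp only [Finset.mul_sum]
    rw [Finset.sum_comm]
    refine Finset.sum_congr rfl fun τ _ => ?_
    have hI : ∀ k ∈ Finset.range (N + 1), Integrable (fun x =>
        w k * ‖wk D sp q s k Φ τ x‖ ^ 2) := fun k _ =>
      (nice_sqR _ (wk_nice D sp q s k Φ hnΦ τ)).const_mul _
    have e0 : ∀ k ∈ Finset.range (N + 1), w k * ∫ x, ‖wk D sp q s k Φ τ x‖ ^ 2 =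
        ∫ x, w k * ‖wk D sp q s k Φ τ x‖ ^ 2 := fun k _ => (integral_const_mul _ _).symm
    rw [Finset.sum_congr rfl e0, ← integral_finsetSum _ hI]
    congr 1
    funext x
    obtain ⟨k, hk, he, hsum⟩ := chi_sum sp (sp none) (Qc q s) x (fun k => w k)
    have e1 : ∀ j ∈ Finset.range (N + 1), w j * ‖wk D sp q s j Φ τ x‖ ^ 2 =
        (w j * chi sp (sp none) (Qc q s) j x) * ‖Φ τ x‖ ^ 2 := fun j _ => by
      rw [wk_norm]; ring
    rw [Finset.sum_congr rfl e1, ← Finset.sum_mul]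
    rw [hN, hsum, he]
  -- the right side
  have eR : (N : ℝ) * ∑ τ, ∫ x, (Qc q s).indicator (fun _ => (1 : ℝ)) (x none) *
          ∑ k : Fin 3, ‖fderiv ℝ (Φ τ) x (Pi.single none (EuclideanSpace.single k (1 : ℝ)))‖ ^ 2 =
      ∑ k ∈ Finset.range (N + 1), K k := by
    rw [← Finset.mul_sum]
    congr 1
    rw [Finset.sum_comm]
    refine Finset.sum_congr rfl fun τ _ => ?_
    rw [← integral_finsetSum _ fun k _ => hIg k τ]
    congr 1
    funext x
    obtain ⟨k, hk, he, hsum⟩ := chi_sum sp (sp none) (Qc q s) x (fun _ => 1)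
    have e1 : ∀ j ∈ Finset.range (N + 1), iq q s (x none) *
        (chi sp (sp none) (Qc q s) j x * gr3 (Φ τ) x) =
        (1 * chi sp (sp none) (Qc q s) j x) * (iq q s (x none) * gr3 (Φ τ) x) := fun j _ => by
      ring
    rw [Finset.sum_congr rfl e1, ← Finset.sum_mul]
    rw [hN, hsum, one_mul]
    rfl
  rw [eL, eR, Finset.mul_sum]
  refine Finset.sum_le_sum fun k _ => ?_
  have hCs : 0 ≤ (8 * C * (2 * (D.g : ℝ)) ^ ((2 : ℝ) / 3) + 1) * s ^ 2 := by positivity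
  by_cases hk : 2 * (D.g : ℝ) ≤ k
  · have hw : w k = (k : ℝ) ^ ((5 : ℝ) / 3) := if_pos hk
    rw [hw]
    by_cases hg : D.g = 0
    · have : nrm2 D (wk D sp q s k Φ) = 0 := by
        unfold nrm2
        have : IsEmpty (Option I → Fin D.g) := by
          rw [hg]
          exact ⟨fun f => (f none).elim0⟩
        exact Finset.sum_of_isEmpty _
      rw [this, mul_zero]
      exact mul_nonneg hCs (hK0 k)
    · have h := step_d D.g (Nat.one_le_iff_ne_zero.2 hg) C hC0.le s k hk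
        (nrm2 D (wk D sp q s k Φ)) (K k) (hX0 k) (hK0 k)
        (fun m hm => step_c D sp hferm ℓ C hP q s hs k m hm Φ hΦ)
      refine h.trans ?_
      have h2 : 0 ≤ s ^ 2 * K k := mul_nonneg (by positivity) (hK0 k)
      nlinarith [h2]
  · have hw : w k = 0 := if_neg hk
    rw [hw, zero_mul]
    exact mul_nonneg hCs (hK0 k)

end Run7.h213.P.K.RC7
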