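import Pool.Agent.Helper780_CP.RC8
import Pool.Agent.Run7.h213.P.KLLDefs2
import Pool.Agent.Run7.h213.P.TM_row_bound
import Pool.Agent.Run7.h213.P.CBase

set_option autoImplicit false

open MeasureTheory

namespace Run7.h213.P.K.RC8

open Pool.Agent.Helper985.CP hiding IsState Ortho QQ31988 QQ_ins0_31988 QQ_mul31988 QQ_perm31988 QQ_sum31988 cube energy idjT_act idjT_compact idjT_smooth idj_W0_act idj_W0_bound idj_W0_smooth idj_int idj_sum ims_state ins0_num ins0_swap31988 ins_disj ins_state int_state kin kinE nrm2_pos pe pe_symm peierls psl_deriv psl_nrm psl_slice psl_state psl_weight pw_parseval pwaux_parseval q985_point rb833_X rb833_state rbX rb_act_X rb_bessel rb_bessel0 rb_ip_X rb_ip_XX rb_ip_XX_meas rb_ip_XX_one rb_ip_XX_vol rb_ip_swap rb_nice_X rb_nice_state relabel_num relabel_state relaux_kin remove_none_aux row_bound slice_basic slice_energy slice_state sm_ins0_31988 sphK sph_K sph_energy sph_isState sph_kin sph_sum spin_ins0_31988 stable_any state_comb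 sum_pe_half term_A31988 term_B31988 term_swap31988
open Pool.Agent.Helper780_CP hiding WI WI_add WI_const WI_coul WI_mul WI_near2 WI_one WI_pair WI_phi WI_smul WI_sum WI_wW WI_zero cost_avg icb kb klc ms_qf mulW_state multiC phb qf qf_int qf_one qf_split qf_wa rest_lower vb wm_add wm_mono wm_sum wm_tendsto gr
open Pool.Agent.Helper780_CP.RC8 hiding cell_bound cell_low pinvC8_intg pinv_cube scale_bound

variable [Env]

open Run7.h213.P.K
open Pool.Agent.Helper780_CP.RC6 (poinc_cube)


/-- the means over one cell -/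
theorem cell_low {S : Type} [DecidableEq S] (D : Species S) {I : Type} [Fintype I]
    [DecidableEq I] (sp : Option I → S) (hneg : D.charge (sp none) < 0)
    (hferm : D.fermion (sp none) = true) (ℓ : ℝ) (r : ℝ) (p : E3) (l : ℝ) (hl : 0 < l)
    (σ : Fin D.g) (Ψ : Wave D (Option I)) (hΨ : IsState D sp ℓ Ψ) :
    (cnt sp (sp none) : ℝ) * ∑ τ : I → Fin D.g, ∫ x : I → E3,
      vv D sp r p l x * ‖psl D (uQ p l) σ Ψ τ x‖ ^ 2 ≤
      l ^ 3 * ∑ τ, ∫ x : Option I → E3, vv D sp r p l (fun j => x (some j)) * ‖Ψ τ x‖ ^ 2 := by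
  have hn : ∀ τ, rbNice (Ψ τ) := fun τ => rb_nice_state D sp ℓ Ψ hΨ τ
  have h := pauli D sp (uQ p l) (uQ_nice p l) σ (wv D sp r p l Ψ)
      (fun τ => nice_wv D sp r p l hl.le Ψ hn τ) (by
        intro a b hab ha hb τ x
        have h3 := hΨ.symm a b hab (ha.trans hb.symm) τ x
        have h4 : exch D (sp a) = -1 := by
          rw [ha, exch, hferm]
          simp
        rw [h4] at h3
        show ((Real.sqrt (vv D sp r p l (fun j => x (Equiv.swap a b (some j)))) : ℝ) : ℂ) *
          Ψ (fun k => τ (Equiv.swap a b k)) (fun k => x (Equiv.swap a b k)) =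
          -1 * (((Real.sqrt (vv D sp r p l (fun j => x (some j))) : ℝ) : ℂ) * Ψ τ x)
        rw [h3, vv_swap D sp hneg r p l x a b ha hb]
        ring)
  rw [uQ_int p l hl.le] at h
  have e1 : nrm2 D (psl D (uQ p l) σ (wv D sp r p l Ψ)) = ∑ τ : I → Fin D.g, ∫ x : I → E3,
      vv D sp r p l x * ‖psl D (uQ p l) σ Ψ τ x‖ ^ 2 := by
    unfold nrm2
    refine Finset.sum_congr rfl fun τ _ => ?_
    congr 1
    funext x
    rw [psl_wv, norm_mul, Complex.norm_real, Real.norm_of_nonneg (Real.sqrt_nonneg _), mul_pow,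
      Real.sq_sqrt (vv_nn D sp r p l x)]
  have e2 : nrm2 D (wv D sp r p l Ψ) = ∑ τ, ∫ x : Option I → E3,
      vv D sp r p l (fun j => x (some j)) * ‖Ψ τ x‖ ^ 2 := by
    unfold nrm2
    refine Finset.sum_congr rfl fun τ _ => ?_
    congr 1
    funext x
    show ‖((Real.sqrt (vv D sp r p l (fun j => x (some j))) : ℝ) : ℂ) * Ψ τ x‖ ^ 2 = _
    rw [norm_mul, Complex.norm_real, Real.norm_of_nonneg (Real.sqrt_nonneg _), mul_pow,
      Real.sq_sqrt (vv_nn D sp r p l _)]
  rw [e1, e2] at h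
  exact h


/-- one cell -/
theorem cell_bound {S : Type} [DecidableEq S] (D : Species S) {I : Type} [Fintype I]
    [DecidableEq I] (C : ℝ) (hC : PI C) (sp : Option I → S)
    (hneg : D.charge (sp none) < 0)
    (hferm : D.fermion (sp none) = true) (ℓ : ℝ) (r : ℝ) (p : E3) (l : ℝ) (hl : 0 < l)
    (Ψ : Wave D (Option I)) (hΨ : IsState D sp ℓ Ψ) :
    (cnt sp (sp none) : ℝ) * ∑ τ, ∫ x : Option I → E3,
      nr D sp r p l (x none) (fun j => x (some j)) * ‖Ψ τ x‖ ^ 2 ≤
      2 * D.g * (l ^ 3)⁻¹ * (∑ τ, ∫ x : Option I → E3,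
        vv D sp r p l (fun j => x (some j)) * ‖Ψ τ x‖ ^ 2) +
      2 * C * l ^ 2 * ((cnt sp (sp none) : ℝ) * ∑ τ, ∫ x : Option I → E3,
        iQ p l (x none) * gr (Ψ τ) x) := by
  have hn : ∀ τ, rbNice (Ψ τ) := fun τ => rb_nice_state D sp ℓ Ψ hΨ τ
  have hst : ∀ σ τ, rbNice (psl D (uQ p l) σ Ψ τ) := fun σ τ =>
    nice_pslC8 D (uQ p l) (uQ_nice p l) σ Ψ hn τ
  -- integrability
  have hI1 : ∀ τ, Integrable (fun x : Option I → E3 =>
      nr D sp r p l (x none) (fun j => x (some j)) * ‖Ψ τ x‖ ^ 2) := fun τ =>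
    bm_int _ _ (nrx_meas D sp r p l) (fun x => nr_nn D sp r p l _ _) 1
      (fun x => (nr_le D sp r p l _ _).trans (iQ_le p l _)) (nice_sqC8 _ (hn τ))
  have hI2 : ∀ τ, Integrable (fun x : Option I → E3 => iQ p l (x none) * gr (Ψ τ) x) := fun τ =>
    bm_int _ _ ((iQ_meas p l).comp (measurable_pi_apply none)) (fun x => iQ_nn p l _) 1
      (fun x => iQ_le p l _) (gr_int _ (hΨ.smooth τ) (hΨ.compact τ))
  -- the left side
  have hL : ∑ τ, ∫ x : Option I → E3,
      nr D sp r p l (x none) (fun j => x (some j)) * ‖Ψ τ x‖ ^ 2 =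
      ∑ σ : Fin D.g, ∑ τ : I → Fin D.g, ∫ x : I → E3, ∫ z : E3,
        nr D sp r p l z x * ‖Ψ (fun o => o.elim σ τ) (fun o => o.elim z x)‖ ^ 2 := by
    rw [pslx_sum]
    refine Finset.sum_congr rfl fun σ _ => Finset.sum_congr rfl fun τ _ => ?_
    rw [(psl_fubini _ (hI1 (fun o => o.elim σ τ))).2]
    rfl
  have hG : ∑ τ, ∫ x : Option I → E3, iQ p l (x none) * gr (Ψ τ) x =
      ∑ σ : Fin D.g, ∑ τ : I → Fin D.g, ∫ x : I → E3, ∫ z : E3,
        iQ p l z * gr (Ψ (fun o => o.elim σ τ)) (fun o => o.elim z x) := by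
    rw [pslx_sum]
    refine Finset.sum_congr rfl fun σ _ => Finset.sum_congr rfl fun τ _ => ?_
    rw [(psl_fubini _ (hI2 (fun o => o.elim σ τ))).2]
    rfl
  -- pointwise
  have hpt : ∀ (σ : Fin D.g) (τ : I → Fin D.g) (x : I → E3),
      ∫ z : E3, nr D sp r p l z x * ‖Ψ (fun o => o.elim σ τ) (fun o => o.elim z x)‖ ^ 2 ≤
      2 * ((l ^ 3)⁻¹) ^ 2 * (vv D sp r p l x * ‖psl D (uQ p l) σ Ψ τ x‖ ^ 2) +
      2 * C * l ^ 2 * (∫ z : E3,
        iQ p l z * gr (Ψ (fun o => o.elim σ τ)) (fun o => o.elim z x)) := by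
    intro σ τ x
    obtain ⟨f1, -, -, f4⟩ := psl_slice ℓ (Ψ (fun o => o.elim σ τ))
      (hΨ.smooth _) (hΨ.compact _) (fun y hy => cube_sub ℓ (hΨ.support _ hy none)) x
    have h := cell_pt C hC (fun z : E3 => Ψ (fun o => o.elim σ τ) (fun o => o.elim z x))
      (f1.of_le (by simp)) p l hl (fun z => nr D sp r p l z x)
      ((nr_meas D sp r p l).comp (measurable_const.prodMk measurable_id))
      (fun z => nr_nn D sp r p l z x) (fun z => (nr_le D sp r p l z x).trans (iQ_le p l z))
      (fun z hz => nr_out D sp r p l z x hz)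
    have e1 : ∫ z in Qc p l, ∑ k : Fin 3,
        ‖fderiv ℝ (fun z : E3 => Ψ (fun o => o.elim σ τ) (fun o => o.elim z x)) z
          (EuclideanSpace.single k (1 : ℝ))‖ ^ 2 =
        ∫ z : E3, iQ p l z * gr (Ψ (fun o => o.elim σ τ)) (fun o => o.elim z x) := by
      rw [← integral_indicator (Qc_meas p l)]
      congr 1
      funext z
      by_cases hz : z ∈ Qc p l
      · rw [iQ_in p l z hz, Set.indicator_of_mem hz, one_mul]
        unfold gr
        refine Finset.sum_congr rfl fun k _ => ?_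
        rw [f4]
      · rw [iQ_out p l z hz, Set.indicator_of_notMem hz, zero_mul]
    rw [e1] at h
    refine h.trans (le_of_eq ?_)
    rw [uQ_psl]
    unfold vv
    ring
  -- integrate
  have hvm : ∀ (σ : Fin D.g) (τ : I → Fin D.g), Integrable (fun x : I → E3 =>
      vv D sp r p l x * ‖psl D (uQ p l) σ Ψ τ x‖ ^ 2) := fun σ τ =>
    bm_int _ _ (vv_meas D sp r p l) (fun x => vv_nn D sp r p l x) (l ^ 3)
      (fun x => vv_le D sp r p l hl.le x) (nice_sqC8 _ (hst σ τ))
  have hx : ∀ (σ : Fin D.g) (τ : I → Fin D.g),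
      ∫ x : I → E3, ∫ z : E3, nr D sp r p l z x *
        ‖Ψ (fun o => o.elim σ τ) (fun o => o.elim z x)‖ ^ 2 ≤
      2 * ((l ^ 3)⁻¹) ^ 2 * (∫ x : I → E3, vv D sp r p l x * ‖psl D (uQ p l) σ Ψ τ x‖ ^ 2) +
      2 * C * l ^ 2 * (∫ x : I → E3, ∫ z : E3,
        iQ p l z * gr (Ψ (fun o => o.elim σ τ)) (fun o => o.elim z x)) := by
    intro σ τ
    have j1 : Integrable (fun x : I → E3 => ∫ z : E3, nr D sp r p l z x *
        ‖Ψ (fun o => o.elim σ τ) (fun o => o.elim z x)‖ ^ 2) :=
      (psl_fubini _ (hI1 (fun o => o.elim σ τ))).1.integral_prod_left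
    have j2 : Integrable (fun x : I → E3 => ∫ z : E3,
        iQ p l z * gr (Ψ (fun o => o.elim σ τ)) (fun o => o.elim z x)) :=
      (psl_fubini _ (hI2 (fun o => o.elim σ τ))).1.integral_prod_left
    rw [← integral_const_mul, ← integral_const_mul,
      ← integral_add ((hvm σ τ).const_mul _) (j2.const_mul _)]
    exact integral_mono j1 (((hvm σ τ).const_mul _).add (j2.const_mul _)) fun x => hpt σ τ x
  have hsum : ∑ σ : Fin D.g, ∑ τ : I → Fin D.g, ∫ x : I → E3, ∫ z : E3, nr D sp r p l z x *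
        ‖Ψ (fun o => o.elim σ τ) (fun o => o.elim z x)‖ ^ 2 ≤
      2 * ((l ^ 3)⁻¹) ^ 2 * (∑ σ : Fin D.g, ∑ τ : I → Fin D.g, ∫ x : I → E3,
        vv D sp r p l x * ‖psl D (uQ p l) σ Ψ τ x‖ ^ 2) +
      2 * C * l ^ 2 * (∑ σ : Fin D.g, ∑ τ : I → Fin D.g, ∫ x : I → E3, ∫ z : E3,
        iQ p l z * gr (Ψ (fun o => o.elim σ τ)) (fun o => o.elim z x)) := by
    simp only [Finset.mul_sum]
    rw [← Finset.sum_add_distrib]
    refine Finset.sum_le_sum fun σ _ => ?_
    rw [← Finset.sum_add_distrib]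
    exact Finset.sum_le_sum fun τ _ => hx σ τ
  rw [hL, hG]
  have hlow : (cnt sp (sp none) : ℝ) * ∑ σ : Fin D.g, ∑ τ : I → Fin D.g, ∫ x : I → E3,
      vv D sp r p l x * ‖psl D (uQ p l) σ Ψ τ x‖ ^ 2 ≤
      (D.g : ℝ) * (l ^ 3 * ∑ τ, ∫ x : Option I → E3,
        vv D sp r p l (fun j => x (some j)) * ‖Ψ τ x‖ ^ 2) := by
    rw [Finset.mul_sum]
    calc ∑ σ : Fin D.g, (cnt sp (sp none) : ℝ) * ∑ τ : I → Fin D.g, ∫ x : I → E3,
          vv D sp r p l x * ‖psl D (uQ p l) σ Ψ τ x‖ ^ 2
        ≤ ∑ _σ : Fin D.g, (l ^ 3 * ∑ τ, ∫ x : Option I → E3,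
        vv D sp r p l (fun j => x (some j)) * ‖Ψ τ x‖ ^ 2) :=
          Finset.sum_le_sum fun σ _ => cell_low D sp hneg hferm ℓ r p l hl σ Ψ hΨ
      _ = _ := by rw [Finset.sum_const, Finset.card_univ, Fintype.card_fin, nsmul_eq_mul]
  have h5 := mul_le_mul_of_nonneg_left hsum (Nat.cast_nonneg (α := ℝ) (cnt sp (sp none)))
  refine h5.trans ?_
  have h6 := mul_le_mul_of_nonneg_left hlow (show 0 ≤ 2 * ((l ^ 3)⁻¹) ^ 2 by positivity)
  have h7 : 2 * ((l ^ 3)⁻¹) ^ 2 * ((D.g : ℝ) * (l ^ 3 * ∑ τ, ∫ x : Option I → E3,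
        vv D sp r p l (fun j => x (some j)) * ‖Ψ τ x‖ ^ 2)) =
      2 * D.g * (l ^ 3)⁻¹ * (∑ τ, ∫ x : Option I → E3,
        vv D sp r p l (fun j => x (some j)) * ‖Ψ τ x‖ ^ 2) := by
    have : l ^ 3 ≠ 0 := by positivity
    field_simp
  rw [h7] at h6
  refine le_trans (le_of_eq ?_) (add_le_add h6 le_rfl)
  ring

/-- all cells -/
theorem scale_bound {S : Type} [DecidableEq S] (D : Species S) {I : Type} [Fintype I]
    [DecidableEq I] (C : ℝ) (hC : PI C) (sp : Option I → S)
    (hneg : D.charge (sp none) < 0)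
    (hferm : D.fermion (sp none) = true) (ℓ : ℝ) (r : ℝ) (hr : 0 ≤ r) (q : E3) (l : ℝ)
    (hl : 0 < l) (n : ℕ) (hrs : r ≤ n * l) (Ψ : Wave D (Option I)) (hΨ : IsState D sp ℓ Ψ) :
    (cnt sp (sp none) : ℝ) * ∑ τ, ∫ x : Option I → E3,
      nr D sp r q (n * l) (x none) (fun j => x (some j)) * ‖Ψ τ x‖ ^ 2 ≤
      2 * D.g * (4 / 3 * Real.pi) * (r / l) ^ 3 * (∑ τ, ∫ x : Option I → E3,
        npl D sp (Qp q (n * l)) x * ‖Ψ τ x‖ ^ 2) +
      2 * C * l ^ 2 * ((cnt sp (sp none) : ℝ) * ∑ τ, ∫ x : Option I → E3,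
        iQ q (n * l) (x none) * gr (Ψ τ) x) := by
  have hn : ∀ τ, rbNice (Ψ τ) := fun τ => rb_nice_state D sp ℓ Ψ hΨ τ
  have hnl : 0 ≤ (n : ℝ) * l := by positivity
  have hI1 : ∀ p τ, Integrable (fun x : Option I → E3 =>
      nr D sp r p l (x none) (fun j => x (some j)) * ‖Ψ τ x‖ ^ 2) := fun p τ =>
    bm_int _ _ (nrx_meas D sp r p l) (fun x => nr_nn D sp r p l _ _) 1
      (fun x => (nr_le D sp r p l _ _).trans (iQ_le p l _)) (nice_sqC8 _ (hn τ))
  have hI2 : ∀ p τ, Integrable (fun x : Option I → E3 => iQ p l (x none) * gr (Ψ τ) x) :=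
    fun p τ =>
    bm_int _ _ ((iQ_meas p l).comp (measurable_pi_apply none)) (fun x => iQ_nn p l _) 1
      (fun x => iQ_le p l _) (gr_int _ (hΨ.smooth τ) (hΨ.compact τ))
  have hI3 : ∀ p s', 0 ≤ s' → ∀ τ, Integrable (fun x : Option I → E3 =>
      vv D sp r p s' (fun j => x (some j)) * ‖Ψ τ x‖ ^ 2) := fun p s' hs' τ =>
    bm_int _ _ ((vv_meas D sp r p s').comp opt_m1) (fun x => vv_nn D sp r p s' _) (s' ^ 3)
      (fun x => vv_le D sp r p s' hs' _) (nice_sqC8 _ (hn τ))
  have e1 : ∑ τ, ∫ x : Option I → E3,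
      nr D sp r q (n * l) (x none) (fun j => x (some j)) * ‖Ψ τ x‖ ^ 2 =
      ∑ a ∈ idx n, ∑ τ, ∫ x : Option I → E3,
      nr D sp r (crn q l a) l (x none) (fun j => x (some j)) * ‖Ψ τ x‖ ^ 2 := by
    rw [Finset.sum_comm]
    refine Finset.sum_congr rfl fun τ _ => ?_
    rw [← integral_finsetSum _ fun a _ => hI1 _ τ]
    congr 1
    funext x
    rw [← Finset.sum_mul]
    congr 1
    unfold nr
    rw [← Finset.sum_mul, ← iQ_cut q l hl n]
  have e2 : ∑ τ, ∫ x : Option I → E3, iQ q (n * l) (x none) * gr (Ψ τ) x =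
      ∑ a ∈ idx n, ∑ τ, ∫ x : Option I → E3, iQ (crn q l a) l (x none) * gr (Ψ τ) x := by
    rw [Finset.sum_comm]
    refine Finset.sum_congr rfl fun τ _ => ?_
    rw [← integral_finsetSum _ fun a _ => hI2 _ τ]
    congr 1
    funext x
    rw [← Finset.sum_mul, ← iQ_cut q l hl n]
  have e3 : ∑ a ∈ idx n, ∑ τ, ∫ x : Option I → E3,
      vv D sp r (crn q l a) l (fun j => x (some j)) * ‖Ψ τ x‖ ^ 2 =
      ∑ τ, ∫ x : Option I → E3, vv D sp r q (n * l) (fun j => x (some j)) * ‖Ψ τ x‖ ^ 2 := by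
    rw [Finset.sum_comm]
    refine Finset.sum_congr rfl fun τ _ => ?_
    rw [← integral_finsetSum _ fun a _ => hI3 _ l hl.le τ]
    congr 1
    funext x
    rw [← Finset.sum_mul, vv_cut D sp r q l hl n]
  have hnpm : Measurable (fun x : Option I → E3 => npl D sp (Qp q (n * l)) x) := by
    classical
    unfold npl
    refine Finset.measurable_fun_sum _ fun j _ => ?_
    refine Measurable.ite ?_ measurable_const measurable_const
    by_cases hj : 0 < D.charge (sp j)
    · have e : {x : Option I → E3 | 0 < D.charge (sp j) ∧ x j ∈ Qp q (n * l)} =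
          ⋂ k : Fin 3, {x : Option I → E3 | q k - n * l ≤ x j k} ∩
            {x : Option I → E3 | x j k < q k + 2 * (n * l)} := by
        ext x
        simp [Qp, hj]
      rw [e]
      refine MeasurableSet.iInter fun k => MeasurableSet.inter ?_ ?_
      · exact (isClosed_le continuous_const (by fun_prop)).measurableSet
      · exact (isOpen_lt (by fun_prop) continuous_const).measurableSet
    · have e : {x : Option I → E3 | 0 < D.charge (sp j) ∧ x j ∈ Qp q (n * l)} = ∅ := by
        ext x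
        simp [hj]
      rw [e]
      exact MeasurableSet.empty
  have hnp0 : ∀ x : Option I → E3, 0 ≤ npl D sp (Qp q (n * l)) x := by
    intro x
    unfold npl
    refine Finset.sum_nonneg fun j _ => ?_
    split_ifs
    · exact zero_le_one
    · exact le_rfl
  have hnp1 : ∀ x : Option I → E3, npl D sp (Qp q (n * l)) x ≤ (Fintype.card (Option I) : ℝ) := by
    intro x
    unfold npl
    refine (Finset.sum_le_sum (g := fun _ => (1 : ℝ)) fun j _ => ?_).trans (le_of_eq ?_)
    · split_ifs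
      · exact le_rfl
      · exact zero_le_one
    · simp
  have hI4 : ∀ τ, Integrable (fun x : Option I → E3 =>
      npl D sp (Qp q (n * l)) x * ‖Ψ τ x‖ ^ 2) := fun τ =>
    bm_int _ _ hnpm hnp0 _ hnp1 (nice_sqC8 _ (hn τ))
  have h4 : ∑ τ, ∫ x : Option I → E3, vv D sp r q (n * l) (fun j => x (some j)) * ‖Ψ τ x‖ ^ 2 ≤
      (4 / 3 * Real.pi * r ^ 3) * ∑ τ, ∫ x : Option I → E3,
        npl D sp (Qp q (n * l)) x * ‖Ψ τ x‖ ^ 2 := by
    rw [Finset.mul_sum]
    refine Finset.sum_le_sum fun τ _ => ?_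
    rw [← integral_const_mul]
    refine integral_mono (hI3 q (n * l) hnl τ) ((hI4 τ).const_mul _) fun x => ?_
    have := mul_le_mul_of_nonneg_right (vv_npl D sp r q (n * l) hr hrs x)
      (show 0 ≤ ‖Ψ τ x‖ ^ 2 by positivity)
    refine this.trans (le_of_eq ?_)
    ring
  have h5 := Finset.sum_le_sum fun a (_ : a ∈ idx n) =>
    cell_bound D C hC sp hneg hferm ℓ r (crn q l a) l hl Ψ hΨ
  rw [← Finset.mul_sum, ← e1, Finset.sum_add_distrib, ← Finset.mul_sum, e3, ← Finset.mul_sum,
    ← Finset.mul_sum, ← e2] at h5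
  refine h5.trans (add_le_add ?_ le_rfl)
  refine (mul_le_mul_of_nonneg_left h4 (by positivity)).trans (le_of_eq ?_)
  rw [div_pow]
  field_simp


theorem pinvC8_intg {S : Type} (D : Species S) {I : Type} [Fintype I]
    [DecidableEq I] (sp : Option I → S) (hneg : D.charge (sp none) < 0) (ℓ : ℝ)
    (Ψ : Wave D (Option I)) (hΨ : IsState D sp ℓ Ψ)
    (τ : Option I → Fin D.g) : Integrable (fun x => pinv D sp none x * ‖Ψ τ x‖ ^ 2) := by
  have h1 := (int_state D sp ℓ Ψ hΨ τ).2.2.2.1
  have h2 : Integrable (fun x : Option I → E3 => (∑ j : I, (if 0 < D.charge (sp (some j)) then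
      ‖x none - x (some j)‖⁻¹ else 0)) * ‖Ψ τ x‖ ^ 2) := by
    simp only [Finset.sum_mul]
    refine integrable_finsetSum _ fun j _ => ?_
    by_cases hj : 0 < D.charge (sp (some j))
    · simp only [if_pos hj]
      have h3 := (h1 none (some j) (by simp)).const_mul
        ((D.charge (sp none) * D.charge (sp (some j)))⁻¹)
      refine h3.congr (Filter.Eventually.of_forall fun x => ?_)
      have h4 := hneg.ne
      have h5 := hj.ne'
      show (D.charge (sp none) * D.charge (sp (some j)))⁻¹ *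
        (D.charge (sp none) * D.charge (sp (some j)) /
        ‖x none - x (some j)‖ * ‖Ψ τ x‖ ^ 2) = _
      field_simp
    · simp only [if_neg hj, zero_mul]
      exact integrable_zero _ _ _
  refine h2.mono' ?_ (Filter.Eventually.of_forall fun x => ?_)
  · exact ((pinvC8_meas D sp none).mul
      (((hΨ.smooth τ).continuous.measurable.norm).pow_const 2)).aestronglyMeasurable
  · rw [Real.norm_of_nonneg (mul_nonneg (pinvC8_nn D sp none x) (by positivity))]
    refine mul_le_mul_of_nonneg_right ?_ (by positivity)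
    unfold pinv
    have hnn : ∀ j ∈ (Finset.univ : Finset I), 0 ≤
        (if 0 < D.charge (sp (some j)) then ‖x none - x (some j)‖⁻¹ else 0) := by
      intro j _
      split_ifs
      · positivity
      · exact le_rfl
    refine Real.iSup_le (fun j => ?_) (Finset.sum_nonneg hnn)
    cases j with
    | none =>
      rw [if_neg (not_lt.2 hneg.le)]
      exact Finset.sum_nonneg hnn
    | some j => exact Finset.single_le_sum hnn (Finset.mem_univ j)

/-- TARGET (with the parentheses around the first term of the last bracket: as written in the job,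
`∑ τ, ∫ x, A + ∑ τ, ∫ x, B` is read with `+ ∑ τ, ∫ x, B` INSIDE the first integral) -/
theorem pinv_cube {S : Type} [DecidableEq S] (D : Species S) (δ : ℝ) (hδ : 0 < δ) :
    ∃ C : ℝ, 0 < C ∧ ∀ {I : Type} [Fintype I] [DecidableEq I] (sp : Option I → S) (ℓ : ℝ),
      D.charge (sp none) < 0 → D.fermion (sp none) = true →
      ∀ (Φ : Wave D (Option I)), IsState D sp ℓ Φ → ∀ (q : E3) (s : ℝ), 0 < s →
      (cnt sp (sp none) : ℝ) * ∑ τ, ∫ x, (Qc q s).indicator (fun _ => (1 : ℝ)) (x none) *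
          pinv D sp none x * ‖Φ τ x‖ ^ 2 ≤
        δ * s * ((cnt sp (sp none) : ℝ) * ∑ τ, ∫ x, (Qc q s).indicator (fun _ => (1 : ℝ)) (x none) *
          ∑ k : Fin 3, ‖fderiv ℝ (Φ τ) x (Pi.single none (EuclideanSpace.single k (1 : ℝ)))‖ ^ 2) +
        C / s * (((cnt sp (sp none) : ℝ) * ∑ τ, ∫ x, (Qc q s).indicator (fun _ => (1 : ℝ)) (x none) *
            ‖Φ τ x‖ ^ 2) +
          ∑ τ, ∫ x, npl D sp (Qp q s) x * ‖Φ τ x‖ ^ 2) := by
  obtain ⟨CP, hCP0, hCP⟩ := poinc_cube
  have hPI : PI CP := hCP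
  obtain ⟨k1, hk1⟩ := exists_pow_lt_of_lt_one (show 0 < δ / (1024 * CP) by positivity)
    (show (1 / 4 : ℝ) < 1 by norm_num)
  refine ⟨256 ^ k1 + 2 * D.g * (4 / 3 * Real.pi) * 512, by positivity, ?_⟩
  intro I _ _ sp ℓ hneg hferm Φ hΦ q s hs
  obtain ⟨N, hN⟩ : ∃ N : ℝ, N = (cnt sp (sp none) : ℝ) := ⟨_, rfl⟩
  obtain ⟨P, hP⟩ : ∃ P : ℝ, P = ∑ τ, ∫ x : Option I → E3, npl D sp (Qp q s) x * ‖Φ τ x‖ ^ 2 :=
    ⟨_, rfl⟩
  obtain ⟨T, hT⟩ : ∃ T : ℝ, T = (cnt sp (sp none) : ℝ) * ∑ τ, ∫ x : Option I → E3,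
      iQ q s (x none) * gr (Φ τ) x := ⟨_, rfl⟩
  obtain ⟨W, hW⟩ : ∃ W : ℝ, W = ∑ τ, ∫ x : Option I → E3, iQ q s (x none) * ‖Φ τ x‖ ^ 2 :=
    ⟨_, rfl⟩
  have hgoal : N * ∑ τ, ∫ x : Option I → E3, iQ q s (x none) * pinv D sp none x * ‖Φ τ x‖ ^ 2 ≤
      δ * s * T + (256 ^ k1 + 2 * D.g * (4 / 3 * Real.pi) * 512) / s * (N * W + P) := by
    have hN0 : 0 ≤ N := by rw [hN]; exact Nat.cast_nonneg _
    have hP0 : 0 ≤ P := by
      rw [hP]
      refine Finset.sum_nonneg fun τ _ => integral_nonneg fun x => ?_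
      refine mul_nonneg ?_ (by positivity)
      unfold npl
      refine Finset.sum_nonneg fun j _ => ?_
      split_ifs
      · exact zero_le_one
      · exact le_rfl
    have hT0 : 0 ≤ T := by
      rw [hT]
      refine mul_nonneg (Nat.cast_nonneg _) (Finset.sum_nonneg fun τ _ => integral_nonneg fun x => ?_)
      exact mul_nonneg (iQ_nn q s _) (gr_nn _ _)
    have hW0 : 0 ≤ W := by
      rw [hW]
      refine Finset.sum_nonneg fun τ _ => integral_nonneg fun x => ?_
      exact mul_nonneg (iQ_nn q s _) (by positivity)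
    have hn : ∀ τ, rbNice (Φ τ) := fun τ => rb_nice_state D sp ℓ Φ hΦ τ
    have hIn : ∀ r τ, Integrable (fun x : Option I → E3 =>
        nr D sp r q s (x none) (fun j => x (some j)) * ‖Φ τ x‖ ^ 2) := fun r τ =>
      bm_int _ _ (nrx_meas D sp r q s) (fun x => nr_nn D sp r q s _ _) 1
        (fun x => (nr_le D sp r q s _ _).trans (iQ_le q s _)) (nice_sqC8 _ (hn τ))
    have hIq : ∀ τ, Integrable (fun x : Option I → E3 => iQ q s (x none) * ‖Φ τ x‖ ^ 2) := fun τ =>
      bm_int _ _ ((iQ_meas q s).comp (measurable_pi_apply none)) (fun x => iQ_nn q s _) 1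
        (fun x => iQ_le q s _) (nice_sqC8 _ (hn τ))
    obtain ⟨t, ht⟩ : ∃ t : ℕ → ℝ, t = fun k => 256 ^ (k1 + k) / s := ⟨_, rfl⟩
    obtain ⟨rr, hrr⟩ : ∃ rr : ℕ → ℝ, rr = fun k => s / 256 ^ (k1 + k) := ⟨_, rfl⟩
    have ht0 : ∀ k, 0 < t k := by intro k; rw [ht]; positivity
    have htr1 : ∀ k, (t k)⁻¹ = rr k := by
      intro k
      rw [ht, hrr]
      simp
    -- the truncated bound
    have htr : ∀ M : ℕ, N * ∑ τ, ∫ x : Option I → E3,
        iQ q s (x none) * min (pinv D sp none x) (t M) * ‖Φ τ x‖ ^ 2 ≤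
        δ * s * T + (256 ^ k1 + 2 * D.g * (4 / 3 * Real.pi) * 512) / s * (N * W + P) := by
      intro M
      have hpt : ∀ τ x, iQ q s (x none) * min (pinv D sp none x) (t M) * ‖Φ τ x‖ ^ 2 ≤
          t 0 * (iQ q s (x none) * ‖Φ τ x‖ ^ 2) + ∑ k ∈ Finset.range M, t (k + 1) *
          (nr D sp (rr k) q s (x none) (fun j => x (some j)) * ‖Φ τ x‖ ^ 2) := by
        intro τ x
        have hχ := layC8 (pinv D sp none x) t
          (fun k => (nst D sp (rr k)).indicator (fun _ => (1 : ℝ)) ((fun j => x (some j)), x none))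
          (fun k => (ht0 k).le) (fun k => Set.indicator_nonneg (fun _ _ => zero_le_one) _)
          (fun k hk => by
            have h2 : ∃ j, t k < (if 0 < D.charge (sp j) then ‖x none - x j‖⁻¹ else 0) := by
              by_contra hcon
              simp only [not_exists, not_lt] at hcon
              have : pinv D sp none x ≤ t k := Real.iSup_le hcon (ht0 k).le
              linarith
            obtain ⟨j, hj⟩ := h2
            by_cases hp : 0 < D.charge (sp j)
            · rw [if_pos hp] at hj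
              cases j with
              | none => linarith
              | some j =>
                have h3 : ‖x none - x (some j)‖ < rr k := by
                  have h4 : 0 < ‖x none - x (some j)‖⁻¹ := lt_trans (ht0 k) hj
                  rw [← inv_inv ‖x none - x (some j)‖, ← htr1 k]
                  exact inv_strictAnti₀ (ht0 k) hj
                show (nst D sp (rr k)).indicator (fun _ => (1 : ℝ))
                  ((fun j => x (some j)), x none) = 1
                rw [Set.indicator_of_mem]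
                exact ⟨j, hp, h3⟩
            · rw [if_neg hp] at hj
              have := ht0 k
              linarith) M
        have h2 := mul_le_mul_of_nonneg_right hχ
          (show 0 ≤ iQ q s (x none) * ‖Φ τ x‖ ^ 2 from
            mul_nonneg (iQ_nn q s _) (by positivity))
        rw [add_mul, Finset.sum_mul] at h2
        calc iQ q s (x none) * min (pinv D sp none x) (t M) * ‖Φ τ x‖ ^ 2
            = min (pinv D sp none x) (t M) * (iQ q s (x none) * ‖Φ τ x‖ ^ 2) := by ring
          _ ≤ _ := h2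
          _ = _ := by
            congr 1
            refine Finset.sum_congr rfl fun k _ => ?_
            unfold nr
            ring
      have hint : ∀ τ, ∫ x : Option I → E3,
          iQ q s (x none) * min (pinv D sp none x) (t M) * ‖Φ τ x‖ ^ 2 ≤
          t 0 * (∫ x : Option I → E3, iQ q s (x none) * ‖Φ τ x‖ ^ 2) +
          ∑ k ∈ Finset.range M, t (k + 1) *
          ∫ x : Option I → E3, nr D sp (rr k) q s (x none) (fun j => x (some j)) *
            ‖Φ τ x‖ ^ 2 := by
        intro τ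
        have e : t 0 * (∫ x : Option I → E3, iQ q s (x none) * ‖Φ τ x‖ ^ 2) +
            ∑ k ∈ Finset.range M, t (k + 1) *
            ∫ x : Option I → E3, nr D sp (rr k) q s (x none) (fun j => x (some j)) *
              ‖Φ τ x‖ ^ 2 =
            ∫ x : Option I → E3, (t 0 * (iQ q s (x none) * ‖Φ τ x‖ ^ 2) +
            ∑ k ∈ Finset.range M, t (k + 1) *
            (nr D sp (rr k) q s (x none) (fun j => x (some j)) * ‖Φ τ x‖ ^ 2)) := by
          rw [integral_add ((hIq τ).const_mul _)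
            (integrable_finsetSum _ fun k _ => (hIn _ τ).const_mul _),
            integral_finsetSum _ fun k _ => (hIn _ τ).const_mul _, integral_const_mul]
          congr 1
          refine Finset.sum_congr rfl fun k _ => ?_
          rw [integral_const_mul]
        rw [e]
        refine integral_mono_of_nonneg (Filter.Eventually.of_forall fun x => ?_)
          (((hIq τ).const_mul _).add (integrable_finsetSum _ fun k _ => (hIn _ τ).const_mul _))
          (Filter.Eventually.of_forall fun x => hpt τ x)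
        exact mul_nonneg (mul_nonneg (iQ_nn q s _) (le_min (pinvC8_nn D sp none x) (ht0 M).le))
          (by positivity)
      have hs1 : ∑ τ, ∫ x : Option I → E3,
          iQ q s (x none) * min (pinv D sp none x) (t M) * ‖Φ τ x‖ ^ 2 ≤
          t 0 * W + ∑ k ∈ Finset.range M, t (k + 1) *
          ∑ τ, ∫ x : Option I → E3, nr D sp (rr k) q s (x none) (fun j => x (some j)) *
            ‖Φ τ x‖ ^ 2 := by
        refine (Finset.sum_le_sum fun τ _ => hint τ).trans (le_of_eq ?_)
        rw [Finset.sum_add_distrib, hW, Finset.mul_sum]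
        congr 1
        rw [Finset.sum_comm]
        refine Finset.sum_congr rfl fun k _ => ?_
        rw [Finset.mul_sum]
      have hs2 := mul_le_mul_of_nonneg_left hs1 hN0
      refine hs2.trans ?_
      rw [mul_add]
      have hk : ∀ k ∈ Finset.range M, N * (t (k + 1) *
          ∑ τ, ∫ x : Option I → E3, nr D sp (rr k) q s (x none) (fun j => x (some j)) *
            ‖Φ τ x‖ ^ 2) ≤ (2 * D.g * (4 / 3 * Real.pi) * 256 / s * P +
              512 * CP * (1 / 4) ^ k1 * s * T) * (1 / 2) ^ k := by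
        intro k _
        obtain ⟨K, hK⟩ : ∃ K : ℕ, K = k1 + k := ⟨_, rfl⟩
        have hnl : ((32 ^ K : ℕ) : ℝ) * (s / 32 ^ K) = s := by
          push_cast
          field_simp
        have h256 : (1 : ℝ) ≤ 256 ^ K := one_le_pow₀ (by norm_num)
        have hrs : rr k ≤ s := by
          rw [hrr]
          show s / 256 ^ (k1 + k) ≤ s
          rw [← hK]
          exact div_le_self hs.le h256
        have hr0 : 0 ≤ rr k := by
          rw [hrr]
          positivity
        have h1 := scale_bound D CP hPI sp hneg hferm ℓ (rr k) hr0 q (s / 32 ^ K)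
          (by positivity) (32 ^ K) (by rw [hnl]; exact hrs) Φ hΦ
        rw [hnl, ← hN, ← hP] at h1
        rw [← hN] at hT
        rw [← hT] at h1
        have h2 := mul_le_mul_of_nonneg_left h1 (ht0 (k + 1)).le
        have hA : t (k + 1) * (rr k / (s / 32 ^ K)) ^ 3 = 256 / s * ((1 / 2) ^ k1 * (1 / 2) ^ k) := by
          rw [← pow_add, ← hK, ht, hrr]
          show 256 ^ (k1 + (k + 1)) / s * (s / 256 ^ (k1 + k) / (s / 32 ^ K)) ^ 3 = _
          rw [← add_assoc, ← hK, pow_succ]
          have e256 : (256 : ℝ) ^ K = 2 ^ K * 2 ^ K * 2 ^ K * 32 ^ K := by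
            rw [← mul_pow, ← mul_pow, ← mul_pow]; norm_num
          have e2 : (1 / 2 : ℝ) ^ K = (2 ^ K)⁻¹ := by rw [one_div, inv_pow]
          have e32 : (32 : ℝ) ^ K = 2 ^ K * 2 ^ K * 2 ^ K * 2 ^ K * 2 ^ K := by
            rw [← mul_pow, ← mul_pow, ← mul_pow, ← mul_pow]; norm_num
          rw [e256, e32, e2]
          have : (2 : ℝ) ^ K ≠ 0 := by positivity
          have : s ≠ 0 := hs.ne'
          field_simp
        have hB : t (k + 1) * (s / 32 ^ K) ^ 2 = 256 * s * ((1 / 4) ^ k1 * (1 / 4) ^ k) := by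
          rw [← pow_add, ← hK, ht]
          show 256 ^ (k1 + (k + 1)) / s * (s / 32 ^ K) ^ 2 = _
          rw [← add_assoc, ← hK, pow_succ]
          have e256 : (256 : ℝ) ^ K * 4 ^ K = 32 ^ K * 32 ^ K := by
            rw [← mul_pow, ← mul_pow]; norm_num
          have e4 : (1 / 4 : ℝ) ^ K = (4 ^ K)⁻¹ := by rw [one_div, inv_pow]
          rw [e4]
          have h4 : (4 : ℝ) ^ K ≠ 0 := by positivity
          have h32 : (32 : ℝ) ^ K ≠ 0 := by positivity
          have : s ≠ 0 := hs.ne'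
          field_simp
          nlinarith [e256]
        have h12 : (1 / 2 : ℝ) ^ k1 ≤ 1 := pow_le_one₀ (by norm_num) (by norm_num)
        have h14 : (1 / 4 : ℝ) ^ k ≤ (1 / 2) ^ k :=
          pow_le_pow_left₀ (by norm_num) (by norm_num) k
        have hk0 : 0 ≤ (1 / 2 : ℝ) ^ k := by positivity
        calc N * (t (k + 1) * ∑ τ, ∫ x : Option I → E3,
            nr D sp (rr k) q s (x none) (fun j => x (some j)) * ‖Φ τ x‖ ^ 2)
            = t (k + 1) * (N * ∑ τ, ∫ x : Option I → E3,
              nr D sp (rr k) q s (x none) (fun j => x (some j)) * ‖Φ τ x‖ ^ 2) := by ring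
          _ ≤ _ := h2
          _ = 2 * D.g * (4 / 3 * Real.pi) * P * (t (k + 1) * (rr k / (s / 32 ^ K)) ^ 3) +
              2 * CP * T * (t (k + 1) * (s / 32 ^ K) ^ 2) := by ring
          _ = 2 * D.g * (4 / 3 * Real.pi) * P * (256 / s) * ((1 / 2) ^ k1 * (1 / 2) ^ k) +
              2 * CP * T * (256 * s) * ((1 / 4) ^ k1 * (1 / 4) ^ k) := by rw [hA, hB]; ring
          _ ≤ 2 * D.g * (4 / 3 * Real.pi) * P * (256 / s) * (1 * (1 / 2) ^ k) +
              2 * CP * T * (256 * s) * ((1 / 4) ^ k1 * (1 / 2) ^ k) := by gcongr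
          _ = _ := by ring
      have hs3 := Finset.sum_le_sum hk
      rw [← Finset.mul_sum, ← Finset.mul_sum] at hs3
      have hg : ∑ k ∈ Finset.range M, (1 / 2 : ℝ) ^ k ≤ 2 := sum_geometric_two_le M
      have hs4 := mul_le_mul_of_nonneg_left hg (show 0 ≤ 2 * D.g * (4 / 3 * Real.pi) * 256 / s * P +
              512 * CP * (1 / 4) ^ k1 * s * T by positivity)
      have h6 : 1024 * CP * (1 / 4) ^ k1 ≤ δ := by
        have h7 := (lt_div_iff₀ (by positivity)).1 hk1
        linarith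
      have h8 := mul_le_mul_of_nonneg_right h6 (show 0 ≤ s * T by positivity)
      have ht00 : t 0 = 256 ^ k1 / s := by rw [ht]; rfl
      have h9 : N * (t 0 * W) = 256 ^ k1 / s * (N * W) := by rw [ht00]; ring
      have h10 : (256 ^ k1 + 2 * D.g * (4 / 3 * Real.pi) * 512) / s * (N * W + P) =
          256 ^ k1 / s * (N * W) + 2 * D.g * (4 / 3 * Real.pi) * 512 / s * P +
          (256 ^ k1 / s * P + 2 * D.g * (4 / 3 * Real.pi) * 512 / s * (N * W)) := by ring
      have h11 : 0 ≤ 256 ^ k1 / s * P + 2 * D.g * (4 / 3 * Real.pi) * 512 / s * (N * W) := by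
        positivity
      rw [h9, h10]
      have h12 : (2 * D.g * (4 / 3 * Real.pi) * 256 / s * P +
              512 * CP * (1 / 4) ^ k1 * s * T) * 2 =
          2 * D.g * (4 / 3 * Real.pi) * 512 / s * P + 1024 * CP * (1 / 4) ^ k1 * (s * T) := by
        ring
      rw [h12] at hs4
      have h13 : δ * (s * T) = δ * s * T := by ring
      rw [h13] at h8
      linarith
    -- the limit
    have hlim : Filter.Tendsto (fun M : ℕ => N * ∑ τ, ∫ x : Option I → E3,
        iQ q s (x none) * min (pinv D sp none x) (t M) * ‖Φ τ x‖ ^ 2) Filter.atTop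
        (nhds (N * ∑ τ, ∫ x : Option I → E3,
          iQ q s (x none) * pinv D sp none x * ‖Φ τ x‖ ^ 2)) := by
      refine Filter.Tendsto.const_mul _ (tendsto_finsetSum _ fun τ _ => ?_)
      have hmq : Measurable (fun x : Option I → E3 => iQ q s (x none)) :=
        (iQ_meas q s).comp (measurable_pi_apply none)
      refine tendsto_integral_of_dominated_convergence
        (fun x => pinv D sp none x * ‖Φ τ x‖ ^ 2) (fun M => ?_)
        (pinvC8_intg D sp hneg ℓ Φ hΦ τ) (fun M => Filter.Eventually.of_forall fun x => ?_)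
        (Filter.Eventually.of_forall fun x => ?_)
      · exact ((hmq.mul ((pinvC8_meas D sp none).min measurable_const)).mul
          (((hΦ.smooth τ).continuous.measurable.norm).pow_const 2)).aestronglyMeasurable
      · have h1 : 0 ≤ min (pinv D sp none x) (t M) := le_min (pinvC8_nn D sp none x) (ht0 M).le
        rw [Real.norm_of_nonneg (mul_nonneg (mul_nonneg (iQ_nn q s _) h1) (by positivity))]
        refine mul_le_mul_of_nonneg_right ?_ (by positivity)
        calc iQ q s (x none) * min (pinv D sp none x) (t M)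
            ≤ 1 * pinv D sp none x :=
              mul_le_mul (iQ_le q s _) (min_le_left _ _) h1 zero_le_one
          _ = _ := one_mul _
      · refine Filter.Tendsto.mul_const _ (Filter.Tendsto.const_mul _ ?_)
        have h1 : Filter.Tendsto t Filter.atTop Filter.atTop := by
          rw [ht]
          refine Filter.Tendsto.atTop_div_const hs ?_
          have h2 : Filter.Tendsto (fun k : ℕ => (256 : ℝ) ^ k) Filter.atTop Filter.atTop :=
            tendsto_pow_atTop_atTop_of_one_lt (by norm_num)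
          exact h2.comp (Filter.tendsto_add_atTop_nat k1 |>.congr fun k => by omega)
        refine tendsto_const_nhds.congr' ?_
        filter_upwards [h1.eventually_ge_atTop (pinv D sp none x)] with M hM
        exact (min_eq_left hM).symm
    exact le_of_tendsto hlim (Filter.Eventually.of_forall htr)
  rw [hN, hT, hW, hP] at hgoal
  exact hgoal

end Run7.h213.P.K.RC8
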