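import Pool.Agent.Helper780_CP.RL0
import Pool.Agent.Run7.h213.P.KLLDefs2
import Pool.Agent.Run7.h213.P.CBase

set_option autoImplicit false

open MeasureTheory

namespace Run7.h213.P.K.RL0

open Pool.Agent.Helper985.CP hiding IsState Ortho QQ31988 QQ_ins0_31988 QQ_mul31988 QQ_perm31988 QQ_sum31988 cube energy idjT_act idjT_compact idjT_smooth idj_W0_act idj_W0_bound idj_W0_smooth idj_int idj_sum ims_state ins0_num ins0_swap31988 ins_disj ins_state int_state kin kinE nrm2_pos pe pe_symm peierls psl_deriv psl_nrm psl_slice psl_state psl_weight pw_parseval pwaux_parseval q985_point rb833_X rb833_state rbX rb_act_X rb_bessel rb_bessel0 rb_ip_X rb_ip_XX rb_ip_XX_meas rb_ip_XX_one rb_ip_XX_vol rb_ip_swap rb_nice_X rb_nice_state relabel_num relabel_state relaux_kin remove_none_aux row_bound slice_basic slice_energy slice_state sm_ins0_31988 sphK sph_K sph_energy sph_isState sph_kin sph_sum spin_ins0_31988 stable_any state_comb sum_pe_half term_A31988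 term_B31988 term_swap31988
open Pool.Agent.Helper780_CP hiding WI WI_add WI_const WI_coul WI_mul WI_near2 WI_one WI_pair WI_phi WI_smul WI_sum WI_wW WI_zero cost_avg icb kb klc ms_qf mulW_state multiC phb qf qf_int qf_one qf_split qf_wa rest_lower vb wm_add wm_mono wm_sum wm_tendsto
open Pool.Agent.Helper780_CP.RL0 hiding energy_const gr_int imsS kin_const_mul mulW_stateS

variable [Env]

open Run7.h213.P.K


/-- TARGET 1 -/
theorem mulW_stateS {S : Type} (D : Species S) {I : Type} [Fintype I] [DecidableEq I] (sp : I → S)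
    (ℓ : ℝ) (Ψ : Wave D I) (hΨ : IsState D sp ℓ Ψ) (f : (I → E3) → ℝ)
    (hf : ContDiff ℝ SM f) (hs : Sy sp f) : IsState D sp ℓ (mulW D f Ψ) where
  smooth τ := (Complex.ofRealCLM.contDiff.comp hf).mul (hΨ.smooth τ)
  compact τ := (hΨ.compact τ).mul_left
  support τ := by
    refine Set.Subset.trans ?_ (hΨ.support τ)
    exact closure_mono (Function.support_mul_subset_right _ _)
  spin τ h := by
    refine hΨ.spin τ fun h0 => h ?_
    funext x
    simp [mulW, h0]
  symm i j hij hsp τ x := by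
    unfold mulW
    rw [hs i j x hsp, hΨ.symm i j hij hsp τ x]
    ring

/-- the localisation formula with the symmetry required only inside a species -/
theorem imsS {S : Type} (D : Species S) {I : Type} [Fintype I] [DecidableEq I] (sp : I → S)
    (ℓ : ℝ) (Ψ : Wave D I) (hΨ : IsState D sp ℓ Ψ) (θ : (I → E3) → ℝ) (hθ : ContDiff ℝ SM θ)
    (hs : Sy sp θ) :
    nrm2 D (mulW D (fun x => Real.cos (θ x)) Ψ) +
      nrm2 D (mulW D (fun x => Real.sin (θ x)) Ψ) = nrm2 D Ψ ∧
    energy D sp (mulW D (fun x => Real.cos (θ x)) Ψ) +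
      energy D sp (mulW D (fun x => Real.sin (θ x)) Ψ) = energy D sp Ψ +
      ∑ τ, ∫ x, (∑ i, (1 / (2 * D.mass (sp i))) * ∑ k : Fin 3,
        (fderiv ℝ θ x (Pi.single i (EuclideanSpace.single k (1 : ℝ)))) ^ 2) * ‖Ψ τ x‖ ^ 2 := by
  have hcos : ContDiff ℝ SM (fun x => Real.cos (θ x)) := Real.contDiff_cos.comp hθ
  have hsin : ContDiff ℝ SM (fun x => Real.sin (θ x)) := Real.contDiff_sin.comp hθ
  have hC : IsState D sp ℓ (fun τ x => ((Real.cos (θ x) : ℝ) : ℂ) * Ψ τ x) :=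
    mulW_stateS D sp ℓ Ψ hΨ _ hcos (fun i j x h => by rw [hs i j x h])
  have hS : IsState D sp ℓ (fun τ x => ((Real.sin (θ x) : ℝ) : ℂ) * Ψ τ x) :=
    mulW_stateS D sp ℓ Ψ hΨ _ hsin (fun i j x h => by rw [hs i j x h])
  unfold mulW
  refine ⟨?_, ?_⟩
  · unfold nrm2
    rw [← Finset.sum_add_distrib]
    refine Finset.sum_congr rfl fun τ _ => ?_
    rw [← integral_add (int_state D sp ℓ _ hC τ).1 (int_state D sp ℓ _ hS τ).1]
    refine integral_congr_ae (Filter.Eventually.of_forall fun x => ?_)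
    exact ims_alg0 (Ψ τ x) (θ x)
  · unfold energy
    rw [← Finset.sum_add_distrib, ← Finset.sum_add_distrib]
    refine Finset.sum_congr rfl fun τ _ => ?_
    obtain ⟨-, c2, c3, -, -⟩ := int_state D sp ℓ _ hC τ
    obtain ⟨-, s2, s3, -, -⟩ := int_state D sp ℓ _ hS τ
    obtain ⟨-, p2, p3, -, -⟩ := int_state D sp ℓ _ hΨ τ
    have iC := (integrable_finsetSum Finset.univ fun i _ => c2 i).add c3
    have iS := (integrable_finsetSum Finset.univ fun i _ => s2 i).add s3
    have iP := (integrable_finsetSum Finset.univ fun i _ => p2 i).add p3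
    have hdθ : ∀ x, HasFDerivAt θ (fderiv ℝ θ x) x := fun x =>
      ((hθ.differentiable (by simp)) x).hasFDerivAt
    have hdΨ : ∀ x, DifferentiableAt ℝ (Ψ τ) x := fun x =>
      ((hΨ.smooth τ).differentiable (by simp)) x
    have hkin : ∀ i x, kin D sp i (fun x => ((Real.cos (θ x) : ℝ) : ℂ) * Ψ τ x) x +
        kin D sp i (fun x => ((Real.sin (θ x) : ℝ) : ℂ) * Ψ τ x) x =
        kin D sp i (Ψ τ) x + ((1 / (2 * D.mass (sp i))) * ∑ k : Fin 3,
          (fderiv ℝ θ x (Pi.single i (EuclideanSpace.single k (1 : ℝ)))) ^ 2) * ‖Ψ τ x‖ ^ 2 := by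
      intro i x
      have h0 : Pool.Agent.Helper985.CP.kin D sp i
          (fun x => ((Real.cos (θ x) : ℝ) : ℂ) * Ψ τ x) x +
          Pool.Agent.Helper985.CP.kin D sp i
          (fun x => ((Real.sin (θ x) : ℝ) : ℂ) * Ψ τ x) x =
          Pool.Agent.Helper985.CP.kin D sp i (Ψ τ) x +
          ((1 / (2 * D.mass (sp i))) * ∑ k : Fin 3,
          (fderiv ℝ θ x (Pi.single i (EuclideanSpace.single k (1 : ℝ)))) ^ 2) *
            ‖Ψ τ x‖ ^ 2 := by
        unfold Pool.Agent.Helper985.CP.kin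
        rw [← mul_add, mul_assoc, ← mul_add, ← Finset.sum_add_distrib, Finset.sum_mul,
          ← Finset.sum_add_distrib]
        congr 1
        refine Finset.sum_congr rfl fun k _ => ?_
        rw [ims_deriv (fun x => Real.cos (θ x)) (Ψ τ) x _ _ (hdθ x).cos (hdΨ x),
          ims_deriv (fun x => Real.sin (θ x)) (Ψ τ) x _ _ (hdθ x).sin (hdΨ x)]
        simp only [_root_.smul_apply, smul_eq_mul]
        exact ims_alg _ _ _ _
      have e0 := ims_alg0 (Ψ τ x) (θ x)
      unfold kin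
      linear_combination h0 + Env.U (x i) * e0
    have hpt : ∀ x, (∑ i, (1 / (2 * D.mass (sp i))) * ∑ k : Fin 3,
        (fderiv ℝ θ x (Pi.single i (EuclideanSpace.single k (1 : ℝ)))) ^ 2) * ‖Ψ τ x‖ ^ 2 =
        (((∑ i, kin D sp i (fun x => ((Real.cos (θ x) : ℝ) : ℂ) * Ψ τ x) x) +
          coul D sp x * ‖((Real.cos (θ x) : ℝ) : ℂ) * Ψ τ x‖ ^ 2) +
        ((∑ i, kin D sp i (fun x => ((Real.sin (θ x) : ℝ) : ℂ) * Ψ τ x) x) +
          coul D sp x * ‖((Real.sin (θ x) : ℝ) : ℂ) * Ψ τ x‖ ^ 2)) -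
        ((∑ i, kin D sp i (Ψ τ) x) + coul D sp x * ‖Ψ τ x‖ ^ 2) := by
      intro x
      have e1 := ims_alg0 (Ψ τ x) (θ x)
      have e2 : (∑ i, kin D sp i (fun x => ((Real.cos (θ x) : ℝ) : ℂ) * Ψ τ x) x) +
          (∑ i, kin D sp i (fun x => ((Real.sin (θ x) : ℝ) : ℂ) * Ψ τ x) x) =
          (∑ i, kin D sp i (Ψ τ) x) + (∑ i, (1 / (2 * D.mass (sp i))) * ∑ k : Fin 3,
            (fderiv ℝ θ x (Pi.single i (EuclideanSpace.single k (1 : ℝ)))) ^ 2) *
              ‖Ψ τ x‖ ^ 2 := by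
        rw [Finset.sum_mul, ← Finset.sum_add_distrib, ← Finset.sum_add_distrib]
        exact Finset.sum_congr rfl fun i _ => hkin i x
      linear_combination -e2 - coul D sp x * e1
    have e3 : ∫ x, (∑ i, (1 / (2 * D.mass (sp i))) * ∑ k : Fin 3,
        (fderiv ℝ θ x (Pi.single i (EuclideanSpace.single k (1 : ℝ)))) ^ 2) * ‖Ψ τ x‖ ^ 2 =
        ((∫ x, ((∑ i, kin D sp i (fun x => ((Real.cos (θ x) : ℝ) : ℂ) * Ψ τ x) x) +
          coul D sp x * ‖((Real.cos (θ x) : ℝ) : ℂ) * Ψ τ x‖ ^ 2)) +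
        (∫ x, ((∑ i, kin D sp i (fun x => ((Real.sin (θ x) : ℝ) : ℂ) * Ψ τ x) x) +
          coul D sp x * ‖((Real.sin (θ x) : ℝ) : ℂ) * Ψ τ x‖ ^ 2))) -
        ∫ x, ((∑ i, kin D sp i (Ψ τ) x) + coul D sp x * ‖Ψ τ x‖ ^ 2) := by
      rw [integral_congr_ae (Filter.Eventually.of_forall hpt)]
      have a1 := integral_sub (iC.add iS) iP
      have a2 := integral_add iC iS
      exact a1.trans (congrArg₂ (fun y z : ℝ => y - z) a2 rfl)
    rw [e3]
    ring

theorem kin_const_mul {S : Type} (D : Species S) {I : Type} [Fintype I] [DecidableEq I]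
    (sp : I → S) (i : I) (c : ℝ) (u : (I → E3) → ℂ) (x : I → E3) :
    kin D sp i (fun x => (c : ℂ) * u x) x = c ^ 2 * kin D sp i u x := by
  unfold kin
  rw [Pool.Agent.Helper780_CP.RL0.kin_const_mul D sp i c u x, norm_mul, mul_pow,
    Complex.norm_real, Real.norm_eq_abs, sq_abs]
  ring

theorem energy_const {S : Type} (D : Species S) {I : Type} [Fintype I] [DecidableEq I]
    (sp : I → S) (c : ℝ) (Ψ : Wave D I) :
    energy D sp (mulW D (fun _ => c) Ψ) = c ^ 2 * energy D sp Ψ := by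
  unfold energy
  rw [Finset.mul_sum]
  refine Finset.sum_congr rfl fun τ _ => ?_
  rw [← integral_const_mul]
  refine integral_congr_ae (Filter.Eventually.of_forall fun x => ?_)
  show (∑ i, kin D sp i (fun x => (c : ℂ) * Ψ τ x) x) + coul D sp x * ‖(c : ℂ) * Ψ τ x‖ ^ 2 =
    c ^ 2 * ((∑ i, kin D sp i (Ψ τ) x) + coul D sp x * ‖Ψ τ x‖ ^ 2)
  rw [Finset.sum_congr rfl fun i _ => kin_const_mul D sp i c (Ψ τ) x, ← Finset.mul_sum, norm_mul,
    mul_pow, Complex.norm_real, Real.norm_eq_abs, sq_abs]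
  ring


theorem gr_int {S : Type} (D : Species S) {I : Type} [Fintype I] [DecidableEq I] (sp : I → S)
    (ℓ : ℝ) (Ψ : Wave D I) (hΨ : IsState D sp ℓ Ψ) (f : (I → E3) → ℝ) (hf : ContDiff ℝ SM f)
    (τ : I → Fin D.g) : Integrable (fun x => gr f x * ‖Ψ τ x‖ ^ 2) := by
  have h1 : Continuous (gr f) := by
    unfold gr
    refine continuous_finsetSum _ fun i _ => continuous_finsetSum _ fun k _ => ?_
    exact ((hf.continuous_fderiv (by simp)).clm_apply continuous_const).pow 2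
  have h2 : Continuous (fun x => ‖Ψ τ x‖ ^ 2) := ((hΨ.smooth τ).continuous.norm).pow 2
  have h3 : HasCompactSupport (fun x => ‖Ψ τ x‖ ^ 2) :=
    (hΨ.compact τ).comp_left (g := fun z : ℂ => ‖z‖ ^ 2) (by simp)
  exact (h1.mul h2).integrable_of_hasCompactSupport h3.mul_left


end Run7.h213.P.K.RL0
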