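import Pool.Agent.Helper780_CP.RG1
import Pool.Agent.Run7.h213.P.KLLDefs2
import Pool.Agent.Run7.h213.P.KTDefs
import Pool.Agent.Run7.h213.P.KRL0
import Pool.Agent.Run7.h213.P.CBase
import Pool.Agent.Run7.h213.P.KMoveT
import Pool.Agent.Run7.h213.P.KMove0
import Pool.Agent.Run7.h213.P.CM_nrm2_pos
import Pool.Agent.Run7.h213.P.CM_stable_any
import Pool.Agent.Run7.h213.P.CDefs
import Pool.Agent.Run7.h213.P.CM_int_state
import Pool.Agent.Run7.h213.P.CM_ims
import Pool.Agent.Run7.h213.P.CM_insert_one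
import Pool.Agent.Run7.h213.P.CM_relabel_num
import Pool.Agent.Run7.h213.P.CM_relabel_state
import Pool.Agent.Run7.h213.P.TDefs
import Pool.Agent.Run7.h213.P.TM_psl_deriv
import Pool.Agent.Run7.h213.P.TM_psl_nrm
import Pool.Agent.Run7.h213.P.TM_psl_state
import Pool.Agent.Run7.h213.P.TM_psl_weight
import Pool.Agent.Run7.h213.P.TM_pw_parseval
import Pool.Agent.Run7.h213.P.TM_state_comb
import Pool.Agent.Run7.h213.P.TM_sum_pe_half
import Pool.Agent.Run7.h213.P.TM_trace_bound
import Pool.Agent.Run7.h213.P.TM_center_lower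

set_option autoImplicit false

open MeasureTheory
open scoped Topology

namespace Run7.h213.P.K.RG1

open Pool.Agent.Helper985.CP hiding IsState MT_core MT_energy_smul MT_psl_lin MT_slice_int MT_state_smul MT_zero Ortho QQ31988 QQ_ins0_31988 QQ_mul31988 QQ_perm31988 QQ_sum31988 cl_energy_zero cl_kinE_zero cl_kin_zero cl_pe_zero cl_zero cube energy idjT_act idjT_compact idjT_smooth idj_W0_act idj_W0_bound idj_W0_smooth idj_int idj_sum ims_state ins0_num ins0_swap31988 insN_props insNp_energy insNp_kin insNp_state ins_disj ins_state int_state kin kinE moveT_any moveT_none nrm2_pos pe pe_symm peierls peierls_relabel prl_kin prl_sub psl_deriv psl_energy psl_energy_k psl_energy_kint psl_energy_vint psl_energy_w psl_nrm psl_slice psl_state psl_weight pw_parseval pwaux_parseval q985_point rb833_X rb833_state rbX rb_act_X rb_bessel rb_bessel0 rb_ip_X rb_ip_XX rb_ip_XX_meas rb_ip_XX_one rb_ip_XX_vol rb_ip_swap rb_nice_X rb_nice_state relabel_num relabel_state relaux_kin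 remove_none_aux row_bound slice_basic slice_energy slice_state sm_ins0_31988 sphK sph_K sph_energy sph_isState sph_kin sph_sum spin_ins0_31988 stable_any state_comb sum_pe_half term_A31988 term_B31988 term_swap31988 trace_bound trace_bound_dens
open Pool.Agent.Helper780_CP hiding FLT MM NE WI WI_add WI_const WI_coul WI_mul WI_near2 WI_one WI_pair WI_phi WI_smul WI_sum WI_wW WI_zero cost_avg icb kb klc ms_qf mulW_nrm_le mulW_state multiC phb qf qf_int qf_one qf_split qf_wa rest_lower vb wm_add wm_mono wm_sum wm_tendsto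
open Pool.Agent.Helper780_CP.RG1 hiding near_minT split_est

variable [Env]

open Run7.h213.P.K

open Run7.h213.P.K


/-- the partition used in `near_minT` -/
theorem split_est {S : Type} [Fintype S] (D : Species S) (hD : D.Valid) {I : Type} [Fintype I]
    [DecidableEq I] (sp : I → S) (f : (I → E3) → ℝ) (B : ℝ) (hB1 : 0 < B)
    (hf : ContDiff ℝ SM f) (hs : Sy sp f) (hB : ∀ x, |f x| ≤ B) :
    ∃ θ : (I → E3) → ℝ, ContDiff ℝ SM θ ∧ Sy sp θ ∧ (∀ x, Real.sin (θ x) = f x / (2 * B)) ∧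
      ∀ (ℓ : ℝ) (Ψ : Wave D I), IsState D sp ℓ Ψ →
        nrm2 D (mulW D (fun x => Real.cos (θ x)) Ψ) +
          nrm2 D (mulW D (fun x => Real.sin (θ x)) Ψ) = nrm2 D Ψ ∧
        energy D sp (mulW D (fun x => Real.cos (θ x)) Ψ) +
          energy D sp (mulW D (fun x => Real.sin (θ x)) Ψ) ≤ energy D sp Ψ +
          (∑ s, 1 / (2 * D.mass s)) / (3 * B ^ 2) * wm D (gr f) Ψ := by
  have hm : ∀ s, 0 < 1 / (2 * D.mass s) := fun s => by
    have := hD.mass_pos s
    positivity
  set M : ℝ := ∑ s, 1 / (2 * D.mass s) with hM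
  have hM0 : 0 ≤ M := Finset.sum_nonneg fun s _ => (hm s).le
  have hMs : ∀ s, 1 / (2 * D.mass s) ≤ M := fun s =>
    Finset.single_le_sum (f := fun s => 1 / (2 * D.mass s)) (fun s _ => (hm s).le)
      (Finset.mem_univ s)
  have h2B : (0 : ℝ) < 2 * B := by linarith
  have hq : ∀ x, |f x / (2 * B)| ≤ 1 / 2 := by
    intro x
    rw [abs_div, abs_of_pos h2B, div_le_iff₀ h2B]
    have := hB x
    linarith
  have hq1 : ∀ x, f x / (2 * B) ≠ -1 := fun x h => by
    have := hq x
    rw [h] at this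
    norm_num at this
  have hq2 : ∀ x, f x / (2 * B) ≠ 1 := fun x h => by
    have := hq x
    rw [h] at this
    norm_num at this
  have hfq : ContDiff ℝ SM fun x => f x / (2 * B) := hf.div_const _
  let θ : (I → E3) → ℝ := fun x => Real.arcsin (f x / (2 * B))
  have hθ : ContDiff ℝ SM θ := by
    rw [contDiff_iff_contDiffAt]
    intro x
    exact ContDiffAt.comp (g := Real.arcsin) (f := fun x => f x / (2 * B)) x
      (Real.contDiffAt_arcsin (hq1 x) (hq2 x)) hfq.contDiffAt
  have hθs : Sy sp θ := fun i j x h => by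
    show Real.arcsin _ = Real.arcsin _
    rw [hs i j x h]
  have hsin : ∀ x, Real.sin (θ x) = f x / (2 * B) := fun x =>
    Real.sin_arcsin (by linarith [(abs_le.1 (hq x)).1]) (by linarith [(abs_le.1 (hq x)).2])
  have hder : ∀ x v, (fderiv ℝ θ x v) ^ 2 ≤ (1 / (3 * B ^ 2)) * (fderiv ℝ f x v) ^ 2 := by
    intro x v
    have h1 : HasFDerivAt f (fderiv ℝ f x) x := ((hf.differentiable (by simp)) x).hasFDerivAt
    have h2 : HasFDerivAt (fun x => f x / (2 * B)) ((2 * B)⁻¹ • fderiv ℝ f x) x := by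
      have := h1.const_mul ((2 * B)⁻¹)
      simpa only [div_eq_inv_mul] using this
    have h3 := (Real.hasDerivAt_arcsin (hq1 x) (hq2 x)).comp_hasFDerivAt x h2
    have h4 : fderiv ℝ θ x = _ := h3.fderiv
    rw [h4]
    simp only [_root_.smul_apply, smul_eq_mul]
    have h5 : (3 : ℝ) / 4 ≤ 1 - (f x / (2 * B)) ^ 2 := by
      have h6 := hq x
      have h7 : (f x / (2 * B)) ^ 2 ≤ (1 / 2) ^ 2 := by
        rw [← sq_abs]
        exact pow_le_pow_left₀ (abs_nonneg _) h6 2
      linarith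
    have h8 : (1 / √(1 - (f x / (2 * B)) ^ 2)) ^ 2 ≤ 4 / 3 := by
      rw [div_pow, one_pow, Real.sq_sqrt (by linarith), div_le_iff₀ (by linarith)]
      linarith
    rw [mul_pow, mul_pow]
    calc (1 / √(1 - (f x / (2 * B)) ^ 2)) ^ 2 * ((2 * B)⁻¹ ^ 2 * (fderiv ℝ f x v) ^ 2)
        ≤ 4 / 3 * ((2 * B)⁻¹ ^ 2 * (fderiv ℝ f x v) ^ 2) :=
          mul_le_mul_of_nonneg_right h8 (by positivity)
      _ = (1 / (3 * B ^ 2)) * (fderiv ℝ f x v) ^ 2 := by
          field_simp
          ring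
  refine ⟨θ, hθ, hθs, hsin, ?_⟩
  intro ℓ Ψ hΨ
  obtain ⟨n1, n2⟩ := RL0.imsS D sp ℓ Ψ hΨ θ hθ hθs
  refine ⟨n1, ?_⟩
  rw [n2]
  have hR : ∑ τ, ∫ x, (∑ i, (1 / (2 * D.mass (sp i))) * ∑ k : Fin 3,
      (fderiv ℝ θ x (Pi.single i (EuclideanSpace.single k (1 : ℝ)))) ^ 2) * ‖Ψ τ x‖ ^ 2 ≤
      M / (3 * B ^ 2) * wm D (gr f) Ψ := by
    unfold wm
    rw [Finset.mul_sum]
    refine Finset.sum_le_sum fun τ _ => ?_
    rw [← integral_const_mul]
    refine integral_mono_of_nonneg (Filter.Eventually.of_forall fun x => ?_)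
      ((RL0.gr_int D sp ℓ Ψ hΨ f hf τ).const_mul _) (Filter.Eventually.of_forall fun x => ?_)
    · exact mul_nonneg (Finset.sum_nonneg fun i _ => mul_nonneg (hm _).le
        (Finset.sum_nonneg fun k _ => sq_nonneg _)) (sq_nonneg _)
    · show (∑ i, (1 / (2 * D.mass (sp i))) * ∑ k : Fin 3,
        (fderiv ℝ θ x (Pi.single i (EuclideanSpace.single k (1 : ℝ)))) ^ 2) * ‖Ψ τ x‖ ^ 2 ≤
        M / (3 * B ^ 2) * (gr f x * ‖Ψ τ x‖ ^ 2)
      rw [← mul_assoc]
      refine mul_le_mul_of_nonneg_right ?_ (sq_nonneg _)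
      unfold gr
      rw [Finset.mul_sum]
      refine Finset.sum_le_sum fun i _ => ?_
      calc (1 / (2 * D.mass (sp i))) * ∑ k : Fin 3,
            (fderiv ℝ θ x (Pi.single i (EuclideanSpace.single k (1 : ℝ)))) ^ 2
          ≤ M * ∑ k : Fin 3, (1 / (3 * B ^ 2)) *
            (fderiv ℝ f x (Pi.single i (EuclideanSpace.single k (1 : ℝ)))) ^ 2 :=
            mul_le_mul (hMs _) (Finset.sum_le_sum fun k _ => hder x _)
              (Finset.sum_nonneg fun k _ => sq_nonneg _) hM0
        _ = M / (3 * B ^ 2) * ∑ k : Fin 3,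
            (fderiv ℝ f x (Pi.single i (EuclideanSpace.single k (1 : ℝ)))) ^ 2 := by
            rw [← Finset.mul_sum]
            ring
  linarith


/-- TARGET 2 -/
theorem near_minT {S : Type} [Fintype S] [DecidableEq S] (D : Species S) (hD : D.Valid) :
    ∃ C : ℝ, 0 < C ∧ ∀ {I : Type} [Fintype I] [DecidableEq I] (sp : I → S) (ℓ T η Z : ℝ),
      0 < T → 0 ≤ η → ∀ {k : ℕ} (p : Fin k → ℝ) (ψ : Fin k → Wave D I), NE D sp ℓ T η Z p ψ →
      ∀ (f : (I → E3) → ℝ) (B : ℝ), ContDiff ℝ SM f → Sy sp f → (∀ x, |f x| ≤ B) →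
        ∑ j, p j * energy D sp (mulW D f (ψ j)) +
          T * ∑ j, p j * (nrm2 D (mulW D f (ψ j)) * Real.log (p j)) ≤
        -T * Real.log Z * wx D p ψ (fun x => f x ^ 2) + C * (wx D p ψ (gr f) + B ^ 2 * η) +
          T * wx D p ψ (fun x => f x ^ 2) := by
  have hm : ∀ s, 0 < 1 / (2 * D.mass s) := fun s => by
    have := hD.mass_pos s
    positivity
  set M : ℝ := ∑ s, 1 / (2 * D.mass s) with hM
  have hM0 : 0 ≤ M := Finset.sum_nonneg fun s _ => (hm s).le
  refine ⟨4 + 4 / 3 * M, by positivity, ?_⟩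
  intro I _ _ sp ℓ T η Z hT hη k p ψ hNE f B hf hs hB
  have hB0 : 0 ≤ B := (abs_nonneg _).trans (hB 0)
  have hw0 : 0 ≤ wx D p ψ (gr f) :=
    Finset.sum_nonneg fun j _ => mul_nonneg (hNE.p0 j) (RL0.wm_gr_nonneg D f (ψ j))
  have hwf : wx D p ψ (fun x => f x ^ 2) = ∑ j, p j * nrm2 D (mulW D f (ψ j)) := by
    unfold wx
    refine Finset.sum_congr rfl fun j _ => ?_
    rw [nrm2_wm]
  rcases hB0.eq_or_lt with hB1 | hB1
  · have hf0 : f = fun _ => 0 := by
      funext x
      have h1 := hB x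
      rw [← hB1] at h1
      exact abs_eq_zero.1 (le_antisymm h1 (abs_nonneg _))
    have e1 : ∀ j, energy D sp (mulW D f (ψ j)) = 0 := by
      intro j
      rw [hf0, RL0.energy_const]
      ring
    have e2 : ∀ j, nrm2 D (mulW D f (ψ j)) = 0 := by
      intro j
      rw [hf0, RL0.nrm2_const]
      ring
    rw [hwf]
    simp only [e1, e2, mul_zero, zero_mul, Finset.sum_const_zero, zero_add, add_zero]
    positivity
  · obtain ⟨θ, hθ, hθs, hsin, hsp⟩ := split_est D hD sp f B hB1 hf hs hB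
    have hcosd : ContDiff ℝ SM (fun x => Real.cos (θ x)) := Real.contDiff_cos.comp hθ
    have hcoss : Sy sp (fun x => Real.cos (θ x)) := fun i j x h => by
      show Real.cos (θ _) = Real.cos (θ _)
      rw [hθs i j x h]
    have hcosS : ∀ j, IsState D sp ℓ (mulW D (fun x => Real.cos (θ x)) (ψ j)) := fun j =>
      RL0.mulW_stateS D sp ℓ (ψ j) (hNE.state j) _ hcosd hcoss
    obtain ⟨c, hc⟩ : ∃ c : Fin k → ℝ, c = fun j => nrm2 D (mulW D (fun x => Real.cos (θ x)) (ψ j)) :=
      ⟨_, rfl⟩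
    obtain ⟨s, hsd⟩ : ∃ s : Fin k → ℝ, s = fun j => nrm2 D (mulW D (fun x => Real.sin (θ x)) (ψ j)) :=
      ⟨_, rfl⟩
    obtain ⟨ec, hec⟩ : ∃ ec : Fin k → ℝ, ec = fun j =>
      energy D sp (mulW D (fun x => Real.cos (θ x)) (ψ j)) := ⟨_, rfl⟩
    obtain ⟨es, hes⟩ : ∃ es : Fin k → ℝ, es = fun j =>
      energy D sp (mulW D (fun x => Real.sin (θ x)) (ψ j)) := ⟨_, rfl⟩
    have hcs : ∀ j, c j + s j = 1 := by
      intro j
      rw [hc, hsd]
      exact (hsp ℓ (ψ j) (hNE.state j)).1.trans (hNE.nrm j)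
    have hecs : ∀ j, ec j + es j ≤ energy D sp (ψ j) + M / (3 * B ^ 2) * wm D (gr f) (ψ j) := by
      intro j
      rw [hec, hes]
      exact (hsp ℓ (ψ j) (hNE.state j)).2
    have hc0 : ∀ j, 0 ≤ c j := by
      intro j; rw [hc]; exact nrm2_nn D _
    have hs0 : ∀ j, 0 ≤ s j := by
      intro j; rw [hsd]; exact nrm2_nn D _
    have hfe : ∀ j, mulW D f (ψ j) = mulW D (fun _ => 2 * B)
        (mulW D (fun x => Real.sin (θ x)) (ψ j)) := by
      intro j
      rw [mulW_mulW]
      congr 1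
      funext x
      rw [hsin]
      field_simp
    have hef : ∀ j, energy D sp (mulW D f (ψ j)) = (2 * B) ^ 2 * es j := by
      intro j
      rw [hfe, RL0.energy_const, hes]
    have hnf : ∀ j, nrm2 D (mulW D f (ψ j)) = (2 * B) ^ 2 * s j := by
      intro j
      rw [hfe, RL0.nrm2_const, hsd]
    have htb := trace_bound D sp ℓ T hT Z hNE.Zle
      (fun j => mulW D (fun x => Real.cos (θ x)) (ψ j)) hcosS 1 zero_le_one (by
        intro γ
        rw [mulW_sum, one_mul]
        refine le_trans ?_ (hNE.sg γ)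
        refine mulW_nrm_le D sp ℓ _ (state_comb D sp ℓ ψ hNE.state γ) _ hcosd.continuous ?_
        intro x
        exact Real.cos_sq_le_one _)
    rw [one_mul] at htb
    have hez : ∀ j, c j = 0 → -(ec j) / T = 0 := by
      intro j hj
      have h1 : mulW D (fun x => Real.cos (θ x)) (ψ j) = 0 := by
        by_contra hne
        have h2 := nrm2_pos D sp ℓ _ (hcosS j) hne
        rw [hc] at hj
        exact h2.ne' hj
      have h3 : (0 : Wave D I) = mulW D (fun _ => 0) (ψ j) := by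
        funext τ x
        simp [mulW]
      have h4 : ec j = 0 := by
        rw [hec]
        show energy D sp (mulW D (fun x => Real.cos (θ x)) (ψ j)) = 0
        rw [h1, h3, RL0.energy_const]
        ring
      rw [h4]; simp
    have hgb := gibbs_w p c (fun j => -(ec j) / T) hNE.p0 hc0 hez Z hNE.Zpos (by
      refine le_trans (le_of_eq ?_) htb
      refine Finset.sum_congr rfl fun j _ => ?_
      rw [hc, hec]
      simp only
      congr 2
      rw [div_div, mul_comm T])
    -- the sums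
    have t1 : ∑ j, p j * (-(ec j) / T) = -(∑ j, p j * ec j) / T := by
      rw [← Finset.sum_neg_distrib, Finset.sum_div]
      refine Finset.sum_congr rfl fun j _ => ?_
      ring
    rw [t1, div_le_iff₀ hT] at hgb
    have hp1 := hNE.p1
    have hfree := hNE.free
    have e1 : ∑ j, (p j * energy D sp (ψ j) + T * (p j * Real.log (p j))) =
        ∑ j, p j * energy D sp (ψ j) + T * ∑ j, p j * Real.log (p j) := by
      rw [Finset.sum_add_distrib, Finset.mul_sum]
    rw [e1] at hfree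
    have e2 : ∑ j, p j * c j + ∑ j, p j * s j = 1 := by
      rw [← Finset.sum_add_distrib, ← hp1]
      refine Finset.sum_congr rfl fun j _ => ?_
      rw [← mul_add, hcs, mul_one]
    have e3 : ∑ j, p j * (c j * Real.log (p j)) + ∑ j, p j * (s j * Real.log (p j)) =
        ∑ j, p j * Real.log (p j) := by
      rw [← Finset.sum_add_distrib]
      refine Finset.sum_congr rfl fun j _ => ?_
      rw [← mul_add, ← add_mul, hcs, one_mul]
    have e4 : ∑ j, p j * ec j + ∑ j, p j * es j ≤ ∑ j, p j * energy D sp (ψ j) +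
        M / (3 * B ^ 2) * wx D p ψ (gr f) := by
      unfold wx
      rw [← Finset.sum_add_distrib, Finset.mul_sum, ← Finset.sum_add_distrib]
      refine Finset.sum_le_sum fun j _ => ?_
      have := mul_le_mul_of_nonneg_left (hecs j) (hNE.p0 j)
      linarith
    obtain ⟨t2, ht2⟩ : ∃ t2, t2 = ∑ j, p j * c j := ⟨_, rfl⟩
    obtain ⟨u1, hu1⟩ : ∃ u1, u1 = ∑ j, p j * s j := ⟨_, rfl⟩
    rw [← ht2] at hgb e2
    rw [← hu1] at e2
    have hu0 : 0 ≤ u1 := by
      rw [hu1]; exact Finset.sum_nonneg fun j _ => mul_nonneg (hNE.p0 j) (hs0 j)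
    have ht0 : 0 ≤ t2 := by
      rw [ht2]; exact Finset.sum_nonneg fun j _ => mul_nonneg (hNE.p0 j) (hc0 j)
    have hlog : -(t2 * Real.log t2) ≤ u1 := by
      rcases ht0.eq_or_lt with h1 | h1
      · rw [← h1]; simpa using hu0
      · have h2 := Real.one_sub_inv_le_log_of_pos h1
        have h3 := mul_le_mul_of_nonneg_left h2 h1.le
        have h4 : t2 * (1 - t2⁻¹) = t2 - 1 := by
          field_simp
        rw [h4] at h3
        linarith
    have key : ∑ j, p j * es j + T * ∑ j, p j * (s j * Real.log (p j)) ≤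
        -T * Real.log Z * u1 + η + M / (3 * B ^ 2) * wx D p ψ (gr f) + T * u1 := by
      have h5 := mul_le_mul_of_nonneg_left hlog hT.le
      have e5 : t2 = 1 - u1 := by linarith
      have h6 : -(∑ j, p j * ec j) ≤ T * (t2 * Real.log Z) + T * ∑ j, p j * (c j * Real.log (p j)) +
          T * u1 := by
        have : (t2 * Real.log Z + ∑ j, p j * (c j * Real.log (p j)) - t2 * Real.log t2) * T =
          T * (t2 * Real.log Z) + T * ∑ j, p j * (c j * Real.log (p j)) + T * -(t2 * Real.log t2) := by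
          ring
        rw [this] at hgb
        linarith
      have h7 : T * ∑ j, p j * (c j * Real.log (p j)) + T * ∑ j, p j * (s j * Real.log (p j)) =
          T * ∑ j, p j * Real.log (p j) := by
        rw [← mul_add, e3]
      have h8 : T * (t2 * Real.log Z) = T * Real.log Z - T * Real.log Z * u1 := by
        rw [e5]; ring
      linarith
    have g1 : ∑ j, p j * energy D sp (mulW D f (ψ j)) = (2 * B) ^ 2 * ∑ j, p j * es j := by
      rw [Finset.mul_sum]
      refine Finset.sum_congr rfl fun j _ => ?_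
      rw [hef]; ring
    have g2 : ∑ j, p j * (nrm2 D (mulW D f (ψ j)) * Real.log (p j)) =
        (2 * B) ^ 2 * ∑ j, p j * (s j * Real.log (p j)) := by
      rw [Finset.mul_sum]
      refine Finset.sum_congr rfl fun j _ => ?_
      rw [hnf]; ring
    have g3 : wx D p ψ (fun x => f x ^ 2) = (2 * B) ^ 2 * u1 := by
      rw [hwf, hu1, Finset.mul_sum]
      refine Finset.sum_congr rfl fun j _ => ?_
      rw [hnf]; ring
    rw [g1, g2, g3]
    have h9 := mul_le_mul_of_nonneg_left key (sq_nonneg (2 * B))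
    have h10 : (2 * B) ^ 2 * (M / (3 * B ^ 2) * wx D p ψ (gr f)) = 4 / 3 * M * wx D p ψ (gr f) := by
      field_simp
      ring
    have h11 : 0 ≤ M * (B ^ 2 * η) := by positivity
    have h12 : (2 * B) ^ 2 * (∑ j, p j * es j + T * ∑ j, p j * (s j * Real.log (p j))) =
        (2 * B) ^ 2 * ∑ j, p j * es j + T * ((2 * B) ^ 2 * ∑ j, p j * (s j * Real.log (p j))) := by
      ring
    have h13 : (2 * B) ^ 2 * (-T * Real.log Z * u1 + η + M / (3 * B ^ 2) * wx D p ψ (gr f) + T * u1) =
        -T * Real.log Z * ((2 * B) ^ 2 * u1) + 4 * (B ^ 2 * η) + 4 / 3 * M * wx D p ψ (gr f) +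
          T * ((2 * B) ^ 2 * u1) := by
      rw [← h10]; ring
    rw [h12, h13] at h9
    have h14 : (4 + 4 / 3 * M) * (wx D p ψ (gr f) + B ^ 2 * η) = 4 * wx D p ψ (gr f) +
        4 / 3 * M * wx D p ψ (gr f) + 4 * (B ^ 2 * η) + 4 / 3 * (M * (B ^ 2 * η)) := by ring
    rw [h14]
    linarith

end Run7.h213.P.K.RG1
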