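import Pool.Agent.Helper780_CP.RL1
import Pool.Agent.Run7.h213.P.KLLDefs2
import Pool.Agent.Run7.h213.P.KRVB
import Pool.Agent.Run7.h213.P.KRL0
import Pool.Agent.Run7.h213.P.KAvg
import Pool.Agent.Run7.h213.P.CBase
import Pool.Agent.Run7.h213.P.KMove0
import Pool.Agent.Run7.h213.P.CM_nrm2_pos
import Pool.Agent.Run7.h213.P.CM_stable_any
import Pool.Agent.Run7.h213.P.CDefs
import Pool.Agent.Run7.h213.P.CM_int_state
import Pool.Agent.Run7.h213.P.CM_ims
import Pool.Agent.Run7.h213.P.CM_insert_one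
import Pool.Agent.Run7.h213.P.CM_relabel_num
import Pool.Agent.Run7.h213.P.CM_relabel_state

set_option autoImplicit false

open MeasureTheory

namespace Run7.h213.P.K.RL1

open Pool.Agent.Helper985.CP hiding IsState Ortho QQ31988 QQ_ins0_31988 QQ_mul31988 QQ_perm31988 QQ_sum31988 cube energy idjT_act idjT_compact idjT_smooth idj_W0_act idj_W0_bound idj_W0_smooth idj_int idj_sum ims_state ins0_num ins0_swap31988 ins_disj ins_state int_state kin kinE nrm2_pos pe pe_symm peierls psl_deriv psl_nrm psl_slice psl_state psl_weight pw_parseval pwaux_parseval q985_point rb833_X rb833_state rbX rb_act_X rb_bessel rb_bessel0 rb_ip_X rb_ip_XX rb_ip_XX_meas rb_ip_XX_one rb_ip_XX_vol rb_ip_swap rb_nice_X rb_nice_state relabel_num relabel_state relaux_kin remove_none_aux row_bound slice_basic slice_energy slice_state sm_ins0_31988 sphK sph_K sph_energy sph_isState sph_kin sph_sum spin_ins0_31988 stable_any state_comb sum_pe_half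 term_A31988 term_B31988 term_swap31988
open Pool.Agent.Helper780_CP hiding WI WI_add WI_const WI_coul WI_mul WI_near2 WI_one WI_pair WI_phi WI_smul WI_sum WI_wW WI_zero cost_avg icb kb klc ms_qf mulW_state multiC phb qf qf_int qf_one qf_split qf_wa rest_lower vb wm_add wm_mono wm_sum wm_tendsto
open Pool.Agent.Helper780_CP.RL1 hiding WI_phb WI_vb ic ic_int ic_integral ic_meas ic_nonneg ic_phim icb_compact icb_eq icb_meas icb_pot_eq icb_pot_int icb_vol phim_avg prod_int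

variable [Env]

open Run7.h213.P.K
open Run7.h213.P.K.RVB (vb_props)
open Pool.Agent.Helper780_CP.RL0 (near_min)
open Run7.h213.P.K.RL0 (mulW_stateS)


theorem icb_eq (ℓ : ℝ) : icb ℓ = (@WithLp.ofLp 2 (Fin 3 → ℝ)) ⁻¹'
    (Set.pi Set.univ (fun _ : Fin 3 => Set.Icc (-(ℓ / 4)) (ℓ / 4))) := by
  ext y
  simp only [icb, Set.mem_ofPred_eq, Set.mem_preimage, Set.mem_pi, Set.mem_univ, Set.mem_Icc,
    true_implies]

theorem icb_meas (ℓ : ℝ) : MeasurableSet (icb ℓ) := by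
  rw [icb_eq]
  exact (PiLp.volume_preserving_ofLp (Fin 3)).measurable
    (MeasurableSet.univ_pi fun _ => measurableSet_Icc)

theorem icb_vol (ℓ : ℝ) (hℓ : 0 < ℓ) : volume (icb ℓ) = ENNReal.ofReal (ℓ ^ 3 / 8) := by
  rw [icb_eq, (PiLp.volume_preserving_ofLp (Fin 3)).measure_preimage
    (MeasurableSet.univ_pi fun _ => measurableSet_Icc).nullMeasurableSet, Set.pi_univ_Icc,
    Real.volume_Icc_pi]
  have h1 : ℓ / 4 - -(ℓ / 4) = ℓ / 2 := by ring
  simp only [h1, Finset.prod_const, Finset.card_univ, Fintype.card_fin]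
  rw [← ENNReal.ofReal_pow (by positivity)]
  congr 1
  ring

/-- indicator of the inner cube -/
noncomputable def ic (ℓ : ℝ) (y : E3) : ℝ := (icb ℓ).indicator (fun _ => (1 : ℝ)) y

theorem ic_nonneg (ℓ : ℝ) (y : E3) : 0 ≤ ic ℓ y := Set.indicator_nonneg (fun _ _ => zero_le_one) y

theorem ic_meas (ℓ : ℝ) : Measurable (ic ℓ) := measurable_const.indicator (icb_meas ℓ)

theorem ic_int (ℓ : ℝ) (hℓ : 0 < ℓ) : Integrable (ic ℓ) := by
  unfold ic
  refine (integrable_indicator_iff (icb_meas ℓ)).2 (integrableOn_const ?_)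
  rw [icb_vol ℓ hℓ]
  exact ENNReal.ofReal_ne_top

theorem ic_integral (ℓ : ℝ) (hℓ : 0 < ℓ) : ∫ y, ic ℓ y = ℓ ^ 3 / 8 := by
  unfold ic
  rw [integral_indicator (icb_meas ℓ), setIntegral_const, Measure.real, icb_vol ℓ hℓ,
    ENNReal.toReal_ofReal (by positivity)]
  simp

theorem icb_compact (ℓ : ℝ) : IsCompact (icb ℓ) := by
  have h1 : IsCompact (Set.pi Set.univ (fun _ : Fin 3 => Set.Icc (-(ℓ / 4)) (ℓ / 4))) :=
    isCompact_univ_pi fun _ => isCompact_Icc
  have h2 : icb ℓ = (PiLp.homeomorph 2 (fun _ : Fin 3 => ℝ)) ⁻¹'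
      (Set.pi Set.univ (fun _ : Fin 3 => Set.Icc (-(ℓ / 4)) (ℓ / 4))) := by
    rw [icb_eq]
    rfl
  rw [h2]
  exact (Homeomorph.isCompact_preimage _).2 h1

theorem icb_pot_int (ℓ : ℝ) (z : E3) : Integrable (fun y => ic ℓ y * (1 / ‖z - y‖)) := by
  have h1 : LocallyIntegrable (fun y : E3 => ‖y - z‖⁻¹) volume := locInt_shift pot_props_locInt z
  have h2 := (integrable_indicator_iff (icb_meas ℓ)).2
    (h1.integrableOn_isCompact (icb_compact ℓ))
  refine h2.congr (Filter.Eventually.of_forall fun y => ?_)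
  unfold ic
  by_cases hy : y ∈ icb ℓ
  · simp only [Set.indicator_of_mem hy, one_mul, one_div]
    rw [norm_sub_rev]
  · simp only [Set.indicator_of_notMem hy, zero_mul]

theorem icb_pot_eq (ℓ : ℝ) (hℓ : 0 < ℓ) (z : E3) :
    ∫ y, ic ℓ y * (1 / ‖z - y‖) = ℓ ^ 3 / 8 * vb ℓ z := by
  unfold vb
  have h1 : ∫ y, ic ℓ y * (1 / ‖z - y‖) = ∫ y in icb ℓ, 1 / ‖z - y‖ := by
    rw [← integral_indicator (icb_meas ℓ)]
    refine integral_congr_ae (Filter.Eventually.of_forall fun y => ?_)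
    unfold ic
    by_cases hy : y ∈ icb ℓ
    · simp only [Set.indicator_of_mem hy, one_mul]
    · simp only [Set.indicator_of_notMem hy, zero_mul]
  rw [h1]
  field_simp

section

variable {S : Type} (D : Species S) {I : Type} [Fintype I] [DecidableEq I] (sp : I → S)

theorem WI_vb (ℓ : ℝ) (hℓ : 0 < ℓ) (i : I) : WI D sp ℓ (fun x => vb ℓ (x i)) :=
  WI_one D sp ℓ i (vb ℓ) (vb_props.1 ℓ hℓ).locallyIntegrable

theorem WI_phb (ℓ : ℝ) (hℓ : 0 < ℓ) : WI D sp ℓ (phb D sp ℓ) := by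
  unfold phb
  exact WI_sum D sp ℓ _ _ fun i _ => WI_smul D sp ℓ (WI_vb D sp ℓ hℓ i) _

theorem prod_int (ℓ : ℝ) (hℓ : 0 < ℓ) (Φ : Wave D I) (hΦ : IsState D sp ℓ Φ) (i : I)
    (τ : I → Fin D.g) :
    Integrable (fun q : (I → E3) × E3 => ic ℓ q.2 * ((1 / ‖q.1 i - q.2‖) * ‖Φ τ q.1‖ ^ 2))
      ((volume : Measure (I → E3)).prod (volume : Measure E3)) := by
  have hm : Measurable (fun x => ‖Φ τ x‖ ^ 2) :=
    ((hΦ.smooth τ).continuous.measurable.norm).pow_const 2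
  have h0 : Measurable (fun q : (I → E3) × E3 => 1 / ‖q.1 i - q.2‖) := by
    have h1 : Measurable (fun q : (I → E3) × E3 => q.1 i) :=
      (measurable_pi_apply i).comp measurable_fst
    simp only [one_div]
    exact ((h1.sub measurable_snd).norm).inv
  have h1 : Measurable (fun q : (I → E3) × E3 =>
      ic ℓ q.2 * ((1 / ‖q.1 i - q.2‖) * ‖Φ τ q.1‖ ^ 2)) :=
    ((ic_meas ℓ).comp measurable_snd).mul (h0.mul (hm.comp measurable_fst))
  refine (integrable_prod_iff h1.aestronglyMeasurable).2 ⟨?_, ?_⟩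
  · refine Filter.Eventually.of_forall fun x => ?_
    refine ((icb_pot_int ℓ (x i)).mul_const (‖Φ τ x‖ ^ 2)).congr
      (Filter.Eventually.of_forall fun y => ?_)
    simp only
    ring
  · have h2 : ∀ x : I → E3, ∫ y, ‖ic ℓ y * ((1 / ‖x i - y‖) * ‖Φ τ x‖ ^ 2)‖ =
        ℓ ^ 3 / 8 * (vb ℓ (x i) * ‖Φ τ x‖ ^ 2) := by
      intro x
      have h3 : ∀ y, ‖ic ℓ y * ((1 / ‖x i - y‖) * ‖Φ τ x‖ ^ 2)‖ =
          (ic ℓ y * (1 / ‖x i - y‖)) * ‖Φ τ x‖ ^ 2 := by
        intro y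
        have := ic_nonneg ℓ y
        rw [Real.norm_of_nonneg (by positivity)]
        ring
      simp only [h3]
      rw [integral_mul_const, icb_pot_eq ℓ hℓ]
      ring
    simp only [h2]
    exact (WI_vb D sp ℓ hℓ i Φ hΦ τ).const_mul _

/-- the potential, cut off -/
theorem ic_phim (ℓ : ℝ) (Φ : Wave D I) (hΦ : IsState D sp ℓ Φ) (y : E3) :
    ic ℓ y * phim D sp Φ y = ∑ τ, ∑ i, D.charge (sp i) *
      ∫ x : I → E3, ic ℓ y * ((1 / ‖x i - y‖) * ‖Φ τ x‖ ^ 2) := by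
  have hw : ∀ i, WI D sp ℓ (fun x => 1 / ‖x i - y‖) := by
    intro i
    have h := locInt_shift pot_props_locInt y
    have h2 := WI_one D sp ℓ i (fun z => ‖z - y‖⁻¹) h
    simpa only [one_div] using h2
  unfold phim mean
  rw [Finset.mul_sum]
  refine Finset.sum_congr rfl fun τ _ => ?_
  have h1 : ∫ x : I → E3, (∑ i, D.charge (sp i) * (1 / ‖x i - y‖)) * ‖Φ τ x‖ ^ 2 =
      ∑ i, D.charge (sp i) * ∫ x : I → E3, (1 / ‖x i - y‖) * ‖Φ τ x‖ ^ 2 := by
    simp only [← integral_const_mul]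
    rw [← integral_finsetSum _ fun i _ => (hw i Φ hΦ τ).const_mul _]
    refine integral_congr_ae (Filter.Eventually.of_forall fun x => ?_)
    simp only
    rw [Finset.sum_mul]
    refine Finset.sum_congr rfl fun i _ => ?_
    ring
  rw [h1, Finset.mul_sum]
  refine Finset.sum_congr rfl fun i _ => ?_
  rw [integral_const_mul]
  ring

theorem phim_avg (ℓ : ℝ) (hℓ : 0 < ℓ) (Φ : Wave D I) (hΦ : IsState D sp ℓ Φ) :
    Integrable (fun y => ic ℓ y * phim D sp Φ y) ∧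
    ∫ y, ic ℓ y * phim D sp Φ y = ℓ ^ 3 / 8 * wm D (phb D sp ℓ) Φ := by
  have hF := prod_int D sp ℓ hℓ Φ hΦ
  simp only [ic_phim D sp ℓ Φ hΦ]
  refine ⟨integrable_finsetSum _ fun τ _ => integrable_finsetSum _ fun i _ =>
    ((hF i τ).integral_prod_right).const_mul _, ?_⟩
  rw [integral_finsetSum _ fun τ _ => integrable_finsetSum _ fun i _ =>
    ((hF i τ).integral_prod_right).const_mul _]
  unfold wm
  rw [Finset.mul_sum]
  refine Finset.sum_congr rfl fun τ _ => ?_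
  rw [integral_finsetSum _ fun i _ => ((hF i τ).integral_prod_right).const_mul _]
  have h1 : ∫ x : I → E3, phb D sp ℓ x * ‖Φ τ x‖ ^ 2 =
      ∑ i, D.charge (sp i) * ∫ x : I → E3, vb ℓ (x i) * ‖Φ τ x‖ ^ 2 := by
    simp only [← integral_const_mul]
    rw [← integral_finsetSum _ fun i _ => (WI_vb D sp ℓ hℓ i Φ hΦ τ).const_mul _]
    refine integral_congr_ae (Filter.Eventually.of_forall fun x => ?_)
    simp only [phb]
    rw [Finset.sum_mul]
    refine Finset.sum_congr rfl fun i _ => ?_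
    ring
  rw [h1, Finset.mul_sum]
  refine Finset.sum_congr rfl fun i _ => ?_
  rw [integral_const_mul]
  rw [← integral_integral_swap (f := fun (x : I → E3) (y : E3) =>
    ic ℓ y * ((1 / ‖x i - y‖) * ‖Φ τ x‖ ^ 2)) (hF i τ)]
  have h2 : ∀ x : I → E3, ∫ y, ic ℓ y * ((1 / ‖x i - y‖) * ‖Φ τ x‖ ^ 2) =
      ℓ ^ 3 / 8 * (vb ℓ (x i) * ‖Φ τ x‖ ^ 2) := by
    intro x
    have h3 : ∀ y, ic ℓ y * ((1 / ‖x i - y‖) * ‖Φ τ x‖ ^ 2) =
        (ic ℓ y * (1 / ‖x i - y‖)) * ‖Φ τ x‖ ^ 2 := by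
      intro y
      ring
    simp only [h3]
    rw [integral_mul_const, icb_pot_eq ℓ hℓ]
    ring
  simp only [h2]
  rw [integral_const_mul]
  ring


end


end Run7.h213.P.K.RL1
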