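import Pool.Agent.Helper985.CT.M_center_lower
import Pool.Agent.Run7.h213.P.CM_ims
import Pool.Agent.Run7.h213.P.CM_int_state
import Pool.Agent.Run7.h213.P.CM_nrm2_pos
import Pool.Agent.Run7.h213.P.CM_stable_any
import Pool.Agent.Run7.h213.P.TM_moveT_any
import Pool.Agent.Run7.h213.P.TM_pe_symm
import Pool.Agent.Run7.h213.P.TM_state_comb
import Pool.Agent.Run7.h213.P.TM_sum_pe_half
import Pool.Agent.Run7.h213.P.TM_trace_bound
import Pool.Agent.Run7.h213.P.TDefs
import Pool.Agent.Run7.h213.P.CBase
import Pool.Agent.Run7.h213.P.CDefs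
import Pool.Agent.Run7.h213.P.CM_relabel_num
import Pool.Agent.Run7.h213.P.CM_relabel_state
import Pool.Agent.Run7.h213.P.TM_peierls_relabel
import Pool.Agent.Run7.h213.P.TM_psl_energy
import Pool.Agent.Run7.h213.P.TM_psl_nrm
import Pool.Agent.Run7.h213.P.TM_psl_state
import Pool.Agent.Run7.h213.P.TM_row_bound

set_option autoImplicit false

open MeasureTheory
open scoped Topology

namespace Run7.h213.P

open Pool.Agent.Helper985.CP hiding IsState MT_core MT_energy_smul MT_psl_lin MT_slice_int MT_state_smul MT_zero Ortho QQ31988 QQ_ins0_31988 QQ_mul31988 QQ_perm31988 QQ_sum31988 cl_energy_zero cl_kinE_zero cl_kin_zero cl_pe_zero cl_zero cube energy idjT_act idjT_compact idjT_smooth idj_W0_act idj_W0_bound idj_W0_smooth idj_int idj_sum ims_state ins0_num ins0_swap31988 insN_props insNp_energy insNp_kin insNp_state ins_disj ins_state int_state kin kinE moveT_any moveT_none nrm2_pos pe pe_symm peierls peierls_relabel prl_kin prl_sub psl_deriv psl_energy psl_energy_k psl_energy_kint psl_energy_vint psl_energy_w psl_nrm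 psl_slice psl_state psl_weight pw_parseval pwaux_parseval q985_point rb833_X rb833_state rbX rb_act_X rb_bessel rb_bessel0 rb_ip_X rb_ip_XX rb_ip_XX_meas rb_ip_XX_one rb_ip_XX_vol rb_ip_swap rb_nice_X rb_nice_state relabel_num relabel_state relaux_kin row_bound slice_basic slice_energy slice_state sm_ins0_31988 sphK sph_K sph_energy sph_isState sph_kin sph_sum spin_ins0_31988 stable_any state_comb sum_pe_half term_A31988 term_B31988 term_swap31988 trace_bound trace_bound_dens

variable [Env]


theorem cl_zero {S : Type} (D : Species S) {I : Type} [Fintype I] [DecidableEq I]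
    (sp : I → S) (ℓ : ℝ) (Ψ : Wave D I) (hΨ : IsState D sp ℓ Ψ) (h0 : nrm2 D Ψ = 0) : Ψ = 0 := by
  by_contra h
  have := nrm2_pos D sp ℓ Ψ hΨ h
  linarith

theorem cl_kin_zero {S : Type} (D : Species S) {I : Type} [Fintype I] [DecidableEq I]
    (sp : I → S) (i : I) (x : I → E3) : kin D sp i (0 : (I → E3) → ℂ) x = 0 := by
  unfold kin Pool.Agent.Helper985.CP.kin
  simp

theorem cl_energy_zero {S : Type} (D : Species S) {I : Type} [Fintype I] [DecidableEq I]
    (sp : I → S) : energy D sp (0 : Wave D I) = 0 := by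
  unfold energy
  simp [cl_kin_zero]

theorem cl_pe_zero {S : Type} (D : Species S) {I : Type} [Fintype I] [DecidableEq I]
    (sp : I → S) (i : I) : pe D sp i (0 : Wave D I) = 0 := by
  unfold pe
  simp [cl_kin_zero]

theorem cl_kinE_zero {S : Type} (D : Species S) {I : Type} [Fintype I] [DecidableEq I]
    (sp : I → S) (i : I) : kinE D sp i (0 : Wave D I) = 0 := by
  unfold kinE
  simp [cl_kin_zero]


end Run7.h213.P
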