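import Pool.Agent.Helper780_CP.RG4
import Pool.Agent.Run7.h213.P.KLLDefs2
import Pool.Agent.Run7.h213.P.KTDefs
import Pool.Agent.Run7.h213.P.CBase

set_option autoImplicit false

open MeasureTheory
open scoped Topology

namespace Run7.h213.P.K.RG4

open Pool.Agent.Helper985.CP hiding IsState MT_core MT_energy_smul MT_psl_lin MT_slice_int MT_state_smul MT_zero Ortho QQ31988 QQ_ins0_31988 QQ_mul31988 QQ_perm31988 QQ_sum31988 cube energy idjT_act idjT_compact idjT_smooth idj_W0_act idj_W0_bound idj_W0_smooth idj_int idj_sum ims_state ins0_num ins0_swap31988 insN_props insNp_energy insNp_kin insNp_state ins_disj ins_state int_state kin kinE moveT_any moveT_none nrm2_pos pe pe_symm peierls peierls_relabel prl_kin prl_sub psl_deriv psl_energy psl_energy_k psl_energy_kint psl_energy_vint psl_energy_w psl_nrm psl_slice psl_state psl_weight pw_parseval pwaux_parseval q985_point rb833_X rb833_state rbX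 rb_act_X rb_bessel rb_bessel0 rb_ip_X rb_ip_XX rb_ip_XX_meas rb_ip_XX_one rb_ip_XX_vol rb_ip_swap rb_nice_X rb_nice_state relabel_num relabel_state relaux_kin remove_none_aux row_bound slice_basic slice_energy slice_state sm_ins0_31988 sphK sph_K sph_energy sph_isState sph_kin sph_sum spin_ins0_31988 stable_any state_comb sum_pe_half term_A31988 term_B31988 term_swap31988 trace_bound trace_bound_dens
open Pool.Agent.Helper780_CP hiding FLT MM NE WI WI_add WI_const WI_coul WI_mul WI_near2 WI_one WI_pair WI_phi WI_smul WI_sum WI_wW WI_zero cost_avg icb kb klc ms_qf mulW_nrm_le mulW_state multiC phb qf qf_int qf_one qf_split qf_wa rest_lower vb wm_add wm_mono wm_sum wm_tendsto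
open Pool.Agent.Helper780_CP.RG4 hiding flt_levels lv_WI_bdd lv_WI_cont lv_wx_add lv_wx_mono lv_wx_sum

variable [Env]

open Run7.h213.P.K

open Run7.h213.P.K


section lvaux

variable {S : Type} (D : Species S) {I : Type} [Fintype I] [DecidableEq I] (sp : I → S)

theorem lv_WI_bdd (ℓ : ℝ) {f V : (I → E3) → ℝ} (hf : Continuous f) (B : ℝ)
    (hB : ∀ x, |f x| ≤ B) (hV : WI D sp ℓ V) : WI D sp ℓ (fun x => f x * V x) := by
  intro Ψ hΨ τ
  have h := (hV Ψ hΨ τ).bdd_mul hf.aestronglyMeasurable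
    (Filter.Eventually.of_forall fun x => (by rw [Real.norm_eq_abs]; exact hB x : ‖f x‖ ≤ B))
  refine h.congr (Filter.Eventually.of_forall fun x => ?_)
  simp only
  ring

theorem lv_WI_cont (ℓ : ℝ) {f : (I → E3) → ℝ} (hf : Continuous f) : WI D sp ℓ f := by
  intro Ψ hΨ τ
  have h2 : Continuous (fun x => ‖Ψ τ x‖ ^ 2) := ((hΨ.smooth τ).continuous.norm).pow 2
  have h3 : HasCompactSupport (fun x => ‖Ψ τ x‖ ^ 2) :=
    (hΨ.compact τ).comp_left (g := fun z : ℂ => ‖z‖ ^ 2) (by simp)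
  exact (hf.mul h2).integrable_of_hasCompactSupport h3.mul_left


variable {k : ℕ} (p : Fin k → ℝ) (ψ : Fin k → Wave D I)

theorem lv_wx_add (ℓ : ℝ) {V W : (I → E3) → ℝ} (hV : WI D sp ℓ V) (hW : WI D sp ℓ W)
    (hψ : ∀ j, IsState D sp ℓ (ψ j)) :
    wx D p ψ (fun x => V x + W x) = wx D p ψ V + wx D p ψ W := by
  unfold wx
  rw [← Finset.sum_add_distrib]
  refine Finset.sum_congr rfl fun j _ => ?_
  rw [wm_add D sp ℓ hV hW (ψ j) (hψ j)]
  ring


theorem lv_wx_sum (ℓ : ℝ) {A : Type} (s : Finset A) (V : A → (I → E3) → ℝ)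
    (hV : ∀ a ∈ s, WI D sp ℓ (V a)) (hψ : ∀ j, IsState D sp ℓ (ψ j)) :
    wx D p ψ (fun x => ∑ a ∈ s, V a x) = ∑ a ∈ s, wx D p ψ (V a) := by
  unfold wx
  rw [Finset.sum_comm]
  refine Finset.sum_congr rfl fun j _ => ?_
  rw [wm_sum D sp ℓ s V hV (ψ j) (hψ j), Finset.mul_sum]

theorem lv_wx_mono (ℓ : ℝ) {V W : (I → E3) → ℝ} (hV : WI D sp ℓ V) (hW : WI D sp ℓ W)
    (hψ : ∀ j, IsState D sp ℓ (ψ j)) (hp : ∀ j, 0 ≤ p j) (h : ∀ x, V x ≤ W x) :
    wx D p ψ V ≤ wx D p ψ W := by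
  unfold wx
  refine Finset.sum_le_sum fun j _ => ?_
  exact mul_le_mul_of_nonneg_left
    (wm_mono D sp ℓ hV hW (ψ j) (hψ j) (Filter.Eventually.of_forall h)) (hp j)


end lvaux

/-- TARGET -/
theorem flt_levels : ∃ C₀ : ℝ, 0 < C₀ ∧ ∀ (C : ℝ), 0 < C →
    ∀ {S : Type} (D : Species S) {I : Type} [Fintype I] [DecidableEq I] (sp : I → S) (ℓ : ℝ)
      (pb : (I → E3) → ℝ), WI D sp ℓ pb → ∀ η : ℝ, 0 ≤ η → η ≤ 1 →
      ∀ {k : ℕ} (p : Fin k → ℝ) (ψ : Fin k → Wave D I), (∀ j, 0 ≤ p j) → ∑ j, p j = 1 →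
      (∀ j, IsState D sp ℓ (ψ j)) → (∀ j, nrm2 D (ψ j) = 1) →
      ∀ (r : ℝ) (ω : E3), 0 < r → r ≤ 1 →
      (∀ (f : (I → E3) → ℝ) (B : ℝ), ContDiff ℝ SM f → Sy sp f → (∀ x, |f x| ≤ B) →
        |wx D p ψ (fun x => f x ^ 2 * (phi D sp ω x - pb x))| ≤
          C / r ^ 2 * (wx D p ψ (fun x => f x ^ 2 * (1 + near2 ω x)) + wx D p ψ (gr f) +
            B ^ 2 * η) + C * (wx D p ψ (fun x => f x ^ 2) *
              Real.log (B ^ 2 / wx D p ψ (fun x => f x ^ 2)))) →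
      ∀ (f : (I → E3) → ℝ) (B lam : ℝ), 0 < lam → ContDiff ℝ SM f → Sy sp f →
        (∀ x, |f x| ≤ B) →
        |wx D p ψ (fun x => f x ^ 2 * (phi D sp ω x - pb x))| ≤
          C₀ * C / r ^ 2 * (wx D p ψ (fun x => f x ^ 2 * (1 + near2 ω x)) + wx D p ψ (gr f) +
            wx D p ψ (fun x => f x ^ 2 * (f x ^ 2 / lam) ^ ((1 : ℝ) / 4)) + lam + B ^ 2 * η) := by
  obtain ⟨M, hM0, hM⟩ := lvG_deriv
  refine ⟨M + 30, by positivity, ?_⟩
  intro C hC S D I _ _ sp ℓ pb hpb η hη0 hη1 n p ψ hp _ hψ _ r ω hr hr1 H f B lam hlam hf hs hB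
  -- scales
  obtain ⟨μ, hμ, hμ2⟩ : ∃ μ : ℝ, 0 < μ ∧ μ ^ 2 = lam :=
    ⟨Real.sqrt lam, Real.sqrt_pos.2 hlam, Real.sq_sqrt hlam.le⟩
  obtain ⟨K, hK1, hK2⟩ := lv_exists B μ hμ
  rw [hμ2] at hK2
  -- the pieces
  obtain ⟨F, hF⟩ : ∃ F : ℕ → (I → E3) → ℝ, ∀ m x, F m x = μ * lvG m (f x / μ) :=
    ⟨fun m x => μ * lvG m (f x / μ), fun _ _ => rfl⟩
  have hF' : ∀ m, F m = fun x => μ * lvG m (f x / μ) := fun m => funext (hF m)
  have hFs : ∀ m, ContDiff ℝ SM (F m) := by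
    intro m
    rw [hF']
    exact contDiff_const.mul ((lvG_smooth m).comp (hf.div_const μ))
  have hFy : ∀ m, Sy sp (F m) := by
    intro m i j x hij
    rw [hF, hF, hs i j x hij]
  have hFb : ∀ m x, |F m x| ≤ 2 ^ (m + 1) * μ := by
    intro m x
    rw [hF, abs_mul, abs_of_pos hμ, mul_comm]
    exact mul_le_mul_of_nonneg_right (lvG_le m _) hμ.le
  have hsum : ∀ x, ∑ m ∈ Finset.range (K + 1), F m x ^ 2 = f x ^ 2 := by
    intro x
    have h1 : |f x / μ| ≤ 2 ^ K := by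
      rw [abs_div, abs_of_pos hμ]
      exact (div_le_iff₀ hμ).2 ((hB x).trans hK1)
    have h2 := lvG_sum' K (f x / μ) h1
    simp only [hF, mul_pow]
    rw [← Finset.mul_sum, h2, div_pow]
    field_simp
  have hgr : ∀ m x, gr (F m) x = (deriv (lvG m) (f x / μ)) ^ 2 * gr f x := by
    intro m x
    rw [hF']
    exact lv_gr_comp hf (lvG_smooth m) hμ x
  -- integrability
  have hphi : WI D sp ℓ (phi D sp ω) := WI_phi D sp ℓ ω
  have hV : WI D sp ℓ (fun x => phi D sp ω x - pb x) := by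
    have h1 := WI_add D sp ℓ hphi (WI_smul D sp ℓ hpb (-1))
    intro Ψ hΨ τ
    refine (h1 Ψ hΨ τ).congr (Filter.Eventually.of_forall fun x => ?_)
    simp only
    ring
  have hN : WI D sp ℓ (fun x => 1 + near2 ω x) :=
    WI_add D sp ℓ (WI_const D sp ℓ 1) (WI_near2 D sp ℓ ω)
  have hFc : ∀ m, Continuous fun x => F m x ^ 2 := fun m => (hFs m).continuous.pow 2
  have hFsq : ∀ m x, |F m x ^ 2| ≤ (2 ^ (m + 1) * μ) ^ 2 := by
    intro m x
    rw [abs_of_nonneg (sq_nonneg _), ← sq_abs]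
    exact pow_le_pow_left₀ (abs_nonneg _) (hFb m x) 2
  have hFV : ∀ m, WI D sp ℓ (fun x => F m x ^ 2 * (phi D sp ω x - pb x)) := fun m =>
    lv_WI_bdd D sp ℓ (hFc m) _ (hFsq m) hV
  have hFN : ∀ m, WI D sp ℓ (fun x => F m x ^ 2 * (1 + near2 ω x)) := fun m =>
    lv_WI_bdd D sp ℓ (hFc m) _ (hFsq m) hN
  have hq : Continuous fun x => (f x ^ 2 / lam) ^ ((1 : ℝ) / 4) := by
    refine Continuous.rpow_const ((hf.continuous.pow 2).div_const lam) fun x => ?_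
    right
    norm_num
  have hfq : WI D sp ℓ (fun x => f x ^ 2 * (f x ^ 2 / lam) ^ ((1 : ℝ) / 4)) :=
    lv_WI_cont D sp ℓ ((hf.continuous.pow 2).mul hq)
  have hf2 : WI D sp ℓ (fun x => f x ^ 2) := lv_WI_cont D sp ℓ (hf.continuous.pow 2)
  have hFq : ∀ m, WI D sp ℓ (fun x => F m x ^ 2 * (9 * (f x ^ 2 / lam) ^ ((1 : ℝ) / 4) + 5)) :=
    fun m => lv_WI_cont D sp ℓ ((hFc m).mul ((continuous_const.mul hq).add continuous_const))
  have hfN : WI D sp ℓ (fun x => f x ^ 2 * (1 + near2 ω x)) := by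
    refine lv_WI_bdd D sp ℓ (hf.continuous.pow 2) (B ^ 2) (fun x => ?_) hN
    rw [abs_of_nonneg (sq_nonneg _), ← sq_abs]
    exact pow_le_pow_left₀ (abs_nonneg _) (hB x) 2
  -- names
  obtain ⟨X, hX⟩ : ∃ X, X = wx D p ψ (fun x => f x ^ 2 * (1 + near2 ω x)) := ⟨_, rfl⟩
  obtain ⟨Y, hY⟩ : ∃ Y, Y = wx D p ψ (gr f) := ⟨_, rfl⟩
  obtain ⟨Q, hQ⟩ : ∃ Q, Q = wx D p ψ (fun x => f x ^ 2 * (f x ^ 2 / lam) ^ ((1 : ℝ) / 4)) :=
    ⟨_, rfl⟩
  have hX0 : 0 ≤ X := by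
    rw [hX]
    exact lv_wx_nonneg D p ψ hp fun x =>
      mul_nonneg (sq_nonneg _) (by have := near2_nonneg ω x; linarith)
  have hY0 : 0 ≤ Y := by
    rw [hY]
    exact lv_wx_nonneg D p ψ hp fun x => lv_gr_nonneg f x
  have hQ0 : 0 ≤ Q := by
    rw [hQ]
    exact lv_wx_nonneg D p ψ hp fun x =>
      mul_nonneg (sq_nonneg _) (Real.rpow_nonneg (by positivity) _)
  have hX1 : wx D p ψ (fun x => f x ^ 2) ≤ X := by
    rw [hX]
    refine lv_wx_mono D sp p ψ ℓ hf2 hfN hψ hp fun x => ?_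
    have h1 := near2_nonneg ω x
    have h2 := sq_nonneg (f x)
    nlinarith
  -- sums
  have s1 : ∑ m ∈ Finset.range (K + 1), wx D p ψ (fun x => F m x ^ 2 * (1 + near2 ω x)) = X := by
    rw [← lv_wx_sum D sp p ψ ℓ _ _ (fun m _ => hFN m) hψ, hX]
    refine lv_wx_congr D p ψ fun x => ?_
    rw [← Finset.sum_mul, hsum]
  have s2 : ∑ m ∈ Finset.range (K + 1), wx D p ψ (gr (F m)) ≤ M * Y := by
    rw [← lv_wx_sum D sp p ψ ℓ _ (fun m => gr (F m))
      (fun m _ => lv_WI_cont D sp ℓ (lv_gr_cont (hFs m))) hψ, hY, ← lv_wx_smul]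
    refine lv_wx_mono D sp p ψ ℓ (WI_sum D sp ℓ _ _
      (fun m _ => lv_WI_cont D sp ℓ (lv_gr_cont (hFs m))))
      (WI_smul D sp ℓ (lv_WI_cont D sp ℓ (lv_gr_cont hf)) M) hψ hp fun x => ?_
    simp only [hgr]
    rw [← Finset.sum_mul]
    exact mul_le_mul_of_nonneg_right (hM K _) (lv_gr_nonneg f x)
  have s3 : ∑ m ∈ Finset.range (K + 1), (2 ^ (m + 1) * μ) ^ 2 ≤ 22 * (B ^ 2 + lam) := by
    have e1 : ∀ m ∈ Finset.range (K + 1), (2 ^ (m + 1) * μ) ^ 2 = 4 ^ (m + 1) * lam := by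
      intro m _
      rw [mul_pow, hμ2, ← pow_mul, mul_comm (m + 1) 2, pow_mul]
      norm_num
    rw [Finset.sum_congr rfl e1, ← Finset.sum_mul]
    have e2 := mul_le_mul_of_nonneg_right (lv_sum4 K) hlam.le
    nlinarith
  have s4 : ∑ m ∈ Finset.range (K + 1), wx D p ψ (fun x => F m x ^ 2 *
      (9 * (f x ^ 2 / lam) ^ ((1 : ℝ) / 4) + 5)) ≤ 9 * Q + 5 * X := by
    rw [← lv_wx_sum D sp p ψ ℓ _ _ (fun m _ => hFq m) hψ]
    have e1 : wx D p ψ (fun x => ∑ m ∈ Finset.range (K + 1), F m x ^ 2 *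
        (9 * (f x ^ 2 / lam) ^ ((1 : ℝ) / 4) + 5)) =
        wx D p ψ (fun x => 9 * (f x ^ 2 * (f x ^ 2 / lam) ^ ((1 : ℝ) / 4)) + 5 * f x ^ 2) := by
      refine lv_wx_congr D p ψ fun x => ?_
      rw [← Finset.sum_mul, hsum]
      ring
    rw [e1, lv_wx_add D sp p ψ ℓ (WI_smul D sp ℓ hfq 9) (WI_smul D sp ℓ hf2 5) hψ,
      lv_wx_smul, lv_wx_smul, ← hQ]
    linarith
  -- each piece
  have hpiece : ∀ m ∈ Finset.range (K + 1),
      |wx D p ψ (fun x => F m x ^ 2 * (phi D sp ω x - pb x))| ≤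
        C / r ^ 2 * (wx D p ψ (fun x => F m x ^ 2 * (1 + near2 ω x)) + wx D p ψ (gr (F m)) +
          (2 ^ (m + 1) * μ) ^ 2 * η) + C * (wx D p ψ (fun x => F m x ^ 2 *
            (9 * (f x ^ 2 / lam) ^ ((1 : ℝ) / 4) + 5)) + lam / 2 ^ m) := by
    intro m _
    refine (H (F m) (2 ^ (m + 1) * μ) (hFs m) (hFy m) (hFb m)).trans ?_
    have ht : 0 ≤ wx D p ψ (fun x => F m x ^ 2) :=
      lv_wx_nonneg D p ψ hp fun x => sq_nonneg _
    have hB2 : (2 ^ (m + 1) * μ) ^ 2 = 4 ^ (m + 1) * lam := by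
      rw [mul_pow, hμ2, ← pow_mul, mul_comm (m + 1) 2, pow_mul]
      norm_num
    have e1 := lv_log (A := (2 ^ (m + 1) * μ) ^ 2) (w := lam / 2 ^ m) (by positivity)
      (by positivity) ht
    have e2 : Real.log ((2 ^ (m + 1) * μ) ^ 2 / (lam / 2 ^ m)) ≤ 3 * (m : ℝ) + 2 := by
      rw [hB2]
      exact lv_log2 m hlam
    have e3 := mul_le_mul_of_nonneg_left e2 ht
    have e4 : wx D p ψ (fun x => F m x ^ 2) * (3 * (m : ℝ) + 2) ≤
        wx D p ψ (fun x => F m x ^ 2 * (9 * (f x ^ 2 / lam) ^ ((1 : ℝ) / 4) + 5)) := by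
      rw [mul_comm, ← lv_wx_smul]
      refine lv_wx_mono D sp p ψ ℓ (WI_smul D sp ℓ (lv_WI_cont D sp ℓ (hFc m)) _) (hFq m)
        hψ hp fun x => ?_
      by_cases h0 : lvG m (f x / μ) = 0
      · rw [hF, h0]
        simp
      · have h1 := lvG_big h0
        have h2 : (f x / μ) ^ 2 = f x ^ 2 / lam := by rw [div_pow, hμ2]
        rw [h2] at h1
        rw [mul_comm]
        exact mul_le_mul_of_nonneg_left h1 (sq_nonneg _)
    have e5 : wx D p ψ (fun x => F m x ^ 2) *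
        Real.log ((2 ^ (m + 1) * μ) ^ 2 / wx D p ψ (fun x => F m x ^ 2)) ≤
        wx D p ψ (fun x => F m x ^ 2 * (9 * (f x ^ 2 / lam) ^ ((1 : ℝ) / 4) + 5)) +
          lam / 2 ^ m := by linarith
    have e6 := mul_le_mul_of_nonneg_left e5 hC.le
    linarith
  -- the sum
  have hsplit : wx D p ψ (fun x => f x ^ 2 * (phi D sp ω x - pb x)) =
      ∑ m ∈ Finset.range (K + 1), wx D p ψ (fun x => F m x ^ 2 * (phi D sp ω x - pb x)) := by
    rw [← lv_wx_sum D sp p ψ ℓ _ _ (fun m _ => hFV m) hψ]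
    refine lv_wx_congr D p ψ fun x => ?_
    rw [← Finset.sum_mul, hsum]
  have htot : |wx D p ψ (fun x => f x ^ 2 * (phi D sp ω x - pb x))| ≤
      C / r ^ 2 * (X + M * Y + 22 * (B ^ 2 + lam) * η) + C * (9 * Q + 5 * X + 2 * lam) := by
    rw [hsplit]
    refine (Finset.abs_sum_le_sum_abs _ _).trans ((Finset.sum_le_sum hpiece).trans ?_)
    rw [Finset.sum_add_distrib, ← Finset.mul_sum, ← Finset.mul_sum, Finset.sum_add_distrib,
      Finset.sum_add_distrib, Finset.sum_add_distrib, s1, ← Finset.sum_mul]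
    have h1 : 0 ≤ C / r ^ 2 := by positivity
    have h2 := lv_sum2 K lam hlam
    have h3 := mul_le_mul_of_nonneg_right s3 hη0
    have h4 : X + ∑ m ∈ Finset.range (K + 1), wx D p ψ (gr (F m)) +
        (∑ m ∈ Finset.range (K + 1), (2 ^ (m + 1) * μ) ^ 2) * η ≤
        X + M * Y + 22 * (B ^ 2 + lam) * η := by linarith
    exact add_le_add (mul_le_mul_of_nonneg_left h4 h1)
      (mul_le_mul_of_nonneg_left (add_le_add s4 h2) hC.le)
  refine htot.trans ?_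
  rw [← hX, ← hY, ← hQ]
  have hr2 : C ≤ C / r ^ 2 := by
    rw [le_div_iff₀ (by positivity)]
    have : r ^ 2 ≤ 1 := by nlinarith
    nlinarith
  have h0 : 0 ≤ 9 * Q + 5 * X + 2 * lam := by positivity
  have h1 := mul_le_mul_of_nonneg_right hr2 h0
  have h2 : lam * η ≤ lam := by nlinarith
  have h3 : 0 ≤ B ^ 2 * η := by positivity
  have h4 : X + M * Y + 22 * (B ^ 2 + lam) * η + (9 * Q + 5 * X + 2 * lam) ≤
      (M + 30) * (X + Y + Q + lam + B ^ 2 * η) := by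
    have a1 : 0 ≤ M * X := by positivity
    have a2 : 0 ≤ M * Q := by positivity
    have a3 : 0 ≤ M * lam := by positivity
    have a4 : 0 ≤ M * (B ^ 2 * η) := by positivity
    nlinarith
  have h5 : 0 ≤ C / r ^ 2 := by positivity
  calc C / r ^ 2 * (X + M * Y + 22 * (B ^ 2 + lam) * η) + C * (9 * Q + 5 * X + 2 * lam)
      ≤ C / r ^ 2 * (X + M * Y + 22 * (B ^ 2 + lam) * η) +
        C / r ^ 2 * (9 * Q + 5 * X + 2 * lam) := by linarith
    _ = C / r ^ 2 * (X + M * Y + 22 * (B ^ 2 + lam) * η + (9 * Q + 5 * X + 2 * lam)) := by ring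
    _ ≤ C / r ^ 2 * ((M + 30) * (X + Y + Q + lam + B ^ 2 * η)) :=
        mul_le_mul_of_nonneg_left h4 h5
    _ = (M + 30) * C / r ^ 2 * (X + Y + Q + lam + B ^ 2 * η) := by ring

end Run7.h213.P.K.RG4
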