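import Pool.Agent.Helper780_CP.RG5
import Pool.Agent.Run7.h213.P.KLLDefs2
import Pool.Agent.Run7.h213.P.KTDefs
import Pool.Agent.Run7.h213.P.KMulti
import Pool.Agent.Run7.h213.P.CBase

set_option autoImplicit false

open MeasureTheory
open scoped Topology

namespace Run7.h213.P.K.RG5

open Pool.Agent.Helper985.CP hiding IsState MT_core MT_energy_smul MT_psl_lin MT_slice_int MT_state_smul MT_zero Ortho QQ31988 QQ_ins0_31988 QQ_mul31988 QQ_perm31988 QQ_sum31988 cube energy idjT_act idjT_compact idjT_smooth idj_W0_act idj_W0_bound idj_W0_smooth idj_int idj_sum ims_state ins0_num ins0_swap31988 insN_props insNp_energy insNp_kin insNp_state ins_disj ins_state int_state kin kinE moveT_any moveT_none nrm2_pos pe pe_symm peierls peierls_relabel prl_kin prl_sub psl_deriv psl_energy psl_energy_k psl_energy_kint psl_energy_vint psl_energy_w psl_nrm psl_slice psl_state psl_weight pw_parseval pwaux_parseval q985_point rb833_X rb833_state rbX rb_act_X rb_bessel rb_bessel0 rb_ip_X rb_ip_XX rb_ip_XX_meas rb_ip_XX_one rb_ip_XX_vol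 rb_ip_swap rb_nice_X rb_nice_state relabel_num relabel_state relaux_kin remove_none_aux row_bound slice_basic slice_energy slice_state sm_ins0_31988 sphK sph_K sph_energy sph_isState sph_kin sph_sum spin_ins0_31988 stable_any state_comb sum_pe_half term_A31988 term_B31988 term_swap31988 trace_bound trace_bound_dens
open Pool.Agent.Helper780_CP hiding FLT MM NE WI WI_add WI_const WI_coul WI_mul WI_near2 WI_one WI_pair WI_phi WI_smul WI_sum WI_wW WI_zero cost_avg icb kb klc ms_qf mulW_nrm_le mulW_state multiC phb qf qf_int qf_one qf_split qf_wa rest_lower vb wm_add wm_mono wm_sum wm_tendsto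
open Pool.Agent.Helper780_CP.RG5 hiding encW_state mix_enc

variable [Env]

open Run7.h213.P.K

open Run7.h213.P.K

section enc

variable {S : Type} (D : Species S) {I : Type}


theorem encW_state {I : Type} [Fintype I] [DecidableEq I] [Nonempty I] (sp : I → S) (ℓ : ℝ) {k : ℕ}
    (p : Fin k → ℝ) (ψ : Fin k → Wave D I) (hψ : ∀ j, IsState D sp ℓ (ψ j)) :
    IsState (encD D k) sp ℓ (encW D p ψ) := by
  refine ⟨fun t => ?_, fun t => ?_, fun t => ?_, fun t ht i => ?_, fun i j hij hs t x => ?_⟩
  · by_cases h : encC D t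
    · rw [encW_pos D p ψ t h]
      exact contDiff_const.mul ((hψ _).smooth _)
    · rw [encW_neg D p ψ t h]
      exact contDiff_const
  · by_cases h : encC D t
    · rw [encW_pos D p ψ t h]
      exact ((hψ _).compact _).mul_left
    · rw [encW_neg D p ψ t h]
      exact HasCompactSupport.zero
  · by_cases h : encC D t
    · rw [encW_pos D p ψ t h]
      exact (tsupport_mul_subset_right (f := fun _ => ((Real.sqrt (p (encJ D t)) : ℝ) : ℂ))
        (g := ψ (encJ D t) (encS D t))).trans ((hψ _).support _)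
    · rw [encW_neg D p ψ t h]
      simp [tsupport]
  · by_cases h : encC D t
    · rw [encW_pos D p ψ t h] at ht
      have h1 : ψ (encJ D t) (encS D t) ≠ 0 := by
        intro h0
        apply ht
        funext x
        rw [h0]
        simp
      have h2 := (hψ _).spin _ h1 i
      have h3 : ∀ u : Fin (D.g * k), (finProdFinEquiv.symm u).1 ∈ D.spin (sp i) →
          u ∈ (D.spin (sp i) ×ˢ (Finset.univ : Finset (Fin k))).map finProdFinEquiv.toEmbedding :=
        fun u hu => Finset.mem_map.2 ⟨finProdFinEquiv.symm u,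
          Finset.mem_product.2 ⟨hu, Finset.mem_univ _⟩, Equiv.apply_symm_apply _ _⟩
      exact h3 (t i) h2
    · exact absurd (encW_neg D p ψ t h) ht
  · by_cases h : encC D t
    · obtain ⟨h1, h2⟩ := enc_swap D i j t h
      rw [encW_pos D p ψ _ h1, encW_pos D p ψ t h]
      simp only [h2]
      have h3 := (hψ (encJ D t)).symm i j hij hs (encS D t) x
      have h4 : encS D (fun l => t (Equiv.swap i j l)) = fun l => encS D t (Equiv.swap i j l) := rfl
      rw [h4, h3]
      have h5 : exch (encD D k) (sp i) = exch D (sp i) := rfl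
      rw [h5]
      ring
    · rw [encW_neg D p ψ _ (fun h' => h ((enc_swap_iff D i j t).1 h')), encW_neg D p ψ t h]
      simp


end enc

/-- TARGET -/
theorem mix_enc {S : Type} (D : Species S) {I : Type} [Fintype I] [DecidableEq I] [Nonempty I]
    (sp : I → S) (ℓ : ℝ) {k : ℕ} (p : Fin k → ℝ) (hp : ∀ j, 0 ≤ p j) (ψ : Fin k → Wave D I)
    (hψ : ∀ j, IsState D sp ℓ (ψ j)) :
    ∃ (D' : Species S) (Φ : Wave D' I), D'.charge = D.charge ∧ D'.mass = D.mass ∧
      D'.fermion = D.fermion ∧ IsState D' sp ℓ Φ ∧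
      (∀ W : (I → E3) → ℝ, wm D' W Φ = wx D p ψ W) ∧
      (∀ ω x, phi D' sp ω x = phi D sp ω x) ∧ (∀ y, phim D' sp Φ y = ∑ j, p j * phim D sp (ψ j) y) := by
  refine ⟨encD D k, encW D p ψ, rfl, rfl, rfl, encW_state D sp ℓ p ψ hψ, encW_wm D p hp ψ,
    fun _ _ => rfl, fun y => ?_⟩
  exact encW_wm D p hp ψ (fun x => ∑ i, D.charge (sp i) * (1 / ‖x i - y‖))

end Run7.h213.P.K.RG5
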