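import Pool.Agent.Helper780_CP.RG6
import Pool.Agent.Run7.h213.P.KLLDefs2
import Pool.Agent.Run7.h213.P.KTDefs
import Pool.Agent.Run7.h213.P.CBase

set_option autoImplicit false

open MeasureTheory
open scoped Topology

namespace Run7.h213.P.K.RG6

open Pool.Agent.Helper985.CP hiding IsState MT_core MT_energy_smul MT_psl_lin MT_slice_int MT_state_smul MT_zero Ortho QQ31988 QQ_ins0_31988 QQ_mul31988 QQ_perm31988 QQ_sum31988 cube energy idjT_act idjT_compact idjT_smooth idj_W0_act idj_W0_bound idj_W0_smooth idj_int idj_sum ims_state ins0_num ins0_swap31988 insN_props insNp_energy insNp_kin insNp_state ins_disj ins_state int_state kin kinE moveT_any moveT_none nrm2_pos pe pe_symm peierls peierls_relabel prl_kin prl_sub psl_deriv psl_energy psl_energy_k psl_energy_kint psl_energy_vint psl_energy_w psl_nrm psl_slice psl_state psl_weight pw_parseval pwaux_parseval q985_point rb833_X rb833_state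 rbX rb_act_X rb_bessel rb_bessel0 rb_ip_X rb_ip_XX rb_ip_XX_meas rb_ip_XX_one rb_ip_XX_vol rb_ip_swap rb_nice_X rb_nice_state relabel_num relabel_state relaux_kin remove_none_aux row_bound slice_basic slice_energy slice_state sm_ins0_31988 sphK sph_K sph_energy sph_isState sph_kin sph_sum spin_ins0_31988 stable_any state_comb sum_pe_half term_A31988 term_B31988 term_swap31988 trace_bound trace_bound_dens
open Pool.Agent.Helper780_CP hiding FLT MM NE WI WI_add WI_const WI_coul WI_mul WI_near2 WI_one WI_pair WI_phi WI_smul WI_sum WI_wW WI_zero cost_avg icb kb klc ms_qf mulW_nrm_le mulW_state multiC phb qf qf_int qf_one qf_split qf_wa rest_lower vb wm_add wm_mono wm_sum wm_tendsto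
open Pool.Agent.Helper780_CP.RG6 hiding tciT

variable [Env]

open Run7.h213.P.K

open Run7.h213.P.K

open Pool.Agent.Helper780_CP.RTCI.Aux hiding int_one kk kk_int kk_meas kk_nonneg kk_prod locInt_inv2 near2_le_kk near2_meas2 near2_nonneg


/-- TARGET -/
theorem tciT {S : Type} (D : Species S) {I : Type} [Fintype I] [DecidableEq I] (sp : I → S) (ℓ : ℝ)
    (pb : (I → E3) → ℝ) (hpb : Continuous pb) (C η : ℝ) (hC : 0 ≤ C) (hη : 0 ≤ η) (Ψ : Wave D I)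
    (hΨ : IsState D sp ℓ Ψ) (hn : nrm2 D Ψ = 1) (hFL : FLT D sp ℓ pb C η Ψ)
    (lam : ℝ) (hlam : 0 < lam)
    (r : ℝ) (hr : 0 < r) (hr1 : r ≤ 1) (A : Set E3) (hA : MeasurableSet A)
    (hAb : ∃ R, A ⊆ Metric.closedBall 0 R) (hAc : ∀ ω ∈ A, Metric.closedBall ω r ⊆ cube ℓ)
    (F G G' : (I → E3) → E3 → ℝ) (B M : ℝ)
    (hF : Measurable (fun p : (I → E3) × E3 => F p.1 p.2))
    (hG : Measurable (fun p : (I → E3) × E3 => G p.1 p.2))
    (hG' : Measurable (fun p : (I → E3) × E3 => G' p.1 p.2))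
    (hM : ∀ x, ∀ ω ∈ A, G x ω ≤ M ∧ G' x ω ≤ M)
    (h : ∀ ω ∈ A, ∃ f₁ f₂ : (I → E3) → ℝ, ContDiff ℝ SM f₁ ∧ ContDiff ℝ SM f₂ ∧ Sy sp f₁ ∧
      Sy sp f₂ ∧ (∀ x, |f₁ x| ≤ B) ∧ (∀ x, |f₂ x| ≤ B) ∧ (∀ x, f₁ x ^ 2 - f₂ x ^ 2 = F x ω) ∧
      (∀ x, f₁ x ^ 2 + f₂ x ^ 2 ≤ G x ω) ∧ (∀ x, gr f₁ x + gr f₂ x ≤ G' x ω)) :
    |wm D (fun x => ∫ ω in A, F x ω * (phi D sp ω x - pb x)) Ψ| ≤
      C / r ^ 2 * (wm D (fun x => ∫ ω in A, (G x ω * (1 + near2 ω x) + G' x ω +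
        G x ω * (G x ω / lam) ^ ((1 : ℝ) / 4))) Ψ + 2 * (lam + B ^ 2 * η) * (volume A).toReal) := by
  obtain ⟨R, hR⟩ := hAb
  have hAf : volume A ≠ ⊤ :=
    ((measure_mono hR).trans_lt (measure_closedBall_lt_top (μ := (volume : Measure E3)))).ne
  have hPs : ∀ τ, HasCompactSupport (fun x => ‖Ψ τ x‖ ^ 2) := fun τ =>
    (hΨ.compact τ).comp_left (g := fun z : ℂ => ‖z‖ ^ 2) (by simp)
  have hok : ∀ τ, Ok (fun x => ‖Ψ τ x‖ ^ 2) := fun τ =>
    ⟨((hΨ.smooth τ).continuous.norm).pow 2, hPs τ, fun x => sq_nonneg _⟩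
  obtain ⟨Kp, hKp0, hKp⟩ := pb_bound D pb hpb Ψ hPs
  obtain ⟨L, hL⟩ : ∃ L : ℝ, ∀ τ ω x, |phi D sp ω x - pb x| * ‖Ψ τ x‖ ^ 2 ≤
      L * (dm ω x * ‖Ψ τ x‖ ^ 2) :=
    ⟨_, fun τ ω x => diff_bound _ Kp _ _ _ _ (phi_le D sp ω x) (hKp τ x) (dm_ge ω x)
      (sq_nonneg _) hKp0⟩
  have hGnn : ∀ x, ∀ ω ∈ A, 0 ≤ G x ω := by
    intro x ω hω
    obtain ⟨f₁, f₂, -, -, -, -, -, -, -, h8, -⟩ := h ω hω
    exact (add_nonneg (sq_nonneg _) (sq_nonneg _)).trans (h8 x)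
  have hGnn' : ∀ x, ∀ ω ∈ A, 0 ≤ G' x ω := by
    intro x ω hω
    obtain ⟨f₁, f₂, -, -, -, -, -, -, -, -, h9⟩ := h ω hω
    exact (add_nonneg (gr_nonneg f₁ x) (gr_nonneg f₂ x)).trans (h9 x)
  have hFb : ∀ x, ∀ ω ∈ A, |F x ω| ≤ B ^ 2 := by
    intro x ω hω
    obtain ⟨f₁, f₂, -, -, -, -, h5, h6, h7, -, -⟩ := h ω hω
    rw [← h7 x]
    exact F_bound _ _ _ (h5 x) (h6 x)
  have hG1 : ∀ ω, Measurable (fun x => G x ω) := fun ω => m_sec G hG ω
  have hG1' : ∀ ω, Measurable (fun x => G' x ω) := fun ω => m_sec G' hG' ω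
  -- the enlarged majorant of the gradient term
  obtain ⟨H, hHd⟩ : ∃ H : (I → E3) → E3 → ℝ, H = fun x ω => G' x ω + qq lam (G x ω) := ⟨_, rfl⟩
  have hHm : Measurable (fun p : (I → E3) × E3 => H p.1 p.2) := by
    rw [hHd]
    exact hG'.add ((qq_meas lam).comp hG)
  have hHnn : ∀ x, ∀ ω ∈ A, 0 ≤ H x ω := by
    intro x ω hω
    rw [hHd]
    exact add_nonneg (hGnn' x ω hω) (qq_nonneg _ _ hlam (hGnn x ω hω))
  have hHM : ∀ x, ∀ ω ∈ A, G x ω ≤ M + qq lam M ∧ H x ω ≤ M + qq lam M := by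
    intro x ω hω
    have h0 := hGnn x ω hω
    obtain ⟨h1, h2⟩ := hM x ω hω
    have h3 : 0 ≤ M := h0.trans h1
    have h4 := qq_nonneg lam M hlam h3
    have h5 := qq_mono lam _ _ hlam h0 h1
    refine ⟨by linarith, ?_⟩
    rw [hHd]
    show G' x ω + qq lam (G x ω) ≤ _
    linarith
  -- the estimate at a point
  have hpt : ∀ ω ∈ A, |wm D (fun x => F x ω * (phi D sp ω x - pb x)) Ψ| ≤
      C / r ^ 2 * (wm D (fun x => G x ω * (1 + near2 ω x) + H x ω) Ψ +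
        2 * (lam + B ^ 2 * η)) := by
    intro ω hω
    obtain ⟨f₁, f₂, h1, h2, h3, h4, h5, h6, h7, h8, h9⟩ := h ω hω
    have e1 := hFL r ω f₁ B lam hr hr1 hlam (hAc ω hω) h1 h3 h5
    have e2 := hFL r ω f₂ B lam hr hr1 hlam (hAc ω hω) h2 h4 h6
    have e3 : wm D (fun x => F x ω * (phi D sp ω x - pb x)) Ψ =
        wm D (fun x => f₁ x ^ 2 * (phi D sp ω x - pb x)) Ψ -
        wm D (fun x => f₂ x ^ 2 * (phi D sp ω x - pb x)) Ψ := by
      unfold wm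
      rw [← Finset.sum_sub_distrib]
      exact Finset.sum_congr rfl fun τ _ =>
        comp_eq D sp _ (hok τ) ω pb hpb L (hL τ ω) f₁ f₂ _ h1 h2 B h5 h6 h7
    have e4 : wm D (fun x => f₁ x ^ 2 * (1 + near2 ω x)) Ψ + wm D (gr f₁) Ψ +
        (wm D (fun x => f₂ x ^ 2 * (1 + near2 ω x)) Ψ + wm D (gr f₂) Ψ) ≤
        wm D (fun x => G x ω * (1 + near2 ω x) + G' x ω) Ψ := by
      unfold wm
      rw [← Finset.sum_add_distrib, ← Finset.sum_add_distrib, ← Finset.sum_add_distrib]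
      exact Finset.sum_le_sum fun τ _ =>
        comp_le _ (hok τ) ω f₁ f₂ _ _ h1 h2 B M h5 h6 h8 h9 (hG1 ω) (hG1' ω)
          (fun x => (hM x ω hω).1) (fun x => (hM x ω hω).2)
    have e4' : wm D (fun x => f₁ x ^ 2 * (f₁ x ^ 2 / lam) ^ ((1 : ℝ) / 4)) Ψ +
        wm D (fun x => f₂ x ^ 2 * (f₂ x ^ 2 / lam) ^ ((1 : ℝ) / 4)) Ψ ≤
        wm D (fun x => qq lam (G x ω)) Ψ := by
      unfold wm
      rw [← Finset.sum_add_distrib]
      exact Finset.sum_le_sum fun τ _ =>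
        compq_le _ (hok τ) lam hlam f₁ f₂ _ h1 h2 B M h5 h6 h8 (hG1 ω)
          (fun x => (hM x ω hω).1)
    have e4'' : wm D (fun x => G x ω * (1 + near2 ω x) + H x ω) Ψ =
        wm D (fun x => G x ω * (1 + near2 ω x) + G' x ω) Ψ +
          wm D (fun x => qq lam (G x ω)) Ψ := by
      unfold wm
      rw [← Finset.sum_add_distrib]
      refine Finset.sum_congr rfl fun τ _ => ?_
      have i1 := I2 _ (hok τ) ω _ (hG1 ω) M (fun x => by
        rw [abs_of_nonneg (hGnn x ω hω)]; exact (hM x ω hω).1)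
      have i2 := I3 _ (hok τ) _ (hG1' ω) M (fun x => by
        rw [abs_of_nonneg (hGnn' x ω hω)]; exact (hM x ω hω).2)
      have i3 := qq_int _ (hok τ) lam hlam _ (hG1 ω) (fun x => hGnn x ω hω) M
        (fun x => (hM x ω hω).1)
      have i4 : Integrable (fun x => (G x ω * (1 + near2 ω x) + G' x ω) * ‖Ψ τ x‖ ^ 2) := by
        refine (i1.add i2).congr (Filter.Eventually.of_forall fun x => ?_)
        show G x ω * (1 + near2 ω x) * ‖Ψ τ x‖ ^ 2 + G' x ω * ‖Ψ τ x‖ ^ 2 = _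
        ring
      rw [← integral_add i4 i3]
      refine integral_congr_ae (Filter.Eventually.of_forall fun x => ?_)
      show (G x ω * (1 + near2 ω x) + H x ω) * ‖Ψ τ x‖ ^ 2 =
        (G x ω * (1 + near2 ω x) + G' x ω) * ‖Ψ τ x‖ ^ 2 + qq lam (G x ω) * ‖Ψ τ x‖ ^ 2
      rw [hHd]
      ring
    rw [e3]
    have hCr : 0 ≤ C / r ^ 2 := div_nonneg hC (sq_nonneg _)
    have e5 : wm D (fun x => f₁ x ^ 2 * (1 + near2 ω x)) Ψ + wm D (gr f₁) Ψ +
        wm D (fun x => f₁ x ^ 2 * (f₁ x ^ 2 / lam) ^ ((1 : ℝ) / 4)) Ψ +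
        (wm D (fun x => f₂ x ^ 2 * (1 + near2 ω x)) Ψ + wm D (gr f₂) Ψ +
        wm D (fun x => f₂ x ^ 2 * (f₂ x ^ 2 / lam) ^ ((1 : ℝ) / 4)) Ψ) + 2 * (lam + B ^ 2 * η) ≤
        wm D (fun x => G x ω * (1 + near2 ω x) + H x ω) Ψ + 2 * (lam + B ^ 2 * η) := by
      rw [e4'']
      linarith
    have e6 := mul_le_mul_of_nonneg_left e5 hCr
    have e7 := (abs_sub (wm D (fun x => f₁ x ^ 2 * (phi D sp ω x - pb x)) Ψ)
      (wm D (fun x => f₂ x ^ 2 * (phi D sp ω x - pb x)) Ψ)).trans (add_le_add e1 e2)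
    refine e7.trans (le_of_eq_of_le ?_ e6)
    ring
  -- Fubini
  obtain ⟨k1, k2⟩ := fub D Ψ A (fun x ω => F x ω * (phi D sp ω x - pb x)) (fun τ =>
    J1 D sp _ (hok τ) pb hpb L A hA hAf (hL τ) F hF (B ^ 2) (sq_nonneg _) hFb)
  obtain ⟨k3, k4⟩ := fub D Ψ A (fun x ω => G x ω * (1 + near2 ω x) + H x ω) (fun τ =>
    J2 _ (hok τ) A hA hAf G H hG hHm (M + qq lam M) hGnn hHnn hHM)
  have k0 : (fun x : I → E3 => ∫ ω in A, (G x ω * (1 + near2 ω x) + G' x ω +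
        G x ω * (G x ω / lam) ^ ((1 : ℝ) / 4))) =
      fun x => ∫ ω in A, (G x ω * (1 + near2 ω x) + H x ω) := by
    funext x
    refine integral_congr_ae (Filter.Eventually.of_forall fun ω => ?_)
    show G x ω * (1 + near2 ω x) + G' x ω + G x ω * (G x ω / lam) ^ ((1 : ℝ) / 4) =
      G x ω * (1 + near2 ω x) + H x ω
    rw [hHd]
    show _ = G x ω * (1 + near2 ω x) + (G' x ω + G x ω * (G x ω / lam) ^ ((1 : ℝ) / 4))
    ring
  rw [k0, k2, k4]
  haveI : IsFiniteMeasure ((volume : Measure E3).restrict A) :=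
    ⟨by rw [Measure.restrict_apply_univ]; exact lt_top_iff_ne_top.2 hAf⟩
  have k5 : Integrable (fun ω => C / r ^ 2 *
      (wm D (fun x => G x ω * (1 + near2 ω x) + H x ω) Ψ + 2 * (lam + B ^ 2 * η)))
      ((volume : Measure E3).restrict A) := (k3.add (integrable_const _)).const_mul _
  calc |∫ ω in A, wm D (fun x => F x ω * (phi D sp ω x - pb x)) Ψ| ≤
        ∫ ω in A, |wm D (fun x => F x ω * (phi D sp ω x - pb x)) Ψ| := abs_integral_le_integral_abs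
    _ ≤ ∫ ω in A, C / r ^ 2 *
      (wm D (fun x => G x ω * (1 + near2 ω x) + H x ω) Ψ + 2 * (lam + B ^ 2 * η)) := by
        refine setIntegral_mono_on k1.abs k5 hA fun ω hω => hpt ω hω
    _ = _ := by
        rw [integral_const_mul, integral_add k3 (integrable_const _), setIntegral_const,
          Measure.real, smul_eq_mul]
        ring

end Run7.h213.P.K.RG6
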