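import Pool.Agent.Helper780_CP.RQ9
import Pool.Agent.Run7.h213.P.KLLDefs2
import Pool.Agent.Run7.h213.P.CBase

set_option autoImplicit false

open MeasureTheory

namespace Run7.h213.P.K.RQ9

open Pool.Agent.Helper985.CP hiding IsState Ortho QQ31988 QQ_ins0_31988 QQ_mul31988 QQ_perm31988 QQ_sum31988 cube energy idjT_act idjT_compact idjT_smooth idj_W0_act idj_W0_bound idj_W0_smooth idj_int idj_sum ims_state ins0_num ins0_swap31988 ins_disj ins_state int_state kin kinE nrm2_pos pe pe_symm peierls psl_deriv psl_nrm psl_slice psl_state psl_weight pw_parseval pwaux_parseval q985_point rb833_X rb833_state rbX rb_act_X rb_bessel rb_bessel0 rb_ip_X rb_ip_XX rb_ip_XX_meas rb_ip_XX_one rb_ip_XX_vol rb_ip_swap rb_nice_X rb_nice_state relabel_num relabel_state relaux_kin remove_none_aux row_bound slice_basic slice_energy slice_state sm_ins0_31988 sphK sph_K sph_energy sph_isState sph_kin sph_sum spin_ins0_31988 stable_any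 state_comb sum_pe_half term_A31988 term_B31988 term_swap31988
open Pool.Agent.Helper780_CP hiding WI WI_add WI_const WI_coul WI_mul WI_near2 WI_one WI_pair WI_phi WI_smul WI_sum WI_wW WI_zero cost_avg icb kb klc ms_qf mulW_state multiC phb qf qf_int qf_one qf_split qf_wa rest_lower vb wm_add wm_mono wm_sum wm_tendsto
open Pool.Agent.Helper780_CP.RQ9 hiding fluct_int fluct_wm_lin fluct_wm_mono

variable [Env]

open Run7.h213.P.K
open Pool.Agent.Helper780_CP.RTCI (tci)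
open Pool.Agent.Helper780_CP.RC3 (near2_ball)
open Pool.Agent.Helper780_CP.RK1 (newt)


theorem fluct_int {S : Type} (D : Species S) {I : Type} [Fintype I] [DecidableEq I]
    (sp : I → S) (ℓ : ℝ) (Ψ : Wave D I) (hΨ : IsState D sp ℓ Ψ) (τ : I → Fin D.g)
    {W : (I → E3) → ℝ} (hW : Measurable W) {M : ℝ} (hM : ∀ x, |W x| ≤ M) :
    Integrable (fun x => W x * ‖Ψ τ x‖ ^ 2) := by
  have h1 := (int_state D sp ℓ Ψ hΨ τ).1
  refine Integrable.mono' (h1.const_mul M) (hW.aestronglyMeasurable.mul h1.aestronglyMeasurable)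
    (Filter.Eventually.of_forall fun x => ?_)
  rw [Real.norm_eq_abs, abs_mul, abs_of_nonneg (by positivity : 0 ≤ ‖Ψ τ x‖ ^ 2)]
  exact mul_le_mul_of_nonneg_right (hM x) (by positivity)

theorem fluct_wm_mono {S : Type} (D : Species S) {I : Type} [Fintype I] [DecidableEq I]
    (sp : I → S) (ℓ : ℝ) (Ψ : Wave D I) (hΨ : IsState D sp ℓ Ψ)
    {W1 W2 : (I → E3) → ℝ} (h0 : ∀ x, 0 ≤ W1 x) (h : ∀ x, W1 x ≤ W2 x) (hW : Measurable W2)
    {M : ℝ} (hM : ∀ x, |W2 x| ≤ M) : wm D W1 Ψ ≤ wm D W2 Ψ := by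
  unfold wm
  refine Finset.sum_le_sum fun τ _ => ?_
  refine integral_mono_of_nonneg (Filter.Eventually.of_forall fun x => ?_)
    (fluct_int D sp ℓ Ψ hΨ τ hW hM) (Filter.Eventually.of_forall fun x => ?_)
  · exact mul_nonneg (h0 x) (by positivity)
  · exact mul_le_mul_of_nonneg_right (h x) (by positivity)


theorem fluct_wm_lin {S : Type} (D : Species S) {I : Type} [Fintype I] [DecidableEq I]
    (sp : I → S) (ℓ : ℝ) (Ψ : Wave D I) (hΨ : IsState D sp ℓ Ψ) (hn : nrm2 D Ψ = 1)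
    {W1 W2 : (I → E3) → ℝ} (hW1 : Measurable W1) (hW2 : Measurable W2)
    {M1 M2 : ℝ} (hM1 : ∀ x, |W1 x| ≤ M1) (hM2 : ∀ x, |W2 x| ≤ M2) (a b : ℝ) :
    wm D (fun x => a * W1 x + b * (1 + W2 x)) Ψ = a * wm D W1 Ψ + b * (1 + wm D W2 Ψ) := by
  have hn' : a * wm D W1 Ψ + b * (1 + wm D W2 Ψ) = a * wm D W1 Ψ + b * (nrm2 D Ψ + wm D W2 Ψ) := by
    rw [hn]
  rw [hn']
  unfold nrm2 wm
  rw [← Finset.sum_add_distrib, Finset.mul_sum, Finset.mul_sum, ← Finset.sum_add_distrib]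
  refine Finset.sum_congr rfl fun τ _ => ?_
  have h1 := fluct_int D sp ℓ Ψ hΨ τ hW1 hM1
  have h2 := fluct_int D sp ℓ Ψ hΨ τ hW2 hM2
  have h3 := (int_state D sp ℓ Ψ hΨ τ).1
  have e : ∀ x, (a * W1 x + b * (1 + W2 x)) * ‖Ψ τ x‖ ^ 2 =
      a * (W1 x * ‖Ψ τ x‖ ^ 2) + b * (‖Ψ τ x‖ ^ 2 + W2 x * ‖Ψ τ x‖ ^ 2) := fun x => by ring
  simp_rw [e]
  have h4 : Integrable (fun x => ‖Ψ τ x‖ ^ 2 + W2 x * ‖Ψ τ x‖ ^ 2) := h3.add h2
  rw [integral_add (h1.const_mul a) (h4.const_mul b), integral_const_mul,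
    integral_const_mul, integral_add h3 h2]


end Run7.h213.P.K.RQ9
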