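import Pool.Agent.Helper780_CP.RG7
import Pool.Agent.Run7.h213.P.KLLDefs2
import Pool.Agent.Run7.h213.P.KTDefs
import Pool.Agent.Run7.h213.P.KRQ9
import Pool.Agent.Run7.h213.P.KRG6
import Pool.Agent.Run7.h213.P.CBase

set_option autoImplicit false

open MeasureTheory
open scoped Topology

namespace Run7.h213.P.K.RG7

open Pool.Agent.Helper985.CP hiding IsState MT_core MT_energy_smul MT_psl_lin MT_slice_int MT_state_smul MT_zero Ortho QQ31988 QQ_ins0_31988 QQ_mul31988 QQ_perm31988 QQ_sum31988 cube energy idjT_act idjT_compact idjT_smooth idj_W0_act idj_W0_bound idj_W0_smooth idj_int idj_sum ims_state ins0_num ins0_swap31988 insN_props insNp_energy insNp_kin insNp_state ins_disj ins_state int_state kin kinE moveT_any moveT_none nrm2_pos pe pe_symm peierls peierls_relabel prl_kin prl_sub psl_deriv psl_energy psl_energy_k psl_energy_kint psl_energy_vint psl_energy_w psl_nrm psl_slice psl_state psl_weight pw_parseval pwaux_parseval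 q985_point rb833_X rb833_state rbX rb_act_X rb_bessel rb_bessel0 rb_ip_X rb_ip_XX rb_ip_XX_meas rb_ip_XX_one rb_ip_XX_vol rb_ip_swap rb_nice_X rb_nice_state relabel_num relabel_state relaux_kin remove_none_aux row_bound slice_basic slice_energy slice_state sm_ins0_31988 sphK sph_K sph_energy sph_isState sph_kin sph_sum spin_ins0_31988 stable_any state_comb sum_pe_half term_A31988 term_B31988 term_swap31988 trace_bound trace_bound_dens
open Pool.Agent.Helper780_CP hiding FLT MM NE WI WI_add WI_const WI_coul WI_mul WI_near2 WI_one WI_pair WI_phi WI_smul WI_sum WI_wW WI_zero cost_avg icb kb klc ms_qf mulW_nrm_le mulW_state multiC phb qf qf_int qf_one qf_split qf_wa rest_lower vb wm_add wm_mono wm_sum wm_tendsto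
open Pool.Agent.Helper780_CP.RG7 hiding fluctT

variable [Env]

open Run7.h213.P.K
open Run7.h213.P.K.RG6 (tciT)

open Run7.h213.P.K
open Pool.Agent.Helper780_CP.RQ9 hiding fluct_int fluct_wm_lin fluct_wm_mono
open Run7.h213.P.K.RQ9
open Pool.Agent.Helper780_CP.RC3 (near2_ball)
open Pool.Agent.Helper780_CP.RK1 (newt)


/-- TARGET -/
theorem fluctT (z C : ℝ) (hz : 0 ≤ z) (hC : 0 ≤ C) : ∃ C' : ℝ, 0 < C' ∧
    ∀ {S : Type} (D : Species S) {I : Type} [Fintype I] [DecidableEq I] (sp : I → S) (ℓ : ℝ)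
      (pb : (I → E3) → ℝ), Continuous pb → (∀ s, |D.charge s| ≤ z) →
      ∀ (η : ℝ), 0 ≤ η → η * (1 + (Fintype.card I : ℝ)) ≤ 1 → ∀ Ψ : Wave D I, IsState D sp ℓ Ψ →
      nrm2 D Ψ = 1 → FLT D sp ℓ pb C η Ψ →
      ∀ (y : E3) (r : ℝ), 0 < r → r ≤ 1 → Metric.closedBall y (4 * r) ⊆ cube ℓ →
      ∀ (t : E3 → ℝ) (A : ℝ), ContDiff ℝ SM t → 1 ≤ A → (∀ v, 3 * r < ‖v - y‖ → t v = 0) →
        (∀ v, |t v| ≤ A) → (∀ v, ‖fderiv ℝ t v‖ ≤ A) → (∀ v, |lap t v| ≤ A) →
        wm D (fun x => (∑ i, D.charge (sp i) * t (x i)) ^ 2) Ψ ≤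
          C' * A ^ 3 / r ^ 4 * (1 + wm D (fun x => nb y (8 * r) x ^ ((4 : ℝ) / 3)) Ψ) := by
  obtain ⟨c, hc, hnewt⟩ := newt
  obtain ⟨c2, hc2, hnear⟩ := near2_ball
  obtain ⟨V, hV⟩ : ∃ V : ℝ, V = (volume (Metric.ball (0 : E3) 1)).toReal := ⟨_, rfl⟩
  have hV0 : 0 ≤ V := by rw [hV]; exact ENNReal.toReal_nonneg
  obtain ⟨L, hL⟩ : ∃ L : ℝ, L = 27 * V + 4 * c2 := ⟨_, rfl⟩
  have hL0 : 0 < L := by rw [hL]; positivity
  obtain ⟨K3, hK3⟩ : ∃ K3 : ℝ, K3 = (C * L / c) ^ 2 + 2 * (C * L / c) + 54 * (C * z ^ 2 * V) / c :=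
    ⟨_, rfl⟩
  obtain ⟨K4, hK4⟩ : ∃ K4 : ℝ, K4 = 54 * (C * V * (1 + z)) / c := ⟨_, rfl⟩
  obtain ⟨K5, hK5⟩ : ∃ K5 : ℝ, K5 = 1 + 38 * (27 * C * V / c) ^ 3 := ⟨_, rfl⟩
  obtain ⟨K6, hK6⟩ : ∃ K6 : ℝ, K6 = 54 * (C * V) / c := ⟨_, rfl⟩
  have hK30 : 0 ≤ K3 := by rw [hK3]; positivity
  have hK40 : 0 ≤ K4 := by rw [hK4]; positivity
  have hK50 : 0 ≤ K5 := by rw [hK5]; positivity
  have hK60 : 0 ≤ K6 := by rw [hK6]; positivity
  refine ⟨3 * (K3 + K5 + K4 + K6) + 1, by positivity, ?_⟩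
  intro S D I _ _ sp ℓ pb hpb hch η hη hη1 Ψ hΨ hn hFL y r hr hr1 hcube t A ht hA hsupp htA hdt hlap
  have hA0 : 0 < A := by linarith
  -- the density
  obtain ⟨T, hTdef⟩ : ∃ T : E3 → ℝ, T = fun w => -c⁻¹ * lap t w := ⟨_, rfl⟩
  have hTc : Continuous T := by rw [hTdef]; exact continuous_const.mul (fluct_lap_cont ht)
  have hU : IsOpen {v : E3 | 3 * r < ‖v - y‖} := isOpen_lt continuous_const (by fun_prop)
  have hTs : ∀ w, 3 * r < ‖w - y‖ → T w = 0 := by
    intro w hw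
    rw [hTdef]
    simp only
    rw [fluct_lap0 hU (fun v hv => hsupp v hv) w hw, mul_zero]
  have hTM : ∀ w, |T w| ≤ A / c := by
    intro w
    rw [hTdef]
    simp only
    rw [abs_mul, abs_neg, abs_of_pos (inv_pos.2 hc), div_eq_inv_mul]
    exact mul_le_mul_of_nonneg_left (hlap w) (inv_nonneg.2 hc.le)
  have hcs : HasCompactSupport t := by
    refine HasCompactSupport.intro (isCompact_closedBall y (3 * r)) fun w hw => hsupp w ?_
    rw [Metric.mem_closedBall, dist_eq_norm] at hw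
    exact not_le.1 hw
  obtain ⟨hn1, hn2⟩ := hnewt t ht hcs
  have hrep : ∀ v, t v = ∫ w, T w * (1 / ‖v - w‖) := by
    intro v
    rw [hn1 v, ← integral_const_mul]
    refine integral_congr_ae (Filter.Eventually.of_forall fun w => ?_)
    rw [hTdef]
    simp only
    rw [norm_sub_rev v w]
    ring
  have hT0 : ∫ w, T w = 0 := by
    rw [hTdef, integral_const_mul, hn2, mul_zero]
  -- the charge
  obtain ⟨q, hq⟩ : ∃ q : (I → E3) → ℝ, q = fluct_q D sp t := ⟨_, rfl⟩
  have hqc : Continuous q := by rw [hq]; exact (fluct_q_cd D sp ht).continuous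
  have hqb : ∀ x, |q x| ≤ z * (Fintype.card I : ℝ) * A := by
    intro x
    rw [hq]
    unfold fluct_q
    refine (Finset.abs_sum_le_sum_abs _ _).trans ?_
    calc ∑ i, |D.charge (sp i) * t (x i)| ≤ ∑ _i : I, z * A := by
          refine Finset.sum_le_sum fun i _ => ?_
          rw [abs_mul]
          exact mul_le_mul (hch _) (htA _) (abs_nonneg _) hz
      _ = z * (Fintype.card I : ℝ) * A := by simp; ring
  have hrep2 : ∀ x, ∫ w in Metric.closedBall y (3 * r), T w * (phi D sp w x - pb x) = q x := by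
    intro x
    rw [fluct_rep D sp hTc hTM hTs hrep hT0 (pb x) x, hq]
    rfl
  obtain ⟨B, hB⟩ : ∃ B : ℝ, B = √(A / c * (1 + z * (Fintype.card I : ℝ) * A)) := ⟨_, rfl⟩
  have hB2 : B ^ 2 = A / c * (1 + z * (Fintype.card I : ℝ) * A) := by
    rw [hB, Real.sq_sqrt]
    positivity
  have hmain := tciT D sp ℓ pb hpb C η hC hη Ψ hΨ hn hFL (A / c) (by positivity) r hr hr1 (Metric.closedBall y (3 * r))
    Metric.isClosed_closedBall.measurableSet
    ⟨‖y‖ + 3 * r, fun w hw => by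
      rw [Metric.mem_closedBall, dist_eq_norm] at hw
      rw [mem_closedBall_zero_iff]
      have := norm_add_le (w - y) y
      rw [sub_add_cancel] at this
      linarith⟩
    (fun w hw => by
      refine Set.Subset.trans (fun v hv => ?_) hcube
      rw [Metric.mem_closedBall] at hv hw ⊢
      have := dist_triangle v w y
      linarith)
    (fun x w => T w * q x) (fun x w => |T w| * (1 + |q x|))
    (fun x w => 2 * (z ^ 2 * A ^ 2) * |T w| * nb y (3 * r) x) B
    (A / c * (1 + z * (Fintype.card I : ℝ) * A) +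
      2 * (z ^ 2 * A ^ 2) * (A / c) * (Fintype.card I : ℝ))
    (by
      exact (hTc.measurable.comp measurable_snd).mul (hqc.measurable.comp measurable_fst))
    (by
      exact ((hTc.measurable.comp measurable_snd).abs).mul
        (measurable_const.add ((hqc.measurable.comp measurable_fst).abs)))
    (by
      exact (measurable_const.mul ((hTc.measurable.comp measurable_snd).abs)).mul
        ((fluct_nb_meas y (3 * r)).comp measurable_fst))
    (fun x w _ => by
      have h1 := hTM w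
      have h2 := hqb x
      have h3 := fluct_nb_le y (3 * r) x
      have h4 := fluct_nb_nonneg y (3 * r) x
      have e1 : |T w| * (1 + |q x|) ≤ A / c * (1 + z * (Fintype.card I : ℝ) * A) := by gcongr
      have e2 : 2 * (z ^ 2 * A ^ 2) * |T w| * nb y (3 * r) x ≤
        2 * (z ^ 2 * A ^ 2) * (A / c) * (Fintype.card I : ℝ) := by gcongr
      have e3 : 0 ≤ A / c * (1 + z * (Fintype.card I : ℝ) * A) := by positivity
      have e4 : 0 ≤ 2 * (z ^ 2 * A ^ 2) * (A / c) * (Fintype.card I : ℝ) := by positivity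
      exact ⟨by linarith, by linarith⟩)
    (fun w _ => by
      -- trial functions
      obtain ⟨a, ha⟩ : ∃ a : ℝ, a = √(|T w| / 2) := ⟨_, rfl⟩
      have ha0 : 0 ≤ a := by rw [ha]; exact Real.sqrt_nonneg _
      have ha2 : a ^ 2 = |T w| / 2 := by rw [ha, Real.sq_sqrt]; positivity
      obtain ⟨s, hs, hsT⟩ : ∃ s : ℝ, (s = 1 ∨ s = -1) ∧ |T w| * s = T w := by
        rcases le_total 0 (T w) with h | h
        · exact ⟨1, Or.inl rfl, by rw [abs_of_nonneg h, mul_one]⟩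
        · exact ⟨-1, Or.inr rfl, by rw [abs_of_nonpos h]; ring⟩
      have hs' : -s = 1 ∨ -s = -1 := by
        rcases hs with h | h
        · exact Or.inr (by rw [h])
        · exact Or.inl (by rw [h]; norm_num)
      have hcosh : ∀ x, Real.exp (s * Real.arsinh (fluct_q D sp t x)) +
          Real.exp (-s * Real.arsinh (fluct_q D sp t x)) = 2 * √(1 + q x ^ 2) := by
        intro x
        have h1 := Real.cosh_arsinh (q x)
        rw [Real.cosh_eq] at h1
        rw [← hq]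
        rcases hs with h | h <;> rw [h] <;> simp only [one_mul, neg_mul, neg_neg] <;> linarith
      have hsinh : ∀ x, Real.exp (s * Real.arsinh (fluct_q D sp t x)) -
          Real.exp (-s * Real.arsinh (fluct_q D sp t x)) = 2 * s * q x := by
        intro x
        have h1 := Real.sinh_arsinh (q x)
        rw [Real.sinh_eq] at h1
        rw [← hq]
        rcases hs with h | h <;> rw [h] <;> simp only [one_mul, neg_mul, neg_neg] <;> linarith
      have hbd : ∀ s' : ℝ, (s' = 1 ∨ s' = -1) → ∀ x, |fluct_f D sp t a s' x| ≤ B := by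
        intro s' hs1 x
        refine abs_le_of_sq_le_sq ?_ (by rw [hB]; exact Real.sqrt_nonneg _)
        rw [fluct_f_sq, hB2, ha2]
        have h1 := fluct_exp_le (fluct_q D sp t x) s' hs1
        have h2 := fluct_sqrt_le (fluct_q D sp t x)
        have h3 := hqb x
        rw [hq] at h3
        have h4 := hTM w
        calc |T w| / 2 * Real.exp (s' * Real.arsinh (fluct_q D sp t x))
            ≤ |T w| / 2 * (2 * (1 + |fluct_q D sp t x|)) := by
              refine mul_le_mul_of_nonneg_left (h1.trans ?_) (by positivity)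
              linarith
          _ = |T w| * (1 + |fluct_q D sp t x|) := by ring
          _ ≤ A / c * (1 + z * (Fintype.card I : ℝ) * A) := by gcongr
      refine ⟨fluct_f D sp t a s, fluct_f D sp t a (-s), fluct_f_cd D sp ht a s,
        fluct_f_cd D sp ht a (-s), fluct_f_sy D sp t a s, fluct_f_sy D sp t a (-s),
        hbd s hs, hbd (-s) hs', fun x => ?_, fun x => ?_, fun x => ?_⟩
      · rw [fluct_f_sq, fluct_f_sq, ← mul_sub, hsinh, ha2]
        linear_combination q x * hsT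
      · rw [fluct_f_sq, fluct_f_sq, ← mul_add, hcosh, ha2]
        have h2 := fluct_sqrt_le (q x)
        calc |T w| / 2 * (2 * √(1 + q x ^ 2)) = |T w| * √(1 + q x ^ 2) := by ring
          _ ≤ |T w| * (1 + |q x|) := mul_le_mul_of_nonneg_left h2 (abs_nonneg _)
      · have g1 := fluct_gr_f D sp ht a s hs hch hsupp hdt x
        have g2 := fluct_gr_f D sp ht a (-s) hs' hch hsupp hdt x
        rw [ha2] at g1 g2
        refine (add_le_add g1 g2).trans (le_of_eq ?_)
        ring)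
  -- the left side
  have hl : (fun x => ∫ w in Metric.closedBall y (3 * r), T w * q x * (phi D sp w x - pb x)) =
      fun x => q x ^ 2 := by
    funext x
    have e : ∀ w, T w * q x * (phi D sp w x - pb x) = q x * (T w * (phi D sp w x - pb x)) :=
      fun w => by ring
    simp_rw [e]
    rw [integral_const_mul, hrep2]
    ring
  rw [hl, fluct_vol y hr, ← hV, hB2] at hmain
  -- the right side
  obtain ⟨R, hR⟩ : ∃ R : (I → E3) → ℝ, R = fun x =>
      A / c * ((1 + |q x|) * (27 * r ^ 3 * V + c2 * (4 * r) * (1 + nb y (8 * r) x ^ ((2 : ℝ) / 3))) +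
      2 * (z ^ 2 * A ^ 2) * nb y (8 * r) x * (27 * r ^ 3 * V)) := ⟨_, rfl⟩
  obtain ⟨a, ha⟩ : ∃ a : ℝ, a = wm D (fun x => q x ^ 2) Ψ := ⟨_, rfl⟩
  obtain ⟨P, hP⟩ : ∃ P : ℝ, P = wm D (fun x => nb y (8 * r) x ^ ((4 : ℝ) / 3)) Ψ := ⟨_, rfl⟩
  have hP0 : 0 ≤ P := by
    rw [hP]
    exact fluct_wm_nonneg D Ψ fun x => Real.rpow_nonneg (fluct_nb_nonneg _ _ _) _
  have hnbm := fluct_nb_meas (I := I) y (8 * r)
  have hEE0 : ∀ x, ∀ w : E3, 0 ≤ |T w| * (1 + |q x|) *
      (|T w| * (1 + |q x|) / (A / c)) ^ ((1 : ℝ) / 4) := fun x w => by positivity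
  have hEE : ∀ x, ∀ w : E3, |T w| * (1 + |q x|) *
      (|T w| * (1 + |q x|) / (A / c)) ^ ((1 : ℝ) / 4) ≤ A / c * (1 + |q x|) ^ ((5 : ℝ) / 4) := by
    intro x w
    have h1 : |T w| * (1 + |q x|) / (A / c) ≤ 1 + |q x| := by
      rw [div_le_iff₀ (by positivity)]
      have := mul_le_mul_of_nonneg_right (hTM w) (by positivity : 0 ≤ 1 + |q x|)
      linarith
    have h2 : (|T w| * (1 + |q x|) / (A / c)) ^ ((1 : ℝ) / 4) ≤ (1 + |q x|) ^ ((1 : ℝ) / 4) :=
      Real.rpow_le_rpow (by positivity) h1 (by norm_num)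
    have h3 : (1 + |q x|) ^ ((5 : ℝ) / 4) = (1 + |q x|) * (1 + |q x|) ^ ((1 : ℝ) / 4) := by
      rw [show (5 : ℝ) / 4 = 1 + 1 / 4 by norm_num, Real.rpow_add (by positivity), Real.rpow_one]
    rw [h3, ← mul_assoc]
    have h4 := hTM w
    gcongr
  have hW1 : wm D (fun x => C / r ^ 2 * ∫ w in Metric.closedBall y (3 * r),
      (|T w| * (1 + |q x|) * (1 + near2 w x) + 2 * (z ^ 2 * A ^ 2) * |T w| * nb y (3 * r) x +
        |T w| * (1 + |q x|) * (|T w| * (1 + |q x|) / (A / c)) ^ ((1 : ℝ) / 4))) Ψ ≤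
      wm D (fun x => 5 / 8 * q x ^ 2 + ((K3 + K5) * (A ^ 3 / r ^ 4)) *
        (1 + nb y (8 * r) x ^ ((4 : ℝ) / 3))) Ψ := by
    refine fluct_wm_mono D sp ℓ Ψ hΨ (M := 5 / 8 * (z * (Fintype.card I : ℝ) * A) ^ 2 +
      ((K3 + K5) * (A ^ 3 / r ^ 4)) * (1 + (Fintype.card I : ℝ) ^ ((4 : ℝ) / 3))) ?_ ?_ ?_ ?_
    · intro x
      have := (fluctT_pt (fun x v R hR => hnear x v R hR) hTM (y := y) hr x (p := 1 + |q x|)
        (k := 2 * (z ^ 2 * A ^ 2)) (by positivity) (by positivity) (hEE0 x) (hEE x)).1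
      positivity
    · intro x
      have h1 := (fluctT_pt (fun x v R hR => hnear x v R hR) hTM (y := y) hr x (p := 1 + |q x|)
        (k := 2 * (z ^ 2 * A ^ 2)) (by positivity) (by positivity) (hEE0 x) (hEE x)).2
      rw [← hV] at h1
      have h2 : C / r ^ 2 * (∫ w in Metric.closedBall y (3 * r),
        (|T w| * (1 + |q x|) * (1 + near2 w x) + 2 * (z ^ 2 * A ^ 2) * |T w| * nb y (3 * r) x +
        |T w| * (1 + |q x|) * (|T w| * (1 + |q x|) / (A / c)) ^ ((1 : ℝ) / 4))) ≤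
          C / r ^ 2 * (A / c * ((1 + |q x|) * (27 * r ^ 3 * V + c2 * (4 * r) *
            (1 + nb y (8 * r) x ^ ((2 : ℝ) / 3))) +
            2 * (z ^ 2 * A ^ 2) * nb y (8 * r) x * (27 * r ^ 3 * V)) +
            A / c * (1 + |q x|) ^ ((5 : ℝ) / 4) * (27 * r ^ 3 * V)) :=
        mul_le_mul_of_nonneg_left h1 (by positivity)
      refine h2.trans ?_
      have g1 := fluct_alg (q := q x) (z := z) hC hc hA hr hr1 hV0 hc2 hL rfl
        (fluct_nb_nonneg y (8 * r) x) (fluct_nb_le_pow y (8 * r) x)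
      rw [← hK3] at g1
      have g2 := fluctT_alg (q := q x) hC hc hA hr hr1 hV0
      rw [← hK5] at g2
      have h1 : 0 ≤ nb y (8 * r) x ^ ((4 : ℝ) / 3) := Real.rpow_nonneg (fluct_nb_nonneg _ _ _) _
      have g3 : 0 ≤ K5 * (A ^ 3 / r ^ 4) * nb y (8 * r) x ^ ((4 : ℝ) / 3) := by positivity
      rw [mul_add (C / r ^ 2)]
      calc _ ≤ _ := add_le_add g1 g2
        _ ≤ _ := by
          have e : (5 / 8 * q x ^ 2 + ((K3 + K5) * (A ^ 3 / r ^ 4)) *
              (1 + nb y (8 * r) x ^ ((4 : ℝ) / 3))) = 1 / 2 * q x ^ 2 + K3 * (A ^ 3 / r ^ 4) *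
              (1 + nb y (8 * r) x ^ ((4 : ℝ) / 3)) + (1 / 8 * q x ^ 2 + K5 * (A ^ 3 / r ^ 4)) +
              K5 * (A ^ 3 / r ^ 4) * nb y (8 * r) x ^ ((4 : ℝ) / 3) := by ring
          rw [e]
          linarith
    · exact ((hqc.measurable.pow_const 2).const_mul _).add
        (((hnbm.pow_const _).const_add 1).const_mul _)
    · intro x
      have h1 : 0 ≤ nb y (8 * r) x ^ ((4 : ℝ) / 3) := Real.rpow_nonneg (fluct_nb_nonneg _ _ _) _
      have h2 : nb y (8 * r) x ^ ((4 : ℝ) / 3) ≤ (Fintype.card I : ℝ) ^ ((4 : ℝ) / 3) :=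
        Real.rpow_le_rpow (fluct_nb_nonneg _ _ _) (fluct_nb_le _ _ _) (by norm_num)
      have h3 : q x ^ 2 ≤ (z * (Fintype.card I : ℝ) * A) ^ 2 := by
        rw [← sq_abs]
        have := hqb x
        gcongr
      rw [abs_of_nonneg (by positivity)]
      gcongr
  have hlin := fluct_wm_lin D sp ℓ Ψ hΨ hn (W1 := fun x => q x ^ 2)
    (W2 := fun x => nb y (8 * r) x ^ ((4 : ℝ) / 3)) (hqc.measurable.pow_const 2)
    (hnbm.pow_const _) (M1 := (z * (Fintype.card I : ℝ) * A) ^ 2)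
    (M2 := (Fintype.card I : ℝ) ^ ((4 : ℝ) / 3))
    (fun x => by
      rw [abs_of_nonneg (sq_nonneg _), ← sq_abs]
      have := hqb x
      gcongr)
    (fun x => by
      rw [abs_of_nonneg (Real.rpow_nonneg (fluct_nb_nonneg _ _ _) _)]
      exact Real.rpow_le_rpow (fluct_nb_nonneg _ _ _) (fluct_nb_le _ _ _) (by norm_num))
    (5 / 8) ((K3 + K5) * (A ^ 3 / r ^ 4))
  have hcm : wm D (fun x => C / r ^ 2 * ∫ w in Metric.closedBall y (3 * r),
      (|T w| * (1 + |q x|) * (1 + near2 w x) + 2 * (z ^ 2 * A ^ 2) * |T w| * nb y (3 * r) x +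
        |T w| * (1 + |q x|) * (|T w| * (1 + |q x|) / (A / c)) ^ ((1 : ℝ) / 4))) Ψ =
      C / r ^ 2 * wm D (fun x => ∫ w in Metric.closedBall y (3 * r),
      (|T w| * (1 + |q x|) * (1 + near2 w x) + 2 * (z ^ 2 * A ^ 2) * |T w| * nb y (3 * r) x +
        |T w| * (1 + |q x|) * (|T w| * (1 + |q x|) / (A / c)) ^ ((1 : ℝ) / 4))) Ψ := by
    unfold wm
    rw [Finset.mul_sum]
    refine Finset.sum_congr rfl fun τ _ => ?_
    rw [← integral_const_mul]
    refine integral_congr_ae (Filter.Eventually.of_forall fun x => ?_)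
    simp only
    ring
  have hlast2 := fluctT_alg2 hC hc hA hr hr1 hV0
  rw [← hK6] at hlast2
  have hsplit : C / r ^ 2 * (2 * (A / c + A / c * (1 + z * (Fintype.card I : ℝ) * A) * η) *
      (27 * r ^ 3 * V)) = C / r ^ 2 * (2 * (A / c) * (27 * r ^ 3 * V)) +
      C / r ^ 2 * (2 * (A / c * (1 + z * (Fintype.card I : ℝ) * A)) * η * (27 * r ^ 3 * V)) := by
    ring
  have hlast := fluct_alg2 (N := (Fintype.card I : ℝ)) hC hz hc hA hr hr1 hV0 (Nat.cast_nonneg _)
    hη hη1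
  have hle := (le_abs_self _).trans hmain
  have hgoal : (fun x => (∑ i, D.charge (sp i) * t (x i)) ^ 2) = fun x => q x ^ 2 := by
    funext x
    rw [hq]
    rfl
  rw [hgoal, ← ha, ← hP]
  rw [mul_add, ← hcm, ← ha] at hle
  rw [hlin, ← ha, ← hP] at hW1
  rw [← hK4] at hlast
  have hAr : 0 < A ^ 3 / r ^ 4 := by positivity
  rw [hsplit] at hle
  obtain ⟨Q, hQ⟩ : ∃ Q : ℝ, Q = A ^ 3 / r ^ 4 := ⟨_, rfl⟩
  rw [← hQ] at hW1 hlast hlast2 hAr
  have e1 : a ≤ 5 / 8 * a + (K3 + K5) * Q * (1 + P) + K4 * Q + K6 * Q := by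
    linarith
  have e2 : K4 * Q ≤ K4 * Q * (1 + P) := by
    have : 0 ≤ K4 * Q := by positivity
    nlinarith
  have e2' : K6 * Q ≤ K6 * Q * (1 + P) := by
    have : 0 ≤ K6 * Q := by positivity
    nlinarith
  have e0 : 0 ≤ (K3 + K5 + K4 + K6) * Q * (1 + P) := by positivity
  have e3 : a ≤ 3 * ((K3 + K5 + K4 + K6) * Q * (1 + P)) := by linarith
  have e4 : 0 ≤ Q * (1 + P) := by positivity
  calc a ≤ 3 * ((K3 + K5 + K4 + K6) * Q * (1 + P)) := e3
    _ ≤ 3 * ((K3 + K5 + K4 + K6) * Q * (1 + P)) + Q * (1 + P) := by linarith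
    _ = (3 * (K3 + K5 + K4 + K6) + 1) * A ^ 3 / r ^ 4 * (1 + P) := by rw [hQ]; ring

end Run7.h213.P.K.RG7
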