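import Pool.Agent.Helper780_CP.RQ10
import Pool.Agent.Run7.h213.P.KLLDefs2
import Pool.Agent.Run7.h213.P.KRQ9
import Pool.Agent.Run7.h213.P.CBase

set_option autoImplicit false

open MeasureTheory

namespace Run7.h213.P.K.RQ10

open Pool.Agent.Helper985.CP hiding IsState Ortho QQ31988 QQ_ins0_31988 QQ_mul31988 QQ_perm31988 QQ_sum31988 cube energy idjT_act idjT_compact idjT_smooth idj_W0_act idj_W0_bound idj_W0_smooth idj_int idj_sum ims_state ins0_num ins0_swap31988 ins_disj ins_state int_state kin kinE nrm2_pos pe pe_symm peierls psl_deriv psl_nrm psl_slice psl_state psl_weight pw_parseval pwaux_parseval q985_point rb833_X rb833_state rbX rb_act_X rb_bessel rb_bessel0 rb_ip_X rb_ip_XX rb_ip_XX_meas rb_ip_XX_one rb_ip_XX_vol rb_ip_swap rb_nice_X rb_nice_state relabel_num relabel_state relaux_kin remove_none_aux row_bound slice_basic slice_energy slice_state sm_ins0_31988 sphK sph_K sph_energy sph_isState sph_kin sph_sum spin_ins0_31988 stable_any state_comb sum_pe_half term_A31988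 term_B31988 term_swap31988
open Pool.Agent.Helper780_CP hiding WI WI_add WI_const WI_coul WI_mul WI_near2 WI_one WI_pair WI_phi WI_smul WI_sum WI_wW WI_zero cost_avg icb kb klc ms_qf mulW_state multiC phb qf qf_int qf_one qf_split qf_wa rest_lower vb wm_add wm_mono wm_sum wm_tendsto near2_nonneg
open Pool.Agent.Helper780_CP.RQ10 hiding prod_int swap_bound swap_int

variable [Env]

open Run7.h213.P.K
open Pool.Agent.Helper780_CP.RTCI (tci)
open Pool.Agent.Helper780_CP.RC3 (near2_ball)
open Pool.Agent.Helper780_CP.RK1 (newt)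
open Pool.Agent.Helper780_CP.RQ9 (fluct)
open Pool.Agent.Helper780_CP.RK4 (kern_b)


section
variable {I : Type} [Fintype I] [DecidableEq I]


end

section
variable {S : Type} {D : Species S} {I : Type} [Fintype I] [DecidableEq I]


theorem WI.of_cont {sp : I → S} {ℓ : ℝ} {Ψ : Wave D I} (hΨ : IsState D sp ℓ Ψ)
    {W : (I → E3) → ℝ} (hW : Continuous W) : Pool.Agent.Helper780_CP.RQ10.WI W Ψ := by
  intro τ
  have hcont : Continuous (Ψ τ) := (hΨ.smooth τ).continuous
  have hsq : Continuous (fun x => ‖Ψ τ x‖ ^ 2) := (hcont.norm).pow 2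
  have hsqc : HasCompactSupport (fun x => ‖Ψ τ x‖ ^ 2) :=
    (hΨ.compact τ).comp_left (g := fun z : ℂ => ‖z‖ ^ 2) (by simp)
  exact (hW.mul hsq).integrable_of_hasCompactSupport (hsqc.mul_left)

theorem WI.of_bdd {sp : I → S} {ℓ : ℝ} {Ψ : Wave D I} (hΨ : IsState D sp ℓ Ψ)
    {W : (I → E3) → ℝ} (hW : Measurable W) (M : ℝ) (hM : ∀ x, |W x| ≤ M) : Pool.Agent.Helper780_CP.RQ10.WI W Ψ := by
  intro τ
  have h := WI.of_cont hΨ (W := fun _ => 1) continuous_const τ
  simp only [one_mul] at h
  exact h.bdd_mul (c := M) hW.aestronglyMeasurable (Filter.Eventually.of_forall fun x => hM x)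


end

section
variable {I : Type} [Fintype I]


end


theorem prod_int {S : Type} {D : Species S} {I : Type} [Fintype I] [DecidableEq I] {sp : I → S}
    {ℓ : ℝ} {Ψ : Wave D I} (hΨ : IsState D sp ℓ Ψ) (H : (I → E3) → E3 → ℝ)
    (hH : Continuous (fun p : (I → E3) × E3 => H p.1 p.2)) (y : E3) (R : ℝ)
    (h0 : ∀ x u, R < ‖u - y‖ → H x u = 0) (τ : I → Fin D.g) :
    Integrable (fun p : (I → E3) × E3 => H p.1 p.2 * ‖Ψ τ p.1‖ ^ 2)
      ((volume : Measure (I → E3)).prod (volume : Measure E3)) := by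
  have hcont : Continuous (fun p : (I → E3) × E3 => H p.1 p.2 * ‖Ψ τ p.1‖ ^ 2) := by
    have h1 : Continuous (Ψ τ) := (hΨ.smooth τ).continuous
    exact hH.mul ((h1.comp continuous_fst).norm.pow 2)
  refine hcont.integrable_of_hasCompactSupport ?_
  apply HasCompactSupport.of_support_subset_isCompact
    ((hΨ.compact τ).isCompact.prod (isCompact_closedBall y R))
  intro p hp
  rw [Function.mem_support] at hp
  refine ⟨?_, ?_⟩
  · apply subset_tsupport
    intro h
    apply hp
    rw [h]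
    simp
  · rw [Metric.mem_closedBall, dist_eq_norm]
    by_contra hh
    apply hp
    rw [h0 p.1 p.2 (not_le.1 hh), zero_mul]

theorem swap_int {S : Type} {D : Species S} {I : Type} [Fintype I] [DecidableEq I] {sp : I → S}
    {ℓ : ℝ} {Ψ : Wave D I} (hΨ : IsState D sp ℓ Ψ) (H : (I → E3) → E3 → ℝ)
    (hH : Continuous (fun p : (I → E3) × E3 => H p.1 p.2)) (y : E3) (R : ℝ)
    (h0 : ∀ x u, R < ‖u - y‖ → H x u = 0) :
    wm D (fun x => ∫ u, H x u) Ψ = ∫ u, wm D (fun x => H x u) Ψ := by
  unfold wm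
  rw [integral_finsetSum]
  · refine Finset.sum_congr rfl fun τ _ => ?_
    have h1 : ∀ x, (∫ u, H x u) * ‖Ψ τ x‖ ^ 2 = ∫ u, H x u * ‖Ψ τ x‖ ^ 2 := by
      intro x
      rw [integral_mul_const]
    simp only [h1]
    exact integral_integral_swap (f := fun x u => H x u * ‖Ψ τ x‖ ^ 2)
      (prod_int hΨ H hH y R h0 τ)
  · intro τ _
    exact (prod_int hΨ H hH y R h0 τ).integral_prod_right

theorem swap_bound {S : Type} {D : Species S} {I : Type} [Fintype I] [DecidableEq I] {sp : I → S}
    {ℓ : ℝ} {Ψ : Wave D I} (hΨ : IsState D sp ℓ Ψ) (H : (I → E3) → E3 → ℝ)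
    (hH : Continuous (fun p : (I → E3) × E3 => H p.1 p.2)) (y : E3) (R : ℝ) (hR : R ≤ 3)
    (h0 : ∀ x u, R < ‖u - y‖ → H x u = 0) (B : ℝ) (hB0 : 0 ≤ B)
    (hB : ∀ u, ‖u - y‖ ≤ R → |wm D (fun x => H x u) Ψ| ≤ B) :
    |wm D (fun x => ∫ u, H x u) Ψ| ≤ B * (volume (Metric.closedBall (0 : E3) 3)).toReal := by
  rw [swap_int hΨ H hH y R h0]
  have h1 : ∫ u in Metric.closedBall y R, wm D (fun x => H x u) Ψ =
      ∫ u, wm D (fun x => H x u) Ψ := by
    apply setIntegral_eq_integral_of_forall_compl_eq_zero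
    intro u hu
    rw [Metric.mem_closedBall, dist_eq_norm, not_le] at hu
    have : (fun x => H x u) = fun _ => 0 := by
      funext x
      exact h0 x u hu
    rw [this, wm_const, zero_mul]
  rw [← h1, ← Real.norm_eq_abs]
  refine (norm_setIntegral_le_of_norm_le_const (C := B) measure_closedBall_lt_top ?_).trans ?_
  · intro u hu
    rw [Metric.mem_closedBall, dist_eq_norm] at hu
    exact hB u hu
  · refine mul_le_mul_of_nonneg_left ?_ hB0
    have h2 : volume (Metric.closedBall y R) ≤ volume (Metric.closedBall (0 : E3) 3) := by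
      rw [Measure.addHaar_closedBall_center]
      exact measure_mono (Metric.closedBall_subset_closedBall hR)
    exact ENNReal.toReal_mono measure_closedBall_lt_top.ne h2


end Run7.h213.P.K.RQ10
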