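import Pool.Agent.Helper780_CP.RQ11
import Pool.Agent.Run7.h213.P.KLLDefs2
import Pool.Agent.Run7.h213.P.CBase

set_option autoImplicit false

open MeasureTheory

namespace Run7.h213.P.K.RQ11

open Pool.Agent.Helper985.CP hiding IsState Ortho QQ31988 QQ_ins0_31988 QQ_mul31988 QQ_perm31988 QQ_sum31988 cube energy idjT_act idjT_compact idjT_smooth idj_W0_act idj_W0_bound idj_W0_smooth idj_int idj_sum ims_state ins0_num ins0_swap31988 ins_disj ins_state int_state kin kinE nrm2_pos pe pe_symm peierls psl_deriv psl_nrm psl_slice psl_state psl_weight pw_parseval pwaux_parseval q985_point rb833_X rb833_state rbX rb_act_X rb_bessel rb_bessel0 rb_ip_X rb_ip_XX rb_ip_XX_meas rb_ip_XX_one rb_ip_XX_vol rb_ip_swap rb_nice_X rb_nice_state relabel_num relabel_state relaux_kin remove_none_aux row_bound slice_basic slice_energy slice_state sm_ins0_31988 sphK sph_K sph_energy sph_isState sph_kin sph_sum spin_ins0_31988 stable_any state_comb sum_pe_half term_A31988 term_B31988 term_swap31988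
open Pool.Agent.Helper780_CP hiding WI WI_add WI_const WI_coul WI_mul WI_near2 WI_one WI_pair WI_phi WI_smul WI_sum WI_wW WI_zero cost_avg icb kb klc ms_qf mulW_state multiC phb qf qf_int qf_one qf_split qf_wa rest_lower vb wm_add wm_mono wm_sum wm_tendsto near2_nonneg
open Pool.Agent.Helper780_CP.RQ11 hiding bdd_int

variable [Env]

open Run7.h213.P.K
open Pool.Agent.Helper780_CP.RTCI (tci)
open Pool.Agent.Helper780_CP.RC3 (near2_ball)
open Pool.Agent.Helper780_CP.RK1 (newt)
open Pool.Agent.Helper780_CP.RK3 (kern_e)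


section grad

variable {I : Type} [Fintype I] [DecidableEq I]


end grad

section loc

attribute [local irreducible] ct


variable {K z' r : ℝ} {k : ℕ} {y : E3} {P : E3 → E3 → ℝ}


end loc

section btsec

attribute [local irreducible] ct

variable {I : Type} [Fintype I] [DecidableEq I]


variable {K z' r : ℝ} {k : ℕ} {y : E3} {P : E3 → E3 → ℝ}


end btsec

section integrals

attribute [local irreducible] ct

variable {I : Type} [Fintype I]


variable {K z' r : ℝ} {k : ℕ} {y : E3} {P : E3 → E3 → ℝ}


end integrals

section pointwise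

attribute [local irreducible] ct

variable {I : Type} [Fintype I]


variable {K z' r : ℝ} {k : ℕ} {y : E3} {P : E3 → E3 → ℝ}


end pointwise

section fin

attribute [local irreducible] ct

variable {S : Type} (D : Species S) {I : Type} [Fintype I] [DecidableEq I]

theorem bdd_int {sp : I → S} {ℓ : ℝ} {Ψ : Wave D I} (hΨ : IsState D sp ℓ Ψ)
    (W : (I → E3) → ℝ) (hW : Measurable W) (M : ℝ) (hM : ∀ x, |W x| ≤ M) (τ : I → Fin D.g) :
    Integrable (fun x => W x * ‖Ψ τ x‖ ^ 2) :=
  Integrable.bdd_mul (c := M) (int_state D sp ℓ Ψ hΨ τ).1 hW.aestronglyMeasurable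
    (Filter.Eventually.of_forall fun x => by rw [Real.norm_eq_abs]; exact hM x)


end fin


end Run7.h213.P.K.RQ11
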