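import Pool.Agent.Helper780_CP.RG9
import Pool.Agent.Run7.h213.P.KLLDefs2
import Pool.Agent.Run7.h213.P.KTDefs
import Pool.Agent.Run7.h213.P.KRQ11
import Pool.Agent.Run7.h213.P.KRG6
import Pool.Agent.Run7.h213.P.CBase

set_option autoImplicit false
set_option maxHeartbeats 4000000

open MeasureTheory
open scoped Topology

namespace Run7.h213.P.K.RG9

open Pool.Agent.Helper985.CP hiding IsState MT_core MT_energy_smul MT_psl_lin MT_slice_int MT_state_smul MT_zero Ortho QQ31988 QQ_ins0_31988 QQ_mul31988 QQ_perm31988 QQ_sum31988 cube energy idjT_act idjT_compact idjT_smooth idj_W0_act idj_W0_bound idj_W0_smooth idj_int idj_sum ims_state ins0_num ins0_swap31988 insN_props insNp_energy insNp_kin insNp_state ins_disj ins_state int_state kin kinE moveT_any moveT_none nrm2_pos pe pe_symm peierls peierls_relabel prl_kin prl_sub psl_deriv psl_energy psl_energy_k psl_energy_kint psl_energy_vint psl_energy_w psl_nrm psl_slice psl_state psl_weight pw_parseval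 pwaux_parseval q985_point rb833_X rb833_state rbX rb_act_X rb_bessel rb_bessel0 rb_ip_X rb_ip_XX rb_ip_XX_meas rb_ip_XX_one rb_ip_XX_vol rb_ip_swap rb_nice_X rb_nice_state relabel_num relabel_state relaux_kin remove_none_aux row_bound slice_basic slice_energy slice_state sm_ins0_31988 sphK sph_K sph_energy sph_isState sph_kin sph_sum spin_ins0_31988 stable_any state_comb sum_pe_half term_A31988 term_B31988 term_swap31988 trace_bound trace_bound_dens
open Pool.Agent.Helper780_CP hiding FLT MM NE WI WI_add WI_const WI_coul WI_mul WI_near2 WI_one WI_pair WI_phi WI_smul WI_sum WI_wW WI_zero cost_avg icb kb klc ms_qf mulW_nrm_le mulW_state multiC phb qf qf_int qf_one qf_split qf_wa rest_lower vb wm_add wm_mono wm_sum wm_tendsto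
open Pool.Agent.Helper780_CP.RG9 hiding scale_termT

variable [Env]

open Run7.h213.P.K
open Run7.h213.P.K.RG6 (tciT)

open Run7.h213.P.K

open Pool.Agent.Helper780_CP.RQ11 hiding bdd_int near2_nonneg wm_mono
open Run7.h213.P.K.RQ11
open Pool.Agent.Helper780_CP.RC3 (near2_ball)
open Pool.Agent.Helper780_CP.RK3 (kern_e)

section aux

attribute [local irreducible] ct

variable {I : Type} [Fintype I]


variable {K z' r : ℝ} {k : ℕ} {y : E3} {P : E3 → E3 → ℝ}


end aux

/-- TARGET -/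
theorem scale_termT (z C : ℝ) (hz : 0 ≤ z) (hC : 0 ≤ C) (l : E3 → ℝ) (hl : ContDiff ℝ SM l)
    (hl1 : ∀ w, 1 ≤ ‖w‖ → l w = 1 / ‖w‖) :
    ∃ (C' : ℝ) (m : ℕ), 0 < C' ∧
    ∀ {S : Type} (D : Species S) {I : Type} [Fintype I] [DecidableEq I] (sp : I → S) (ℓ : ℝ)
      (pb : (I → E3) → ℝ), Continuous pb → (∀ s, |D.charge s| ≤ z) →
      ∀ (η : ℝ), 0 ≤ η → ∀ Ψ : Wave D I, IsState D sp ℓ Ψ →
      nrm2 D Ψ = 1 → FLT D sp ℓ pb C η Ψ →
      ∀ (y : E3) (r : ℝ) (k : ℕ), 0 < r → r ≤ 1 → 1 ≤ 2 ^ k * r →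
        Metric.closedBall y (4 * r) ⊆ cube ℓ →
        |wm D (fun x => bt y r k x ^ 2 * ∑ i, ∑ j, D.charge (sp i) * D.charge (sp j) *
            ((cy y r (x i) - cy y r (x j)) ^ 2 / 2 * psi l k (x i - x j))) Ψ| ≤
          C' / r ^ m * (wm D (fun x => bt y r k x ^ 2 * ∑ i, (if ‖x i - y‖ < 6 * r then
              nk x k i ^ ((2 : ℝ) / 3) else 0)) Ψ +
            1 / 2 ^ k * wm D (fun x => 1 + nb y (8 * r) x) Ψ +
            (1 + (Fintype.card I : ℝ)) * 2 ^ k * η) := by
  obtain ⟨K, hK, hker⟩ := kern_e l hl hl1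
  obtain ⟨Cn, hCn0, hCn⟩ := near2_ball
  obtain ⟨L, hL0, hL⟩ := ct_deriv
  obtain ⟨Db, hDb0, hDb⟩ := bt_gr
  have hpi := Real.pi_pos
  have hv8 := v8_pos
  obtain ⟨z', hz'⟩ : ∃ z', z' = z + 1 := ⟨_, rfl⟩
  have hz'0 : 0 < z' := by linarith
  obtain ⟨a₀, ha₀⟩ : ∃ a₀, a₀ = 3 * (6 * z' * K * (v8 + 4 * Cn) +
      6 * (16 * L ^ 2 + 1) * z' * K * v8) + (2 + 6 * z' * K) ^ 2 * v8 := ⟨_, rfl⟩
  obtain ⟨b₀, hb₀⟩ : ∃ b₀, b₀ = 3 * (2 * (36 * Real.pi + 8 * Cn) + 144 * Real.pi * Db +
    12 * z' * K * Db * v8) := ⟨_, rfl⟩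
  obtain ⟨e₀, he₀⟩ : ∃ e₀, e₀ = 72 * Real.pi * (1 + 4 * z' * K) := ⟨_, rfl⟩
  obtain ⟨d₀, hd₀⟩ : ∃ d₀, d₀ = 72 * Real.pi := ⟨_, rfl⟩
  have ha₀' : 0 ≤ a₀ := by rw [ha₀]; positivity
  have hb₀' : 0 ≤ b₀ := by rw [hb₀]; positivity
  have he₀' : 0 ≤ e₀ := by rw [he₀]; positivity
  have hd₀' : 0 ≤ d₀ := by rw [hd₀]; positivity
  refine ⟨C * (a₀ + b₀ + e₀ + d₀) + 1, 8, by positivity, ?_⟩
  intro S D I _ _ sp ℓ pb hpb hch η hη Ψ hΨ hn hFL y r k hr hr1 hkr hball
  obtain ⟨P, hP1, hP2, hP3, hP4, hP5, hP6⟩ := hker y r k hr hr1 hkr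
  have h : KP K z' r k y P := ⟨hP1, hP2, hP3, hP4, hK, hz'0, hr, hr1, hkr⟩
  have hA := h.AK_pos
  have hc : ∀ i, |D.charge (sp i)| ≤ z' := fun i => (hch _).trans (by linarith)
  have hc0 : ∀ i : I, |(0 : ℝ)| ≤ z' := fun i => by simpa using hz'0.le
  have h2k : (1 : ℝ) ≤ 2 ^ k := one_le_pow₀ (by norm_num)
  have hlam : (0 : ℝ) < 1 / 2 ^ k := by positivity
  set N : ℝ := (Fintype.card I : ℝ) with hN
  have hN0 : 0 ≤ N := Nat.cast_nonneg _
  have hDb' : ∀ x : I → E3, gr (bt y r k) x ≤ Db / (2 ^ k * r ^ 4) := fun x => hDb y r k x hr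
  have key := tciT D sp ℓ pb hpb C η hC hη Ψ hΨ hn hFL (1 / 2 ^ k) hlam r hr hr1
    (Metric.closedBall y (3 * r)) measurableSet_closedBall ?_ ?_
    (fun x ω => bt y r k x ^ 2 * ∑ i, D.charge (sp i) * P (x i) ω)
    (GG K z' r k y) (GG' K z' r Db L k y) (Real.sqrt (1 + 2 * AK K z' r k * N))
    (max (2 / 2 ^ k + 3 * AK K z' r k * N)
      (4 * (1 / 2 ^ k + 3 / 2 * (AK K z' r k * N)) * (Db / (2 ^ k * r ^ 4)) +
      3 * (16 * L ^ 2 + 1) * (AK K z' r k) * 4 ^ k * N)) ?_ ?_ ?_ ?_ ?_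
  rotate_left
  · refine ⟨‖y‖ + 3 * r, fun w hw => ?_⟩
    rw [mem_closedBall_iff_norm] at hw
    rw [mem_closedBall_zero_iff]
    have : w = y + (w - y) := by abel
    rw [this]
    exact (norm_add_le _ _).trans (by linarith)
  · intro ω hω
    refine subset_trans ?_ hball
    refine Metric.closedBall_subset_closedBall' ?_
    have := Metric.mem_closedBall.1 hω
    linarith
  · have hcont : Continuous (fun p : (I → E3) × E3 =>
        bt y r k p.1 ^ 2 * ∑ i, D.charge (sp i) * P (p.1 i) p.2) := by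
      refine (((bt_smooth y r k).continuous.comp continuous_fst).pow 2).mul ?_
      refine continuous_finsetSum _ fun i _ => continuous_const.mul ?_
      have hPc : Continuous (fun p : E3 × E3 => P p.1 p.2) := h.smooth.continuous
      have hq : Continuous (fun p : (I → E3) × E3 => (p.1 i, p.2)) :=
        ((continuous_apply i).comp continuous_fst).prodMk continuous_snd
      exact hPc.comp hq
    exact hcont.measurable
  · unfold GG
    exact (((bt_meas y r k).comp measurable_fst).pow_const 2).mul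
      (((n2_meas k).const_mul _).const_add _)
  · unfold GG'
    refine Measurable.add ?_ ?_
    · exact (((((n2_meas k).const_mul _).const_mul _).const_add _).const_mul _).mul_const _
    · exact ((((bt_meas y r k).comp measurable_fst).pow_const 2).mul (n2_meas k)).const_mul _
  · intro x ω _
    have a1 := n2_le k ω x
    have a2 := n2_nonneg k ω x
    have a3 := bt_sq_le y r k x
    have a4 : 0 ≤ bt y r k x ^ 2 := sq_nonneg _
    constructor
    · refine le_trans ?_ (le_max_left _ _)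
      unfold GG
      calc _ ≤ 1 * (2 / 2 ^ k + 3 * AK K z' r k * n2 k ω x) := by gcongr
        _ ≤ _ := by rw [one_mul]; gcongr
    · refine le_trans ?_ (le_max_right _ _)
      unfold GG'
      have a5 : bt y r k x ^ 2 * n2 k ω x ≤ N := by
        calc _ ≤ 1 * n2 k ω x := by gcongr
          _ ≤ N := by rw [one_mul]; exact a1
      gcongr
  · intro ω _
    refine ⟨fF K z' r k y P (fun i => D.charge (sp i)) ω, fF K z' r k y P (fun _ => 0) ω,
      fF_smooth h hc ω, fF_smooth h hc0 ω,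
      fF_sy sp _ (fun i j hij => by simp only [hij]) ω, fF_sy sp _ (fun _ _ _ => rfl) ω,
      fF_bd h hc ω, fF_bd h hc0 ω, ?_, ?_, ?_⟩
    · intro x
      rw [fF_sq h hc, fF_sq h hc0, ← mul_sub]
      congr 1
      unfold gg
      rw [Finset.sum_add_distrib, Finset.sum_add_distrib]
      simp only [zero_mul, Finset.sum_const_zero]
      ring
    · intro x
      rw [fF_sq h hc, fF_sq h hc0, ← mul_add]
      unfold GG
      apply mul_le_mul_of_nonneg_left _ (sq_nonneg _)
      have b1 := sumgg_le h hc ω x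
      have b2 := sumgg_le h hc0 ω x
      have b3 : (2 : ℝ) / 2 ^ k = 1 / 2 ^ k + 1 / 2 ^ k := by ring
      rw [b3]
      linarith
    · intro x
      have b1 := fF_gr h hL hDb' hDb0 hc ω x
      have b2 := fF_gr h hL hDb' hDb0 hc0 ω x
      refine (add_le_add b1 b2).trans (le_of_eq ?_)
      unfold GG'
      ring
  · -- assembly
    have hid : (fun x => bt y r k x ^ 2 * ∑ i, ∑ j, D.charge (sp i) * D.charge (sp j) *
            ((cy y r (x i) - cy y r (x j)) ^ 2 / 2 * psi l k (x i - x j))) =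
        (fun x : I → E3 => ∫ ω in Metric.closedBall y (3 * r),
          (bt y r k x ^ 2 * ∑ i, D.charge (sp i) * P (x i) ω) * (phi D sp ω x - pb x)) := by
      funext x
      exact ident D sp l h hP5 hP6 (bt y r k x ^ 2) (pb x) x
    rw [hid]
    refine key.trans ?_
    set T1 : (I → E3) → ℝ := fun x => bt y r k x ^ 2 * S1 y r k x with hT1
    set T2 : (I → E3) → ℝ := fun x => 1 + nb y (8 * r) x with hT2
    have hT1' : (fun x : I → E3 => bt y r k x ^ 2 * ∑ i, (if ‖x i - y‖ < 6 * r then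
              nk x k i ^ ((2 : ℝ) / 3) else 0)) = T1 := rfl
    rw [hT1']
    have m1 : Measurable T1 := ((bt_meas y r k).pow_const 2).mul (S1_meas y r k)
    have m2 : Measurable T2 := (nb_meas y (8 * r)).const_add 1
    have n1 : ∀ x, 0 ≤ T1 x := fun x => mul_nonneg (sq_nonneg _) (S1_nonneg y r k x)
    have n2' : ∀ x, 0 ≤ T2 x := fun x => by
      have := nb_nonneg y (8 * r) x
      show 0 ≤ 1 + nb y (8 * r) x
      linarith
    have q1 : ∀ x, |T1 x| ≤ N * N ^ ((2 : ℝ) / 3) := fun x => by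
      rw [abs_of_nonneg (n1 x)]
      have := S1_le y r k x
      have h3 := bt_sq_le y r k x
      have h4 := S1_nonneg y r k x
      calc bt y r k x ^ 2 * S1 y r k x ≤ 1 * S1 y r k x := by gcongr
        _ ≤ _ := by rw [one_mul]; exact this
    have q2 : ∀ x, |T2 x| ≤ 1 + N := fun x => by
      rw [abs_of_nonneg (n2' x)]
      have := nb_le y (8 * r) x
      show 1 + nb y (8 * r) x ≤ 1 + N
      linarith
    have i1 := bdd_int D hΨ T1 m1 _ q1
    have i2 := bdd_int D hΨ T2 m2 _ q2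
    have w1 : wm D (fun x => ∫ ω in Metric.closedBall y (3 * r),
        (GG K z' r k y x ω * (1 + near2 ω x) + GG' K z' r Db L k y x ω +
          GG K z' r k y x ω * (GG K z' r k y x ω / (1 / 2 ^ k)) ^ ((1 : ℝ) / 4))) Ψ ≤
        wm D (fun x => a₀ / r ^ 6 * T1 x + b₀ / r ^ 6 * (1 / 2 ^ k) * T2 x) Ψ := by
      refine RQ11.wm_mono D _ _ Ψ (fun x => integral_nonneg fun ω => ?_) (fun x => ?_) fun τ => ?_
      · have a1 := n2_nonneg k ω x
        have a2 := RQ11.near2_nonneg ω x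
        have a3 := GG_nonneg h x ω
        have a4 : 0 ≤ GG' K z' r Db L k y x ω := by unfold GG'; positivity
        show 0 ≤ GG K z' r k y x ω * (1 + near2 ω x) + GG' K z' r Db L k y x ω +
          GG K z' r k y x ω * (GG K z' r k y x ω / (1 / 2 ^ k)) ^ ((1 : ℝ) / 4)
        positivity
      · have := pointwiseT h hCn0 (fun x v R hR => (hCn x v R hR).2) (L := L) hDb0 x
        rw [ha₀, hb₀]
        exact this
      · have := ((i1 τ).const_mul (a₀ / r ^ 6)).add ((i2 τ).const_mul (b₀ / r ^ 6 * (1 / 2 ^ k)))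
        refine this.congr (Filter.Eventually.of_forall fun x => ?_)
        show a₀ / r ^ 6 * (T1 x * ‖Ψ τ x‖ ^ 2) + b₀ / r ^ 6 * (1 / 2 ^ k) * (T2 x * ‖Ψ τ x‖ ^ 2) =
          (a₀ / r ^ 6 * T1 x + b₀ / r ^ 6 * (1 / 2 ^ k) * T2 x) * ‖Ψ τ x‖ ^ 2
        ring
    rw [wm_lin D _ _ T1 T2 Ψ i1 i2] at w1
    have p1 := wm_nonneg D T1 Ψ n1
    have p2 := wm_nonneg D T2 Ψ n2'
    have p3 : 1 ≤ wm D T2 Ψ := by
      have c1 : wm D (fun _ => (1 : ℝ)) Ψ = 1 := by
        refine Eq.trans ?_ hn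
        unfold wm nrm2
        simp only [one_mul]
      rw [← c1]
      refine RQ11.wm_mono D _ _ Ψ (fun x => zero_le_one) (fun x => ?_) i2
      have := nb_nonneg y (8 * r) x
      show 1 ≤ 1 + nb y (8 * r) x
      linarith
    set U := wm D T1 Ψ
    set V := wm D T2 Ψ
    -- the last term
    have w2 : 2 * Real.sqrt (1 + 2 * AK K z' r k * N) ^ 2 * η *
        (volume (Metric.closedBall y (3 * r))).toReal ≤ e₀ / r ^ 6 * ((1 + N) * 2 ^ k * η) := by
      rw [Real.sq_sqrt (by positivity)]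
      have v1 := vol_A (y := y) hr hr1
      have v2 : 1 + 2 * AK K z' r k * N ≤ (1 + 4 * z' * K) / r ^ 2 * (2 ^ k * (1 + N)) := by
        have v3 : (1 : ℝ) ≤ 1 / r ^ 2 := by
          rw [le_div_iff₀ (by positivity), one_mul]
          exact pow_le_one₀ hr.le hr1
        have v4 : 1 + 2 * AK K z' r k * N = 1 + 4 * z' * K * (2 ^ k * N) * (1 / r ^ 2) := by
          unfold AK; ring
        have v5 : (1 + 4 * z' * K) / r ^ 2 * (2 ^ k * (1 + N)) =
            (1 / r ^ 2) * (2 ^ k * (1 + N)) + 4 * z' * K * (2 ^ k * (1 + N)) * (1 / r ^ 2) := by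
          ring
        rw [v4, v5]
        have v6 : 1 ≤ (1 / r ^ 2) * (2 ^ k * (1 + N)) := by
          have : (1 : ℝ) ≤ 2 ^ k * (1 + N) := by nlinarith
          nlinarith
        have v7 : 4 * z' * K * (2 ^ k * N) * (1 / r ^ 2) ≤
            4 * z' * K * (2 ^ k * (1 + N)) * (1 / r ^ 2) := by
          gcongr
          linarith
        linarith
      calc 2 * (1 + 2 * AK K z' r k * N) * η * (volume (Metric.closedBall y (3 * r))).toReal
          ≤ 2 * ((1 + 4 * z' * K) / r ^ 2 * (2 ^ k * (1 + N))) * η * (36 * Real.pi) := by gcongr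
        _ = e₀ / r ^ 2 * ((1 + N) * 2 ^ k * η) := by rw [he₀]; ring
        _ ≤ _ := by
            gcongr ?_ * _
            exact dm he₀' hr hr1 (by norm_num)
    have w3 : 2 * (1 / 2 ^ k) * (volume (Metric.closedBall y (3 * r))).toReal ≤
        d₀ / r ^ 6 * (1 / 2 ^ k * V) := by
      have v1 := vol_A (y := y) hr hr1
      calc 2 * (1 / 2 ^ k) * (volume (Metric.closedBall y (3 * r))).toReal
          ≤ 2 * (1 / 2 ^ k) * (36 * Real.pi) := by gcongr
        _ = d₀ / r ^ 0 * (1 / 2 ^ k * 1) := by rw [hd₀]; ring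
        _ ≤ d₀ / r ^ 0 * (1 / 2 ^ k * V) := by gcongr
        _ ≤ _ := by
            gcongr ?_ * _
            exact dm hd₀' hr hr1 (by norm_num)
    have w23 : 2 * (1 / 2 ^ k + Real.sqrt (1 + 2 * AK K z' r k * N) ^ 2 * η) *
        (volume (Metric.closedBall y (3 * r))).toReal ≤
        e₀ / r ^ 6 * ((1 + N) * 2 ^ k * η) + d₀ / r ^ 6 * (1 / 2 ^ k * V) := by
      have : 2 * (1 / 2 ^ k + Real.sqrt (1 + 2 * AK K z' r k * N) ^ 2 * η) *
        (volume (Metric.closedBall y (3 * r))).toReal =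
        2 * Real.sqrt (1 + 2 * AK K z' r k * N) ^ 2 * η *
        (volume (Metric.closedBall y (3 * r))).toReal +
        2 * (1 / 2 ^ k) * (volume (Metric.closedBall y (3 * r))).toReal := by ring
      rw [this]
      exact add_le_add w2 w3
    calc _ ≤ C / r ^ 2 * ((a₀ / r ^ 6 * U + b₀ / r ^ 6 * (1 / 2 ^ k) * V) +
          (e₀ / r ^ 6 * ((1 + N) * 2 ^ k * η) + d₀ / r ^ 6 * (1 / 2 ^ k * V))) := by
          apply mul_le_mul_of_nonneg_left (add_le_add w1 w23)
          positivity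
      _ = 1 / r ^ 8 * (C * (a₀ * U + b₀ * (1 / 2 ^ k * V) + e₀ * ((1 + N) * 2 ^ k * η) +
          d₀ * (1 / 2 ^ k * V))) := by
          field_simp
          ring
      _ ≤ 1 / r ^ 8 * ((C * (a₀ + b₀ + e₀ + d₀) + 1) *
          (U + 1 / 2 ^ k * V + (1 + N) * 2 ^ k * η)) := by
          apply mul_le_mul_of_nonneg_left _ (by positivity)
          have hV' : 0 ≤ 1 / 2 ^ k * V := by positivity
          have hE' : 0 ≤ (1 + N) * 2 ^ k * η := by positivity
          have g1 : a₀ * U + b₀ * (1 / 2 ^ k * V) + e₀ * ((1 + N) * 2 ^ k * η) +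
              d₀ * (1 / 2 ^ k * V) ≤
              (a₀ + b₀ + e₀ + d₀) * (U + 1 / 2 ^ k * V + (1 + N) * 2 ^ k * η) := by
            have : 0 ≤ a₀ * (1 / 2 ^ k * V + (1 + N) * 2 ^ k * η) +
                b₀ * (U + (1 + N) * 2 ^ k * η) + e₀ * (U + 1 / 2 ^ k * V) +
                d₀ * (U + (1 + N) * 2 ^ k * η) := by positivity
            linarith [this]
          have g2 := mul_le_mul_of_nonneg_left g1 hC
          have g3 : 0 ≤ U + 1 / 2 ^ k * V + (1 + N) * 2 ^ k * η := by positivity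
          linarith
      _ = _ := by ring

end Run7.h213.P.K.RG9
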