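import Pool.Agent.Helper780_CP.RH1
import Pool.Agent.Run7.h213.P.KLLDefs2
import Pool.Agent.Run7.h213.P.KLPDefs
import Pool.Agent.Run7.h213.P.TM_psl_weight
import Pool.Agent.Run7.h213.P.TM_psl_energy
import Pool.Agent.Run7.h213.P.TM_psl_nrm
import Pool.Agent.Run7.h213.P.CBase

set_option autoImplicit false

open MeasureTheory
open scoped Topology

namespace Run7.h213.P.K.RH1

open Pool.Agent.Helper985.CP hiding IsState MT_core MT_energy_smul MT_psl_lin MT_slice_int MT_state_smul MT_zero Ortho QQ31988 QQ_ins0_31988 QQ_mul31988 QQ_perm31988 QQ_sum31988 cube energy idjT_act idjT_compact idjT_smooth idj_W0_act idj_W0_bound idj_W0_smooth idj_int idj_sum ims_state ins0_num ins0_swap31988 insN_props insNp_energy insNp_kin insNp_state ins_disj ins_state int_state kin kinE moveT_any moveT_none nrm2_pos pe pe_symm peierls peierls_relabel prl_kin prl_sub psl_deriv psl_energy psl_energy_k psl_energy_kint psl_energy_vint psl_energy_w psl_nrm psl_slice psl_state psl_weight pw_parseval pwaux_parseval q985_point rb833_X rb833_state rbX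 rb_act_X rb_bessel rb_bessel0 rb_ip_X rb_ip_XX rb_ip_XX_meas rb_ip_XX_one rb_ip_XX_vol rb_ip_swap rb_nice_X rb_nice_state relabel_num relabel_state relaux_kin remove_none_aux row_bound slice_basic slice_energy slice_state sm_ins0_31988 sphK sph_K sph_energy sph_isState sph_kin sph_sum spin_ins0_31988 stable_any state_comb sum_pe_half term_A31988 term_B31988 term_swap31988 trace_bound trace_bound_dens
open Pool.Agent.Helper780_CP hiding FLT MM NE WI WI_add WI_const WI_coul WI_mul WI_near2 WI_one WI_pair WI_phi WI_smul WI_sum WI_wW WI_zero cost_avg icb kb kcy klc ms_qf mulW_nrm_le mulW_state multiC phb qf qf_int qf_one qf_split qf_wa rest_lower vb wm_add wm_mono wm_sum wm_tendsto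
open Pool.Agent.Helper780_CP.RH1 hiding lp_facts

variable [Env]

open Run7.h213.P.K

open Run7.h213.P.K


/-- TARGET -/
theorem lp_facts {S : Type} [DecidableEq S] (D : Species S) (hD : D.Valid) :
    ∃ C : ℝ, 0 < C ∧ ∀ {I : Type} [Fintype I] [DecidableEq I] (sp : Option I → S) (ℓ : ℝ) (y : E3)
      (r : ℝ), 0 < r → r ≤ 1 → ∀ Φ : Wave D (Option I), IsState D sp ℓ Φ →
      (∀ m σ, IsState D (fun i => sp (some i)) ℓ (psl D (lpw y r m) σ Φ)) ∧
      (∀ W : (I → E3) → ℝ, Measurable W →
        (∀ τ, Integrable (fun x : Option I → E3 => W (fun i => x (some i)) * ‖Φ τ x‖ ^ 2)) →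
        HasSum (fun m => ∑ σ, wm D W (psl D (lpw y r m) σ Φ))
          (wm D (fun x => cy y r (x none) ^ 2 * W (fun i => x (some i))) Φ)) ∧
      HasSum (fun m => ∑ σ, energy D (fun i => sp (some i)) (psl D (lpw y r m) σ Φ))
        ((∑ τ, ∫ x, ∑ i, cy y r (x none) ^ 2 * kin D sp (some i) (Φ τ) x) +
          wm D (fun x => cy y r (x none) ^ 2 *
            coul D (fun i => sp (some i)) (fun i => x (some i))) Φ) ∧
      ∃ P : ℝ, HasSum (fun m => pen 8 m * ∑ σ, nrm2 D (psl D (lpw y r m) σ Φ)) P ∧
        P ≤ 4 * D.mass (sp none) * (∑ τ, ∫ x, cy y r (x none) ^ 2 * kin D sp none (Φ τ) x) +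
          C / r ^ 2 * wm D (fun x => if ‖x none - y‖ ≤ 2 * r then 1 else 0) Φ := by
  obtain ⟨K, hK0, hK⟩ := ct_bd
  refine ⟨6 * K ^ 2 + 1, by positivity, ?_⟩
  intro I _ _ sp ℓ y r hr hr1 Φ hΦ
  have hsm : ∀ T, ContDiff ℝ SM (Φ T) := hΦ.smooth
  have hcp : ∀ T, HasCompactSupport (Φ T) := hΦ.compact
  have hst : ∀ m σ, IsState D (fun i => sp (some i)) ℓ (psl D (lpw y r m) σ Φ) :=
    fun m σ => psl_state D sp ℓ Φ hΦ _ (lpw_cont y r m) σ
  have hwt : ∀ W : (I → E3) → ℝ, Measurable W →
        (∀ τ, Integrable (fun x : Option I → E3 => W (fun i => x (some i)) * ‖Φ τ x‖ ^ 2)) →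
        HasSum (fun m => ∑ σ, wm D W (psl D (lpw y r m) σ Φ))
          (wm D (fun x => cy y r (x none) ^ 2 * W (fun i => x (some i))) Φ) := by
    intro W hWm hW
    have e : wm D (fun x => cy y r (x none) ^ 2 * W (fun i => x (some i))) Φ =
        ∑ T, ∫ x : Option I → E3, cy y r (x none) ^ 2 *
          (W (fun i => x (some i)) * ‖Φ T x‖ ^ 2) := by
      unfold wm
      refine Finset.sum_congr rfl fun T _ => ?_
      congr 1
      funext x
      ring
    rw [e, ← psl_energy_sum]
    exact hasSum_sum fun σ _ => hasSum_sum fun τ _ =>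
      lpA y hr hr1 (hsm (fun o => o.elim σ τ)) (hcp _) W hWm (hW _)
  refine ⟨hst, hwt, ?_, ?_⟩
  · -- energy
    have hV := fun T => psl_energy_vint D sp ℓ Φ hΦ none T
    have eW : ∀ T, (fun X : Option I → E3 =>
        coul D (fun i => sp (some i)) (fun i => X (some i)) * ‖Φ T X‖ ^ 2) =
        fun X => coul D sp X * ‖Φ T X‖ ^ 2 - (∑ j, if none = j then 0 else
          D.charge (sp none) * D.charge (sp j) / ‖X none - X j‖) * ‖Φ T X‖ ^ 2 := by
      intro T
      funext X
      rw [psl_energy_coul D sp X]
      ring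
    have hW : ∀ T, Integrable (fun X : Option I → E3 =>
        coul D (fun i => sp (some i)) (fun i => X (some i)) * ‖Φ T X‖ ^ 2) := by
      intro T
      rw [eW T]
      exact (int_state D sp ℓ Φ hΦ T).2.2.1.sub (hV T)
    have hm : Measurable (coul D (fun i : I => sp (some i))) := by
      unfold coul
      exact (Finset.measurable_sum _ fun i _ => Finset.measurable_sum _ fun j _ =>
        psl_energy_cm D (fun i : I => sp (some i)) i j).const_mul _
    have hw := hwt (coul D (fun i => sp (some i))) hm hW
    have hk0 : ∀ j : I, HasSum (fun m => ∑ σ, ∑ τ, ∫ x : I → E3,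
        kin0 D (fun i => sp (some i)) j (psl D (lpw y r m) σ Φ τ) x)
        (∑ T, ∫ x : Option I → E3, cy y r (x none) ^ 2 * kin0 D sp (some j) (Φ T) x) := by
      intro j
      rw [← psl_energy_sum]
      refine hasSum_sum fun σ _ => hasSum_sum fun τ _ => ?_
      obtain ⟨T, hT⟩ : ∃ T : Option I → Fin D.g, T = fun o => o.elim σ τ := ⟨_, rfl⟩
      have hd := fun m => psl_deriv ℓ (Φ T) (hΦ.smooth T) (hΦ.compact T) (hΦ.support T)
        (lpw y r m) (lpw_cont y r m)
      have e0 : ∀ m, psl D (lpw y r m) σ Φ τ =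
          fun x : I → E3 => ∫ z, (starRingEnd ℂ) (lpw y r m z) *
            (Φ T) (fun o => o.elim z x) := by
        intro m
        rw [hT]
        rfl
      have e1 : ∀ m, ∫ x : I → E3,
          kin0 D (fun i => sp (some i)) j (psl D (lpw y r m) σ Φ τ) x =
          (1 / (2 * D.mass (sp (some j)))) * ∑ k : Fin 3, ∫ x : I → E3,
            1 * ‖∫ z, (starRingEnd ℂ) (lpw y r m z) * fderiv ℝ (Φ T) (fun o => o.elim z x)
              (Pi.single (some j) (EuclideanSpace.single k (1 : ℝ)))‖ ^ 2 := by
        intro m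
        rw [e0 m, Pool.Agent.Helper985.CP.psl_energy_kint D (fun i => sp (some i)) j _ (hd m).1 (hd m).2.1]
        congr 1
        refine Finset.sum_congr rfl fun k _ => ?_
        congr 1
        funext x
        rw [one_mul, (hd m).2.2.2 x j (EuclideanSpace.single k (1 : ℝ))]
      rw [← hT]
      have hFs : ∀ k : Fin 3, ContDiff ℝ SM (fun X : Option I → E3 => fderiv ℝ (Φ T) X
          (Pi.single (some j) (EuclideanSpace.single k (1 : ℝ)))) := fun k =>
        ((hΦ.smooth T).fderiv_right (m := SM) le_rfl).clm_apply contDiff_const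
      have hFc : ∀ k : Fin 3, HasCompactSupport (fun X : Option I → E3 => fderiv ℝ (Φ T) X
          (Pi.single (some j) (EuclideanSpace.single k (1 : ℝ)))) := fun k =>
        (hΦ.compact T).fderiv_apply ℝ _
      have hFi : ∀ k : Fin 3, Integrable (fun X : Option I → E3 => ‖fderiv ℝ (Φ T) X
          (Pi.single (some j) (EuclideanSpace.single k (1 : ℝ)))‖ ^ 2) := fun k =>
        psl_energy_sq _ (hFs k).continuous (hFc k)
      have e2 : ∫ x : Option I → E3, cy y r (x none) ^ 2 * kin0 D sp (some j) (Φ T) x =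
          (1 / (2 * D.mass (sp (some j)))) * ∑ k : Fin 3, ∫ x : Option I → E3,
            cy y r (x none) ^ 2 * (1 * ‖fderiv ℝ (Φ T) x
              (Pi.single (some j) (EuclideanSpace.single k (1 : ℝ)))‖ ^ 2) := by
        rw [← integral_finsetSum, ← integral_const_mul]
        · congr 1
          funext x
          unfold kin0 Pool.Agent.Helper985.CP.kin
          rw [Finset.mul_sum, Finset.mul_sum, Finset.mul_sum]
          refine Finset.sum_congr rfl fun k _ => ?_
          ring
        · intro k _
          simp only [one_mul]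
          exact cyw_int y r (hFi k)
      rw [e2]
      simp only [e1]
      apply HasSum.mul_left
      refine hasSum_sum fun k _ => ?_
      exact lpA y hr hr1 (hFs k) (hFc k) (fun _ => (1 : ℝ)) measurable_const
        (by simpa only [one_mul] using hFi k)
    have hk : ∀ j : I, HasSum (fun m => ∑ σ, ∑ τ, ∫ x : I → E3,
        kin D (fun i => sp (some i)) j (psl D (lpw y r m) σ Φ τ) x)
        (∑ T, ∫ x : Option I → E3, cy y r (x none) ^ 2 * kin D sp (some j) (Φ T) x) := by
      intro j
      have hu := hwt (fun x => Env.U (x j)) (Env.U_cont.measurable.comp (measurable_pi_apply j))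
        (fun T => int_U D sp ℓ Φ hΦ T (some j))
      convert (hk0 j).add hu using 1
      · funext m
        rw [← Finset.sum_add_distrib]
        refine Finset.sum_congr rfl fun σ _ => ?_
        unfold wm
        rw [← Finset.sum_add_distrib]
        refine Finset.sum_congr rfl fun τ _ => ?_
        exact integral_add (int_kin0 D (fun i => sp (some i)) ℓ _ (hst m σ) τ j)
          (int_U D (fun i => sp (some i)) ℓ _ (hst m σ) τ j)
      · unfold wm
        rw [← Finset.sum_add_distrib]
        refine Finset.sum_congr rfl fun T _ => ?_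
        rw [← integral_add (cyw_int y r (int_kin0 D sp ℓ Φ hΦ T (some j)))]
        · congr 1
          funext x
          unfold kin
          ring
        · have := cyw_int y r (int_U D sp ℓ Φ hΦ T (some j))
          refine this.congr (Filter.Eventually.of_forall fun x => ?_)
          simp only
          ring
    have hks := hasSum_sum (s := Finset.univ) fun (i : I) _ => hk i
    have hs := hks.add hw
    convert hs using 1
    · funext m
      rw [Finset.sum_comm, ← Finset.sum_add_distrib]
      refine Finset.sum_congr rfl fun σ _ => ?_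
      unfold wm
      rw [Finset.sum_comm, ← Finset.sum_add_distrib]
      unfold energy
      refine Finset.sum_congr rfl fun τ _ => ?_
      obtain ⟨-, h2, h3, -, -⟩ := int_state D (fun i => sp (some i)) ℓ _ (hst m σ) τ
      rw [integral_add (integrable_finsetSum _ fun i _ => h2 i) h3,
        integral_finsetSum _ fun i _ => h2 i]
    · congr 1
      rw [Finset.sum_comm]
      refine Finset.sum_congr rfl fun T _ => ?_
      rw [integral_finsetSum]
      intro i _
      exact cyw_int y r ((int_state D sp ℓ Φ hΦ T).2.1 (some i))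
  · -- momentum
    refine ⟨∑ T, ∫ x : Option I → E3, ∑ k : Fin 3,
        ‖fderiv ℝ (cf y r (Φ T)) x (Pi.single none (EuclideanSpace.single k (1 : ℝ)))‖ ^ 2,
        ?_, ?_⟩
    · rw [← psl_energy_sum]
      have e2 : (fun m => pen 8 m * ∑ σ, nrm2 D (psl D (lpw y r m) σ Φ)) =
          (fun m => ∑ σ : Fin D.g, ∑ τ : I → Fin D.g, (pen 8 m * ∫ x : I → E3,
          ‖∫ z, (starRingEnd ℂ) (lpw y r m z) *
            Φ (fun o => o.elim σ τ) (fun o => o.elim z x)‖ ^ 2)) := by
        funext m
        rw [Finset.mul_sum]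
        refine Finset.sum_congr rfl fun σ _ => ?_
        unfold nrm2
        rw [Finset.mul_sum]
        rfl
      rw [e2]
      exact hasSum_sum fun σ _ => hasSum_sum fun τ _ =>
        lpB y hr hr1 (hsm (fun o => o.elim σ τ)) (hcp _)
    · have hT : ∀ T : Option I → Fin D.g, ∫ x : Option I → E3, ∑ k : Fin 3,
          ‖fderiv ℝ (cf y r (Φ T)) x (Pi.single none (EuclideanSpace.single k (1 : ℝ)))‖ ^ 2 ≤
          4 * D.mass (sp none) * (∫ x, cy y r (x none) ^ 2 * kin D sp none (Φ T) x) +
          (6 * K ^ 2 + 1) / r ^ 2 * ∫ x : Option I → E3,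
            (if ‖x none - y‖ ≤ 2 * r then (1 : ℝ) else 0) * ‖Φ T x‖ ^ 2 := by
        intro T
        have hm := hD.mass_pos (sp none)
        have i1 : Integrable (fun x : Option I → E3 =>
            cy y r (x none) ^ 2 * kin D sp none (Φ T) x) :=
          cyw_int y r ((int_state D sp ℓ Φ hΦ T).2.1 none)
        have i0 : Integrable (fun x : Option I → E3 => ‖Φ T x‖ ^ 2) :=
          (int_state D sp ℓ Φ hΦ T).1
        have hset : MeasurableSet {x : Option I → E3 | ‖x none - y‖ ≤ 2 * r} :=
          (isClosed_le ((continuous_apply none).sub continuous_const).norm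
            continuous_const).measurableSet
        have i2 : Integrable (fun x : Option I → E3 =>
            (if ‖x none - y‖ ≤ 2 * r then (1 : ℝ) else 0) * ‖Φ T x‖ ^ 2) := by
          have h1 := i0.indicator hset
          refine h1.congr (Filter.Eventually.of_forall fun x => ?_)
          by_cases hx : ‖x none - y‖ ≤ 2 * r
          · simp [Set.indicator, hx]
          · simp [Set.indicator, hx]
        have i3 : Integrable (fun x : Option I → E3 => ∑ k : Fin 3,
            ‖fderiv ℝ (cf y r (Φ T)) x
              (Pi.single none (EuclideanSpace.single k (1 : ℝ)))‖ ^ 2) := by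
          refine integrable_finsetSum _ fun k _ => ?_
          refine psl_energy_sq (fun x => fderiv ℝ (cf y r (Φ T)) x
              (Pi.single none (EuclideanSpace.single k (1 : ℝ)))) ?_ ?_
          · exact (((cf_smooth y r (hsm T)).fderiv_right (m := SM) le_rfl).clm_apply
              contDiff_const).continuous
          · have hcc : HasCompactSupport (cf y r (Φ T)) := (hcp T).mul_left
            exact hcc.fderiv_apply ℝ _
        rw [← integral_const_mul, ← integral_const_mul, ← integral_add (i1.const_mul _)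
          (i2.const_mul _)]
        refine integral_mono i3 ((i1.const_mul _).add (i2.const_mul _)) fun x => ?_
        have h1 := cf_grad y r (hsm T) x
        have h2 := grad_cy hK y hr (x none)
        have h3 : 0 ≤ ‖Φ T x‖ ^ 2 := by positivity
        have h4 : kin0 D sp none (Φ T) x = (1 / (2 * D.mass (sp none))) * ∑ k : Fin 3,
          ‖fderiv ℝ (Φ T) x (Pi.single none (EuclideanSpace.single k (1 : ℝ)))‖ ^ 2 := rfl
        have h4' : 4 * D.mass (sp none) * (cy y r (x none) ^ 2 * kin0 D sp none (Φ T) x) ≤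
            4 * D.mass (sp none) * (cy y r (x none) ^ 2 * kin D sp none (Φ T) x) := by
          apply mul_le_mul_of_nonneg_left _ (by positivity)
          exact mul_le_mul_of_nonneg_left (kin_ge D sp none (Φ T) x) (by positivity)
        have h5 : 4 * D.mass (sp none) * (cy y r (x none) ^ 2 * kin0 D sp none (Φ T) x) =
            2 * (cy y r (x none) ^ 2 * ∑ k : Fin 3,
          ‖fderiv ℝ (Φ T) x (Pi.single none (EuclideanSpace.single k (1 : ℝ)))‖ ^ 2) := by
          rw [h4]
          field_simp
          ring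
        have h6 : (∑ k : Fin 3, (fderiv ℝ (cy y r) (x none)
            (EuclideanSpace.single k (1 : ℝ))) ^ 2) * ‖Φ T x‖ ^ 2 ≤
            3 * K ^ 2 / r ^ 2 * (if ‖x none - y‖ ≤ 2 * r then 1 else 0) * ‖Φ T x‖ ^ 2 :=
          mul_le_mul_of_nonneg_right h2 h3
        have h7 : 2 * (3 * K ^ 2 / r ^ 2 * (if ‖x none - y‖ ≤ 2 * r then 1 else 0) *
            ‖Φ T x‖ ^ 2) ≤ (6 * K ^ 2 + 1) / r ^ 2 *
              ((if ‖x none - y‖ ≤ 2 * r then (1 : ℝ) else 0) * ‖Φ T x‖ ^ 2) := by
          have h8 : 0 ≤ (if ‖x none - y‖ ≤ 2 * r then (1 : ℝ) else 0) * ‖Φ T x‖ ^ 2 := by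
            split_ifs <;> positivity
          have h9 : 2 * (3 * K ^ 2 / r ^ 2 * (if ‖x none - y‖ ≤ 2 * r then 1 else 0) *
            ‖Φ T x‖ ^ 2) = (6 * K ^ 2) / r ^ 2 *
              ((if ‖x none - y‖ ≤ 2 * r then (1 : ℝ) else 0) * ‖Φ T x‖ ^ 2) := by
            ring
          rw [h9]
          apply mul_le_mul_of_nonneg_right _ h8
          apply div_le_div_of_nonneg_right _ (by positivity)
          linarith
        simp only
        linarith
      calc (∑ T, ∫ x : Option I → E3, ∑ k : Fin 3,
          ‖fderiv ℝ (cf y r (Φ T)) x (Pi.single none (EuclideanSpace.single k (1 : ℝ)))‖ ^ 2) ≤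
          ∑ T, (4 * D.mass (sp none) * (∫ x, cy y r (x none) ^ 2 * kin D sp none (Φ T) x) +
          (6 * K ^ 2 + 1) / r ^ 2 * ∫ x : Option I → E3,
            (if ‖x none - y‖ ≤ 2 * r then (1 : ℝ) else 0) * ‖Φ T x‖ ^ 2) :=
            Finset.sum_le_sum fun T _ => hT T
        _ = _ := by
          rw [Finset.sum_add_distrib, ← Finset.mul_sum, ← Finset.mul_sum]
          rfl

end Run7.h213.P.K.RH1
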