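import Pool.Agent.Helper780_CP.RH2
import Pool.Agent.Run7.h213.P.KLLDefs2
import Pool.Agent.Run7.h213.P.KLPDefs
import Pool.Agent.Run7.h213.P.TM_psl_weight
import Pool.Agent.Run7.h213.P.TM_pe_symm
import Pool.Agent.Run7.h213.P.CBase

set_option autoImplicit false

open MeasureTheory
open scoped Topology

namespace Run7.h213.P.K.RH2

open Pool.Agent.Helper985.CP hiding IsState MT_core MT_energy_smul MT_psl_lin MT_slice_int MT_state_smul MT_zero Ortho QQ31988 QQ_ins0_31988 QQ_mul31988 QQ_perm31988 QQ_sum31988 cube energy idjT_act idjT_compact idjT_smooth idj_W0_act idj_W0_bound idj_W0_smooth idj_int idj_sum ims_state ins0_num ins0_swap31988 insN_props insNp_energy insNp_kin insNp_state ins_disj ins_state int_state kin kinE moveT_any moveT_none nrm2_pos pe pe_symm peierls peierls_relabel prl_kin prl_sub psl_deriv psl_energy psl_energy_k psl_energy_kint psl_energy_vint psl_energy_w psl_nrm psl_slice psl_state psl_weight pw_parseval pwaux_parseval q985_point rb833_X rb833_state rbX rb_act_X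 rb_bessel rb_bessel0 rb_ip_X rb_ip_XX rb_ip_XX_meas rb_ip_XX_one rb_ip_XX_vol rb_ip_swap rb_nice_X rb_nice_state relabel_num relabel_state relaux_kin remove_none_aux row_bound slice_basic slice_energy slice_state sm_ins0_31988 sphK sph_K sph_energy sph_isState sph_kin sph_sum spin_ins0_31988 stable_any state_comb sum_pe_half term_A31988 term_B31988 term_swap31988 trace_bound trace_bound_dens
open Pool.Agent.Helper780_CP hiding FLT MM NE WI WI_add WI_const WI_coul WI_mul WI_near2 WI_one WI_pair WI_phi WI_smul WI_sum WI_wW WI_zero cost_avg icb kb kcy klc ms_qf mulW_nrm_le mulW_state multiC phb qf qf_int qf_one qf_split qf_wa rest_lower vb wm_add wm_mono wm_sum wm_tendsto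
open Pool.Agent.Helper780_CP.RH2 hiding lp_dom

variable [Env]

open Run7.h213.P.K

open Run7.h213.P.K


/-- TARGET -/
theorem lp_dom {S : Type} [DecidableEq S] (D : Species S) (hD : D.Valid) {I : Type} [Fintype I]
    [DecidableEq I] (sp : Option I → S) (ℓ : ℝ) (y : E3) (r : ℝ) (hr : 0 < r) (hr1 : r ≤ 1)
    (Φ : Wave D (Option I)) (hΦ : IsState D sp ℓ Φ) (G : ℝ) (hG : 0 ≤ G)
    (h : ∀ τ x, Φ τ x ≠ 0 → (∑ o, if sp o = sp none then cy y r (x o) ^ 2 else 0) ≤ G)
    (m : Fin 3 → ℤ) (σ : Fin D.g) :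
    nrm2 D (psl D (lpw y r m) σ Φ) ≤ G / (cnt sp (sp none) : ℝ) * nrm2 D Φ := by
  classical
  -- integrability
  have hint : ∀ (o : Option I) (τ : Option I → Fin D.g),
      Integrable (fun x : Option I → E3 => cy y r (x o) ^ 2 * ‖Φ τ x‖ ^ 2) := by
    intro o τ
    have hc1 : Continuous (fun x : Option I → E3 => cy y r (x o) ^ 2 * ‖Φ τ x‖ ^ 2) :=
      (((lpd_cy_cont y r).comp (continuous_apply o)).pow 2).mul ((hΦ.smooth τ).continuous.norm.pow 2)
    refine hc1.integrable_of_hasCompactSupport ?_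
    have : HasCompactSupport (fun x => ‖Φ τ x‖ ^ 2) := by
      have h3 : (fun x => ‖Φ τ x‖ ^ 2) = fun x => ‖Φ τ x‖ * ‖Φ τ x‖ := by funext x; ring
      rw [h3]
      exact (hΦ.compact τ).norm.mul_left
    exact this.mul_left
  have hintn : ∀ (τ : Option I → Fin D.g), Integrable (fun x : Option I → E3 => ‖Φ τ x‖ ^ 2) := by
    intro τ
    have h3 : (fun x => ‖Φ τ x‖ ^ 2) = fun x => ‖Φ τ x‖ * ‖Φ τ x‖ := by funext x; ring
    rw [h3]
    exact ((hΦ.smooth τ).continuous.norm.mul (hΦ.smooth τ).continuous.norm).integrable_of_hasCompactSupport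
      (hΦ.compact τ).norm.mul_left
  -- step 1
  have h1 : nrm2 D (psl D (lpw y r m) σ Φ) ≤
      ∑ τ : Option I → Fin D.g, ∫ x : Option I → E3, cy y r (x none) ^ 2 * ‖Φ τ x‖ ^ 2 := by
    unfold nrm2
    have ha : ∀ τ : I → Fin D.g, ∫ x, ‖psl D (lpw y r m) σ Φ τ x‖ ^ 2 ≤
        ∫ x : Option I → E3, cy y r (x none) ^ 2 * ‖Φ (fun o => o.elim σ τ) x‖ ^ 2 := by
      intro τ
      set F := Φ (fun o => o.elim σ τ) with hF
      obtain ⟨hf1, hf2⟩ := psl_fubini (fun x : Option I → E3 => cy y r (x none) ^ 2 * ‖F x‖ ^ 2)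
        (hint none _)
      rw [hf2]
      refine integral_mono_of_nonneg (Filter.Eventually.of_forall fun x => sq_nonneg _)
        hf1.integral_prod_left (Filter.Eventually.of_forall fun x => ?_)
      obtain ⟨hs1, hs2, -, -⟩ := psl_slice ℓ F (hΦ.smooth _) (hΦ.compact _)
        ((hΦ.support _).trans fun x hx => cube_sub ℓ (hx none)) x
      exact lpd_slice y r hr hr1 m _ hs1.continuous hs2
    refine (Finset.sum_le_sum fun τ _ => ha τ).trans ?_
    have hinj : Function.Injective (fun (τ : I → Fin D.g) => (fun o : Option I => o.elim σ τ)) := by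
      intro τ τ' hh
      funext i
      exact congrFun hh (some i)
    have hb := Finset.sum_le_univ_sum_of_nonneg
      (f := fun τ : Option I → Fin D.g => ∫ x : Option I → E3, cy y r (x none) ^ 2 * ‖Φ τ x‖ ^ 2)
      (fun τ => integral_nonneg fun x => by positivity)
      (s := Finset.univ.map ⟨_, hinj⟩)
    rw [Finset.sum_map] at hb
    exact hb
  -- step 2: symmetry
  have h2 : ∀ o : Option I, sp o = sp none →
      ∑ τ : Option I → Fin D.g, ∫ x : Option I → E3, cy y r (x o) ^ 2 * ‖Φ τ x‖ ^ 2 =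
      ∑ τ : Option I → Fin D.g, ∫ x : Option I → E3, cy y r (x none) ^ 2 * ‖Φ τ x‖ ^ 2 := by
    intro o ho
    by_cases hon : o = none
    · rw [hon]
    set e : Option I ≃ Option I := Equiv.swap none o with he
    have heo : e none = o := Equiv.swap_apply_left none o
    have hnorm : ∀ τ x, ‖Φ (fun k => τ (e k)) (fun k => x (e k))‖ = ‖Φ τ x‖ := by
      intro τ x
      rw [hΦ.symm none o (fun hh => hon hh.symm) ho.symm τ x]
      unfold exch
      split_ifs <;> simp
    have hx : ∀ τ : Option I → Fin D.g, ∫ x : Option I → E3, cy y r (x o) ^ 2 * ‖Φ τ x‖ ^ 2 =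
        ∫ x : Option I → E3, cy y r (x none) ^ 2 * ‖Φ (fun k => τ (e k)) x‖ ^ 2 := by
      intro τ
      rw [← relaux_int e (fun x : Option I → E3 =>
        cy y r (x none) ^ 2 * ‖Φ (fun k => τ (e k)) x‖ ^ 2)]
      refine integral_congr_ae (Filter.Eventually.of_forall fun x => ?_)
      simp only [heo, hnorm]
    rw [Finset.sum_congr rfl fun τ _ => hx τ]
    exact relaux_sum e (fun τ : Option I → Fin D.g =>
      ∫ x : Option I → E3, cy y r (x none) ^ 2 * ‖Φ τ x‖ ^ 2)
  set A := ∑ τ : Option I → Fin D.g, ∫ x : Option I → E3, cy y r (x none) ^ 2 * ‖Φ τ x‖ ^ 2 with hA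
  -- step 3
  have h3 : (cnt sp (sp none) : ℝ) * A ≤ G * nrm2 D Φ := by
    have e1 : (cnt sp (sp none) : ℝ) * A = ∑ o : Option I, if sp o = sp none then
        ∑ τ : Option I → Fin D.g, ∫ x : Option I → E3, cy y r (x o) ^ 2 * ‖Φ τ x‖ ^ 2 else 0 := by
      rw [← Finset.sum_filter, Finset.sum_congr rfl (g := fun _ => A)
        (fun o ho => h2 o (Finset.mem_filter.1 ho).2), Finset.sum_const, nsmul_eq_mul]
      rfl
    have e2 : (∑ o : Option I, if sp o = sp none then
        ∑ τ : Option I → Fin D.g, ∫ x : Option I → E3, cy y r (x o) ^ 2 * ‖Φ τ x‖ ^ 2 else 0) =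
        ∑ τ : Option I → Fin D.g, ∫ x : Option I → E3,
          (∑ o, if sp o = sp none then cy y r (x o) ^ 2 else 0) * ‖Φ τ x‖ ^ 2 := by
      rw [← Finset.sum_filter, Finset.sum_comm]
      refine Finset.sum_congr rfl fun τ _ => ?_
      rw [← integral_finsetSum _ (fun o _ => hint o τ)]
      refine integral_congr_ae (Filter.Eventually.of_forall fun x => ?_)
      simp only
      rw [← Finset.sum_filter, Finset.sum_mul]
    rw [e1, e2]
    unfold nrm2
    rw [Finset.mul_sum]
    refine Finset.sum_le_sum fun τ _ => ?_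
    rw [← integral_const_mul]
    refine integral_mono_of_nonneg (Filter.Eventually.of_forall fun x => ?_)
      ((hintn τ).const_mul G) (Filter.Eventually.of_forall fun x => ?_)
    · refine mul_nonneg (Finset.sum_nonneg fun o _ => ?_) (sq_nonneg _)
      split_ifs
      · exact sq_nonneg _
      · exact le_rfl
    · by_cases hx : Φ τ x = 0
      · simp [hx]
      · exact mul_le_mul_of_nonneg_right (h τ x hx) (sq_nonneg _)
  have hcnt : 0 < (cnt sp (sp none) : ℝ) := by
    have : 0 < cnt sp (sp none) := by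
      unfold cnt
      exact Finset.card_pos.2 ⟨none, Finset.mem_filter.2 ⟨Finset.mem_univ _, rfl⟩⟩
    exact_mod_cast this
  refine h1.trans ?_
  rw [div_mul_eq_mul_div, le_div_iff₀ hcnt, mul_comm]
  exact h3

end Run7.h213.P.K.RH2
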