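import Pool.Agent.Helper780_CP.RH3
import Pool.Agent.Run7.h213.P.KLLDefs2
import Pool.Agent.Run7.h213.P.KLPDefs
import Pool.Agent.Run7.h213.P.KMultiC
import Pool.Agent.Run7.h213.P.KMoveT
import Pool.Agent.Run7.h213.P.KInsC
import Pool.Agent.Run7.h213.P.CBase
import Pool.Agent.Run7.h213.P.KMultiCU

set_option autoImplicit false

open MeasureTheory
open scoped Topology

namespace Run7.h213.P.K.RH3

open Pool.Agent.Helper985.CP hiding IsState MT_core MT_energy_smul MT_psl_lin MT_slice_int MT_state_smul MT_zero Ortho QQ31988 QQ_ins0_31988 QQ_mul31988 QQ_perm31988 QQ_sum31988 cube energy idjT_act idjT_compact idjT_smooth idj_W0_act idj_W0_bound idj_W0_smooth idj_int idj_sum ims_state ins0_num ins0_swap31988 insN_props insNp_energy insNp_kin insNp_state ins_disj ins_state int_state kin kinE moveT_any moveT_none nrm2_pos pe pe_symm peierls peierls_relabel prl_kin prl_sub psl_deriv psl_energy psl_energy_k psl_energy_kint psl_energy_vint psl_energy_w psl_nrm psl_slice psl_state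 psl_weight pw_parseval pwaux_parseval q985_point rb833_X rb833_state rbX rb_act_X rb_bessel rb_bessel0 rb_ip_X rb_ip_XX rb_ip_XX_meas rb_ip_XX_one rb_ip_XX_vol rb_ip_swap rb_nice_X rb_nice_state relabel_num relabel_state relaux_kin remove_none_aux row_bound slice_basic slice_energy slice_state sm_ins0_31988 sphK sph_K sph_energy sph_isState sph_kin sph_sum spin_ins0_31988 stable_any state_comb sum_pe_half term_A31988 term_B31988 term_swap31988 trace_bound trace_bound_dens
open Pool.Agent.Helper780_CP hiding FLT MM NE WI WI_add WI_const WI_coul WI_mul WI_near2 WI_one WI_pair WI_phi WI_smul WI_sum WI_wW WI_zero cost_avg icb kb kcy klc ms_qf mulW_nrm_le mulW_state multiC phb qf qf_int qf_one qf_split qf_wa rest_lower vb wm_add wm_mono wm_sum wm_tendsto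
open Pool.Agent.Helper780_CP.RH3 hiding insP

variable [Env]

open Run7.h213.P.K

open Run7.h213.P.K

/-- TARGET -/
theorem insP {S : Type} [Fintype S] [DecidableEq S] (D : Species S) (hD : D.Valid) :
    ∃ C : ℝ, 0 < C ∧ ∀ (δ T : ℝ), 0 < δ → δ ≤ 1 → 0 < T → ∀ {I : Type} [Fintype I] [DecidableEq I]
      (sp : I → S) (s : S) (ℓ : ℝ) (v : E3), 0 < ℓ → Metric.closedBall v δ ⊆ cube ℓ →
      ∀ B Z : ℝ, (∀ z ∈ peierls D (fun o : Option I => o.elim s sp) ℓ T, z ≤ Z) →
      (∀ Φ, IsState D sp ℓ Φ → B * nrm2 D Φ ≤ energy D sp Φ) →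
      ∀ c : ℝ, 0 ≤ c → ∀ {k : ℕ} (χ : Fin k → Wave D I), (∀ j, IsState D sp ℓ (χ j)) → SGc D c χ →
      ∑ j, nrm2 D (χ j) * Real.exp (-(energy D sp (χ j) + D.charge s * phim D sp (χ j) v +
        C * (1 + T) / δ ^ 2 * (nrm2 D (χ j) + wm D (near2 v) (χ j))) / (T * nrm2 D (χ j))) ≤ c * Z := by
  obtain ⟨C', hC', H'⟩ := multiCU D hD
  refine ⟨2 * C', by positivity, ?_⟩
  intro δ T hδ hδ1 hT I _ _ sp s ℓ v hℓ hv B Z hZ hB c hc k χ hχ hgram
  obtain ⟨C, hCe⟩ : ∃ C, C = C' / δ ^ 2 := ⟨_, rfl⟩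
  have hC : 0 < C := by rw [hCe]; positivity
  have H := H' δ hδ hδ1 (I := I)
  rw [← hCe] at H
  have hCe2 : 2 * C' * (1 + T) / δ ^ 2 = 2 * C * (1 + T) := by rw [hCe]; ring
  rw [hCe2]
  obtain ⟨g, h, φ, ⟨g1, g2, g3⟩, ⟨h1, h2, h3⟩, hφ, hvan, hpot, hqf, hwm, hcost, hlim⟩ := H sp ℓ v hv
  have hZ0 : 0 ≤ Z := hZ 0 ⟨0, fun i => i.elim0, ⟨fun i => i.elim0, fun i => i.elim0⟩, by simp⟩
  obtain ⟨σ0, hσ0⟩ := hD.spin_nonempty s
  let W : (I → E3) → ℝ := fun x => coul D sp x + D.charge s *
    ∑ i, D.charge (sp i) * (1 / ‖x i - v‖)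
  have hWI : WI D sp ℓ W :=
    WI_add D sp ℓ (WI_coul D sp ℓ) (WI_smul D sp ℓ (WI_phi D sp ℓ v) _)
  let Q : Wave D I → ℝ := fun Ψ => qf D sp (fun _ => 1) W Ψ
  have hQ : ∀ Φ : Wave D I, IsState D sp ℓ Φ → Q Φ =
      energy D sp Φ + D.charge s * phim D sp Φ v := fun Φ hΦ =>
    qf_one D sp ℓ (D.charge s) v Φ hΦ
  let n : Fin k → ℕ → ℝ := fun j m => nrm2 D (mulW D (g m) (χ j))
  let N : Fin k → ℝ := fun j => nrm2 D (χ j)
  let G : ℕ → ℝ := fun m => kU D s (φ m)
  have hn0 : ∀ j m, 0 ≤ n j m := fun j m => nrm2_nn D _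
  have hN0 : ∀ j, 0 ≤ N j := fun j => nrm2_nn D _
  have hst : ∀ j m, IsState D sp ℓ (mulW D (g m) (χ j)) := fun j m =>
    mulW_state D sp ℓ (χ j) (hχ j) (g m) (g1 m) (g2 m)
  have hsth : ∀ j m, IsState D sp ℓ (mulW D (h m) (χ j)) := fun j m =>
    mulW_state D sp ℓ (χ j) (hχ j) (h m) (h1 m) (h2 m)
  -- one scale
  have hone : ∀ m, ∑ j, n j m * Real.exp (-(Q (mulW D (g m) (χ j)) + G m * n j m) /
      (n j m * T)) ≤ c * Z := by
    intro m
    obtain ⟨p1, p2, p3, p4⟩ := hφ m
    have hin : ∀ Ψ : Wave D I, IsState D sp ℓ Ψ →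
        IsState D (fun o : Option I => o.elim s sp) ℓ
          (insN D sp s σ0 (φ m) (mulW D (g m) Ψ)) ∧
        nrm2 D (insN D sp s σ0 (φ m) (mulW D (g m) Ψ)) = nrm2 D (mulW D (g m) Ψ) ∧
        energy D (fun o : Option I => o.elim s sp) (insN D sp s σ0 (φ m) (mulW D (g m) Ψ)) =
          energy D sp (mulW D (g m) Ψ) +
          kU D s (φ m) * nrm2 D (mulW D (g m) Ψ) +
          D.charge s * mean D sp (mulW D (g m) Ψ) (pot (φ m)) := by
      intro Ψ hΨ
      obtain ⟨a1, a2, a3, -, -⟩ := insN_props D hD sp ℓ s σ0 hσ0 (φ m) p1 p2 p3 p4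
        (mulW D (g m) Ψ) (mulW_state D sp ℓ Ψ hΨ (g m) (g1 m) (g2 m)) (by
        intro τ x i _ hi
        unfold mulW
        rw [hvan m x i hi]
        simp)
      exact ⟨a1, a2, a3⟩
    have htb := trace_bound D (fun o : Option I => o.elim s sp) ℓ T hT Z hZ
      (fun j : Fin k => insN D sp s σ0 (φ m) (mulW D (g m) (χ j)))
      (fun j => (hin (χ j) (hχ j)).1) c hc (by
        intro γ
        have e1 := MT_insN_lin D sp s σ0 (φ m) (fun j : Fin k => mulW D (g m) (χ j)) γ
        rw [← e1, mulW_sum, (hin _ (state_comb D sp ℓ χ hχ γ)).2.1]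
        exact (mulW_nrm_le D sp ℓ _ (state_comb D sp ℓ χ hχ γ) (g m) (g1 m).continuous
          (g3 m)).trans (hgram γ))
    refine le_trans (le_of_eq ?_) htb
    refine Finset.sum_congr rfl fun j _ => ?_
    have e1 : mean D sp (mulW D (g m) (χ j)) (pot (φ m)) =
        phim D sp (mulW D (g m) (χ j)) v := by
      unfold phim mean
      refine Finset.sum_congr rfl fun τ _ => ?_
      refine integral_congr_ae (Filter.Eventually.of_forall fun x => ?_)
      simp only
      by_cases hx : g m x = 0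
      · unfold mulW
        rw [hx]
        simp
      · congr 1
        refine Finset.sum_congr rfl fun l _ => ?_
        rw [hpot m x hx l]
    obtain ⟨-, b2, b3⟩ := hin (χ j) (hχ j)
    rw [b2, b3, e1, hQ _ (hst j m)]
    show nrm2 D (mulW D (g m) (χ j)) * _ = nrm2 D (mulW D (g m) (χ j)) * _
    congr 2
    show -(energy D sp (mulW D (g m) (χ j)) + D.charge s * phim D sp (mulW D (g m) (χ j)) v +
      kU D s (φ m) * nrm2 D (mulW D (g m) (χ j))) /
      (nrm2 D (mulW D (g m) (χ j)) * T) = _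
    congr 1
    ring
  -- all scales below `K`
  let A : ℕ → Fin k → ℝ := fun K j => N j - nrm2 D (mulW D (h K) (χ j))
  let X : ℕ → Fin k → ℝ := fun K j => -(Q (χ j) + C * wm D (near2 v) (χ j)) / T -
    C * (1 + 1 / T) * (N j + wm D (near2 v) (χ j)) +
    (B * nrm2 D (mulW D (h K) (χ j)) + D.charge s * phim D sp (mulW D (h K) (χ j)) v) / T
  have hAsum : ∀ K j, ∑ m ∈ Finset.range K, n j m = A K j := by
    intro K j
    have s2 := hwm (fun _ => 1) (WI_const D sp ℓ 1) (χ j) (hχ j) K
    simp only [wm_one] at s2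
    show ∑ m ∈ Finset.range K, nrm2 D (mulW D (g m) (χ j)) =
      nrm2 D (χ j) - nrm2 D (mulW D (h K) (χ j))
    linarith
  have hA0 : ∀ K j, 0 ≤ A K j := by
    intro K j
    rw [← hAsum]
    exact Finset.sum_nonneg fun m _ => hn0 j m
  have hwn0 : ∀ j, 0 ≤ wm D (near2 v) (χ j) := by
    intro j
    unfold wm
    exact Finset.sum_nonneg fun τ _ => integral_nonneg fun x =>
      mul_nonneg (near2_nonneg v x) (sq_nonneg _)
  have hXle : ∀ K j, X K j ≤ ∑ m ∈ Finset.range K, (-(Q (mulW D (g m) (χ j)) + G m * n j m) / T -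
      n j m * (((m : ℝ) + 1) * Real.log 2)) := by
    intro K j
    have s1 := hqf (fun _ => 1) (fun l => by norm_num) W hWI (χ j) (hχ j) K
    have s3 := hcost (χ j) (hχ j) K s
    have s4 : B * nrm2 D (mulW D (h K) (χ j)) + D.charge s *
        phim D sp (mulW D (h K) (χ j)) v ≤ Q (mulW D (h K) (χ j)) := by
      rw [hQ _ (hsth j K)]
      have a1 := hB _ (hsth j K)
      linarith
    have e1 : ∑ m ∈ Finset.range K, (-(Q (mulW D (g m) (χ j)) + G m * n j m) / T -
        n j m * (((m : ℝ) + 1) * Real.log 2)) =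
        -(∑ m ∈ Finset.range K, Q (mulW D (g m) (χ j))) / T -
        (∑ m ∈ Finset.range K, G m * n j m) / T -
        Real.log 2 * ∑ m ∈ Finset.range K, ((m : ℝ) + 1) * n j m := by
      rw [← Finset.sum_neg_distrib, Finset.sum_div, Finset.sum_div, Finset.mul_sum,
        ← Finset.sum_sub_distrib, ← Finset.sum_sub_distrib]
      refine Finset.sum_congr rfl fun m _ => ?_
      ring
    rw [e1]
    have hG0 : ∀ m, 0 ≤ G m * n j m := by
      intro m
      refine mul_nonneg (le_trans (mul_nonneg ?_ ?_) (kU_ge D s (φ m))) (hn0 j m)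
      · have := hD.mass_pos s
        positivity
      · unfold grad2
        exact integral_nonneg fun z => Finset.sum_nonneg fun l _ => sq_nonneg _
    have s5 : ∑ m ∈ Finset.range K, G m * n j m + ∑ m ∈ Finset.range K, ((m : ℝ) + 1) * n j m ≤
        C * (N j + wm D (near2 v) (χ j)) := by
      rw [← Finset.sum_add_distrib]
      refine le_trans (le_of_eq ?_) s3
      refine Finset.sum_congr rfl fun m _ => ?_
      show G m * n j m + ((m : ℝ) + 1) * n j m = (G m + ((m : ℝ) + 1)) * n j m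
      ring
    have s6 : 0 ≤ ∑ m ∈ Finset.range K, G m * n j m := Finset.sum_nonneg fun m _ => hG0 m
    have s7 : 0 ≤ ∑ m ∈ Finset.range K, ((m : ℝ) + 1) * n j m :=
      Finset.sum_nonneg fun m _ => mul_nonneg (by positivity) (hn0 j m)
    have hlog : Real.log 2 ≤ 1 := by
      have := Real.log_two_lt_d9
      linarith
    have s8 : Real.log 2 * ∑ m ∈ Finset.range K, ((m : ℝ) + 1) * n j m ≤
        C * (N j + wm D (near2 v) (χ j)) := by
      calc Real.log 2 * ∑ m ∈ Finset.range K, ((m : ℝ) + 1) * n j m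
          ≤ 1 * ∑ m ∈ Finset.range K, ((m : ℝ) + 1) * n j m :=
            mul_le_mul_of_nonneg_right hlog s7
        _ ≤ C * (N j + wm D (near2 v) (χ j)) := by linarith
    have s9 : (∑ m ∈ Finset.range K, G m * n j m) / T ≤
        C * (1 / T) * (N j + wm D (near2 v) (χ j)) := by
      rw [div_le_iff₀ hT]
      have : C * (1 / T) * (N j + wm D (near2 v) (χ j)) * T =
          C * (N j + wm D (near2 v) (χ j)) := by
        field_simp
      rw [this]
      linarith
    have s10 : -(Q (χ j) + C * wm D (near2 v) (χ j)) / T + (B * nrm2 D (mulW D (h K) (χ j)) +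
        D.charge s * phim D sp (mulW D (h K) (χ j)) v) / T ≤
        -(∑ m ∈ Finset.range K, Q (mulW D (g m) (χ j))) / T := by
      rw [← add_div]
      refine div_le_div_of_nonneg_right ?_ hT.le
      have : ∑ m ∈ Finset.range K, Q (mulW D (g m) (χ j)) + Q (mulW D (h K) (χ j)) ≤
        Q (χ j) + C * wm D (near2 v) (χ j) := s1
      linarith
    show -(Q (χ j) + C * wm D (near2 v) (χ j)) / T -
      C * (1 + 1 / T) * (N j + wm D (near2 v) (χ j)) +
      (B * nrm2 D (mulW D (h K) (χ j)) + D.charge s * phim D sp (mulW D (h K) (χ j)) v) / T ≤ _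
    have e2 : C * (1 + 1 / T) * (N j + wm D (near2 v) (χ j)) =
      C * (N j + wm D (near2 v) (χ j)) + C * (1 / T) * (N j + wm D (near2 v) (χ j)) := by ring
    rw [e2]
    linarith
  have hK : ∀ K, ∑ j, A K j * Real.exp (X K j / A K j) ≤ c * Z := by
    intro K
    have hj : ∀ j, A K j * Real.exp (X K j / A K j) ≤ ∑ m : Fin K, ((2 : ℝ) ^ ((m : ℕ) + 1))⁻¹ *
        (n j m * Real.exp (-(Q (mulW D (g m) (χ j)) + G m * n j m) / (n j m * T))) := by
      intro j
      have hx0 : ∀ m : Fin K, n j m = 0 → (-(Q (mulW D (g m) (χ j)) + G m * n j m) / T -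
          n j m * ((((m : ℕ) : ℝ) + 1) * Real.log 2)) = 0 := by
        intro m hm
        obtain ⟨z1, z2⟩ := MT_zero D sp ℓ _ (hst j m) hm (fun x => 1 / ‖x - v‖)
        have hz : Q (mulW D (g m) (χ j)) = 0 := by
          rw [hQ _ (hst j m), z1]
          unfold phim
          rw [z2]
          simp
        rw [hz, hm]
        simp
      have hJ := MT_finjensen (fun m : Fin K => n j m) (fun m : Fin K =>
        (-(Q (mulW D (g m) (χ j)) + G m * n j m) / T -
          n j m * ((((m : ℕ) : ℝ) + 1) * Real.log 2))) (fun m => hn0 j m) hx0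
      have e1 : ∑ m : Fin K, n j m = A K j := by
        rw [← Finset.sum_range (fun m => n j m)]
        exact hAsum K j
      have e2 : ∑ m : Fin K, (-(Q (mulW D (g m) (χ j)) + G m * n j m) / T -
          n j m * ((((m : ℕ) : ℝ) + 1) * Real.log 2)) =
          ∑ m ∈ Finset.range K, (-(Q (mulW D (g m) (χ j)) + G m * n j m) / T -
          n j m * (((m : ℝ) + 1) * Real.log 2)) := by
        rw [← Finset.sum_range (fun m => (-(Q (mulW D (g m) (χ j)) + G m * n j m) / T -
          n j m * (((m : ℝ) + 1) * Real.log 2)))]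
      rw [e1, e2] at hJ
      have hmono : A K j * Real.exp (X K j / A K j) ≤ A K j * Real.exp
          ((∑ m ∈ Finset.range K, (-(Q (mulW D (g m) (χ j)) + G m * n j m) / T -
          n j m * (((m : ℝ) + 1) * Real.log 2))) / A K j) := by
        refine mul_le_mul_of_nonneg_left ?_ (hA0 K j)
        refine Real.exp_le_exp.2 ?_
        exact div_le_div_of_nonneg_right (hXle K j) (hA0 K j)
      refine hmono.trans (hJ.trans (le_of_eq ?_))
      refine Finset.sum_congr rfl fun m _ => ?_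
      rcases (hn0 j m).eq_or_lt with h0 | h0
      · rw [← h0]; simp
      · have e3 : (-(Q (mulW D (g m) (χ j)) + G m * n j m) / T -
            n j m * ((((m : ℕ) : ℝ) + 1) * Real.log 2)) / n j m =
            (-(Q (mulW D (g m) (χ j)) + G m * n j m) / (n j m * T)) -
              (((m : ℕ) : ℝ) + 1) * Real.log 2 := by
          field_simp
        rw [e3, Real.exp_sub]
        have e4 : Real.exp ((((m : ℕ) : ℝ) + 1) * Real.log 2) = 2 ^ ((m : ℕ) + 1) := by
          rw [mul_comm, Real.exp_mul, Real.exp_log (by norm_num)]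
          have : (((m : ℕ) : ℝ) + 1) = (((m : ℕ) + 1 : ℕ) : ℝ) := by push_cast; ring
          rw [this, Real.rpow_natCast]
        rw [e4]
        field_simp
    refine (Finset.sum_le_sum fun j _ => hj j).trans ?_
    rw [Finset.sum_comm]
    have h5 : ∀ m : Fin K, ∑ j, ((2 : ℝ) ^ ((m : ℕ) + 1))⁻¹ *
        (n j m * Real.exp (-(Q (mulW D (g m) (χ j)) + G m * n j m) / (n j m * T))) ≤
        ((2 : ℝ) ^ ((m : ℕ) + 1))⁻¹ * (c * Z) := by
      intro m
      rw [← Finset.mul_sum]
      exact mul_le_mul_of_nonneg_left (hone m) (by positivity)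
    refine (Finset.sum_le_sum fun m _ => h5 m).trans ?_
    rw [← Finset.sum_mul]
    exact mul_le_of_le_one_left (by positivity) (geo2 K)
  -- the limit
  have tn : ∀ j, Filter.Tendsto (fun K => nrm2 D (mulW D (h K) (χ j))) Filter.atTop (𝓝 0) := by
    intro j
    have := hlim (fun _ => 1) (WI_const D sp ℓ 1) (χ j) (hχ j)
    simpa only [wm_one] using this
  have tp : ∀ j, Filter.Tendsto (fun K => phim D sp (mulW D (h K) (χ j)) v) Filter.atTop (𝓝 0) :=
    fun j => hlim _ (WI_phi D sp ℓ v) (χ j) (hχ j)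
  have tA : ∀ j, Filter.Tendsto (fun K => A K j) Filter.atTop (𝓝 (N j)) := by
    intro j
    have := (tn j).const_sub (N j)
    simpa using this
  let Y : Fin k → ℝ := fun j => -(Q (χ j) + C * wm D (near2 v) (χ j)) / T -
        C * (1 + 1 / T) * (N j + wm D (near2 v) (χ j))
  have tX : ∀ j, Filter.Tendsto (fun K => X K j) Filter.atTop (𝓝 (Y j)) := by
    intro j
    have a1 := (((tn j).const_mul B).add ((tp j).const_mul (D.charge s))).div_const T
    have a2 := (a1.const_add (Y j))
    have e1 : Y j = Y j + (B * 0 + D.charge s * 0) / T := by simp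
    rw [e1]
    exact a2
  have tall : Filter.Tendsto (fun K => ∑ j, A K j * Real.exp (X K j / A K j)) Filter.atTop
      (𝓝 (∑ j, N j * Real.exp (Y j / N j))) := by
    refine tendsto_finsetSum _ fun j _ => ?_
    rcases (hN0 j).eq_or_lt with h0 | h0
    · have hz : ∀ K, A K j = 0 := by
        intro K
        have b1 := hA0 K j
        have b2 : A K j = N j - nrm2 D (mulW D (h K) (χ j)) := rfl
        have b3 := nrm2_nn D (mulW D (h K) (χ j))
        linarith
      rw [← h0]
      simp only [hz, zero_mul]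
      exact tendsto_const_nhds
    · refine (tA j).mul ?_
      exact (Real.continuous_exp.tendsto _).comp ((tX j).div (tA j) h0.ne')
  have hfin := le_of_tendsto' tall hK
  refine le_trans (Finset.sum_le_sum fun j _ => ?_) hfin
  rw [← hQ _ (hχ j)]
  refine mul_le_mul_of_nonneg_left ?_ (hN0 j)
  refine Real.exp_le_exp.2 ?_
  rw [← div_div]
  refine div_le_div_of_nonneg_right ?_ (hN0 j)
  have hw := hwn0 j
  have hNj := hN0 j
  rw [div_le_iff₀ hT]
  have e3 : Y j * T = -(Q (χ j) + C * wm D (near2 v) (χ j)) -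
      C * (T + 1) * (N j + wm D (near2 v) (χ j)) := by
    show (-(Q (χ j) + C * wm D (near2 v) (χ j)) / T -
        C * (1 + 1 / T) * (N j + wm D (near2 v) (χ j))) * T = _
    field_simp
  rw [e3]
  show -(Q (χ j) + 2 * C * (1 + T) * (N j + wm D (near2 v) (χ j))) ≤ _
  have e4 : 0 ≤ C * T * (N j + wm D (near2 v) (χ j)) := by positivity
  have e5 : 0 ≤ C * N j := by positivity
  nlinarith

end Run7.h213.P.K.RH3
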