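import Pool.Agent.Helper780_CP.RL2a
import Pool.Agent.Run7.h213.P.KLLDefs2
import Pool.Agent.Run7.h213.P.CM_slice_state
import Pool.Agent.Run7.h213.P.CM_slice_basic
import Pool.Agent.Run7.h213.P.CM_slice_energy
import Pool.Agent.Run7.h213.P.CM_relabel_state
import Pool.Agent.Run7.h213.P.CM_relabel_num
import Pool.Agent.Run7.h213.P.CM_stable_any
import Pool.Agent.Run7.h213.P.CBase

set_option autoImplicit false

open MeasureTheory

namespace Run7.h213.P.K.RL2a

open Pool.Agent.Helper985.CP hiding IsState Ortho QQ31988 QQ_ins0_31988 QQ_mul31988 QQ_perm31988 QQ_sum31988 cube energy idjT_act idjT_compact idjT_smooth idj_W0_act idj_W0_bound idj_W0_smooth idj_int idj_sum ims_state ins0_num ins0_swap31988 ins_disj ins_state int_state kin kinE nrm2_pos pe pe_symm peierls psl_deriv psl_nrm psl_slice psl_state psl_weight pw_parseval pwaux_parseval q985_point rb833_X rb833_state rbX rb_act_X rb_bessel rb_bessel0 rb_ip_X rb_ip_XX rb_ip_XX_meas rb_ip_XX_one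 rb_ip_XX_vol rb_ip_swap rb_nice_X rb_nice_state relabel_num relabel_state relaux_kin remove_none_aux row_bound slice_basic slice_energy slice_state sm_ins0_31988 sphK sph_K sph_energy sph_isState sph_kin sph_sum spin_ins0_31988 stable_any state_comb sum_pe_half term_A31988 term_B31988 term_swap31988
open Pool.Agent.Helper780_CP hiding WI WI_add WI_const WI_coul WI_mul WI_near2 WI_one WI_pair WI_phi WI_smul WI_sum WI_wW WI_zero cost_avg icb kb klc ms_qf mulW_state multiC phb qf qf_int qf_one qf_split qf_wa rest_lower vb wm_add wm_mono wm_sum wm_tendsto int_one le_near2 locInt_inv2 locInt_shift near2_le near2_meas near2_nonneg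
open Pool.Agent.Helper780_CP.RL2a

variable [Env]

open Run7.h213.P.K


namespace RM

open Pool.Agent.Helper780_CP.RL2a.RM hiding Kp Kp_relab RF RF_relab WI WI_Up WI_add WI_at WI_const WI_coul WI_coul_rest WI_mono WI_near2 WI_near2_rest WI_one WI_pair WI_phi' WI_phi_rest WI_smul WI_sum WI_zero int_Kp sum_RF


section

variable {S : Type} (D : Species S) {I : Type} [Fintype I] [DecidableEq I] (sp : I → S)

/-- weights which are integrable against all states -/
def WI (ℓ : ℝ) (W : (I → E3) → ℝ) : Prop :=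
  ∀ Ψ : Wave D I, IsState D sp ℓ Ψ → ∀ τ, Integrable (fun x => W x * ‖Ψ τ x‖ ^ 2)

theorem WI_add (ℓ : ℝ) {V W : (I → E3) → ℝ} (hV : WI D sp ℓ V) (hW : WI D sp ℓ W) :
    WI D sp ℓ (fun x => V x + W x) := by
  intro Ψ hΨ τ
  refine ((hV Ψ hΨ τ).add (hW Ψ hΨ τ)).congr (Filter.Eventually.of_forall fun x => ?_)
  simp only [Pi.add_apply]
  ring

theorem WI_smul (ℓ : ℝ) {V : (I → E3) → ℝ} (hV : WI D sp ℓ V) (c : ℝ) :
    WI D sp ℓ (fun x => c * V x) := by
  intro Ψ hΨ τ
  refine ((hV Ψ hΨ τ).const_mul c).congr (Filter.Eventually.of_forall fun x => ?_)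
  simp only
  ring

theorem WI_sum (ℓ : ℝ) {A : Type} (s : Finset A) (V : A → (I → E3) → ℝ)
    (hV : ∀ a ∈ s, WI D sp ℓ (V a)) : WI D sp ℓ (fun x => ∑ a ∈ s, V a x) := by
  intro Ψ hΨ τ
  refine (integrable_finsetSum s fun a ha => hV a ha Ψ hΨ τ).congr
    (Filter.Eventually.of_forall fun x => ?_)
  simp only
  rw [Finset.sum_mul]

theorem WI_zero (ℓ : ℝ) : WI D sp ℓ (fun _ => 0) := by
  intro Ψ hΨ τ
  simp

theorem WI_const (ℓ : ℝ) (c : ℝ) : WI D sp ℓ (fun _ => c) := by
  intro Ψ hΨ τ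
  exact (int_state D sp ℓ Ψ hΨ τ).1.const_mul c

theorem WI_coul (ℓ : ℝ) : WI D sp ℓ (coul D sp) := by
  intro Ψ hΨ τ
  exact (int_state D sp ℓ Ψ hΨ τ).2.2.1

theorem WI_one (ℓ : ℝ) (i : I) (w : E3 → ℝ) (hw : LocallyIntegrable w volume) :
    WI D sp ℓ (fun x => w (x i)) := by
  intro Ψ hΨ τ
  have hcs := hΨ.compact τ
  have hsq : Continuous (fun x => ‖Ψ τ x‖ ^ 2) := ((hΨ.smooth τ).continuous.norm).pow 2
  have hsqc : HasCompactSupport (fun x => ‖Ψ τ x‖ ^ 2) :=
    hcs.comp_left (g := fun z : ℂ => ‖z‖ ^ 2) (by simp)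
  exact int_one i w hw _ hsq hsqc

theorem WI_pair (ℓ : ℝ) (i : I) : WI D sp ℓ (fun x => ∑ j, if i = j then 0 else
    D.charge (sp i) * D.charge (sp j) / ‖x i - x j‖) := by
  apply WI_sum
  intro j _
  by_cases hij : i = j
  · simp only [if_pos hij]
    exact WI_zero D sp ℓ
  · simp only [if_neg hij]
    intro Ψ hΨ τ
    exact (int_state D sp ℓ Ψ hΨ τ).2.2.2.1 i j hij

theorem WI_at (ℓ : ℝ) (v : E3) (i : I) (c : ℝ) : WI D sp ℓ (fun x => c / ‖x i - v‖) := by
  have h := locInt_shift locInt_inv1 v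
  have h2 := WI_smul D sp ℓ (WI_one D sp ℓ i (fun z => ‖z - v‖⁻¹) h) c
  simpa only [div_eq_mul_inv] using h2


theorem WI_phi' (ℓ : ℝ) (v : E3) (k : I) : WI D sp ℓ (fun x => ∑ j, if k = j then 0 else
    D.charge (sp j) / ‖x j - v‖) := by
  apply WI_sum
  intro j _
  by_cases hij : k = j
  · simp only [if_pos hij]
    exact WI_zero D sp ℓ
  · simp only [if_neg hij]
    exact WI_at D sp ℓ v j _


/-- integrability from a pointwise bound -/
theorem WI_mono (ℓ : ℝ) {V W : (I → E3) → ℝ} (hV : WI D sp ℓ V) (hm : Measurable W)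
    (h0 : ∀ x, 0 ≤ W x) (hle : ∀ x, W x ≤ V x) : WI D sp ℓ W := by
  intro Ψ hΨ τ
  refine (hV Ψ hΨ τ).mono ?_ (Filter.Eventually.of_forall fun x => ?_)
  · exact hm.aestronglyMeasurable.mul
      (((hΨ.smooth τ).continuous.norm).pow 2).aestronglyMeasurable
  · rw [Real.norm_of_nonneg (mul_nonneg (h0 x) (sq_nonneg _)),
      Real.norm_of_nonneg (mul_nonneg ((h0 x).trans (hle x)) (sq_nonneg _))]
    exact mul_le_mul_of_nonneg_right (hle x) (sq_nonneg _)

theorem WI_near2 (ℓ : ℝ) (y : E3) : WI D sp ℓ (near2 y) := by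
  have h1 : WI D sp ℓ (fun x : I → E3 => ∑ i, ‖x i - y‖⁻¹ ^ 2) := by
    apply WI_sum
    intro i _
    exact WI_one D sp ℓ i (fun z => ‖z - y‖⁻¹ ^ 2) (locInt_shift locInt_inv2 y)
  exact WI_mono D sp ℓ h1 (near2_meas y) (near2_nonneg y) (near2_le y)


/-- the kinetic part of the removal functional -/
noncomputable def Kp (k : I) (u : (I → E3) → ℂ) (x : I → E3) : ℝ :=
  ∑ j, if k = j then 0 else kin D sp j u x

theorem WI_Up (ℓ : ℝ) (v : E3) (k : I) : WI D sp ℓ (Up D sp v k) := by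
  have h := WI_add D sp ℓ (WI_add D sp ℓ (WI_coul D sp ℓ) (WI_smul D sp ℓ (WI_pair D sp ℓ k) (-1)))
    (WI_smul D sp ℓ (WI_phi' D sp ℓ v k) (D.charge (sp k)))
  intro Ψ hΨ τ
  refine (h Ψ hΨ τ).congr (Filter.Eventually.of_forall fun x => ?_)
  simp only [Up]
  ring

theorem int_Kp (ℓ : ℝ) (k : I) (Ψ : Wave D I) (hΨ : IsState D sp ℓ Ψ) (τ : I → Fin D.g) :
    Integrable (Kp D sp k (Ψ τ)) := by
  unfold Kp
  refine integrable_finsetSum _ fun j _ => ?_
  by_cases h : k = j
  · simp only [if_pos h]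
    exact integrable_zero _ _ _
  · simp only [if_neg h]
    exact (int_state D sp ℓ Ψ hΨ τ).2.1 j

/-- the removal functional -/
noncomputable def RF (v : E3) (W : E3 → ℝ) (C : ℝ) (k : I) (Ψ : Wave D I) : ℝ :=
  ∑ τ, ∫ x, (W (x k) * Kp D sp k (Ψ τ) x + W (x k) * (Up D sp v k x * ‖Ψ τ x‖ ^ 2) +
    C * (W (x k) * ((1 + near2 v x) * ‖Ψ τ x‖ ^ 2)))

end


section

variable {S : Type} (D : Species S) {I : Type} [Fintype I] [DecidableEq I] (sp : Option I → S)


theorem WI_coul_rest (ℓ : ℝ) :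
    WI D sp ℓ (fun X => coul D (fun i => sp (some i)) (fun i => X (some i))) := by
  have h := WI_add D sp ℓ (WI_coul D sp ℓ) (WI_smul D sp ℓ (WI_pair D sp ℓ none) (-1))
  intro Ψ hΨ τ
  refine (h Ψ hΨ τ).congr (Filter.Eventually.of_forall fun x => ?_)
  simp only
  rw [coul_split D sp x]
  ring

theorem WI_phi_rest (ℓ : ℝ) (v : E3) :
    WI D sp ℓ (fun X => phi D (fun i => sp (some i)) v (fun i => X (some i))) := by
  unfold phi
  apply WI_sum
  intro i _
  have := WI_at D sp ℓ v (some i) (D.charge (sp (some i)))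
  simpa only [mul_one_div] using this

theorem WI_near2_rest (ℓ : ℝ) (v : E3) :
    WI D sp ℓ (fun X => near2 v (fun i : I => X (some i))) := by
  have h1 : WI D sp ℓ (fun x : Option I → E3 => ∑ i : I, ‖x (some i) - v‖⁻¹ ^ 2) := by
    apply WI_sum
    intro i _
    exact WI_one D sp ℓ (some i) (fun z => ‖z - v‖⁻¹ ^ 2) (locInt_shift locInt_inv2 v)
  refine WI_mono D sp ℓ h1 ?_ (fun X => near2_nonneg v _) (fun X => near2_le v _)
  have hm : Measurable (fun X : Option I → E3 => (fun i : I => X (some i))) := by fun_prop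
  exact (near2_meas v).comp hm


end


section

variable {S : Type} (D : Species S) {I J : Type} [Fintype I] [DecidableEq I]
  [Fintype J] [DecidableEq J]


theorem Kp_relab (e : I ≃ J) (sp : I → S) (sp' : J → S) (h : ∀ i, sp' (e i) = sp i) (i : I)
    (u : (I → E3) → ℂ) (x : J → E3) :
    Kp D sp' (e i) (fun y : J → E3 => u (fun k => y (e k))) x =
      Kp D sp i u (fun k => x (e k)) := by
  unfold Kp
  rw [← Equiv.sum_comp e]
  refine Finset.sum_congr rfl fun j _ => ?_
  by_cases hij : i = j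
  · rw [if_pos hij, if_pos (congrArg e hij)]
  · rw [if_neg hij, if_neg (fun hh => hij (e.injective hh))]
    exact relaux_kin D e sp sp' h j u x


theorem RF_relab (e : I ≃ J) (sp : I → S) (sp' : J → S) (h : ∀ i, sp' (e i) = sp i) (i : I)
    (v : E3) (W : E3 → ℝ) (C : ℝ) (Ψ : Wave D I) :
    RF D sp' v W C (e i) (relab D e Ψ) = RF D sp v W C i Ψ := by
  unfold RF
  rw [← relaux_sum e]
  refine Finset.sum_congr rfl fun τ _ => ?_
  rw [← relaux_int e]
  congr 1
  funext x
  have h1 : Kp D sp' (e i) (relab D e Ψ τ) x =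
      Kp D sp i (Ψ (fun i => τ (e i))) (fun k => x (e k)) :=
    Kp_relab D e sp sp' h i (Ψ (fun i => τ (e i))) x
  rw [h1, Up_relab D e sp sp' h i v x, near2_relab e v x]
  rfl


end

section

variable {S : Type} (D : Species S) {I : Type} [Fintype I] [DecidableEq I] (sp : I → S)

theorem sum_RF (ℓ : ℝ) (v : E3) (W : E3 → ℝ) (hW : Continuous W) (h0 : ∀ z, 0 ≤ W z) (M : ℝ)
    (hM : ∀ z, W z ≤ M) (C : ℝ) (Ψ : Wave D I) (hΨ : IsState D sp ℓ Ψ) :
    ∑ i, RF D sp v W C i Ψ =
      (∑ τ, ∫ x, ∑ j, ((∑ i, W (x i)) - W (x j)) * kin D sp j (Ψ τ) x) +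
          wm D (fun x => (∑ i, W (x i)) * coul D sp x -
            (∑ i, W (x i) * ∑ j, if i = j then 0 else
              D.charge (sp i) * D.charge (sp j) / ‖x i - x j‖) +
            ∑ i, W (x i) * (D.charge (sp i) * ∑ j, if i = j then 0 else
              D.charge (sp j) / ‖x j - v‖)) Ψ +
          C * wm D (fun x => (∑ i, W (x i)) * (1 + near2 v x)) Ψ := by
  unfold RF wm
  rw [Finset.sum_comm, Finset.mul_sum, ← Finset.sum_add_distrib, ← Finset.sum_add_distrib]
  refine Finset.sum_congr rfl fun τ _ => ?_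
  have k1 : ∀ i, Integrable (fun x : I → E3 => W (x i) * Kp D sp i (Ψ τ) x) := fun i =>
    bmul W hW h0 M hM i (int_Kp D sp ℓ i Ψ hΨ τ)
  have k2 : ∀ i, Integrable (fun x : I → E3 => W (x i) * (Up D sp v i x * ‖Ψ τ x‖ ^ 2)) := fun i =>
    bmul W hW h0 M hM i (WI_Up D sp ℓ v i Ψ hΨ τ)
  have k3 : ∀ i, Integrable (fun x : I → E3 =>
      C * (W (x i) * ((1 + near2 v x) * ‖Ψ τ x‖ ^ 2))) := fun i =>
    (bmul W hW h0 M hM i
      (WI_add D sp ℓ (WI_const D sp ℓ 1) (WI_near2 D sp ℓ v) Ψ hΨ τ)).const_mul C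
  have e1 : ∀ i, ∫ x : I → E3, (W (x i) * Kp D sp i (Ψ τ) x +
      W (x i) * (Up D sp v i x * ‖Ψ τ x‖ ^ 2) + C * (W (x i) * ((1 + near2 v x) * ‖Ψ τ x‖ ^ 2))) =
      (∫ x : I → E3, W (x i) * Kp D sp i (Ψ τ) x) +
      (∫ x : I → E3, W (x i) * (Up D sp v i x * ‖Ψ τ x‖ ^ 2)) +
      ∫ x : I → E3, C * (W (x i) * ((1 + near2 v x) * ‖Ψ τ x‖ ^ 2)) := by
    intro i
    have k12 : Integrable (fun x : I → E3 => W (x i) * Kp D sp i (Ψ τ) x +
      W (x i) * (Up D sp v i x * ‖Ψ τ x‖ ^ 2)) := (k1 i).add (k2 i)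
    rw [integral_add k12 (k3 i), integral_add (k1 i) (k2 i)]
  simp only [e1]
  rw [Finset.sum_add_distrib, Finset.sum_add_distrib, ← integral_finsetSum _ fun i _ => k1 i,
    ← integral_finsetSum _ fun i _ => k2 i, ← integral_finsetSum _ fun i _ => k3 i,
    ← integral_const_mul]
  congr 1
  · congr 1
    · refine integral_congr_ae (Filter.Eventually.of_forall fun x => ?_)
      simp only
      have hK : ∀ i, Kp D sp i (Ψ τ) x = (∑ j, kin D sp j (Ψ τ) x) - kin D sp i (Ψ τ) x := by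
        intro i
        unfold Kp
        rw [← Finset.add_sum_erase _ _ (Finset.mem_univ i),
          ← Finset.add_sum_erase _ (fun j => kin D sp j (Ψ τ) x) (Finset.mem_univ i), if_pos rfl]
        have : ∑ j ∈ Finset.univ.erase i, (if i = j then 0 else kin D sp j (Ψ τ) x) =
            ∑ j ∈ Finset.univ.erase i, kin D sp j (Ψ τ) x := by
          refine Finset.sum_congr rfl fun j hj => ?_
          rw [if_neg (Finset.ne_of_mem_erase hj).symm]
        rw [this]
        ring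
      simp only [hK, mul_sub, sub_mul, Finset.sum_sub_distrib]
      rw [← Finset.sum_mul, ← Finset.mul_sum]
    · refine integral_congr_ae (Filter.Eventually.of_forall fun x => ?_)
      simp only
      rw [Finset.sum_mul, ← Finset.sum_sub_distrib, ← Finset.sum_add_distrib, Finset.sum_mul]
      refine Finset.sum_congr rfl fun i _ => ?_
      unfold Up
      ring
  · refine integral_congr_ae (Filter.Eventually.of_forall fun x => ?_)
    simp only
    rw [Finset.sum_mul, Finset.sum_mul, Finset.mul_sum]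
    refine Finset.sum_congr rfl fun i _ => ?_
    ring

end

end RM



end Run7.h213.P.K.RL2a
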