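import Pool.Agent.Helper780_CP.RH5
import Pool.Agent.Run7.h213.P.KLLDefs2
import Pool.Agent.Run7.h213.P.KLPDefs
import Pool.Agent.Run7.h213.P.KRL2a
import Pool.Agent.Run7.h213.P.TM_peierls_relabel
import Pool.Agent.Run7.h213.P.KRH4
import Pool.Agent.Run7.h213.P.CBase

-- OWNER helper780 PID MP_43dd88_mp NAME H5 Coulomb T>0: local removal sum
set_option autoImplicit false

open MeasureTheory
open scoped Topology

namespace Run7.h213.P.K.RH5

open Pool.Agent.Helper985.CP hiding IsState MT_core MT_energy_smul MT_psl_lin MT_slice_int MT_state_smul MT_zero Ortho QQ31988 QQ_ins0_31988 QQ_mul31988 QQ_perm31988 QQ_sum31988 cl_energy_zero cl_kinE_zero cl_kin_zero cl_pe_zero cl_zero cube energy idjT_act idjT_compact idjT_smooth idj_W0_act idj_W0_bound idj_W0_smooth idj_int idj_sum ims_state ins0_num ins0_swap31988 insN_props insNp_energy insNp_kin insNp_state ins_disj ins_state int_state kin kinE moveT_any moveT_none nrm2_pos pe pe_symm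 peierls peierls_relabel prl_kin prl_sub psl_deriv psl_energy psl_energy_k psl_energy_kint psl_energy_vint psl_energy_w psl_nrm psl_slice psl_state psl_weight pw_parseval pwaux_parseval q985_point rb833_X rb833_state rbX rb_act_X rb_bessel rb_bessel0 rb_ip_X rb_ip_XX rb_ip_XX_meas rb_ip_XX_one rb_ip_XX_vol rb_ip_swap rb_nice_X rb_nice_state relabel_num relabel_state relaux_kin remove_none_aux row_bound slice_basic slice_energy slice_state sm_ins0_31988 sphK sph_K sph_energy sph_isState sph_kin sph_sum spin_ins0_31988 stable_any state_comb sum_pe_half term_A31988 term_B31988 term_swap31988 trace_bound trace_bound_dens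
open Pool.Agent.Helper780_CP hiding FLT MM NE WI WI_add WI_const WI_coul WI_mul WI_near2 WI_one WI_pair WI_phi WI_smul WI_sum WI_wW WI_zero cost_avg icb kb kcy klc ms_qf mulW_nrm_le mulW_state multiC phb qf qf_int qf_one qf_split qf_wa rest_lower vb wm_add wm_mono wm_sum wm_tendsto
open Pool.Agent.Helper780_CP.RH5 hiding RF_split int_nb kcy_sub_klc klc_sum one_i removalT

variable [Env]

open Run7.h213.P.K
open Run7.h213.P.K.RH4 (rem_loc)

open Run7.h213.P.K

section aux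

open Pool.Agent.Helper780_CP.RL2a.RM hiding Kp Kp_relab RF RF_relab WI WI_Up WI_add WI_at WI_const WI_coul WI_coul_rest WI_mono WI_near2 WI_near2_rest WI_one WI_pair WI_phi' WI_phi_rest WI_smul WI_sum WI_zero int_Kp sum_RF WI_phi int_one le_near2 locInt_inv2 locInt_shift near2_le near2_meas near2_nonneg
open Run7.h213.P.K.RL2a.RM


theorem RF_split {S : Type} (D : Species S) {I : Type} [Fintype I] [DecidableEq I] (sp : I → S)
    (ℓ : ℝ) (v : E3) (W : E3 → ℝ) (hW : Continuous W) (h0 : ∀ z, 0 ≤ W z) (M : ℝ)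
    (hM : ∀ z, W z ≤ M) (C : ℝ) (i : I) (Ψ : Wave D I) (hΨ : IsState D sp ℓ Ψ) :
    RF D sp v W C i Ψ = (∑ τ, ∫ x, W (x i) * Kp D sp i (Ψ τ) x) +
      wm D (fun x => W (x i) * Up D sp v i x) Ψ +
      C * wm D (fun x => W (x i) * (1 + near2 v x)) Ψ := by
  unfold RF wm
  rw [Finset.mul_sum, ← Finset.sum_add_distrib, ← Finset.sum_add_distrib]
  refine Finset.sum_congr rfl fun τ _ => ?_
  have k1 : Integrable (fun x : I → E3 => W (x i) * Kp D sp i (Ψ τ) x) :=
    bmul W hW h0 M hM i (int_Kp D sp ℓ i Ψ hΨ τ)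
  have k2 : Integrable (fun x : I → E3 => W (x i) * (Up D sp v i x * ‖Ψ τ x‖ ^ 2)) :=
    bmul W hW h0 M hM i (WI_Up D sp ℓ v i Ψ hΨ τ)
  have k3 : Integrable (fun x : I → E3 =>
      C * (W (x i) * ((1 + near2 v x) * ‖Ψ τ x‖ ^ 2))) :=
    (bmul W hW h0 M hM i
      (RL2a.RM.WI_add D sp ℓ (RL2a.RM.WI_const D sp ℓ 1) (RL2a.RM.WI_near2 D sp ℓ v) Ψ hΨ τ)).const_mul C
  have k12 : Integrable (fun x : I → E3 => W (x i) * Kp D sp i (Ψ τ) x +
      W (x i) * (Up D sp v i x * ‖Ψ τ x‖ ^ 2)) := k1.add k2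
  rw [integral_add k12 k3, integral_add k1 k2, integral_const_mul]
  congr 1
  · congr 1
    refine integral_congr_ae (Filter.Eventually.of_forall fun x => ?_)
    simp only
    ring
  · congr 1
    refine integral_congr_ae (Filter.Eventually.of_forall fun x => ?_)
    simp only
    ring


theorem kcy_sub_klc {S : Type} (D : Species S) {I : Type} [Fintype I] [DecidableEq I] (sp : I → S)
    (ℓ : ℝ) (y : E3) (r : ℝ) (Ψ : Wave D I) (hΨ : IsState D sp ℓ Ψ) :
    kcy D sp y r Ψ - klc D sp y r Ψ =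
      ∑ τ, ∫ x, ∑ j, ((∑ i, cy y r (x i) ^ 2) - cy y r (x j) ^ 2) * kin D sp j (Ψ τ) x := by
  unfold kcy klc
  rw [← Finset.sum_sub_distrib]
  refine Finset.sum_congr rfl fun τ _ => ?_
  have k0 : ∀ i j, Integrable (fun x : I → E3 => cy y r (x i) ^ 2 * kin D sp j (Ψ τ) x) :=
    fun i j => bmul (fun z => cy y r z ^ 2) (cyW_cont y r) (cyW_nonneg y r) 1 (cyW_le y r) i
      ((int_state D sp ℓ Ψ hΨ τ).2.1 j)
  have k1 : Integrable (fun x : I → E3 => ∑ j, (∑ i, cy y r (x i) ^ 2) * kin D sp j (Ψ τ) x) := by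
    refine integrable_finsetSum _ fun j _ => ?_
    refine (integrable_finsetSum Finset.univ fun i _ => k0 i j).congr
      (Filter.Eventually.of_forall fun x => ?_)
    simp only
    rw [Finset.sum_mul]
  have k2 : Integrable (fun x : I → E3 => ∑ j, cy y r (x j) ^ 2 * kin D sp j (Ψ τ) x) :=
    integrable_finsetSum _ fun j _ => k0 j j
  rw [← integral_sub k1 k2]
  refine integral_congr_ae (Filter.Eventually.of_forall fun x => ?_)
  simp only
  rw [← Finset.sum_sub_distrib]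
  refine Finset.sum_congr rfl fun j _ => ?_
  ring

theorem klc_sum {S : Type} (D : Species S) {I : Type} [Fintype I] [DecidableEq I] (sp : I → S)
    (ℓ : ℝ) (y : E3) (r : ℝ) (Ψ : Wave D I) (hΨ : IsState D sp ℓ Ψ) :
    ∑ i, (∑ τ, ∫ x, cy y r (x i) ^ 2 * kin D sp i (Ψ τ) x) = klc D sp y r Ψ := by
  unfold klc
  rw [Finset.sum_comm]
  refine Finset.sum_congr rfl fun τ _ => ?_
  rw [← integral_finsetSum _ fun i _ => bmul (fun z => cy y r z ^ 2) (cyW_cont y r)
    (cyW_nonneg y r) 1 (cyW_le y r) i ((int_state D sp ℓ Ψ hΨ τ).2.1 i)]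

theorem int_nb {S : Type} (D : Species S) {I : Type} [Fintype I] [DecidableEq I] (sp : I → S)
    (ℓ : ℝ) (y : E3) (R : ℝ) (Ψ : Wave D I) (hΨ : IsState D sp ℓ Ψ) (i : I) (τ : I → Fin D.g) :
    Integrable (fun x : I → E3 => (if ‖x i - y‖ ≤ R then (1 : ℝ) else 0) * ‖Ψ τ x‖ ^ 2) := by
  refine (int_state D sp ℓ Ψ hΨ τ).1.bdd_mul (c := 1) ?_ (Filter.Eventually.of_forall fun x => ?_)
  · refine Measurable.aestronglyMeasurable ?_
    refine Measurable.ite ?_ measurable_const measurable_const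
    exact measurableSet_le (by fun_prop) measurable_const
  · by_cases h : ‖x i - y‖ ≤ R
    · simp [h]
    · simp [h]


end aux

open Pool.Agent.Helper780_CP.RL2a.RM hiding Kp Kp_relab RF RF_relab WI WI_Up WI_add WI_at WI_const WI_coul WI_coul_rest WI_mono WI_near2 WI_near2_rest WI_one WI_pair WI_phi' WI_phi_rest WI_smul WI_sum WI_zero int_Kp sum_RF WI_phi int_one le_near2 locInt_inv2 locInt_shift near2_le near2_meas near2_nonneg in
open Run7.h213.P.K.RL2a.RM in
theorem one_i {S : Type} [Fintype S] [DecidableEq S] (D : Species S)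
    (T θ δ C : ℝ) (hθ : 0 < θ)
    (hC : ∀ {I : Type} [Fintype I] [DecidableEq I] (sp : Option I → S) (ℓ : ℝ) (v : E3),
      0 < ℓ → Metric.closedBall v δ ⊆ cube ℓ → ∀ B Z : ℝ, 0 < Z →
      (∀ z ∈ peierls D sp ℓ T, z ≤ Z) →
      (∀ Φ, IsState D (fun i => sp (some i)) ℓ Φ →
        B * nrm2 D Φ ≤ energy D (fun i => sp (some i)) Φ) →
      ∀ (y : E3) (r : ℝ), 0 < r → r ≤ 1 → ∀ {k : ℕ} (p : Fin k → ℝ) (Φ : Fin k → Wave D (Option I)),
      (∀ j, 0 ≤ p j) → (∀ j, IsState D sp ℓ (Φ j)) → ∀ b G κ : ℝ, 0 < b → 0 < G → 0 < κ →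
      SGc D b Φ → (∀ j τ x, Φ j τ x ≠ 0 → ∑ o, cy y r (x o) ^ 2 ≤ G) →
      -T * Real.log Z * wx D p Φ (fun x => cy y r (x none) ^ 2) -
          T * ∑ j, p j * (wm D (fun x => cy y r (x none) ^ 2) (Φ j) * Real.log (p j)) ≤
        (∑ j, p j * ∑ τ, ∫ x, ∑ i, cy y r (x none) ^ 2 * kin D sp (some i) (Φ j τ) x) +
        wx D p Φ (fun x => cy y r (x none) ^ 2 *
          (coul D (fun i => sp (some i)) (fun i => x (some i)) +
            D.charge (sp none) * ∑ i, D.charge (sp (some i)) / ‖x (some i) - v‖)) +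
        C * wx D p Φ (fun x => cy y r (x none) ^ 2 * (1 + near2 v x)) +
        θ * (∑ j, p j * ∑ τ, ∫ x, cy y r (x none) ^ 2 * kin D sp none (Φ j τ) x) +
        C / r ^ 2 * wx D p Φ (fun x => if ‖x none - y‖ ≤ 2 * r then 1 else 0) +
        T * (wx D p Φ (fun x => cy y r (x none) ^ 2) * Real.log (b * G / κ)) +
        C * κ / (cnt sp (sp none) : ℝ))
    {I : Type} [Fintype I] [DecidableEq I] (sp : I → S) (ℓ : ℝ) (v : E3)
    (hℓ : 0 < ℓ) (hv : Metric.closedBall v δ ⊆ cube ℓ) (Z : ℝ) (hZ : 0 < Z)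
    (hpei : ∀ z ∈ peierls D sp ℓ T, z ≤ Z)
    (hB : ∀ {J : Type} [Fintype J] [DecidableEq J] (sp' : J → S), ∃ B : ℝ,
        ∀ Φ, IsState D sp' ℓ Φ → B * nrm2 D Φ ≤ energy D sp' Φ)
    (y : E3) (r : ℝ) (hr : 0 < r) (hr1 : r ≤ 1) {k : ℕ} (p : Fin k → ℝ) (Φ : Fin k → Wave D I)
    (hp : ∀ j, 0 ≤ p j) (hΦ : ∀ j, IsState D sp ℓ (Φ j)) (b G κ : ℝ) (hb : 0 < b) (hG : 0 < G)
    (hκ : 0 < κ) (hSG : SGc D b Φ)
    (hsup : ∀ j τ x, Φ j τ x ≠ 0 → ∑ i, cy y r (x i) ^ 2 ≤ G) (i : I) :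
    -T * Real.log Z * wx D p Φ (fun x => cy y r (x i) ^ 2) -
          T * ∑ j, p j * (wm D (fun x => cy y r (x i) ^ 2) (Φ j) * Real.log (p j)) ≤
        (∑ j, p j * RF D sp v (fun z => cy y r z ^ 2) C i (Φ j)) +
        θ * (∑ j, p j * ∑ τ, ∫ x, cy y r (x i) ^ 2 * kin D sp i (Φ j τ) x) +
        C / r ^ 2 * wx D p Φ (fun x => if ‖x i - y‖ ≤ 2 * r then 1 else 0) +
        T * (wx D p Φ (fun x => cy y r (x i) ^ 2) * Real.log (b * G / κ)) +
        C * κ / (cnt sp (sp i) : ℝ) := by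
  let e : I ≃ Option {j // j ≠ i} := (Equiv.optionSubtypeNe i).symm
  have hei : e i = none := by simp [e]
  let sp' : Option {j // j ≠ i} → S := fun o => sp (e.symm o)
  have h : ∀ j, sp' (e j) = sp j := fun j => by simp [sp']
  obtain ⟨B, hB'⟩ := hB (fun k : {j // j ≠ i} => sp' (some k))
  have hpr := (peierls_relabel D e sp sp' h ℓ T).1
  have hst : ∀ j, IsState D sp' ℓ (relab D e (Φ j)) := fun j =>
    relabel_state D e sp sp' h ℓ (Φ j) (hΦ j)
  have hSG' : SGc D b (fun j => relab D e (Φ j)) := by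
    intro γ
    have h1 := hSG γ
    have h2 := (relabel_num D e sp sp' h (fun τ x => ∑ j, γ j * Φ j τ x)).1
    rw [← h2] at h1
    exact h1
  have hsup' : ∀ j τ x, relab D e (Φ j) τ x ≠ 0 → ∑ o, cy y r (x o) ^ 2 ≤ G := by
    intro j τ x hx
    have h1 := hsup j (fun i => τ (e i)) (fun i => x (e i)) hx
    rw [← Equiv.sum_comp e]
    exact h1
  have key := hC sp' ℓ v hℓ hv B Z hZ (by rw [← hpr]; exact hpei) hB' y r hr hr1 p
    (fun j => relab D e (Φ j)) hp hst b G κ hb hG hκ hSG' hsup'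
  -- translate
  have t1 : ∀ j, wm D (fun X : Option {j // j ≠ i} → E3 => cy y r (X none) ^ 2)
      (relab D e (Φ j)) = wm D (fun x => cy y r (x i) ^ 2) (Φ j) := by
    intro j
    rw [← hei]
    exact wm_rel D e (fun x => cy y r (x i) ^ 2) (Φ j)
  have t7 : ∀ j, wm D (fun X : Option {j // j ≠ i} → E3 => if ‖X none - y‖ ≤ 2 * r then (1 : ℝ)
      else 0) (relab D e (Φ j)) = wm D (fun x => if ‖x i - y‖ ≤ 2 * r then (1 : ℝ) else 0) (Φ j) := by
    intro j
    rw [← hei]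
    exact wm_rel D e (fun x => if ‖x i - y‖ ≤ 2 * r then (1 : ℝ) else 0) (Φ j)
  have t6 : ∀ j, (∑ τ, ∫ x, cy y r (x none) ^ 2 * kin D sp' none (relab D e (Φ j) τ) x) =
      ∑ τ, ∫ x, cy y r (x i) ^ 2 * kin D sp i (Φ j τ) x := by
    intro j
    rw [← hei, ← relaux_sum e]
    refine Finset.sum_congr rfl fun τ _ => ?_
    rw [← relaux_int e]
    congr 1
    funext x
    have h1 : kin D sp' (e i) (relab D e (Φ j) τ) x =
        kin D sp i (Φ j (fun i => τ (e i))) (fun k => x (e k)) :=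
      relaux_kin D e sp sp' h i (Φ j (fun i => τ (e i))) x
    rw [h1]
  have t345 : ∀ j, (∑ τ, ∫ x, ∑ k : {j // j ≠ i}, cy y r (x none) ^ 2 *
        kin D sp' (some k) (relab D e (Φ j) τ) x) +
      wm D (fun x => cy y r (x none) ^ 2 *
          (coul D (fun k : {j // j ≠ i} => sp' (some k)) (fun k => x (some k)) +
            D.charge (sp' none) * ∑ k : {j // j ≠ i}, D.charge (sp' (some k)) / ‖x (some k) - v‖))
        (relab D e (Φ j)) +
      C * wm D (fun x => cy y r (x none) ^ 2 * (1 + near2 v x)) (relab D e (Φ j)) =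
      RF D sp v (fun z => cy y r z ^ 2) C i (Φ j) := by
    intro j
    rw [← RF_relab D e sp sp' h i v (fun z => cy y r z ^ 2) C (Φ j), hei,
      RF_split D sp' ℓ v (fun z => cy y r z ^ 2) (cyW_cont y r) (cyW_nonneg y r) 1 (cyW_le y r) C
        none (relab D e (Φ j)) (hst j)]
    have hKp : ∀ (u : (Option {j // j ≠ i} → E3) → ℂ) X, Kp D sp' none u X =
        ∑ k : {j // j ≠ i}, kin D sp' (some k) u X := by
      intro u X
      unfold Kp
      rw [Fintype.sum_option, if_pos rfl, zero_add]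
      refine Finset.sum_congr rfl fun j _ => ?_
      rw [if_neg (by simp)]
    have hUp : ∀ X, Up D sp' v none X =
        coul D (fun k : {j // j ≠ i} => sp' (some k)) (fun k => X (some k)) +
        D.charge (sp' none) * ∑ k : {j // j ≠ i}, D.charge (sp' (some k)) / ‖X (some k) - v‖ := by
      intro X
      unfold Up
      rw [coul_split D sp' X, Fintype.sum_option (f := fun j => if none = j then 0 else
        D.charge (sp' j) / ‖X j - v‖), if_pos rfl, zero_add]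
      have : ∀ k : {j // j ≠ i}, (if none = some k then 0 else
          D.charge (sp' (some k)) / ‖X (some k) - v‖) =
          D.charge (sp' (some k)) / ‖X (some k) - v‖ := by
        intro k
        rw [if_neg (by simp)]
      simp only [this]
      ring
    simp only [hKp, hUp, Finset.mul_sum]
  have hcnt : cnt sp' (sp' none) = cnt sp (sp i) := by
    rw [cnt_relab e sp sp' h, ← hei, h]
  rw [hcnt] at key
  unfold wx at key ⊢
  simp only [t1, t6, t7] at key
  have hsum : (∑ j, p j * ∑ τ, ∫ x, ∑ k : {j // j ≠ i}, cy y r (x none) ^ 2 *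
        kin D sp' (some k) (relab D e (Φ j) τ) x) +
      (∑ j, p j * wm D (fun x => cy y r (x none) ^ 2 *
          (coul D (fun k : {j // j ≠ i} => sp' (some k)) (fun k => x (some k)) +
            D.charge (sp' none) * ∑ k : {j // j ≠ i}, D.charge (sp' (some k)) / ‖x (some k) - v‖))
        (relab D e (Φ j))) +
      C * (∑ j, p j * wm D (fun x => cy y r (x none) ^ 2 * (1 + near2 v x)) (relab D e (Φ j))) =
      ∑ j, p j * RF D sp v (fun z => cy y r z ^ 2) C i (Φ j) := by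
    rw [Finset.mul_sum, ← Finset.sum_add_distrib, ← Finset.sum_add_distrib]
    refine Finset.sum_congr rfl fun j _ => ?_
    rw [← t345 j]
    ring
  rw [hsum] at key
  exact key

/-- TARGET -/
theorem removalT {S : Type} [Fintype S] [DecidableEq S] (D : Species S) (hD : D.Valid)
    (T θ δ : ℝ) (hT : 0 < T) (hθ : 0 < θ) (hδ : 0 < δ) (hδ1 : δ ≤ 1) :
    ∃ C : ℝ, 0 < C ∧ ∀ {I : Type} [Fintype I] [DecidableEq I] (sp : I → S) (ℓ : ℝ) (v : E3),
      0 < ℓ → Metric.closedBall v δ ⊆ cube ℓ → ∀ Z : ℝ, 0 < Z →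
      (∀ z ∈ peierls D sp ℓ T, z ≤ Z) →
      (∀ {J : Type} [Fintype J] [DecidableEq J] (sp' : J → S), ∃ B : ℝ,
        ∀ Φ, IsState D sp' ℓ Φ → B * nrm2 D Φ ≤ energy D sp' Φ) →
      ∀ (y : E3) (r : ℝ), 0 < r → r ≤ 1 → ∀ {k : ℕ} (p : Fin k → ℝ) (Φ : Fin k → Wave D I),
      (∀ j, 0 ≤ p j) → (∀ j, IsState D sp ℓ (Φ j)) → ∀ b G κ : ℝ, 0 < b → 0 < G → 0 < κ →
      SGc D b Φ → (∀ j τ x, Φ j τ x ≠ 0 → ∑ i, cy y r (x i) ^ 2 ≤ G) →
      -T * Real.log Z * wx D p Φ (fun x => ∑ i, cy y r (x i) ^ 2) -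
          T * ∑ j, p j * (wm D (fun x => ∑ i, cy y r (x i) ^ 2) (Φ j) * Real.log (p j)) ≤
        (∑ j, p j * (kcy D sp y r (Φ j) - klc D sp y r (Φ j))) +
        wx D p Φ (fun x => (∑ i, cy y r (x i) ^ 2) * coul D sp x -
            (∑ i, cy y r (x i) ^ 2 * ∑ j, if i = j then 0 else
              D.charge (sp i) * D.charge (sp j) / ‖x i - x j‖) +
            ∑ i, cy y r (x i) ^ 2 * (D.charge (sp i) * ∑ j, if i = j then 0 else
              D.charge (sp j) / ‖x j - v‖)) +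
        C * wx D p Φ (fun x => (∑ i, cy y r (x i) ^ 2) * (1 + near2 v x)) +
        θ * (∑ j, p j * klc D sp y r (Φ j)) + C / r ^ 2 * wx D p Φ (nb y (2 * r)) +
        T * (wx D p Φ (fun x => ∑ i, cy y r (x i) ^ 2) * Real.log (b * G / κ)) + C * κ := by
  classical
  obtain ⟨C, hC0, hC⟩ := rem_loc D hD T θ δ hT hθ hδ hδ1
  refine ⟨C * (Fintype.card S + 1), by positivity, ?_⟩
  intro I _ _ sp ℓ v hℓ hv Z hZ hpei hB y r hr hr1 k p Φ hp hΦ b G κ hb hG hκ hSG hsup
  have hone := one_i D T θ δ C hθ hC sp ℓ v hℓ hv Z hZ hpei hB y r hr hr1 p Φ hp hΦ b G κ hb hG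
    hκ hSG hsup
  have hsum := Finset.sum_le_sum fun (i : I) (_ : i ∈ Finset.univ) => hone i
  have iW : ∀ j i τ, Integrable (fun x : I → E3 => cy y r (x i) ^ 2 * ‖Φ j τ x‖ ^ 2) :=
    fun j i τ => Pool.Agent.Helper780_CP.RL2a.RM.bmul (fun z => cy y r z ^ 2) (cyW_cont y r)
      (cyW_nonneg y r) 1 (cyW_le y r) i (int_state D sp ℓ (Φ j) (hΦ j) τ).1
  have sW : ∀ j, ∑ i, wm D (fun x => cy y r (x i) ^ 2) (Φ j) =
      wm D (fun x => ∑ i, cy y r (x i) ^ 2) (Φ j) := fun j =>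
    wm_sumW D sp ℓ (fun i x => cy y r (x i) ^ 2) (Φ j) (iW j)
  have sN : ∀ j, ∑ i, wm D (fun x => if ‖x i - y‖ ≤ 2 * r then (1 : ℝ) else 0) (Φ j) =
      wm D (nb y (2 * r)) (Φ j) := fun j =>
    wm_sumW D sp ℓ (fun i x => if ‖x i - y‖ ≤ 2 * r then (1 : ℝ) else 0) (Φ j)
      (int_nb D sp ℓ y (2 * r) (Φ j) (hΦ j))
  have a1 : ∑ i, wx D p Φ (fun x => cy y r (x i) ^ 2) =
      wx D p Φ (fun x => ∑ i, cy y r (x i) ^ 2) := by
    unfold wx
    rw [Finset.sum_comm]
    refine Finset.sum_congr rfl fun j _ => ?_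
    rw [← Finset.mul_sum, sW]
  have a2 : ∑ i : I, ∑ j, p j * (wm D (fun x => cy y r (x i) ^ 2) (Φ j) * Real.log (p j)) =
      ∑ j, p j * (wm D (fun x => ∑ i, cy y r (x i) ^ 2) (Φ j) * Real.log (p j)) := by
    rw [Finset.sum_comm]
    refine Finset.sum_congr rfl fun j _ => ?_
    rw [← Finset.mul_sum, ← Finset.sum_mul, sW]
  have a3 : ∑ i : I, ∑ j, p j * Run7.h213.P.K.RL2a.RM.RF D sp v
        (fun z => cy y r z ^ 2) C i (Φ j) =
      (∑ j, p j * (kcy D sp y r (Φ j) - klc D sp y r (Φ j))) +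
        wx D p Φ (fun x => (∑ i, cy y r (x i) ^ 2) * coul D sp x -
            (∑ i, cy y r (x i) ^ 2 * ∑ j, if i = j then 0 else
              D.charge (sp i) * D.charge (sp j) / ‖x i - x j‖) +
            ∑ i, cy y r (x i) ^ 2 * (D.charge (sp i) * ∑ j, if i = j then 0 else
              D.charge (sp j) / ‖x j - v‖)) +
        C * wx D p Φ (fun x => (∑ i, cy y r (x i) ^ 2) * (1 + near2 v x)) := by
    unfold wx
    rw [Finset.sum_comm, Finset.mul_sum, ← Finset.sum_add_distrib, ← Finset.sum_add_distrib]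
    refine Finset.sum_congr rfl fun j _ => ?_
    rw [← Finset.mul_sum, Run7.h213.P.K.RL2a.RM.sum_RF D sp ℓ v (fun z => cy y r z ^ 2)
      (cyW_cont y r) (cyW_nonneg y r) 1 (cyW_le y r) C (Φ j) (hΦ j),
      kcy_sub_klc D sp ℓ y r (Φ j) (hΦ j)]
    ring
  have a4 : ∑ i : I, ∑ j, p j * ∑ τ, ∫ x, cy y r (x i) ^ 2 * kin D sp i (Φ j τ) x =
      ∑ j, p j * klc D sp y r (Φ j) := by
    rw [Finset.sum_comm]
    refine Finset.sum_congr rfl fun j _ => ?_
    rw [← Finset.mul_sum, klc_sum D sp ℓ y r (Φ j) (hΦ j)]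
  have a5 : ∑ i : I, wx D p Φ (fun x => if ‖x i - y‖ ≤ 2 * r then (1 : ℝ) else 0) =
      wx D p Φ (nb y (2 * r)) := by
    unfold wx
    rw [Finset.sum_comm]
    refine Finset.sum_congr rfl fun j _ => ?_
    rw [← Finset.mul_sum, sN]
  have a6 := cnt_sum sp (C * κ) (by positivity)
  simp only [Finset.sum_add_distrib, Finset.sum_sub_distrib, ← Finset.mul_sum, ← Finset.sum_mul,
    a1, a2, a3, a4, a5] at hsum
  have n1 : 0 ≤ wx D p Φ (fun x => (∑ i, cy y r (x i) ^ 2) * (1 + near2 v x)) := by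
    unfold wx
    refine Finset.sum_nonneg fun j _ => mul_nonneg (hp j) (wm_nonneg' D _ (fun x => ?_) _)
    have := Pool.Agent.Helper780_CP.RL2a.RM.near2_nonneg v x
    have h2 : 0 ≤ ∑ i, cy y r (x i) ^ 2 := Finset.sum_nonneg fun i _ => sq_nonneg _
    positivity
  have n2 : 0 ≤ wx D p Φ (nb y (2 * r)) := by
    unfold wx
    refine Finset.sum_nonneg fun j _ => mul_nonneg (hp j) (wm_nonneg' D _ (fun x => ?_) _)
    unfold nb
    refine Finset.sum_nonneg fun i _ => ?_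
    split_ifs <;> norm_num
  have hcard : (0 : ℝ) ≤ Fintype.card S := Nat.cast_nonneg _
  have m1 : C * wx D p Φ (fun x => (∑ i, cy y r (x i) ^ 2) * (1 + near2 v x)) ≤
      C * (Fintype.card S + 1) *
        wx D p Φ (fun x => (∑ i, cy y r (x i) ^ 2) * (1 + near2 v x)) :=
    mul_le_mul_of_nonneg_right (by nlinarith) n1
  have m2 : C / r ^ 2 * wx D p Φ (nb y (2 * r)) ≤
      C * (Fintype.card S + 1) / r ^ 2 * wx D p Φ (nb y (2 * r)) := by
    refine mul_le_mul_of_nonneg_right ?_ n2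
    exact div_le_div_of_nonneg_right (by nlinarith) (by positivity)
  have m3 : C * κ * Fintype.card S ≤ C * (Fintype.card S + 1) * κ := by nlinarith [mul_pos hC0 hκ]
  linarith

end Run7.h213.P.K.RH5
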