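import Pool.Agent.Helper780_CP.RL2b
import Pool.Agent.Run7.h213.P.KLLDefs2
import Pool.Agent.Run7.h213.P.KRL0
import Pool.Agent.Run7.h213.P.CBase

set_option autoImplicit false

open MeasureTheory

namespace Run7.h213.P.K.RL2b

open Pool.Agent.Helper985.CP hiding IsState Ortho QQ31988 QQ_ins0_31988 QQ_mul31988 QQ_perm31988 QQ_sum31988 cube energy idjT_act idjT_compact idjT_smooth idj_W0_act idj_W0_bound idj_W0_smooth idj_int idj_sum ims_state ins0_num ins0_swap31988 ins_disj ins_state int_state kin kinE nrm2_pos pe pe_symm peierls psl_deriv psl_nrm psl_slice psl_state psl_weight pw_parseval pwaux_parseval q985_point rb833_X rb833_state rbX rb_act_X rb_bessel rb_bessel0 rb_ip_X rb_ip_XX rb_ip_XX_meas rb_ip_XX_one rb_ip_XX_vol rb_ip_swap rb_nice_X rb_nice_state relabel_num relabel_state relaux_kin remove_none_aux row_bound slice_basic slice_energy slice_state sm_ins0_31988 sphK sph_K sph_energy sph_isState sph_kin sph_sum spin_ins0_31988 stable_any state_comb sum_pe_half term_A31988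 term_B31988 term_swap31988
open Pool.Agent.Helper780_CP hiding WI WI_add WI_const WI_coul WI_mul WI_near2 WI_one WI_pair WI_phi WI_smul WI_sum WI_wW WI_zero cost_avg icb kb klc ms_qf mulW_state multiC phb qf qf_int qf_one qf_split qf_wa rest_lower vb wm_add wm_mono wm_sum wm_tendsto
open Pool.Agent.Helper780_CP.RL2b hiding loc_upper_WI_bdd loc_upper_WI_cont loc_upper_WI_nb loc_upper_kin_cont loc_upper_kin_int

variable [Env]

open Run7.h213.P.K
open Pool.Agent.Helper780_CP.RL0 (near_min)
open Run7.h213.P.K.RL0 (mulW_stateS)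


theorem loc_upper_kin_cont {S : Type} (D : Species S) {I : Type} [Fintype I]
    [DecidableEq I] (sp : I → S) (ℓ : ℝ) (Ψ : Wave D I) (hΨ : IsState D sp ℓ Ψ) (j : I)
    (τ : I → Fin D.g) : Continuous (kin D sp j (Ψ τ)) ∧ HasCompactSupport (kin D sp j (Ψ τ)) := by
  have hcd := hΨ.smooth τ
  have hcs := hΨ.compact τ
  have hf : Continuous (fderiv ℝ (Ψ τ)) := hcd.continuous_fderiv (by simp [SM])
  have hfc : HasCompactSupport (fderiv ℝ (Ψ τ)) := hcs.fderiv (𝕜 := ℝ)
  have hk0 : Continuous (kin0 D sp j (Ψ τ)) ∧ HasCompactSupport (kin0 D sp j (Ψ τ)) := by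
    constructor
    · unfold kin0 Pool.Agent.Helper985.CP.kin
      apply Continuous.mul continuous_const
      apply continuous_finsetSum
      intro k _
      exact ((hf.clm_apply continuous_const).norm).pow 2
    · apply hfc.mono
      intro x hx
      rw [Function.mem_support] at hx ⊢
      intro h0
      apply hx
      unfold kin0 Pool.Agent.Helper985.CP.kin
      rw [h0]
      simp
  have hsq : Continuous (fun x => ‖Ψ τ x‖ ^ 2) := ((hΨ.smooth τ).continuous.norm).pow 2
  have hsqc : HasCompactSupport (fun x => ‖Ψ τ x‖ ^ 2) :=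
    (hΨ.compact τ).comp_left (g := fun z : ℂ => ‖z‖ ^ 2) (by simp)
  have hu : Continuous (fun x : I → E3 => Env.U (x j)) :=
    Env.U_cont.comp (continuous_apply j)
  exact ⟨hk0.1.add (hu.mul hsq), hk0.2.add hsqc.mul_left⟩

theorem loc_upper_kin_int {S : Type} (D : Species S) {I : Type} [Fintype I]
    [DecidableEq I] (sp : I → S) (ℓ : ℝ) (Ψ : Wave D I) (hΨ : IsState D sp ℓ Ψ) (j : I)
    (τ : I → Fin D.g) (h : (I → E3) → ℝ) (hc : Continuous h) :
    Integrable (fun x => h x * kin D sp j (Ψ τ) x) := by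
  obtain ⟨h1, h2⟩ := loc_upper_kin_cont D sp ℓ Ψ hΨ j τ
  exact (hc.mul h1).integrable_of_hasCompactSupport h2.mul_left

theorem loc_upper_WI_cont {S : Type} (D : Species S) {I : Type} [Fintype I]
    [DecidableEq I] (sp : I → S) (ℓ : ℝ) (h : (I → E3) → ℝ) (hc : Continuous h) :
    WI D sp ℓ h := by
  intro Ψ hΨ τ
  have hsq : Continuous (fun x => ‖Ψ τ x‖ ^ 2) := ((hΨ.smooth τ).continuous.norm).pow 2
  have hsqc : HasCompactSupport (fun x => ‖Ψ τ x‖ ^ 2) :=
    (hΨ.compact τ).comp_left (g := fun z : ℂ => ‖z‖ ^ 2) (by simp)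
  exact (hc.mul hsq).integrable_of_hasCompactSupport hsqc.mul_left

theorem loc_upper_WI_bdd {S : Type} (D : Species S) {I : Type} [Fintype I]
    [DecidableEq I] (sp : I → S) (ℓ : ℝ) (h W : (I → E3) → ℝ) (hc : Continuous h) (B : ℝ)
    (hB : ∀ x, |h x| ≤ B) (hW : WI D sp ℓ W) : WI D sp ℓ (fun x => h x * W x) := by
  intro Ψ hΨ τ
  have := (hW Ψ hΨ τ).bdd_mul (c := B) hc.aestronglyMeasurable
    (Filter.Eventually.of_forall fun x => by rw [Real.norm_eq_abs]; exact hB x)
  refine this.congr (Filter.Eventually.of_forall fun x => ?_)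
  simp only
  ring

theorem loc_upper_WI_nb {S : Type} (D : Species S) {I : Type} [Fintype I]
    [DecidableEq I] (sp : I → S) (ℓ : ℝ) (y : E3) (R : ℝ) : WI D sp ℓ (nb y R) := by
  unfold nb
  apply WI_sum
  intro i _
  apply WI_one D sp ℓ i (fun z => if ‖z - y‖ ≤ R then 1 else 0)
  have h1 : (fun z : E3 => if ‖z - y‖ ≤ R then (1 : ℝ) else 0) =
      (Metric.closedBall y R).indicator (fun _ => (1 : ℝ)) := by
    funext z
    by_cases h : ‖z - y‖ ≤ R
    · rw [if_pos h, Set.indicator_of_mem]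
      rw [mem_closedBall_iff_norm]; exact h
    · rw [if_neg h, Set.indicator_of_notMem]
      rw [mem_closedBall_iff_norm]; exact h
  rw [h1]
  exact (locallyIntegrable_const (1 : ℝ)).indicator Metric.isClosed_closedBall.measurableSet


end Run7.h213.P.K.RL2b
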