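import Pool.Agent.Helper780_CP.RH6
import Pool.Agent.Run7.h213.P.KLLDefs2
import Pool.Agent.Run7.h213.P.KLPDefs
import Pool.Agent.Run7.h213.P.KRL2b
import Pool.Agent.Run7.h213.P.KRG1
import Pool.Agent.Run7.h213.P.CBase

set_option autoImplicit false

open MeasureTheory
open scoped Topology

namespace Run7.h213.P.K.RH6

open Pool.Agent.Helper985.CP hiding IsState MT_core MT_energy_smul MT_psl_lin MT_slice_int MT_state_smul MT_zero Ortho QQ31988 QQ_ins0_31988 QQ_mul31988 QQ_perm31988 QQ_sum31988 cl_energy_zero cl_kinE_zero cl_kin_zero cl_pe_zero cl_zero cube energy idjT_act idjT_compact idjT_smooth idj_W0_act idj_W0_bound idj_W0_smooth idj_int idj_sum ims_state ins0_num ins0_swap31988 insN_props insNp_energy insNp_kin insNp_state ins_disj ins_state int_state kin kinE moveT_any moveT_none nrm2_pos pe pe_symm peierls peierls_relabel prl_kin prl_sub psl_deriv psl_energy psl_energy_k psl_energy_kint psl_energy_vint psl_energy_w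 psl_nrm psl_slice psl_state psl_weight pw_parseval pwaux_parseval q985_point rb833_X rb833_state rbX rb_act_X rb_bessel rb_bessel0 rb_ip_X rb_ip_XX rb_ip_XX_meas rb_ip_XX_one rb_ip_XX_vol rb_ip_swap rb_nice_X rb_nice_state relabel_num relabel_state relaux_kin remove_none_aux row_bound slice_basic slice_energy slice_state sm_ins0_31988 sphK sph_K sph_energy sph_isState sph_kin sph_sum spin_ins0_31988 stable_any state_comb sum_pe_half term_A31988 term_B31988 term_swap31988 trace_bound trace_bound_dens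
open Pool.Agent.Helper780_CP hiding FLT MM NE WI WI_add WI_const WI_coul WI_mul WI_near2 WI_one WI_pair WI_phi WI_smul WI_sum WI_wW WI_zero cost_avg icb kb kcy klc ms_qf mulW_nrm_le mulW_state multiC phb qf qf_int qf_one qf_split qf_wa rest_lower vb wm_add wm_mono wm_sum wm_tendsto
open Pool.Agent.Helper780_CP.RH6 hiding fe_kin fe_lower loc_upperT wx_mono

variable [Env]

open Run7.h213.P.K
open Run7.h213.P.K.RG1 (near_minT)

open Run7.h213.P.K

open Run7.h213.P.K.RL0 (mulW_stateS)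
open Pool.Agent.Helper780_CP.RL2b hiding loc_upper_WI_bdd loc_upper_WI_cont loc_upper_WI_nb loc_upper_kin_cont loc_upper_kin_int
open Run7.h213.P.K.RL2b


theorem fe_kin0 {S : Type} (D : Species S) (hD : D.Valid) {I : Type} [Fintype I]
    [DecidableEq I] (sp : I → S) (ℓ : ℝ) (Ψ : Wave D I) (hΨ : IsState D sp ℓ Ψ) {ε : ℝ}
    (hε : 0 < ε) (y : E3) (r : ℝ) (j : I) (τ : I → Fin D.g) (x : I → E3) :
    (ε + loc_upper_g y r x) * kin0 D sp j (Ψ τ) x - 1 / 2 * (cy y r (x j) ^ 2 *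
      kin0 D sp j (Ψ τ) x) - 2 * ((1 / (2 * D.mass (sp j))) * ∑ k : Fin 3,
        (fderiv ℝ (cy y r) (x j) (EuclideanSpace.single k (1 : ℝ))) ^ 2) * ‖Ψ τ x‖ ^ 2 ≤
      kin0 D sp j (mulW D (fe ε y r) Ψ τ) x := by
  have hm := hD.mass_pos (sp j)
  unfold kin0 Pool.Agent.Helper985.CP.kin
  have hd : ∀ k : Fin 3, fderiv ℝ (mulW D (fe ε y r) Ψ τ) x
      (Pi.single j (EuclideanSpace.single k (1 : ℝ))) =
      ((fe ε y r x : ℝ) : ℂ) * fderiv ℝ (Ψ τ) x
        (Pi.single j (EuclideanSpace.single k (1 : ℝ))) +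
      Ψ τ x * ((fderiv ℝ (fe ε y r) x (Pi.single j (EuclideanSpace.single k (1 : ℝ))) : ℝ)
        : ℂ) := by
    intro k
    have e1 : mulW D (fe ε y r) Ψ τ = fun x => ((fe ε y r x : ℝ) : ℂ) * Ψ τ x := rfl
    rw [e1, ims_deriv (fe ε y r) (Ψ τ) x _ _
      (((fe_smooth hε y r).differentiable (by simp)) x).hasFDerivAt
      (((hΨ.smooth τ).differentiable (by simp)) x)]
  simp only [hd]
  have hk : ∀ k : Fin 3, _ := fun k => loc_upper_alg (fe ε y r x)
    (fderiv ℝ (fe ε y r) x (Pi.single j (EuclideanSpace.single k (1 : ℝ))))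
    (cy y r (x j)) (fderiv ℝ (cy y r) (x j) (EuclideanSpace.single k (1 : ℝ)))
    (fderiv ℝ (Ψ τ) x (Pi.single j (EuclideanSpace.single k (1 : ℝ)))) (Ψ τ x)
    (fe_fderiv hε y r x j _)
  simp only [fe_sq hε] at hk
  have hs := Finset.sum_le_sum fun (k : Fin 3) (_ : k ∈ Finset.univ) => hk k
  have hs2 := mul_le_mul_of_nonneg_left hs (show 0 ≤ 1 / (2 * D.mass (sp j)) by positivity)
  refine le_trans (le_of_eq ?_) hs2
  rw [Finset.sum_sub_distrib, Finset.sum_sub_distrib, ← Finset.mul_sum, ← Finset.mul_sum,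
    ← Finset.sum_mul, ← Finset.mul_sum]
  ring

theorem fe_kin {S : Type} (D : Species S) (hD : D.Valid) {I : Type} [Fintype I]
    [DecidableEq I] (sp : I → S) (ℓ : ℝ) (Ψ : Wave D I) (hΨ : IsState D sp ℓ Ψ) {ε : ℝ}
    (hε : 0 < ε) (y : E3) (r : ℝ) (j : I) (τ : I → Fin D.g) (x : I → E3) :
    (ε + loc_upper_g y r x) * kin D sp j (Ψ τ) x - 1 / 2 * (cy y r (x j) ^ 2 *
      kin D sp j (Ψ τ) x) - 2 * ((1 / (2 * D.mass (sp j))) * ∑ k : Fin 3,
        (fderiv ℝ (cy y r) (x j) (EuclideanSpace.single k (1 : ℝ))) ^ 2) * ‖Ψ τ x‖ ^ 2 ≤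
      kin D sp j (mulW D (fe ε y r) Ψ τ) x := by
  have h0 := fe_kin0 D hD sp ℓ Ψ hΨ hε y r j τ x
  have h1 : ‖mulW D (fe ε y r) Ψ τ x‖ ^ 2 = (ε + loc_upper_g y r x) * ‖Ψ τ x‖ ^ 2 := by
    have e1 : mulW D (fe ε y r) Ψ τ x = ((fe ε y r x : ℝ) : ℂ) * Ψ τ x := rfl
    rw [e1, norm_mul, mul_pow, Complex.norm_real, Real.norm_eq_abs, sq_abs, fe_sq hε]
  unfold kin
  rw [h1]
  have hU := Env.U_nn (x j)
  have h2 : 0 ≤ cy y r (x j) ^ 2 * (Env.U (x j) * ‖Ψ τ x‖ ^ 2) := by positivity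
  unfold kin0 at h0
  nlinarith


/-- lower bound for the energy of `f Ψ` -/
theorem fe_lower {S : Type} (D : Species S) (hD : D.Valid) {Cm : ℝ}
    (hCm : ∀ s, 1 / (2 * D.mass s) ≤ Cm) {I : Type} [Fintype I]
    [DecidableEq I] (sp : I → S) (ℓ : ℝ) (Ψ : Wave D I) (hΨ : IsState D sp ℓ Ψ) {ε : ℝ}
    (hε : 0 < ε) (y : E3) (r : ℝ) :
    ε * energy D sp Ψ + (∑ τ, ∫ x, ∑ j, loc_upper_g y r x * kin D sp j (Ψ τ) x) +
      wm D (fun x => loc_upper_g y r x * coul D sp x) Ψ - 1 / 2 * klc D sp y r Ψ -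
      2 * Cm * wm D (loc_upper_Q y r) Ψ ≤ energy D sp (mulW D (fe ε y r) Ψ) := by
  have hg : Continuous (loc_upper_g (I := I) y r) := (loc_upper_g_smooth y r).continuous
  have hgB : ∀ x : I → E3, |loc_upper_g y r x| ≤ Fintype.card I := fun x => by
    rw [abs_of_nonneg (loc_upper_g_nonneg y r x)]; exact loc_upper_g_le y r x
  have hcy : ∀ j : I, Continuous (fun x : I → E3 => cy y r (x j) ^ 2) := fun j =>
    ((loc_upper_cy_smooth y r).continuous.comp (continuous_apply j)).pow 2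
  have hS : IsState D sp ℓ (mulW D (fe ε y r) Ψ) :=
    mulW_stateS D sp ℓ Ψ hΨ _ (fe_smooth hε y r) (fe_sy sp ε y r)
  unfold energy klc wm
  rw [Finset.mul_sum, Finset.mul_sum, Finset.mul_sum, ← Finset.sum_add_distrib,
    ← Finset.sum_add_distrib, ← Finset.sum_sub_distrib, ← Finset.sum_sub_distrib]
  apply Finset.sum_le_sum
  intro τ _
  obtain ⟨-, h2, h3, -, -⟩ := int_state D sp ℓ Ψ hΨ τ
  obtain ⟨-, h2', h3', -, -⟩ := int_state D sp ℓ _ hS τ
  have i1 : Integrable (fun x => (∑ i, kin D sp i (Ψ τ) x) + coul D sp x * ‖Ψ τ x‖ ^ 2) :=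
    (integrable_finsetSum _ fun j _ => h2 j).add h3
  have i1' : Integrable (fun x => (∑ i, kin D sp i (mulW D (fe ε y r) Ψ τ) x) +
      coul D sp x * ‖mulW D (fe ε y r) Ψ τ x‖ ^ 2) :=
    (integrable_finsetSum _ fun j _ => h2' j).add h3'
  have i2 : Integrable (fun x => ∑ j, loc_upper_g y r x * kin D sp j (Ψ τ) x) :=
    integrable_finsetSum _ fun j _ => loc_upper_kin_int D sp ℓ Ψ hΨ j τ _ hg
  have i3 : Integrable (fun x => loc_upper_g y r x * coul D sp x * ‖Ψ τ x‖ ^ 2) :=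
    loc_upper_WI_bdd D sp ℓ _ _ hg _ hgB (WI_coul D sp ℓ) Ψ hΨ τ
  have i4 : Integrable (fun x => ∑ j, cy y r (x j) ^ 2 * kin D sp j (Ψ τ) x) :=
    integrable_finsetSum _ fun j _ => loc_upper_kin_int D sp ℓ Ψ hΨ j τ _ (hcy j)
  have i5 : Integrable (fun x => loc_upper_Q y r x * ‖Ψ τ x‖ ^ 2) :=
    loc_upper_WI_cont D sp ℓ _ (loc_upper_Q_cont y r) Ψ hΨ τ
  rw [← integral_const_mul, ← integral_const_mul, ← integral_const_mul]
  have j1 := integral_add (i1.const_mul ε) i2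
  have j2 := integral_add ((i1.const_mul ε).add i2) i3
  have j3 := integral_sub (((i1.const_mul ε).add i2).add i3) (i4.const_mul (1 / 2))
  have j4 := integral_sub ((((i1.const_mul ε).add i2).add i3).sub (i4.const_mul (1 / 2)))
    (i5.const_mul (2 * Cm))
  simp only [Pi.add_apply, Pi.sub_apply] at j1 j2 j3 j4
  rw [← j1, ← j2, ← j3, ← j4]
  apply integral_mono (((((i1.const_mul ε).add i2).add i3).sub (i4.const_mul (1 / 2))).sub
    (i5.const_mul (2 * Cm))) i1'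
  intro x
  simp only [Pi.add_apply, Pi.sub_apply]
  rw [mulW_norm, fe_sq hε]
  have hk : ∀ j, (ε + loc_upper_g y r x) * kin D sp j (Ψ τ) x - 1 / 2 * (cy y r (x j) ^ 2 *
      kin D sp j (Ψ τ) x) - 2 * Cm * (∑ k : Fin 3,
        (fderiv ℝ (cy y r) (x j) (EuclideanSpace.single k (1 : ℝ))) ^ 2) * ‖Ψ τ x‖ ^ 2 ≤
      kin D sp j (mulW D (fe ε y r) Ψ τ) x := by
    intro j
    refine le_trans ?_ (fe_kin D hD sp ℓ Ψ hΨ hε y r j τ x)
    have h1 : (1 / (2 * D.mass (sp j))) * (∑ k : Fin 3,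
        (fderiv ℝ (cy y r) (x j) (EuclideanSpace.single k (1 : ℝ))) ^ 2) * ‖Ψ τ x‖ ^ 2 ≤
        Cm * (∑ k : Fin 3,
        (fderiv ℝ (cy y r) (x j) (EuclideanSpace.single k (1 : ℝ))) ^ 2) * ‖Ψ τ x‖ ^ 2 := by
      have h0 : 0 ≤ ∑ k : Fin 3,
        (fderiv ℝ (cy y r) (x j) (EuclideanSpace.single k (1 : ℝ))) ^ 2 :=
        Finset.sum_nonneg fun _ _ => sq_nonneg _
      apply mul_le_mul_of_nonneg_right _ (sq_nonneg _)
      exact mul_le_mul_of_nonneg_right (hCm _) h0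
    linarith
  have hs := Finset.sum_le_sum fun (j : I) (_ : j ∈ Finset.univ) => hk j
  rw [Finset.sum_sub_distrib, Finset.sum_sub_distrib, ← Finset.mul_sum, ← Finset.mul_sum,
    ← Finset.sum_mul, ← Finset.mul_sum] at hs
  have hQ : loc_upper_Q y r x = ∑ j, ∑ k : Fin 3,
    (fderiv ℝ (cy y r) (x j) (EuclideanSpace.single k (1 : ℝ))) ^ 2 := rfl
  rw [← hQ] at hs
  rw [← Finset.mul_sum]
  linarith


theorem wx_mono {S : Type} (D : Species S) {I : Type} [Fintype I] [DecidableEq I] (sp : I → S)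
    (ℓ : ℝ) {k : ℕ} (p : Fin k → ℝ) (hp : ∀ j, 0 ≤ p j) (ψ : Fin k → Wave D I)
    (hψ : ∀ j, IsState D sp ℓ (ψ j))
    {V W : (I → E3) → ℝ} (hV : WI D sp ℓ V) (hW : WI D sp ℓ W) (h : ∀ x, V x ≤ W x) :
    wx D p ψ V ≤ wx D p ψ W := by
  unfold wx
  refine Finset.sum_le_sum fun j _ => mul_le_mul_of_nonneg_left ?_ (hp j)
  exact wm_mono D sp ℓ hV hW (ψ j) (hψ j) (Filter.Eventually.of_forall h)


/-- TARGET -/
theorem loc_upperT {S : Type} [Fintype S] [DecidableEq S] (D : Species S) (hD : D.Valid)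
    (T : ℝ) (hT : 0 < T) :
    ∃ C : ℝ, 0 < C ∧ ∀ {I : Type} [Fintype I] [DecidableEq I] (sp : I → S) (ℓ η Z : ℝ), 0 ≤ η →
      ∀ {k : ℕ} (p : Fin k → ℝ) (ψ : Fin k → Wave D I), NE D sp ℓ T η Z p ψ →
      ∀ (y : E3) (r : ℝ), 0 < r → r ≤ 1 →
        (∑ j, p j * kcy D sp y r (ψ j)) +
          wx D p ψ (fun x => (∑ i, cy y r (x i) ^ 2) * coul D sp x) +
          T * ∑ j, p j * (wm D (fun x => ∑ i, cy y r (x i) ^ 2) (ψ j) * Real.log (p j)) ≤
        -T * Real.log Z * wx D p ψ (fun x => ∑ i, cy y r (x i) ^ 2) +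
          1 / 2 * (∑ j, p j * klc D sp y r (ψ j)) + C / r ^ 2 * wx D p ψ (nb y (2 * r)) +
          C * (1 + (Fintype.card I : ℝ)) * η := by
  classical
  obtain ⟨C', hC', HN⟩ := near_minT D hD
  obtain ⟨K, hK0, hK⟩ := loc_upper_ct_bd
  obtain ⟨Cm, hCm0, hCm⟩ : ∃ Cm : ℝ, 0 ≤ Cm ∧ ∀ s, 1 / (2 * D.mass s) ≤ Cm := by
    refine ⟨∑ s, 1 / (2 * D.mass s), Finset.sum_nonneg fun s _ => ?_, fun s => ?_⟩
    · have := hD.mass_pos s
      positivity
    · exact Finset.single_le_sum (f := fun s => 1 / (2 * D.mass s))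
        (fun s _ => by have := hD.mass_pos s; positivity) (Finset.mem_univ s)
  refine ⟨C' + (C' + 2 * Cm) * (3 * K ^ 2) + T, by positivity, ?_⟩
  intro I _ _ sp ℓ η Z hη k p ψ hNE y r hr hr1
  have hst := hNE.state
  have hp := hNE.p0
  have hg : Continuous (loc_upper_g (I := I) y r) := (loc_upper_g_smooth y r).continuous
  have hgB : ∀ x : I → E3, |loc_upper_g y r x| ≤ Fintype.card I := fun x => by
    rw [abs_of_nonneg (loc_upper_g_nonneg y r x)]; exact loc_upper_g_le y r x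
  have WQ : WI D sp ℓ (loc_upper_Q y r) := loc_upper_WI_cont D sp ℓ _ (loc_upper_Q_cont y r)
  have Wg : WI D sp ℓ (loc_upper_g y r) := loc_upper_WI_cont D sp ℓ _ hg
  have Wnb : WI D sp ℓ (nb y (2 * r)) := loc_upper_WI_nb D sp ℓ y (2 * r)
  have hN0 : (0:ℝ) ≤ Fintype.card I := by positivity
  have h6 : wx D p ψ (loc_upper_Q y r) ≤ 3 * K ^ 2 / r ^ 2 * wx D p ψ (nb y (2 * r)) := by
    rw [← wx_smul]
    exact wx_mono D sp ℓ p hp ψ hst WQ (WI_smul D sp ℓ Wnb _)
      (fun x => loc_upper_Q_le hK0 hK y hr x)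
  have h6g : wx D p ψ (loc_upper_g y r) ≤ wx D p ψ (nb y (2 * r)) :=
    wx_mono D sp ℓ p hp ψ hst Wg Wnb (fun x => g_le_nb y hr x)
  have h7 : 0 ≤ wx D p ψ (nb y (2 * r)) := by
    unfold wx wm
    refine Finset.sum_nonneg fun j _ => mul_nonneg (hp j) ?_
    refine Finset.sum_nonneg fun τ _ => integral_nonneg fun x => ?_
    apply mul_nonneg _ (sq_nonneg _)
    unfold nb
    exact Finset.sum_nonneg fun i _ => by split_ifs <;> norm_num
  have e1 : ∀ j, kcy D sp y r (ψ j) =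
      ∑ τ, ∫ x, ∑ i, loc_upper_g y r x * kin D sp i (ψ j τ) x := fun j => rfl
  have e2 : wx D p ψ (fun x => (∑ i, cy y r (x i) ^ 2) * coul D sp x) =
      wx D p ψ (fun x => loc_upper_g y r x * coul D sp x) := rfl
  have e3 : wx D p ψ (fun x => ∑ i, cy y r (x i) ^ 2) = wx D p ψ (loc_upper_g y r) := rfl
  have e4 : ∀ j, wm D (fun x => ∑ i, cy y r (x i) ^ 2) (ψ j) = wm D (loc_upper_g y r) (ψ j) :=
    fun j => rfl
  rw [e2, e3]
  simp only [e4]
  -- the inequality for every `ε`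
  have key : ∀ ε : ℝ, 0 < ε → ε ≤ 1 →
      ((∑ j, p j * kcy D sp y r (ψ j)) + wx D p ψ (fun x => loc_upper_g y r x * coul D sp x) +
        T * ∑ j, p j * (wm D (loc_upper_g y r) (ψ j) * Real.log (p j)) -
        (-T * Real.log Z * wx D p ψ (loc_upper_g y r) +
          1 / 2 * (∑ j, p j * klc D sp y r (ψ j)) +
          (C' + 2 * Cm) * wx D p ψ (loc_upper_Q y r) + T * wx D p ψ (loc_upper_g y r) +
          C' * (1 + (Fintype.card I : ℝ)) * η)) +
      ε * ((∑ j, p j * energy D sp (ψ j)) + T * ∑ j, p j * Real.log (p j) +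
        T * Real.log Z - T) ≤ 0 := by
    intro ε hε hε1
    have hfB : ∀ x : I → E3, |fe ε y r x| ≤ √(1 + Fintype.card I) := by
      intro x
      have h0 : 0 ≤ fe ε y r x := Real.sqrt_nonneg _
      rw [abs_of_nonneg h0]
      exact Real.sqrt_le_sqrt (by linarith [loc_upper_g_le y r x])
    have h1 := HN sp ℓ T η Z hT hη p ψ hNE (fe ε y r) _ (fe_smooth hε y r) (fe_sy sp ε y r) hfB
    rw [Real.sq_sqrt (by positivity)] at h1
    have Wgr : WI D sp ℓ (gr (fe ε y r)) := loc_upper_WI_cont D sp ℓ _ (fe_gr_cont hε y r)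
    have hw : ∀ j, wm D (fun x => ε + loc_upper_g y r x) (ψ j) =
        ε + wm D (loc_upper_g y r) (ψ j) := by
      intro j
      have a1 := wm_add D sp ℓ (WI_const D sp ℓ ε) Wg (ψ j) (hst j)
      have a2 : wm D (fun _ => ε) (ψ j) = ε := by
        have a3 : wm D (fun _ => ε * 1) (ψ j) = ε * wm D (fun _ => 1) (ψ j) :=
          wm_smul D (fun _ => 1) ε (ψ j)
        rw [wm_one, hNE.nrm j, mul_one] at a3
        simpa using a3
      rw [a2] at a1
      exact a1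
    have h4 : ∀ j, nrm2 D (mulW D (fe ε y r) (ψ j)) = ε + wm D (loc_upper_g y r) (ψ j) := by
      intro j
      have a1 : nrm2 D (mulW D (fe ε y r) (ψ j)) =
          wm D (fun x => ε + loc_upper_g y r x) (ψ j) := by
        unfold nrm2 wm
        simp only [mulW_norm, fe_sq hε]
      rw [a1, hw]
    have h5 : wx D p ψ (fun x => fe ε y r x ^ 2) = ε + wx D p ψ (loc_upper_g y r) := by
      have a1 : wx D p ψ (fun x => fe ε y r x ^ 2) =
          wx D p ψ (fun x => ε + loc_upper_g y r x) := by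
        simp only [fe_sq hε]
      rw [a1]
      unfold wx
      simp only [hw]
      simp only [mul_add, Finset.sum_add_distrib, ← Finset.sum_mul, hNE.p1, one_mul]
    rw [h5] at h1
    simp only [h4] at h1
    have h8 : wx D p ψ (gr (fe ε y r)) ≤ wx D p ψ (loc_upper_Q y r) :=
      wx_mono D sp ℓ p hp ψ hst Wgr WQ (fun x => fe_gr_le hε y r x)
    have h8' := mul_le_mul_of_nonneg_left h8 hC'.le
    have h2 : ε * (∑ j, p j * energy D sp (ψ j)) + (∑ j, p j * kcy D sp y r (ψ j)) +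
        wx D p ψ (fun x => loc_upper_g y r x * coul D sp x) -
        1 / 2 * (∑ j, p j * klc D sp y r (ψ j)) - 2 * Cm * wx D p ψ (loc_upper_Q y r) ≤
        ∑ j, p j * energy D sp (mulW D (fe ε y r) (ψ j)) := by
      unfold wx
      rw [Finset.mul_sum, Finset.mul_sum, Finset.mul_sum, ← Finset.sum_add_distrib,
        ← Finset.sum_add_distrib, ← Finset.sum_sub_distrib, ← Finset.sum_sub_distrib]
      refine Finset.sum_le_sum fun j _ => ?_
      have a1 := mul_le_mul_of_nonneg_left (fe_lower D hD hCm sp ℓ (ψ j) (hst j) hε y r) (hp j)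
      rw [← e1 j] at a1
      refine le_trans (le_of_eq ?_) a1
      ring
    have h3 : ∑ j, p j * ((ε + wm D (loc_upper_g y r) (ψ j)) * Real.log (p j)) =
        ε * (∑ j, p j * Real.log (p j)) +
        ∑ j, p j * (wm D (loc_upper_g y r) (ψ j) * Real.log (p j)) := by
      rw [Finset.mul_sum, ← Finset.sum_add_distrib]
      refine Finset.sum_congr rfl fun j _ => ?_
      ring
    rw [h3] at h1
    nlinarith [h1, h2, h8']
  have h0 := eps_zero key
  have h9 : (C' + 2 * Cm) * wx D p ψ (loc_upper_Q y r) ≤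
      ((C' + 2 * Cm) * (3 * K ^ 2)) / r ^ 2 * wx D p ψ (nb y (2 * r)) := by
    have a2 := mul_le_mul_of_nonneg_left h6 (show 0 ≤ C' + 2 * Cm by positivity)
    refine a2.trans (le_of_eq ?_)
    ring
  have h10 : T * wx D p ψ (loc_upper_g y r) ≤ T / r ^ 2 * wx D p ψ (nb y (2 * r)) := by
    have a1 : T ≤ T / r ^ 2 := by
      rw [le_div_iff₀ (by positivity)]
      have : r ^ 2 ≤ 1 := by nlinarith
      nlinarith
    have a2 := mul_le_mul_of_nonneg_left h6g hT.le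
    exact a2.trans (mul_le_mul_of_nonneg_right a1 h7)
  have h11 : C' * (1 + (Fintype.card I : ℝ)) * η ≤
      (C' + (C' + 2 * Cm) * (3 * K ^ 2) + T) * (1 + (Fintype.card I : ℝ)) * η := by
    apply mul_le_mul_of_nonneg_right _ hη
    apply mul_le_mul_of_nonneg_right _ (by positivity)
    have : 0 ≤ (C' + 2 * Cm) * (3 * K ^ 2) := by positivity
    linarith
  have h12 : ((C' + 2 * Cm) * (3 * K ^ 2)) / r ^ 2 * wx D p ψ (nb y (2 * r)) +
      T / r ^ 2 * wx D p ψ (nb y (2 * r)) ≤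
      (C' + (C' + 2 * Cm) * (3 * K ^ 2) + T) / r ^ 2 * wx D p ψ (nb y (2 * r)) := by
    rw [← add_mul, ← add_div]
    apply mul_le_mul_of_nonneg_right _ h7
    apply div_le_div_of_nonneg_right _ (by positivity)
    linarith
  linarith
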