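import Pool.Agent.Helper780_CP.RL2c
import Pool.Agent.Run7.h213.P.KLLDefs2
import Pool.Agent.Run7.h213.P.KRVB
import Pool.Agent.Run7.h213.P.KRL2b
import Pool.Agent.Run7.h213.P.KRL2a
import Pool.Agent.Run7.h213.P.CBase
import Pool.Agent.Run7.h213.P.CM_nrm2_pos
import Pool.Agent.Run7.h213.P.CM_stable_any
import Pool.Agent.Run7.h213.P.CDefs
import Pool.Agent.Run7.h213.P.CM_int_state
import Pool.Agent.Run7.h213.P.CM_ims
import Pool.Agent.Run7.h213.P.CM_insert_one
import Pool.Agent.Run7.h213.P.CM_relabel_num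
import Pool.Agent.Run7.h213.P.CM_relabel_state

set_option autoImplicit false

open MeasureTheory

namespace Run7.h213.P.K.RL2c

open Pool.Agent.Helper985.CP hiding IsState Ortho QQ31988 QQ_ins0_31988 QQ_mul31988 QQ_perm31988 QQ_sum31988 cube energy idjT_act idjT_compact idjT_smooth idj_W0_act idj_W0_bound idj_W0_smooth idj_int idj_sum ims_state ins0_num ins0_swap31988 ins_disj ins_state int_state kin kinE nrm2_pos pe pe_symm peierls psl_deriv psl_nrm psl_slice psl_state psl_weight pw_parseval pwaux_parseval q985_point rb833_X rb833_state rbX rb_act_X rb_bessel rb_bessel0 rb_ip_X rb_ip_XX rb_ip_XX_meas rb_ip_XX_one rb_ip_XX_vol rb_ip_swap rb_nice_X rb_nice_state relabel_num relabel_state relaux_kin remove_none_aux row_bound slice_basic slice_energy slice_state sm_ins0_31988 sphK sph_K sph_energy sph_isState sph_kin sph_sum spin_ins0_31988 stable_any state_comb sum_pe_half term_A31988 term_B31988 term_swap31988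
open Pool.Agent.Helper780_CP hiding WI WI_add WI_const WI_coul WI_mul WI_near2 WI_one WI_pair WI_phi WI_smul WI_sum WI_wW WI_zero cost_avg icb kb klc ms_qf mulW_state multiC phb qf qf_int qf_one qf_split qf_wa rest_lower vb wm_add wm_mono wm_sum wm_tendsto
open Pool.Agent.Helper780_CP.RL2c hiding le_WI_cont le_WI_mul le_icb_meas le_icb_vol le_int_inv le_int_near le_int_one

variable [Env]

open Run7.h213.P.K
open Run7.h213.P.K.RVB (vb_props)
open Pool.Agent.Helper780_CP.RL2b (loc_upper)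
open Pool.Agent.Helper780_CP.RL2a (removal)


theorem le_icb_meas (ℓ : ℝ) : MeasurableSet (icb ℓ) := by
  have h1 : icb ℓ = ⋂ k : Fin 3, {y : E3 | -(ℓ / 4) ≤ y k} ∩ {y : E3 | y k ≤ ℓ / 4} := by
    ext y
    simp [icb]
  rw [h1]
  refine MeasurableSet.iInter fun k => MeasurableSet.inter ?_ ?_
  · exact (isClosed_le continuous_const (by fun_prop)).measurableSet
  · exact (isClosed_le (by fun_prop) continuous_const).measurableSet

theorem le_icb_vol (ℓ : ℝ) (hℓ : 0 < ℓ) : volume (icb ℓ) = ENNReal.ofReal (ℓ ^ 3 / 8) := by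
  have h1 : icb ℓ = (@WithLp.ofLp 2 (Fin 3 → ℝ)) ⁻¹'
      (Set.Icc (fun _ : Fin 3 => -(ℓ / 4)) (fun _ : Fin 3 => ℓ / 4)) := by
    ext y
    simp [icb, Pi.le_def, forall_and]
  rw [h1, (PiLp.volume_preserving_ofLp (Fin 3)).measure_preimage
    measurableSet_Icc.nullMeasurableSet, Real.volume_Icc_pi]
  have h2 : ℓ / 4 - -(ℓ / 4) = ℓ / 2 := by ring
  simp only [h2, Finset.prod_const, Finset.card_univ, Fintype.card_fin]
  rw [← ENNReal.ofReal_pow (by positivity)]
  congr 1
  ring


theorem le_int_one (ℓ : ℝ) (hℓ : 0 < ℓ) (a : ℝ) : IntegrableOn (fun _ : E3 => a) (icb ℓ) :=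
  integrableOn_const (by rw [le_icb_vol ℓ hℓ]; exact ENNReal.ofReal_ne_top)

theorem le_int_inv (ℓ : ℝ) (hℓ : 0 < ℓ) (z : E3) :
    IntegrableOn (fun v => 1 / ‖z - v‖) (icb ℓ) := by
  have h1 : IntegrableOn (fun v : E3 => 1 + kk (z - v)) (icb ℓ) :=
    Integrable.add (le_int_one ℓ hℓ 1) (kk_int.comp_sub_left z).integrableOn
  refine Integrable.mono' h1 ?_ (Filter.Eventually.of_forall fun v => ?_)
  · exact (by fun_prop : Measurable fun v : E3 => 1 / ‖z - v‖).aestronglyMeasurable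
  · rw [Real.norm_of_nonneg (by positivity)]
    exact le_inv_kk z v

theorem le_int_near (ℓ : ℝ) (hℓ : 0 < ℓ) {I : Type} [Fintype I] (x : I → E3) :
    IntegrableOn (fun v => 1 + near2 v x) (icb ℓ) ∧
    ∫ v in icb ℓ, (1 + near2 v x) ≤ ℓ ^ 3 / 8 * 2 + (∫ z, kk z) * (Fintype.card I : ℝ) := by
  have hk : ∀ i, IntegrableOn (fun v : E3 => kk (x i - v)) (icb ℓ) := fun i =>
    (kk_int.comp_sub_left (x i)).integrableOn
  have h1 : IntegrableOn (fun v : E3 => 2 + ∑ i, kk (x i - v)) (icb ℓ) :=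
    Integrable.add (le_int_one ℓ hℓ 2) (integrable_finsetSum _ fun i _ => hk i)
  have hle : ∀ v, 1 + near2 v x ≤ 2 + ∑ i, kk (x i - v) := by
    intro v
    have := near2_le_kk v x
    linarith
  have hm0 : Measurable (fun v : E3 => near2 v x) := by
    unfold near2
    exact Measurable.iSup fun i => by fun_prop
  have hm : Measurable (fun v : E3 => 1 + near2 v x) := hm0.const_add 1
  have hi : IntegrableOn (fun v => 1 + near2 v x) (icb ℓ) := by
    refine Integrable.mono' h1 hm.aestronglyMeasurable (Filter.Eventually.of_forall fun v => ?_)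
    have := near2_nonneg v x
    rw [Real.norm_of_nonneg (by linarith)]
    exact hle v
  refine ⟨hi, ?_⟩
  have h2 : ∫ v in icb ℓ, (1 + near2 v x) ≤ ∫ v in icb ℓ, (2 + ∑ i, kk (x i - v)) :=
    integral_mono hi h1 hle
  refine h2.trans ?_
  rw [integral_add (le_int_one ℓ hℓ 2) (integrable_finsetSum _ fun i _ => hk i),
    integral_finsetSum _ fun i _ => hk i]
  have h3 : ∫ _ in icb ℓ, (2 : ℝ) = ℓ ^ 3 / 8 * 2 := by
    rw [setIntegral_const, Measure.real, le_icb_vol ℓ hℓ, ENNReal.toReal_ofReal (by positivity)]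
    simp
  have h4 : ∀ i, ∫ v in icb ℓ, kk (x i - v) ≤ ∫ z, kk z := by
    intro i
    rw [← integral_sub_left_eq_self (fun z => kk z) volume (x i)]
    exact setIntegral_le_integral (kk_int.comp_sub_left (x i))
      (Filter.Eventually.of_forall fun v => kk_nonneg _)
  rw [h3]
  have h5 : ∑ i, ∫ v in icb ℓ, kk (x i - v) ≤ (∫ z, kk z) * (Fintype.card I : ℝ) := by
    calc ∑ i, ∫ v in icb ℓ, kk (x i - v) ≤ ∑ _i : I, ∫ z, kk z :=
          Finset.sum_le_sum fun i _ => h4 i
      _ = _ := by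
        rw [Finset.sum_const, Finset.card_univ, nsmul_eq_mul, mul_comm]
  linarith

section

variable {S : Type} (D : Species S) {I : Type} [Fintype I] [DecidableEq I] (sp : I → S)

theorem le_WI_cont (ℓ : ℝ) (h : (I → E3) → ℝ) (hh : Continuous h) : WI D sp ℓ h := by
  intro Ψ hΨ τ
  have hcs := hΨ.compact τ
  have hsq : Continuous (fun x => ‖Ψ τ x‖ ^ 2) := ((hΨ.smooth τ).continuous.norm).pow 2
  have hsqc : HasCompactSupport (fun x => ‖Ψ τ x‖ ^ 2) :=
    hcs.comp_left (g := fun z : ℂ => ‖z‖ ^ 2) (by simp)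
  exact (hh.mul hsq).integrable_of_hasCompactSupport hsqc.mul_left

theorem le_WI_mul (ℓ : ℝ) {W : (I → E3) → ℝ} (hW : WI D sp ℓ W) (f : (I → E3) → ℝ)
    (hf : Continuous f) (M : ℝ) (hb : ∀ x, |f x| ≤ M) : WI D sp ℓ (fun x => f x * W x) := by
  intro Ψ hΨ τ
  have h := (hW Ψ hΨ τ).bdd_mul (c := M) hf.aestronglyMeasurable
    (Filter.Eventually.of_forall fun x => by rw [Real.norm_eq_abs]; exact hb x)
  refine h.congr (Filter.Eventually.of_forall fun x => ?_)
  simp only
  ring


end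


end Run7.h213.P.K.RL2c
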