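import Pool.Agent.Helper780_CP.RPAU
import Pool.Agent.Run7.h213.P.KLLDefs2
import Pool.Agent.Run7.h213.P.KRC7
import Pool.Agent.Run7.h213.P.CBase
import Pool.Agent.Run7.h213.P.KLTC3
import Pool.Agent.Run7.h213.P.CM_relabel_num
import Pool.Agent.Run7.h213.P.CM_relabel_state
import Pool.Agent.Run7.h213.P.TM_peierls_relabel

set_option autoImplicit false

open MeasureTheory

namespace Run7.h213.P.K.RPAU

open Pool.Agent.Helper985.CP hiding IsState Ortho QQ31988 QQ_ins0_31988 QQ_mul31988 QQ_perm31988 QQ_sum31988 cube energy idjT_act idjT_compact idjT_smooth idj_W0_act idj_W0_bound idj_W0_smooth idj_int idj_sum ims_state ins0_num ins0_swap31988 ins_disj ins_state int_state kin kinE nrm2_pos pe pe_symm peierls peierls_relabel prl_kin prl_sub psl_deriv psl_nrm psl_slice psl_state psl_weight pw_parseval pwaux_parseval q985_point rb833_X rb833_state rbX rb_act_X rb_bessel rb_bessel0 rb_ip_X rb_ip_XX rb_ip_XX_meas rb_ip_XX_one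 rb_ip_XX_vol rb_ip_swap rb_nice_X rb_nice_state relabel_num relabel_state relaux_kin remove_none_aux row_bound slice_basic slice_energy slice_state sm_ins0_31988 sphK sph_K sph_energy sph_isState sph_kin sph_sum spin_ins0_31988 stable_any state_comb sum_pe_half term_A31988 term_B31988 term_swap31988
open Pool.Agent.Helper780_CP hiding WI WI_add WI_const WI_coul WI_mul WI_near2 WI_one WI_pair WI_phi WI_smul WI_sum WI_wW WI_zero cost_avg icb kb klc ms_qf mulW_state multiC phb pinv_intg qf qf_int qf_one qf_split qf_wa rest_lower vb wm_add wm_mono wm_sum wm_tendsto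
open Pool.Agent.Helper780_CP.RPAU hiding grad_kin kin_nonneg' nw_kin pau_point pauli_any pauli_species

variable [Env]

open Run7.h213.P.K
open Run7.h213.P.K.RC7 (pauli_cube)


theorem grad_kin {S : Type} (D : Species S) (hD : D.Valid) {I : Type} [Fintype I] [DecidableEq I]
    (sp : I → S) (i : I) (u : (I → E3) → ℂ) (x : I → E3) :
    ∑ k : Fin 3, ‖fderiv ℝ u x (Pi.single i (EuclideanSpace.single k (1 : ℝ)))‖ ^ 2 =
      2 * D.mass (sp i) * kin0 D sp i u x := by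
  unfold kin0 Pool.Agent.Helper985.CP.kin
  have := hD.mass_pos (sp i)
  field_simp

/-- the Pauli principle in a cube for any particle -/
theorem pauli_any {S : Type} [DecidableEq S] (D : Species S) (hD : D.Valid) :
    ∃ C : ℝ, 0 < C ∧ ∀ {I : Type} [Fintype I] [DecidableEq I] (sp : I → S) (ℓ : ℝ) (i : I),
      D.fermion (sp i) = true → ∀ (Ψ : Wave D I), IsState D sp ℓ Ψ →
      ∀ (q : E3) (s : ℝ), 0 < s →
      ∑ τ, ∫ x, (if 2 * (D.g : ℝ) ≤ nsp sp (sp i) (Qc q s) x then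
          nsp sp (sp i) (Qc q s) x ^ ((5 : ℝ) / 3) else 0) * ‖Ψ τ x‖ ^ 2 ≤
        C * s ^ 2 * ((cnt sp (sp i) : ℝ) * (2 * D.mass (sp i) *
          ∑ τ, ∫ x, (Qc q s).indicator (fun _ => (1 : ℝ)) (x i) * kin D sp i (Ψ τ) x)) := by
  obtain ⟨C, hC, H⟩ := pauli_cube D
  refine ⟨C, hC, ?_⟩
  intro I _ _ sp ℓ i hf Ψ hΨ q s hs
  obtain ⟨e, he⟩ : ∃ e : I ≃ Option {j // j ≠ i}, e i = none :=
    ⟨(Equiv.optionSubtypeNe i).symm, Equiv.optionSubtypeNe_symm_self i⟩
  obtain ⟨sp', hsp'⟩ : ∃ sp' : Option {j // j ≠ i} → S, sp' = fun j => sp (e.symm j) := ⟨_, rfl⟩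
  have h : ∀ k, sp' (e k) = sp k := fun k => by rw [hsp']; simp
  have hnone : sp' none = sp i := by rw [← he, h]
  have h1 := H sp' ℓ (by rw [hnone]; exact hf) (relab D e Ψ) (relabel_state D e sp sp' h ℓ Ψ hΨ)
    q s hs
  have h2 : ∑ τ, ∫ x, (if 2 * (D.g : ℝ) ≤ nsp sp' (sp i) (Qc q s) x then
          nsp sp' (sp i) (Qc q s) x ^ ((5 : ℝ) / 3) else 0) * ‖relab D e Ψ τ x‖ ^ 2 =
      ∑ τ, ∫ x, (if 2 * (D.g : ℝ) ≤ nsp sp (sp i) (Qc q s) x then
          nsp sp (sp i) (Qc q s) x ^ ((5 : ℝ) / 3) else 0) * ‖Ψ τ x‖ ^ 2 := by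
    rw [← relaux_sum e]
    refine Finset.sum_congr rfl fun τ _ => ?_
    rw [← relaux_int e]
    congr 1
    funext x
    rw [nsp_relab e sp sp' h]
    rfl
  have h3 : ∑ τ, ∫ x, (Qc q s).indicator (fun _ => (1 : ℝ)) (x none) *
      ∑ k : Fin 3, ‖fderiv ℝ (relab D e Ψ τ) x
        (Pi.single none (EuclideanSpace.single k (1 : ℝ)))‖ ^ 2 =
      2 * D.mass (sp i) *
          ∑ τ, ∫ x, (Qc q s).indicator (fun _ => (1 : ℝ)) (x i) * kin0 D sp i (Ψ τ) x := by
    rw [← relaux_sum e, Finset.mul_sum]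
    refine Finset.sum_congr rfl fun τ _ => ?_
    rw [← relaux_int e, ← integral_const_mul]
    congr 1
    funext x
    rw [grad_kin D hD sp', hnone, ← he]
    have h4 := Pool.Agent.Helper985.CP.relaux_kin D e sp sp' h i (Ψ (fun i => τ (e i))) x
    have h5 : kin0 D sp' (e i) (relab D e Ψ τ) x =
      kin0 D sp i (Ψ (fun i => τ (e i))) (fun k => x (e k)) := h4
    rw [h5]
    ring
  rw [hnone, h2, cnt_relab e sp sp' h, h3] at h1
  refine h1.trans ?_
  have hm := (hD.mass_pos (sp i)).le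
  have hle : ∑ τ, ∫ x, (Qc q s).indicator (fun _ => (1 : ℝ)) (x i) * kin0 D sp i (Ψ τ) x ≤
      ∑ τ, ∫ x, (Qc q s).indicator (fun _ => (1 : ℝ)) (x i) * kin D sp i (Ψ τ) x := by
    refine Finset.sum_le_sum fun τ _ => ?_
    have hms : Measurable (fun x : I → E3 => (Qc q s).indicator (fun _ => (1 : ℝ)) (x i)) :=
      (measurable_const.indicator (Qc_meas q s)).comp (measurable_pi_apply i)
    have hbd : ∀ x : I → E3, ‖(Qc q s).indicator (fun _ => (1 : ℝ)) (x i)‖ ≤ 1 := by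
      intro x
      by_cases hx : x i ∈ Qc q s <;> simp [Set.indicator, hx]
    refine integral_mono ((int_kin0 D sp ℓ Ψ hΨ τ i).bdd_mul hms.aestronglyMeasurable
        (Filter.Eventually.of_forall hbd))
      (((int_state D sp ℓ Ψ hΨ τ).2.1 i).bdd_mul hms.aestronglyMeasurable
        (Filter.Eventually.of_forall hbd)) fun x => ?_
    exact mul_le_mul_of_nonneg_left (kin_ge D sp i (Ψ τ) x)
      (Set.indicator_nonneg (fun _ _ => zero_le_one) _)
  exact mul_le_mul_of_nonneg_left (mul_le_mul_of_nonneg_left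
    (mul_le_mul_of_nonneg_left hle (by positivity)) (Nat.cast_nonneg _)) (by positivity)


theorem kin_nonneg' {S : Type} (D : Species S) (hD : D.Valid) {I : Type} [Fintype I]
    [DecidableEq I] (sp : I → S) (i : I) (u : (I → E3) → ℂ) (x : I → E3) : 0 ≤ kin D sp i u x := by
  exact kinP_nn D sp hD i u x

/-- one species, all its particles -/
theorem pauli_species {S : Type} [DecidableEq S] (D : Species S) (hD : D.Valid) :
    ∃ C : ℝ, 0 < C ∧ ∀ {I : Type} [Fintype I] [DecidableEq I] (sp : I → S) (ℓ : ℝ) (s0 : S),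
      D.fermion s0 = true → ∀ (Ψ : Wave D I), IsState D sp ℓ Ψ →
      ∀ (q : E3) (s : ℝ), 0 < s →
      ∑ τ, ∫ x, (if 2 * (D.g : ℝ) ≤ nsp sp s0 (Qc q s) x then
          nsp sp s0 (Qc q s) x ^ ((5 : ℝ) / 3) else 0) * ‖Ψ τ x‖ ^ 2 ≤
        C * s ^ 2 * (2 * D.mass s0 * ∑ i ∈ Finset.univ.filter (fun i => sp i = s0),
          ∑ τ, ∫ x, (Qc q s).indicator (fun _ => (1 : ℝ)) (x i) * kin D sp i (Ψ τ) x) := by
  obtain ⟨C, hC, H⟩ := pauli_any D hD
  refine ⟨C, hC, ?_⟩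
  intro I _ _ sp ℓ s0 hf Ψ hΨ q s hs
  by_cases h0 : cnt sp s0 = 0
  · have h1 : ∀ i, sp i ≠ s0 := by
      intro i hi
      unfold cnt at h0
      rw [Finset.card_eq_zero, Finset.filter_eq_empty_iff] at h0
      exact h0 (Finset.mem_univ i) hi
    have h2 : ∀ x, nsp sp s0 (Qc q s) x = 0 := by
      intro x
      unfold nsp
      refine Finset.sum_eq_zero fun j _ => ?_
      rw [if_neg]
      exact fun h => h1 j h.1
    have h3 : Finset.univ.filter (fun i => sp i = s0) = ∅ := by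
      rw [Finset.filter_eq_empty_iff]
      exact fun i _ => h1 i
    rw [h3]
    simp only [h2, Finset.sum_empty, mul_zero]
    rw [Real.zero_rpow (by norm_num)]
    simp
  · have hcn : (0 : ℝ) < (cnt sp s0 : ℝ) := by
      exact_mod_cast Nat.pos_of_ne_zero h0
    obtain ⟨L, hL⟩ : ∃ L, L = ∑ τ, ∫ x, (if 2 * (D.g : ℝ) ≤ nsp sp s0 (Qc q s) x then
          nsp sp s0 (Qc q s) x ^ ((5 : ℝ) / 3) else 0) * ‖Ψ τ x‖ ^ 2 := ⟨_, rfl⟩
    have h1 : ∑ i ∈ Finset.univ.filter (fun i => sp i = s0), L ≤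
        ∑ i ∈ Finset.univ.filter (fun i => sp i = s0), C * s ^ 2 * ((cnt sp s0 : ℝ) *
          (2 * D.mass s0 *
          ∑ τ, ∫ x, (Qc q s).indicator (fun _ => (1 : ℝ)) (x i) * kin D sp i (Ψ τ) x)) := by
      refine Finset.sum_le_sum fun i hi => ?_
      rw [Finset.mem_filter] at hi
      have h2 := H sp ℓ i (by rw [hi.2]; exact hf) Ψ hΨ q s hs
      rw [hi.2] at h2
      rw [hL]
      exact h2
    rw [Finset.sum_const, nsmul_eq_mul] at h1
    have h2 : ∑ i ∈ Finset.univ.filter (fun i => sp i = s0), C * s ^ 2 * ((cnt sp s0 : ℝ) *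
          (2 * D.mass s0 *
          ∑ τ, ∫ x, (Qc q s).indicator (fun _ => (1 : ℝ)) (x i) * kin D sp i (Ψ τ) x)) =
        (cnt sp s0 : ℝ) * (C * s ^ 2 * (2 * D.mass s0 *
          ∑ i ∈ Finset.univ.filter (fun i => sp i = s0),
          ∑ τ, ∫ x, (Qc q s).indicator (fun _ => (1 : ℝ)) (x i) * kin D sp i (Ψ τ) x)) := by
      simp only [Finset.mul_sum]
      refine Finset.sum_congr rfl fun i _ => Finset.sum_congr rfl fun τ _ => ?_
      ring
    rw [h2] at h1
    rw [← hL]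
    exact le_of_mul_le_mul_left h1 hcn

/-- the estimate for one cube -/
theorem pau_point {S : Type} [Fintype S] [DecidableEq S] (D : Species S) (hD : D.Valid)
    (hf : ∀ s, D.charge s < 0 → D.fermion s = true) :
    ∃ C : ℝ, 0 ≤ C ∧ ∀ {I : Type} [Fintype I] [DecidableEq I] (sp : I → S) (ℓ : ℝ)
      (Ψ : Wave D I), IsState D sp ℓ Ψ → ∀ (w : E3) (h : ℝ), 0 < h →
      ∑ τ, ∫ x, (if 2 * (D.g : ℝ) * (Fintype.card S : ℝ) ≤
          nw (fun i => D.charge (sp i)) x h w then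
          nw (fun i => D.charge (sp i)) x h w ^ ((5 : ℝ) / 3) else 0) * ‖Ψ τ x‖ ^ 2 ≤
        C * h ^ 2 * ∑ i, ∑ τ, ∫ x, (Qc (pauQ w h) (2 * h)).indicator (fun _ => (1 : ℝ)) (x i) *
          kin D sp i (Ψ τ) x := by
  obtain ⟨C, hC, H⟩ := pauli_species D hD
  obtain ⟨mm, hmm⟩ : ∃ mm, mm = ∑ s, D.mass s := ⟨_, rfl⟩
  have hm1 : ∀ s, D.mass s ≤ mm := by
    intro s
    rw [hmm]
    exact Finset.single_le_sum (f := fun s => D.mass s) (fun t _ => (hD.mass_pos t).le)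
      (Finset.mem_univ s)
  have hm0 : 0 ≤ mm := by rw [hmm]; exact Finset.sum_nonneg fun t _ => (hD.mass_pos t).le
  refine ⟨(Fintype.card S : ℝ) ^ ((5 : ℝ) / 3) * (C * 4 * (2 * mm)), by positivity, ?_⟩
  intro I _ _ sp ℓ Ψ hΨ w h hh
  have hQm := Qc_meas (pauQ w h) (2 * h)
  have hst := fun τ => int_state D sp ℓ Ψ hΨ τ
  obtain ⟨T, hT⟩ : ∃ T : I → ℝ, T = fun i => ∑ τ, ∫ x,
      (Qc (pauQ w h) (2 * h)).indicator (fun _ => (1 : ℝ)) (x i) * kin D sp i (Ψ τ) x := ⟨_, rfl⟩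
  have hT0 : ∀ i, 0 ≤ T i := by
    intro i
    rw [hT]
    refine Finset.sum_nonneg fun τ _ => integral_nonneg fun x => ?_
    exact mul_nonneg (Set.indicator_nonneg (fun _ _ => zero_le_one) _) (kin_nonneg' D hD sp i _ x)
  obtain ⟨N, hN⟩ : ∃ N : S → (I → E3) → ℝ, N = fun s x =>
      (if 2 * (D.g : ℝ) ≤ nsp sp s (Qc (pauQ w h) (2 * h)) x then
        nsp sp s (Qc (pauQ w h) (2 * h)) x ^ ((5 : ℝ) / 3) else 0) := ⟨_, rfl⟩
  have hNint : ∀ s τ, Integrable (fun x => N s x * ‖Ψ τ x‖ ^ 2) := by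
    intro s τ
    rw [hN]
    exact bdd_int _ (cut53_meas _ (nsp_meas sp s _ hQm) _) _
      (fun x => cut53_bound (nsp_nonneg' sp s _ x) (nsp_le_card sp s _ x)) _ (hst τ).1
  have h1 : ∀ x, (if 2 * (D.g : ℝ) * (Fintype.card S : ℝ) ≤
          nw (fun i => D.charge (sp i)) x h w then
          nw (fun i => D.charge (sp i)) x h w ^ ((5 : ℝ) / 3) else 0) ≤
        (Fintype.card S : ℝ) ^ ((5 : ℝ) / 3) *
          ∑ s ∈ Finset.univ.filter (fun s => D.charge s < 0), N s x := by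
    intro x
    rw [hN]
    split_ifs with hK
    · rw [nw_eq] at hK ⊢
      exact pow53 _ (fun s => nsp sp s (Qc (pauQ w h) (2 * h)) x)
        (fun s => nsp_nonneg' sp s _ x) (D.g : ℝ) (Nat.cast_nonneg _) hK
    · refine mul_nonneg (by positivity) (Finset.sum_nonneg fun s _ => ?_)
      simp only
      split_ifs
      · exact Real.rpow_nonneg (nsp_nonneg' sp s _ x) _
      · exact le_rfl
  have hGint : ∀ τ, Integrable (fun x => (if 2 * (D.g : ℝ) * (Fintype.card S : ℝ) ≤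
          nw (fun i => D.charge (sp i)) x h w then
          nw (fun i => D.charge (sp i)) x h w ^ ((5 : ℝ) / 3) else 0) * ‖Ψ τ x‖ ^ 2) := by
    intro τ
    have e1 : Measurable (fun x : I → E3 => nw (fun i => D.charge (sp i)) x h w) :=
      (nw_meas (fun i => D.charge (sp i)) h).comp (measurable_id.prodMk measurable_const)
    exact bdd_int _ (cut53_meas _ e1 _) _
      (fun x => cut53_bound (nw_nonneg' _ x h w) (nw_le_card _ x h w)) _ (hst τ).1
  have h2 : ∑ τ, ∫ x, (if 2 * (D.g : ℝ) * (Fintype.card S : ℝ) ≤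
          nw (fun i => D.charge (sp i)) x h w then
          nw (fun i => D.charge (sp i)) x h w ^ ((5 : ℝ) / 3) else 0) * ‖Ψ τ x‖ ^ 2 ≤
      (Fintype.card S : ℝ) ^ ((5 : ℝ) / 3) *
        ∑ s ∈ Finset.univ.filter (fun s => D.charge s < 0), ∑ τ, ∫ x, N s x * ‖Ψ τ x‖ ^ 2 := by
    rw [Finset.sum_comm, Finset.mul_sum]
    refine Finset.sum_le_sum fun τ _ => ?_
    rw [← integral_finsetSum _ fun s _ => hNint s τ, ← integral_const_mul]
    refine integral_mono (hGint τ) ?_ fun x => ?_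
    · exact (integrable_finsetSum _ fun s _ => hNint s τ).const_mul _
    · simp only
      rw [← Finset.sum_mul, ← mul_assoc]
      exact mul_le_mul_of_nonneg_right (h1 x) (sq_nonneg _)
  refine h2.trans ?_
  have h3 : ∀ s ∈ Finset.univ.filter (fun s => D.charge s < 0),
      ∑ τ, ∫ x, N s x * ‖Ψ τ x‖ ^ 2 ≤ C * (2 * h) ^ 2 * (2 * mm *
        ∑ i ∈ Finset.univ.filter (fun i => sp i = s), T i) := by
    intro s hs
    rw [Finset.mem_filter] at hs
    have h4 := H sp ℓ s (hf s hs.2) Ψ hΨ (pauQ w h) (2 * h) (by positivity)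
    rw [hN, hT]
    refine h4.trans ?_
    have h5 : 0 ≤ ∑ i ∈ Finset.univ.filter (fun i => sp i = s), T i :=
      Finset.sum_nonneg fun i _ => hT0 i
    rw [hT] at h5
    have h6 := hm1 s
    gcongr
  have h4 := Finset.sum_le_sum h3
  have h5 : ∑ s ∈ Finset.univ.filter (fun s => D.charge s < 0),
      ∑ i ∈ Finset.univ.filter (fun i => sp i = s), T i ≤ ∑ i, T i := by
    calc _ ≤ ∑ s, ∑ i ∈ Finset.univ.filter (fun i => sp i = s), T i :=
          Finset.sum_le_sum_of_subset_of_nonneg (Finset.filter_subset _ _)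
            fun s _ _ => Finset.sum_nonneg fun i _ => hT0 i
      _ = ∑ i, T i := Finset.sum_fiberwise _ _ _
  rw [← Finset.mul_sum, ← Finset.mul_sum] at h4
  have h6 : (Fintype.card S : ℝ) ^ ((5 : ℝ) / 3) *
      ∑ s ∈ Finset.univ.filter (fun s => D.charge s < 0), ∑ τ, ∫ x, N s x * ‖Ψ τ x‖ ^ 2 ≤
      (Fintype.card S : ℝ) ^ ((5 : ℝ) / 3) * (C * (2 * h) ^ 2 * (2 * mm * ∑ i, T i)) := by
    refine mul_le_mul_of_nonneg_left (h4.trans ?_) (by positivity)
    gcongr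
  refine h6.trans (le_of_eq ?_)
  rw [hT]
  ring


/-- TARGET -/
theorem nw_kin {S : Type} [Fintype S] [DecidableEq S] (D : Species S) (hD : D.Valid)
    (hf : ∀ s, D.charge s < 0 → D.fermion s = true) :
    ∃ K C : ℝ, 0 ≤ K ∧ 0 < C ∧ ∀ {I : Type} [Fintype I] [DecidableEq I] (sp : I → S) (ℓ : ℝ),
      ∀ (y : E3) (ρ h : ℝ), 0 < ρ → 0 < h →
      WI D sp ℓ (fun x => ∫ w in Metric.ball y ρ,
        (if K ≤ nw (fun i => D.charge (sp i)) x h w then
          nw (fun i => D.charge (sp i)) x h w ^ ((5 : ℝ) / 3) else 0)) ∧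
      ∀ Ψ : Wave D I, IsState D sp ℓ Ψ →
      wm D (fun x => ∫ w in Metric.ball y ρ, (if K ≤ nw (fun i => D.charge (sp i)) x h w then
          nw (fun i => D.charge (sp i)) x h w ^ ((5 : ℝ) / 3) else 0)) Ψ ≤
        C * h ^ 5 * kb D sp y (ρ + 2 * h) Ψ := by
  obtain ⟨C1, hC1, H⟩ := pau_point D hD hf
  obtain ⟨v, hv⟩ : ∃ v, v = (volume (Metric.ball (0 : E3) 1)).toReal := ⟨_, rfl⟩
  have hv0 : 0 ≤ v := by rw [hv]; exact ENNReal.toReal_nonneg
  refine ⟨2 * (D.g : ℝ) * (Fintype.card S : ℝ), C1 * (v * 8) + 1, by positivity, by positivity, ?_⟩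
  intro I _ _ sp ℓ y ρ h hρ hh
  obtain ⟨G, hG⟩ : ∃ G : (I → E3) → E3 → ℝ, G = fun x w =>
      (if 2 * (D.g : ℝ) * (Fintype.card S : ℝ) ≤ nw (fun i => D.charge (sp i)) x h w then
          nw (fun i => D.charge (sp i)) x h w ^ ((5 : ℝ) / 3) else 0) := ⟨_, rfl⟩
  have hGm : Measurable (fun p : (I → E3) × E3 => G p.1 p.2) := by
    rw [hG]
    exact cut53_meas _ (nw_meas (fun i => D.charge (sp i)) h) _
  have hGb : ∀ x w, |G x w| ≤ (Fintype.card I : ℝ) ^ ((5 : ℝ) / 3) := by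
    intro x w
    rw [hG]
    exact cut53_bound (nw_nonneg' _ x h w) (nw_le_card _ x h w)
  have hfub := fun (f : (I → E3) → ℝ) (hf : Integrable f) => pau_fub G hGm _ hGb f hf y ρ
  have hfub2 := fun (i : I) (f : (I → E3) → ℝ) (hf : Integrable f) =>
    pau_fub (fun x w => (Qc (pauQ w h) (2 * h)).indicator (fun _ => (1 : ℝ)) (x i))
      (pau_ind_meas i h) 1 (fun x w => pau_ind_bound w (x i) h) f hf y ρ
  have hGG : ∀ x w, (if 2 * (D.g : ℝ) * (Fintype.card S : ℝ) ≤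
      nw (fun i => D.charge (sp i)) x h w then
          nw (fun i => D.charge (sp i)) x h w ^ ((5 : ℝ) / 3) else 0) = G x w := by
    intro x w; rw [hG]
  simp only [hGG] at H ⊢
  refine ⟨fun Ψ hΨ τ => (hfub _ (int_state D sp ℓ Ψ hΨ τ).1).1, ?_⟩
  intro Ψ hΨ
  have hst := fun τ => int_state D sp ℓ Ψ hΨ τ
  have : IsFiniteMeasure (volume.restrict (Metric.ball y ρ)) :=
    ⟨by rw [Measure.restrict_apply_univ]; exact measure_ball_lt_top⟩
  have e1 : wm D (fun x => ∫ w in Metric.ball y ρ, G x w) Ψ =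
      ∫ w in Metric.ball y ρ, ∑ τ, ∫ x, G x w * ‖Ψ τ x‖ ^ 2 := by
    unfold wm
    rw [integral_finsetSum _ fun τ _ => (hfub _ (hst τ).1).2.1]
    exact Finset.sum_congr rfl fun τ _ => (hfub _ (hst τ).1).2.2
  have e2 : ∫ w in Metric.ball y ρ, ∑ τ, ∫ x, G x w * ‖Ψ τ x‖ ^ 2 ≤
      ∫ w in Metric.ball y ρ, C1 * h ^ 2 * ∑ i, ∑ τ, ∫ x,
        (Qc (pauQ w h) (2 * h)).indicator (fun _ => (1 : ℝ)) (x i) * kin D sp i (Ψ τ) x := by
    refine integral_mono (integrable_finsetSum _ fun τ _ => (hfub _ (hst τ).1).2.1) ?_ ?_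
    · exact (integrable_finsetSum _ fun i _ => integrable_finsetSum _ fun τ _ =>
        (hfub2 i _ ((hst τ).2.1 i)).2.1).const_mul _
    · intro w
      have := H sp ℓ Ψ hΨ w h hh
      rw [hG]
      exact this
  have e3 : ∫ w in Metric.ball y ρ, C1 * h ^ 2 * ∑ i, ∑ τ, ∫ x,
        (Qc (pauQ w h) (2 * h)).indicator (fun _ => (1 : ℝ)) (x i) * kin D sp i (Ψ τ) x =
      C1 * h ^ 2 * ∑ i, ∑ τ, ∫ x, (∫ w in Metric.ball y ρ,
        (Qc (pauQ w h) (2 * h)).indicator (fun _ => (1 : ℝ)) (x i)) * kin D sp i (Ψ τ) x := by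
    rw [integral_const_mul, integral_finsetSum _ fun i _ => integrable_finsetSum _ fun τ _ =>
        (hfub2 i _ ((hst τ).2.1 i)).2.1]
    congr 1
    refine Finset.sum_congr rfl fun i _ => ?_
    rw [integral_finsetSum _ fun τ _ => (hfub2 i _ ((hst τ).2.1 i)).2.1]
    refine Finset.sum_congr rfl fun τ _ => ?_
    exact (hfub2 i _ ((hst τ).2.1 i)).2.2.symm
  have hifm : ∀ i : I, Measurable (fun x : I → E3 => if ‖x i - y‖ < ρ + 2 * h then (1 : ℝ) else 0) := by
    intro i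
    refine Measurable.ite ?_ measurable_const measurable_const
    exact measurableSet_lt (by fun_prop) measurable_const
  have hkint : ∀ i τ, Integrable (fun x : I → E3 =>
      if ‖x i - y‖ < ρ + 2 * h then kin D sp i (Ψ τ) x else 0) := by
    intro i τ
    refine (bdd_int _ (hifm i) 1 (fun x => by split_ifs <;> simp) _ ((hst τ).2.1 i)).congr
      (Filter.Eventually.of_forall fun x => ?_)
    simp only
    split_ifs <;> simp
  have e4 : ∀ i τ, ∫ x, (∫ w in Metric.ball y ρ,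
        (Qc (pauQ w h) (2 * h)).indicator (fun _ => (1 : ℝ)) (x i)) * kin D sp i (Ψ τ) x ≤
      v * (2 * h) ^ 3 * ∫ x, if ‖x i - y‖ < ρ + 2 * h then kin D sp i (Ψ τ) x else 0 := by
    intro i τ
    rw [← integral_const_mul]
    refine integral_mono (hfub2 i _ ((hst τ).2.1 i)).1 ((hkint i τ).const_mul _) fun x => ?_
    have h1 := mul_le_mul_of_nonneg_right (pau_vol y (x i) ρ h hh)
      (kin_nonneg' D hD sp i (Ψ τ) x)
    refine h1.trans (le_of_eq ?_)
    rw [hv]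
    split_ifs <;> simp
  have e5 : kb D sp y (ρ + 2 * h) Ψ =
      ∑ i, ∑ τ, ∫ x, if ‖x i - y‖ < ρ + 2 * h then kin D sp i (Ψ τ) x else 0 := by
    unfold kb
    rw [Finset.sum_comm]
    refine Finset.sum_congr rfl fun τ _ => ?_
    rw [integral_finsetSum _ fun i _ => hkint i τ]
  have e6 : ∑ i, ∑ τ, ∫ x, (∫ w in Metric.ball y ρ,
        (Qc (pauQ w h) (2 * h)).indicator (fun _ => (1 : ℝ)) (x i)) * kin D sp i (Ψ τ) x ≤
      v * (2 * h) ^ 3 * kb D sp y (ρ + 2 * h) Ψ := by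
    rw [e5, Finset.mul_sum]
    refine Finset.sum_le_sum fun i _ => ?_
    rw [Finset.mul_sum]
    exact Finset.sum_le_sum fun τ _ => e4 i τ
  have hkb0 : 0 ≤ kb D sp y (ρ + 2 * h) Ψ := by
    rw [e5]
    refine Finset.sum_nonneg fun i _ => Finset.sum_nonneg fun τ _ => integral_nonneg fun x => ?_
    simp only [Pi.zero_apply]
    split_ifs
    · exact kin_nonneg' D hD sp i _ x
    · exact le_rfl
  rw [e1]
  refine e2.trans ?_
  rw [e3]
  have e7 : C1 * h ^ 2 * (∑ i, ∑ τ, ∫ x, (∫ w in Metric.ball y ρ,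
        (Qc (pauQ w h) (2 * h)).indicator (fun _ => (1 : ℝ)) (x i)) * kin D sp i (Ψ τ) x) ≤
      C1 * h ^ 2 * (v * (2 * h) ^ 3 * kb D sp y (ρ + 2 * h) Ψ) :=
    mul_le_mul_of_nonneg_left e6 (by positivity)
  refine e7.trans ?_
  have e8 : 0 ≤ h ^ 5 * kb D sp y (ρ + 2 * h) Ψ := mul_nonneg (by positivity) hkb0
  nlinarith

end Run7.h213.P.K.RPAU
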