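import Pool.Agent.Helper780_CP.RNL
import Pool.Agent.Run7.h213.P.KLLDefs2
import Pool.Agent.Run7.h213.P.KLLDefs3
import Pool.Agent.Run7.h213.P.KRWT
import Pool.Agent.Run7.h213.P.KRPAU
import Pool.Agent.Run7.h213.P.CBase
import Pool.Agent.Run7.h213.P.KMultiC
import Pool.Agent.Run7.h213.P.KMove0

set_option autoImplicit false

open MeasureTheory
open scoped Topology

namespace Run7.h213.P.K.RNL

open Pool.Agent.Helper985.CP hiding IsState Ortho QQ31988 QQ_ins0_31988 QQ_mul31988 QQ_perm31988 QQ_sum31988 cube energy idjT_act idjT_compact idjT_smooth idj_W0_act idj_W0_bound idj_W0_smooth idj_int idj_sum ims_state ins0_num ins0_swap31988 ins_disj ins_state int_state kin kinE nrm2_pos pe pe_symm peierls peierls_relabel prl_kin prl_sub psl_deriv psl_nrm psl_slice psl_state psl_weight pw_parseval pwaux_parseval q985_point rb833_X rb833_state rbX rb_act_X rb_bessel rb_bessel0 rb_ip_X rb_ip_XX rb_ip_XX_meas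 rb_ip_XX_one rb_ip_XX_vol rb_ip_swap rb_nice_X rb_nice_state relabel_num relabel_state relaux_kin remove_none_aux row_bound slice_basic slice_energy slice_state sm_ins0_31988 sphK sph_K sph_energy sph_isState sph_kin sph_sum spin_ins0_31988 stable_any state_comb sum_pe_half term_A31988 term_B31988 term_swap31988
open Pool.Agent.Helper780_CP hiding MM WI WI_add WI_const WI_coul WI_mul WI_near2 WI_one WI_pair WI_phi WI_smul WI_sum WI_wW WI_zero cost_avg icb kb klc ms_qf mulW_state multiC phb pinv_intg qf qf_int qf_one qf_split qf_wa rest_lower vb wm_add wm_mono wm_sum wm_tendsto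
open Pool.Agent.Helper780_CP.RNL hiding nl_int nl_kb_cov nl_kb_le nl_kin_nonneg nl_klc_nonneg num_law

variable [Env]

open Run7.h213.P.K
open Run7.h213.P.K.RWT (wt_facts)
open Pool.Agent.Helper780_CP.RNUMX (num_ball)
open Run7.h213.P.K.RPAU (nw_kin)

open Run7.h213.P.K

section aux


variable {S : Type} (D : Species S) {I : Type} [Fintype I] [DecidableEq I] (sp : I → S)

theorem nl_kin_nonneg (hD : D.Valid) (j : I) (u : (I → E3) → ℂ) (x : I → E3) :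
    0 ≤ kin D sp j u x := by
  exact kinP_nn D sp hD j u x

theorem nl_int (ℓ : ℝ) (Ψ : Wave D I) (hΨ : IsState D sp ℓ Ψ) (y : E3) (r : ℝ)
    (τ : I → Fin D.g) : Integrable (fun x => ∑ j, cy y r (x j) ^ 2 * kin D sp j (Ψ τ) x) := by
  refine integrable_finsetSum _ fun j _ => ?_
  have hk := (int_state D sp ℓ Ψ hΨ τ).2.1 j
  have hc : Continuous fun x : I → E3 => cy y r (x j) ^ 2 :=
    ((nl_cy_cont y r).comp (continuous_apply j)).pow 2
  refine hk.bdd_mul (c := 1) hc.aestronglyMeasurable (Filter.Eventually.of_forall fun x => ?_)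
  have := nl_cy01 y r (x j)
  rw [Real.norm_eq_abs, abs_of_nonneg (sq_nonneg _)]
  nlinarith [this.1, this.2]

theorem nl_klc_nonneg (hD : D.Valid) (Ψ : Wave D I) (y : E3) (r : ℝ) : 0 ≤ klc D sp y r Ψ := by
  unfold klc
  refine Finset.sum_nonneg fun τ _ => integral_nonneg fun x => Finset.sum_nonneg fun j _ => ?_
  exact mul_nonneg (sq_nonneg _) (nl_kin_nonneg D sp hD j _ _)

theorem nl_kb_le (hD : D.Valid) (ℓ : ℝ) (Ψ : Wave D I) (hΨ : IsState D sp ℓ Ψ) (y : E3)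
    (R r : ℝ) (hr : 0 < r) (hR : R ≤ r) : kb D sp y R Ψ ≤ klc D sp y r Ψ := by
  unfold kb klc
  refine Finset.sum_le_sum fun τ _ => ?_
  refine integral_mono_of_nonneg (Filter.Eventually.of_forall fun x => ?_)
    (nl_int D sp ℓ Ψ hΨ y r τ) (Filter.Eventually.of_forall fun x => ?_)
  · refine Finset.sum_nonneg fun j _ => ?_
    split_ifs
    · exact nl_kin_nonneg D sp hD j _ _
    · exact le_rfl
  · refine Finset.sum_le_sum fun j _ => ?_
    have hk := nl_kin_nonneg D sp hD j (Ψ τ) x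
    split_ifs with h
    · rw [nl_cy1 hr (h.le.trans hR)]
      linarith
    · exact mul_nonneg (sq_nonneg _) hk


theorem nl_kb_cov (hD : D.Valid) (ℓ : ℝ) (Ψ : Wave D I) (hΨ : IsState D sp ℓ Ψ) (y : E3)
    (r : ℝ) (hr : 0 < r) (F : Finset E3)
    (hF : ∀ v : E3, ‖v‖ ≤ 12 → ∃ p ∈ F, ‖v - p‖ < 1 / 64) :
    kb D sp y (12 * r) Ψ ≤ ∑ p ∈ F, klc D sp (y + r • p) (r / 4) Ψ := by
  unfold kb klc
  rw [Finset.sum_comm]
  refine Finset.sum_le_sum fun τ _ => ?_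
  rw [← integral_finsetSum _ fun p _ => nl_int D sp ℓ Ψ hΨ (y + r • p) (r / 4) τ]
  refine integral_mono_of_nonneg (Filter.Eventually.of_forall fun x => ?_)
    (integrable_finsetSum _ fun p _ => nl_int D sp ℓ Ψ hΨ (y + r • p) (r / 4) τ)
    (Filter.Eventually.of_forall fun x => ?_)
  · refine Finset.sum_nonneg fun j _ => ?_
    split_ifs
    · exact nl_kin_nonneg D sp hD j _ _
    · exact le_rfl
  · simp only
    rw [Finset.sum_comm]
    refine Finset.sum_le_sum fun j _ => ?_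
    have hk := nl_kin_nonneg D sp hD j (Ψ τ) x
    split_ifs with h
    · obtain ⟨p, hp, h1⟩ := nl_close hr hF h.le
      have h2 : cy (y + r • p) (r / 4) (x j) = 1 := nl_cy1 (by positivity) (by linarith)
      have h3 := Finset.single_le_sum
        (f := fun p => cy (y + r • p) (r / 4) (x j) ^ 2 * kin D sp j (Ψ τ) x)
        (fun p _ => mul_nonneg (sq_nonneg _) hk) hp
      rw [h2] at h3
      linarith
    · exact Finset.sum_nonneg fun p _ => mul_nonneg (sq_nonneg _) hk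


end aux

/-- TARGET -/
theorem num_law {S : Type} [Fintype S] [DecidableEq S] (D : Species S) (hD : D.Valid)
    (hf : ∀ s, D.charge s < 0 → D.fermion s = true) (z cm K₁ C₁ : ℝ) (hcm : 0 < cm)
    (hz : ∀ s, cm ≤ |D.charge s| ∧ |D.charge s| ≤ z) (hK₁ : 0 < K₁) (hC₁ : 0 < C₁)
    (h : RB z K₁ C₁) (F : Finset E3) (hF : ∀ v : E3, ‖v‖ ≤ 12 → ∃ p ∈ F, ‖v - p‖ < 1 / 64) :
    ∃ C : ℝ, 0 < C ∧ ∀ {I : Type} [Fintype I] [DecidableEq I] (sp : I → S) (ℓ : ℝ)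
      (Ψ : Wave D I), IsState D sp ℓ Ψ → nrm2 D Ψ = 1 → ∀ (y : E3) (r : ℝ), 0 < r → r ≤ 1 →
      0 ≤ klc D sp y r Ψ ∧ 0 ≤ wm D (mx D sp K₁ y r) Ψ ∧
      wm D (pl (cy y r) (fun i => D.charge (sp i))) Ψ ≤ wm D (mx D sp K₁ y r) Ψ ∧
      wm D (fun x => nb y (r / 16) x ^ ((5 : ℝ) / 3)) Ψ ≤ C * (1 + MM D sp K₁ y r Ψ) ∧
      wm D (fun x => nb y (12 * r) x ^ ((5 : ℝ) / 3)) Ψ ≤
        C * (1 + ∑ p ∈ F, MM D sp K₁ (y + r • p) (r / 4) Ψ) ∧
      kb D sp y (12 * r) Ψ ≤ ∑ p ∈ F, klc D sp (y + r • p) (r / 4) Ψ := by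
  obtain ⟨K, Ck, hK, hCk, hkin⟩ := nw_kin D hD hf
  obtain ⟨Cb, hCb, hball⟩ := num_ball z cm K hcm hK K₁ C₁ hC₁ h
  obtain ⟨C4, hC4⟩ : ∃ C4 : ℝ, C4 = 1 + Cb + Cb * Ck := ⟨_, rfl⟩
  have hC4pos : 0 < C4 := by rw [hC4]; positivity
  obtain ⟨cF, hcF⟩ : ∃ cF : ℝ, cF = (F.card : ℝ) ^ ((5 : ℝ) / 3 - 1) := ⟨_, rfl⟩
  have hcF0 : 0 ≤ cF := by rw [hcF]; positivity
  have basic : ∀ {I : Type} [Fintype I] [DecidableEq I] (sp : I → S) (ℓ : ℝ)
      (Ψ : Wave D I), IsState D sp ℓ Ψ → nrm2 D Ψ = 1 → ∀ (y : E3) (r : ℝ), 0 < r → r ≤ 1 →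
      0 ≤ klc D sp y r Ψ ∧ 0 ≤ wm D (mx D sp K₁ y r) Ψ ∧
      wm D (pl (cy y r) (fun i => D.charge (sp i))) Ψ ≤ wm D (mx D sp K₁ y r) Ψ ∧
      wm D (fun x => nb y (r / 16) x ^ ((5 : ℝ) / 3)) Ψ ≤ C4 * (1 + MM D sp K₁ y r Ψ) := by
    intro I _ _ sp ℓ Ψ hΨ hn y r hr hr1
    obtain ⟨-, wnb, wvl, wpl, wmx, -, -⟩ := wt_facts D hD sp ℓ
    have hRB : ∀ x : I → E3, (∀ i j, i ≠ j → x i ≠ x j) →
        0 ≤ pl (cy y r) (fun i => D.charge (sp i)) x ∧
        pl (cy y r) (fun i => D.charge (sp i)) x ≤ mx D sp K₁ y r x := by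
      intro x hx
      exact (h (fun i => D.charge (sp i)) x (cy y r) (fun i => (hz (sp i)).2) hx
        (fun v => nl_cy01 y r v)).1
    have hae : ∀ᵐ x : I → E3, ∀ i j, i ≠ j → x i ≠ x j := ae_distinct
    have a1 := nl_klc_nonneg D sp hD Ψ y r
    have a3 : wm D (pl (cy y r) (fun i => D.charge (sp i))) Ψ ≤ wm D (mx D sp K₁ y r) Ψ := by
      refine wm_mono D sp ℓ (wpl y r) (wmx y r K₁) Ψ hΨ ?_
      filter_upwards [hae] with x hx
      exact (hRB x hx).2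
    have a2' : 0 ≤ wm D (pl (cy y r) (fun i => D.charge (sp i))) Ψ := by
      have h1 : wm D (fun _ => 0) Ψ ≤ wm D (pl (cy y r) (fun i => D.charge (sp i))) Ψ := by
        refine wm_mono D sp ℓ (WI_zero D sp ℓ) (wpl y r) Ψ hΨ ?_
        filter_upwards [hae] with x hx
        exact (hRB x hx).1
      have h2 : wm D (fun _ => 0) Ψ = 0 := by
        unfold wm
        simp
      rwa [h2] at h1
    refine ⟨a1, a2'.trans a3, a3, ?_⟩
    obtain ⟨wk, hk⟩ := hkin sp ℓ y (r / 16) (r / 4) (by positivity) (by positivity)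
    have hk' := hk Ψ hΨ
    have hkb := nl_kb_le D sp hD ℓ Ψ hΨ y (r / 16 + 2 * (r / 4)) r hr (by linarith)
    have w1 : WI D sp ℓ (fun x => Cb * mx D sp K₁ y r x) := WI_smul D sp ℓ (wmx y r K₁) Cb
    have w2 : WI D sp ℓ (fun x => 1 + Cb * mx D sp K₁ y r x) := WI_add D sp ℓ (WI_const D sp ℓ 1) w1
    have w3 := WI_smul D sp ℓ wk (Cb / r ^ 3)
    have h5 := wm_mono D sp ℓ (wnb y (r / 16) ((5 : ℝ) / 3) (by norm_num)) (WI_add D sp ℓ w2 w3) Ψ hΨ
      (by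
        filter_upwards [hae] with x hx
        exact hball (fun i => D.charge (sp i)) x (fun i => hz (sp i)) hx y r hr hr1)
    rw [wm_add D sp ℓ w2 w3 Ψ hΨ, wm_add D sp ℓ (WI_const D sp ℓ 1) w1 Ψ hΨ, wm_smul, wm_smul,
      wm_one, hn] at h5
    refine h5.trans ?_
    have h6 : Cb / r ^ 3 * wm D (fun x => ∫ w in Metric.ball y (r / 16),
        (if K ≤ nw (fun i => D.charge (sp i)) x (r / 4) w then
          nw (fun i => D.charge (sp i)) x (r / 4) w ^ ((5 : ℝ) / 3) else 0)) Ψ ≤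
        Cb * Ck * klc D sp y r Ψ := by
      have h7 : Ck * (r / 4) ^ 5 * kb D sp y (r / 16 + 2 * (r / 4)) Ψ ≤
          Ck * (r / 4) ^ 5 * klc D sp y r Ψ := mul_le_mul_of_nonneg_left hkb (by positivity)
      have h8 : Cb / r ^ 3 * (Ck * (r / 4) ^ 5 * klc D sp y r Ψ) =
          Cb * Ck * klc D sp y r Ψ * (r ^ 2 / 1024) := by
        field_simp
        ring
      have h9 : Cb * Ck * klc D sp y r Ψ * (r ^ 2 / 1024) ≤ Cb * Ck * klc D sp y r Ψ := by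
        refine mul_le_of_le_one_right (by positivity) ?_
        nlinarith
      calc _ ≤ Cb / r ^ 3 * (Ck * (r / 4) ^ 5 * klc D sp y r Ψ) :=
            mul_le_mul_of_nonneg_left (hk'.trans h7) (by positivity)
        _ = _ := h8
        _ ≤ _ := h9
    have a2 := a2'.trans a3
    have hm : MM D sp K₁ y r Ψ = klc D sp y r Ψ + wm D (mx D sp K₁ y r) Ψ := rfl
    have e1 : C4 * (1 + MM D sp K₁ y r Ψ) = C4 + C4 * klc D sp y r Ψ +
        C4 * wm D (mx D sp K₁ y r) Ψ := by rw [hm]; ring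
    have e2 : (1 : ℝ) ≤ C4 := by rw [hC4]; nlinarith [mul_pos hCb hCk]
    have e3 : Cb * Ck * klc D sp y r Ψ ≤ C4 * klc D sp y r Ψ :=
      mul_le_mul_of_nonneg_right (by rw [hC4]; linarith) a1
    have e4 : Cb * wm D (mx D sp K₁ y r) Ψ ≤ C4 * wm D (mx D sp K₁ y r) Ψ :=
      mul_le_mul_of_nonneg_right (by rw [hC4]; nlinarith [mul_pos hCb hCk]) a2
    have e5 : wm D (fun x => mx D sp K₁ y r x) Ψ = wm D (mx D sp K₁ y r) Ψ := rfl
    rw [e1]
    rw [e5]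
    linarith
  refine ⟨C4 + cF * C4 * (F.card + 1), by positivity, ?_⟩
  intro I _ _ sp ℓ Ψ hΨ hn y r hr hr1
  obtain ⟨b1, b2, b3, b4⟩ := basic sp ℓ Ψ hΨ hn y r hr hr1
  have hMM : 0 ≤ MM D sp K₁ y r Ψ := add_nonneg b1 b2
  refine ⟨b1, b2, b3, ?_, ?_, nl_kb_cov D sp hD ℓ Ψ hΨ y r hr F hF⟩
  · refine b4.trans (mul_le_mul_of_nonneg_right ?_ (by linarith))
    have : 0 ≤ cF * C4 * ((F.card : ℝ) + 1) := by positivity
    linarith
  · obtain ⟨-, wnb, -, -, -, -, -⟩ := wt_facts D hD sp ℓ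
    have hp := fun p : E3 => basic sp ℓ Ψ hΨ hn (y + r • p) (r / 4) (by positivity) (by linarith)
    have hMp : ∀ p : E3, 0 ≤ MM D sp K₁ (y + r • p) (r / 4) Ψ := fun p =>
      add_nonneg (hp p).1 (hp p).2.1
    have hsum : 0 ≤ ∑ p ∈ F, MM D sp K₁ (y + r • p) (r / 4) Ψ := Finset.sum_nonneg fun p _ => hMp p
    have wsum : WI D sp ℓ (fun x => ∑ p ∈ F, nb (y + r • p) (r / 4 / 16) x ^ ((5 : ℝ) / 3)) :=
      WI_sum D sp ℓ F _ fun p _ => wnb _ _ _ (by norm_num)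
    have h1 : wm D (fun x => nb y (12 * r) x ^ ((5 : ℝ) / 3)) Ψ ≤
        cF * ∑ p ∈ F, wm D (fun x => nb (y + r • p) (r / 4 / 16) x ^ ((5 : ℝ) / 3)) Ψ := by
      rw [← wm_sum D sp ℓ F _ (fun p _ => wnb _ _ _ (by norm_num)) Ψ hΨ, ← wm_smul]
      refine wm_mono D sp ℓ (wnb _ _ _ (by norm_num)) (WI_smul D sp ℓ wsum cF) Ψ hΨ ?_
      refine Filter.Eventually.of_forall fun x => ?_
      rw [hcF]
      exact nl_nb_pow y r hr F hF x
    have h2 : ∑ p ∈ F, wm D (fun x => nb (y + r • p) (r / 4 / 16) x ^ ((5 : ℝ) / 3)) Ψ ≤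
        ∑ p ∈ F, C4 * (1 + MM D sp K₁ (y + r • p) (r / 4) Ψ) :=
      Finset.sum_le_sum fun p _ => (hp p).2.2.2
    have h3 : ∑ p ∈ F, C4 * (1 + MM D sp K₁ (y + r • p) (r / 4) Ψ) =
        C4 * (F.card + ∑ p ∈ F, MM D sp K₁ (y + r • p) (r / 4) Ψ) := by
      rw [← Finset.mul_sum, Finset.sum_add_distrib]
      simp
    rw [h3] at h2
    refine h1.trans ((mul_le_mul_of_nonneg_left h2 hcF0).trans ?_)
    obtain ⟨Sg, hSg⟩ : ∃ s : ℝ, s = ∑ p ∈ F, MM D sp K₁ (y + r • p) (r / 4) Ψ := ⟨_, rfl⟩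
    rw [← hSg] at hsum ⊢
    have hcard : (0 : ℝ) ≤ F.card := Nat.cast_nonneg _
    have h4 : 0 ≤ cF * C4 := by positivity
    have h5 : (F.card : ℝ) + Sg ≤ (F.card + 1) * (1 + Sg) := by nlinarith
    calc cF * (C4 * (F.card + Sg)) = cF * C4 * (F.card + Sg) := by ring
      _ ≤ cF * C4 * ((F.card + 1) * (1 + Sg)) := mul_le_mul_of_nonneg_left h5 h4
      _ = cF * C4 * (F.card + 1) * (1 + Sg) := by ring
      _ ≤ (C4 + cF * C4 * (F.card + 1)) * (1 + Sg) :=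
          mul_le_mul_of_nonneg_right (by linarith) (by linarith)

end Run7.h213.P.K.RNL
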