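import Pool.Agent.Helper780_CP.RPEN
import Pool.Agent.Run7.h213.P.KLLDefs2
import Pool.Agent.Run7.h213.P.KRC8
import Pool.Agent.Run7.h213.P.CBase
import Pool.Agent.Run7.h213.P.KLTC3
import Pool.Agent.Run7.h213.P.CM_relabel_num
import Pool.Agent.Run7.h213.P.CM_relabel_state
import Pool.Agent.Run7.h213.P.TM_peierls_relabel

set_option autoImplicit false

open MeasureTheory

namespace Run7.h213.P.K.RPEN

open Pool.Agent.Helper985.CP hiding IsState Ortho QQ31988 QQ_ins0_31988 QQ_mul31988 QQ_perm31988 QQ_sum31988 cube energy idjT_act idjT_compact idjT_smooth idj_W0_act idj_W0_bound idj_W0_smooth idj_int idj_sum ims_state ins0_num ins0_swap31988 ins_disj ins_state int_state kin kinE nrm2_pos pe pe_symm peierls peierls_relabel prl_kin prl_sub psl_deriv psl_nrm psl_slice psl_state psl_weight pw_parseval pwaux_parseval q985_point rb833_X rb833_state rbX rb_act_X rb_bessel rb_bessel0 rb_ip_X rb_ip_XX rb_ip_XX_meas rb_ip_XX_one rb_ip_XX_vol rb_ip_swap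 rb_nice_X rb_nice_state relabel_num relabel_state relaux_kin remove_none_aux row_bound slice_basic slice_energy slice_state sm_ins0_31988 sphK sph_K sph_energy sph_isState sph_kin sph_sum spin_ins0_31988 stable_any state_comb sum_pe_half term_A31988 term_B31988 term_swap31988
open Pool.Agent.Helper780_CP hiding WI WI_add WI_const WI_coul WI_mul WI_near2 WI_one WI_pair WI_phi WI_smul WI_sum WI_wW WI_zero cost_avg icb kb klc ms_qf mulW_state multiC phb pinv_intg qf qf_int qf_one qf_split qf_wa rest_lower vb wm_add wm_mono wm_sum wm_tendsto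
open Pool.Agent.Helper780_CP.RPEN hiding WI_bm WI_iq WI_mulm WI_nb WI_npl WI_pinv kf kf_nonneg kin_intg pen_cube_any pen_cube_sum pen_kin pen_kin_eq pen_kin_nonneg pen_kin_relab

variable [Env]

open Run7.h213.P.K
open Run7.h213.P.K.RC8 (pinv_cube)


theorem pen_kin_relab {S : Type} (D : Species S) {I J : Type} [Fintype I] [DecidableEq I]
    [Fintype J] [DecidableEq J] (e : I ≃ J) (sp : I → S) (sp' : J → S)
    (h : ∀ i, sp' (e i) = sp i) (f : E3 → ℝ) (i : I) (Ψ : Wave D I) :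
    ∑ τ, ∫ x, f (x (e i)) * kin D sp' (e i) (relab D e Ψ τ) x =
      ∑ τ, ∫ x, f (x i) * kin D sp i (Ψ τ) x := by
  rw [← relaux_sum e (fun τ => ∫ x, f (x i) * kin D sp i (Ψ τ) x)]
  apply Finset.sum_congr rfl
  intro τ _
  rw [← relaux_int e (fun x => f (x i) * kin D sp i (Ψ fun i => τ (e i)) x)]
  congr 1
  funext x
  have h1 := relaux_kin D e sp sp' h i (Ψ fun k => τ (e k)) x
  show f (x (e i)) * kin D sp' (e i) (fun y => Ψ (fun k => τ (e k)) (fun k => y (e k))) x = _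
  rw [h1]


theorem pen_kin_eq {S : Type} (D : Species S) (hD : D.Valid) {I : Type} [Fintype I]
    [DecidableEq I] (sp : I → S) (i : I) (u : (I → E3) → ℂ) (x : I → E3) :
    ∑ k : Fin 3, ‖fderiv ℝ u x (Pi.single i (EuclideanSpace.single k (1 : ℝ)))‖ ^ 2 =
      2 * D.mass (sp i) * kin0 D sp i u x := by
  unfold kin0 Pool.Agent.Helper985.CP.kin
  have := hD.mass_pos (sp i)
  field_simp


/-- localised kinetic energy of one particle -/
noncomputable def kf {S : Type} (D : Species S) {I : Type} [Fintype I] [DecidableEq I]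
    (sp : I → S) (f : E3 → ℝ) (i : I) (Ψ : Wave D I) : ℝ :=
  ∑ τ, ∫ x, f (x i) * kin D sp i (Ψ τ) x

theorem pen_cube_any {S : Type} [DecidableEq S] (D : Species S) (hD : D.Valid) (δ : ℝ)
    (hδ : 0 < δ) :
    ∃ C : ℝ, 0 < C ∧ ∀ {I : Type} [Fintype I] [DecidableEq I] (sp : I → S) (ℓ : ℝ) (i : I),
      D.charge (sp i) < 0 → D.fermion (sp i) = true →
      ∀ (Ψ : Wave D I), IsState D sp ℓ Ψ → ∀ (q : E3) (s : ℝ), 0 < s →
      (cnt sp (sp i) : ℝ) * wm D (fun x => iq q s (x i) * pinv D sp i x) Ψ ≤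
        δ * s * ((cnt sp (sp i) : ℝ) * (2 * D.mass (sp i) * kf D sp (iq q s) i Ψ)) +
        C / s * ((cnt sp (sp i) : ℝ) * wm D (fun x => iq q s (x i)) Ψ +
          wm D (npl D sp (Qp q s)) Ψ) := by
  obtain ⟨C, hC, H⟩ := pinv_cube D δ hδ
  refine ⟨C, hC, ?_⟩
  intro I _ _ sp ℓ i hneg hferm Ψ hΨ q s hs
  obtain ⟨e, he⟩ : ∃ e : I ≃ Option {j // j ≠ i}, e i = none :=
    ⟨(Equiv.optionSubtypeNe i).symm, Equiv.optionSubtypeNe_symm_self i⟩
  obtain ⟨sp', hsp'⟩ : ∃ sp' : Option {j // j ≠ i} → S, sp' = fun j => sp (e.symm j) := ⟨_, rfl⟩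
  have h : ∀ k, sp' (e k) = sp k := fun k => by rw [hsp']; simp
  have hnone : sp' none = sp i := by rw [← he, h]
  have h1 := H sp' ℓ (by rw [hnone]; exact hneg) (by rw [hnone]; exact hferm)
    (relab D e Ψ) (relabel_state D e sp sp' h ℓ Ψ hΨ) q s hs
  have e1 : ∑ τ, ∫ x, (Qc q s).indicator (fun _ => (1 : ℝ)) (x none) *
      pinv D sp' none x * ‖relab D e Ψ τ x‖ ^ 2 =
      wm D (fun x => iq q s (x i) * pinv D sp i x) Ψ := by
    refine pen_wm_relab D e (fun x => (Qc q s).indicator (fun _ => (1 : ℝ)) (x none) *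
      pinv D sp' none x) _ (fun x => ?_) Ψ
    rw [← he, pinv_relab D e sp sp' h i x]
    rfl
  have e2 : ∑ τ, ∫ x, (Qc q s).indicator (fun _ => (1 : ℝ)) (x none) *
      ∑ k : Fin 3, ‖fderiv ℝ (relab D e Ψ τ) x
        (Pi.single none (EuclideanSpace.single k (1 : ℝ)))‖ ^ 2 =
      2 * D.mass (sp i) * ∑ τ, ∫ x, iq q s (x i) * kin0 D sp i (Ψ τ) x := by
    have e0 := Pool.Agent.Helper780_CP.RPEN.pen_kin_relab D e sp sp' h (iq q s) i Ψ
    rw [← e0, Finset.mul_sum]
    refine Finset.sum_congr rfl fun τ _ => ?_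
    rw [← integral_const_mul]
    congr 1
    funext x
    rw [pen_kin_eq D hD sp' none, he, hnone]
    unfold iq
    ring
  have e2' : ∑ τ, ∫ x, iq q s (x i) * kin0 D sp i (Ψ τ) x ≤ kf D sp (iq q s) i Ψ := by
    unfold kf
    refine Finset.sum_le_sum fun τ _ => ?_
    have hms : Measurable (fun x : I → E3 => iq q s (x i)) :=
      (measurable_const.indicator (Qc_meas q s)).comp (measurable_pi_apply i)
    have hbd : ∀ x : I → E3, ‖iq q s (x i)‖ ≤ 1 := by
      intro x
      unfold iq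
      by_cases hx : x i ∈ Qc q s <;> simp [Set.indicator, hx]
    refine integral_mono ((int_kin0 D sp ℓ Ψ hΨ τ i).bdd_mul hms.aestronglyMeasurable
        (Filter.Eventually.of_forall hbd))
      (((int_state D sp ℓ Ψ hΨ τ).2.1 i).bdd_mul hms.aestronglyMeasurable
        (Filter.Eventually.of_forall hbd)) fun x => ?_
    refine mul_le_mul_of_nonneg_left (kin_ge D sp i (Ψ τ) x) ?_
    unfold iq
    exact Set.indicator_nonneg (fun _ _ => zero_le_one) _
  have e3 : ∑ τ, ∫ x, (Qc q s).indicator (fun _ => (1 : ℝ)) (x none) *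
      ‖relab D e Ψ τ x‖ ^ 2 = wm D (fun x => iq q s (x i)) Ψ := by
    refine pen_wm_relab D e (fun x => (Qc q s).indicator (fun _ => (1 : ℝ)) (x none))
      _ (fun x => ?_) Ψ
    rw [← he]
    rfl
  have e4 : ∑ τ, ∫ x, npl D sp' (Qp q s) x * ‖relab D e Ψ τ x‖ ^ 2 =
      wm D (npl D sp (Qp q s)) Ψ :=
    pen_wm_relab D e (npl D sp' (Qp q s)) (npl D sp (Qp q s))
      (fun x => pen_npl_relab D e sp sp' h _ x) Ψ
  rw [e1, e2, e3, e4, hnone, cnt_relab e sp sp' h] at h1
  refine h1.trans (add_le_add_left ?_ _)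
  have hm := (hD.mass_pos (sp i)).le
  exact mul_le_mul_of_nonneg_left (mul_le_mul_of_nonneg_left
    (mul_le_mul_of_nonneg_left e2' (by positivity)) (Nat.cast_nonneg _)) (by positivity)


theorem pen_kin_nonneg {S : Type} (D : Species S) (hD : D.Valid) {I : Type} [Fintype I]
    [DecidableEq I] (sp : I → S) (i : I) (u : (I → E3) → ℂ) (x : I → E3) :
    0 ≤ kin D sp i u x := by
  exact kinP_nn D sp hD i u x


theorem kf_nonneg {S : Type} (D : Species S) (hD : D.Valid) {I : Type} [Fintype I]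
    [DecidableEq I] (sp : I → S) (f : E3 → ℝ) (hf : ∀ v, 0 ≤ f v) (i : I) (Ψ : Wave D I) :
    0 ≤ kf D sp f i Ψ :=
  Finset.sum_nonneg fun _ _ => integral_nonneg fun x =>
    mul_nonneg (hf _) (pen_kin_nonneg D hD sp i _ x)

theorem pen_cube_sum {S : Type} [Fintype S] [DecidableEq S] (D : Species S) (hD : D.Valid)
    (hf : ∀ s, D.charge s < 0 → D.fermion s = true) (δ : ℝ) (hδ : 0 < δ) :
    ∃ C : ℝ, 0 < C ∧ ∀ {I : Type} [Fintype I] [DecidableEq I] (sp : I → S) (ℓ : ℝ)
      (Ψ : Wave D I), IsState D sp ℓ Ψ → ∀ (q : E3) (s : ℝ), 0 < s → s ≤ 1 →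
      ∑ i, (if D.charge (sp i) < 0 then wm D (fun x => iq q s (x i) * pinv D sp i x) Ψ else 0) ≤
        δ * ∑ i, kf D sp (iq q s) i Ψ +
        C / s * (∑ i, wm D (fun x => iq q s (x i)) Ψ + wm D (npl D sp (Qp q s)) Ψ) := by
  obtain ⟨ms, hms⟩ : ∃ ms, ms = ∑ s, D.mass s := ⟨_, rfl⟩
  have hms1 : ∀ s, D.mass s ≤ ms := by
    intro s
    rw [hms]
    exact Finset.single_le_sum (f := fun s => D.mass s) (fun t _ => (hD.mass_pos t).le)
      (Finset.mem_univ s)
  have hms0 : 0 ≤ ms := by rw [hms]; exact Finset.sum_nonneg fun t _ => (hD.mass_pos t).le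
  obtain ⟨δ', hδ'⟩ : ∃ δ', δ' = δ / (2 * ms + 1) := ⟨_, rfl⟩
  have hδ0 : 0 < δ' := by rw [hδ']; positivity
  have hδ1 : ∀ s, δ' * (2 * D.mass s) ≤ δ := by
    intro s
    have h1 := hms1 s
    rw [hδ', div_mul_eq_mul_div, div_le_iff₀ (by positivity)]
    exact mul_le_mul_of_nonneg_left (by linarith) hδ.le
  obtain ⟨C, hC, H⟩ := pen_cube_any D hD δ' hδ0
  refine ⟨C * (1 + (Fintype.card S : ℝ)), by positivity, ?_⟩
  intro I _ _ sp ℓ Ψ hΨ q s hs hs1
  have hN : 0 ≤ wm D (npl D sp (Qp q s)) Ψ := pen_wm_nonneg D _ (npl_nonneg D sp _) Ψ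
  have hn : ∀ i, 0 ≤ wm D (fun x => iq q s (x i)) Ψ := fun i =>
    pen_wm_nonneg D _ (fun x => iq_nonneg q s _) Ψ
  have hk : ∀ i, 0 ≤ kf D sp (iq q s) i Ψ := fun i => kf_nonneg D hD sp _ (iq_nonneg q s) i Ψ
  have h4 : ∀ i, (if D.charge (sp i) < 0 then
      wm D (fun x => iq q s (x i) * pinv D sp i x) Ψ else 0) ≤
      δ * kf D sp (iq q s) i Ψ + C / s * (wm D (fun x => iq q s (x i)) Ψ +
        1 / (cnt sp (sp i) : ℝ) * wm D (npl D sp (Qp q s)) Ψ) := by
    intro i
    have hcn : 0 < (cnt sp (sp i) : ℝ) := by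
      have : 0 < cnt sp (sp i) := by
        unfold cnt
        exact Finset.card_pos.2 ⟨i, by simp⟩
      exact_mod_cast this
    have hki := hk i
    have hni := hn i
    by_cases hi : D.charge (sp i) < 0
    · rw [if_pos hi]
      have h5 := H sp ℓ i hi (hf _ hi) Ψ hΨ q s hs
      have h6 : wm D (fun x => iq q s (x i) * pinv D sp i x) Ψ ≤
          δ' * s * (2 * D.mass (sp i) * kf D sp (iq q s) i Ψ) +
          C / s * (wm D (fun x => iq q s (x i)) Ψ +
            1 / (cnt sp (sp i) : ℝ) * wm D (npl D sp (Qp q s)) Ψ) := by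
        refine le_of_mul_le_mul_left (h5.trans (le_of_eq ?_)) hcn
        field_simp
      refine h6.trans (add_le_add_left ?_ _)
      have h7 : 0 ≤ 2 * D.mass (sp i) * kf D sp (iq q s) i Ψ :=
        mul_nonneg (mul_nonneg (by norm_num) (hD.mass_pos _).le) hki
      calc δ' * s * (2 * D.mass (sp i) * kf D sp (iq q s) i Ψ)
          ≤ δ' * 1 * (2 * D.mass (sp i) * kf D sp (iq q s) i Ψ) :=
            mul_le_mul_of_nonneg_right (mul_le_mul_of_nonneg_left hs1 hδ0.le) h7
        _ = δ' * (2 * D.mass (sp i)) * kf D sp (iq q s) i Ψ := by ring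
        _ ≤ δ * kf D sp (iq q s) i Ψ := mul_le_mul_of_nonneg_right (hδ1 _) hki
    · rw [if_neg hi]
      positivity
  refine (Finset.sum_le_sum fun i _ => h4 i).trans ?_
  rw [Finset.sum_add_distrib, ← Finset.mul_sum, ← Finset.mul_sum, Finset.sum_add_distrib,
    ← Finset.sum_mul]
  have h6 : ∑ i, (1 / (cnt sp (sp i) : ℝ)) ≤ (Fintype.card S : ℝ) := by
    rw [sum_sp sp (fun s => 1 / (cnt sp s : ℝ))]
    calc ∑ s, (cnt sp s : ℝ) * (1 / (cnt sp s : ℝ)) ≤ ∑ _s : S, (1 : ℝ) := by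
          refine Finset.sum_le_sum fun s _ => ?_
          by_cases h0 : (cnt sp s : ℝ) = 0
          · rw [h0]; simp
          · rw [mul_one_div, div_self h0]
      _ = (Fintype.card S : ℝ) := by simp
  have h7 : 0 ≤ ∑ i, wm D (fun x => iq q s (x i)) Ψ := Finset.sum_nonneg fun i _ => hn i
  have h8 : C / s * (∑ i, wm D (fun x => iq q s (x i)) Ψ +
      (∑ i, 1 / (cnt sp (sp i) : ℝ)) * wm D (npl D sp (Qp q s)) Ψ) ≤
      C / s * ((1 + (Fintype.card S : ℝ)) * (∑ i, wm D (fun x => iq q s (x i)) Ψ +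
        wm D (npl D sp (Qp q s)) Ψ)) := by
    refine mul_le_mul_of_nonneg_left ?_ (by positivity)
    have h9 := mul_le_mul_of_nonneg_right h6 hN
    have h10 : 0 ≤ (Fintype.card S : ℝ) * ∑ i, wm D (fun x => iq q s (x i)) Ψ := by positivity
    nlinarith
  have e : C * (1 + (Fintype.card S : ℝ)) / s * (∑ i, wm D (fun x => iq q s (x i)) Ψ +
      wm D (npl D sp (Qp q s)) Ψ) = C / s * ((1 + (Fintype.card S : ℝ)) *
        (∑ i, wm D (fun x => iq q s (x i)) Ψ + wm D (npl D sp (Qp q s)) Ψ)) := by ring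
  rw [e]
  linarith


theorem WI_mulm {S : Type} (D : Species S) {I : Type} [Fintype I] [DecidableEq I] (sp : I → S)
    (ℓ : ℝ) {W : (I → E3) → ℝ} (hW : WI D sp ℓ W) (f : (I → E3) → ℝ)
    (hf : Measurable f) (hb : ∀ x, |f x| ≤ 1) : WI D sp ℓ (fun x => f x * W x) := by
  intro Ψ hΨ τ
  have h := (hW Ψ hΨ τ).bdd_mul (c := 1) hf.aestronglyMeasurable
    (Filter.Eventually.of_forall fun x => by rw [Real.norm_eq_abs]; exact hb x)
  refine h.congr (Filter.Eventually.of_forall fun x => ?_)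
  simp only
  ring

theorem WI_bm {S : Type} (D : Species S) {I : Type} [Fintype I] [DecidableEq I] (sp : I → S)
    (ℓ : ℝ) (f : (I → E3) → ℝ)
    (hf : Measurable f) (hb : ∀ x, |f x| ≤ 1) : WI D sp ℓ f := by
  have h := WI_mulm D sp ℓ (WI_const D sp ℓ 1) f hf hb
  simpa only [mul_one] using h


theorem WI_iq {S : Type} (D : Species S) {I : Type} [Fintype I] [DecidableEq I] (sp : I → S)
    (ℓ : ℝ) (q : E3) (s : ℝ) (i : I) : WI D sp ℓ (fun x => iq q s (x i)) :=
  WI_bm D sp ℓ _ ((iq_meas q s).comp (measurable_pi_apply i))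
    (fun x => abs_le_one_of (iq_nonneg q s _) (iq_le q s _))

theorem WI_npl {S : Type} (D : Species S) {I : Type} [Fintype I] [DecidableEq I] (sp : I → S)
    (ℓ : ℝ) (q : E3) (s : ℝ) : WI D sp ℓ (npl D sp (Qp q s)) := by
  classical
  have e : npl D sp (Qp q s) = fun x => ∑ j, (if 0 < D.charge (sp j) then
      (Qp q s).indicator (fun _ => (1 : ℝ)) (x j) else 0) := by
    funext x
    unfold npl
    refine Finset.sum_congr rfl fun j _ => ?_
    by_cases h1 : 0 < D.charge (sp j)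
    · by_cases h2 : x j ∈ Qp q s
      · rw [if_pos ⟨h1, h2⟩, if_pos h1, Set.indicator_of_mem h2]
      · rw [if_neg (fun h => h2 h.2), if_pos h1, Set.indicator_of_notMem h2]
    · rw [if_neg (fun h => h1 h.1), if_neg h1]
  rw [e]
  apply WI_sum
  intro j _
  by_cases h1 : 0 < D.charge (sp j)
  · simp only [if_pos h1]
    refine WI_bm D sp ℓ _ ((measurable_const.indicator (Qp_meas q s)).comp
      (measurable_pi_apply j)) (fun x => abs_le_one_of (Set.indicator_nonneg
        (fun _ _ => zero_le_one) _) ?_)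
    by_cases h : x j ∈ Qp q s
    · rw [Set.indicator_of_mem h]
    · rw [Set.indicator_of_notMem h]; exact zero_le_one
  · simp only [if_neg h1]
    exact WI_zero D sp ℓ

theorem WI_nb {S : Type} (D : Species S) {I : Type} [Fintype I] [DecidableEq I] (sp : I → S)
    (ℓ : ℝ) (y : E3) (R : ℝ) : WI D sp ℓ (nb y R) := by
  unfold nb
  apply WI_sum
  intro i _
  refine WI_bm D sp ℓ _ ?_ (fun x => ?_)
  · refine Measurable.ite (measurableSet_le ?_ measurable_const) measurable_const measurable_const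
    exact ((measurable_pi_apply i).sub measurable_const).norm
  · split_ifs
    · simp
    · simp

theorem WI_pinv {S : Type} (D : Species S) (hD : D.Valid) {I : Type} [Fintype I]
    [DecidableEq I] (sp : I → S) (ℓ : ℝ) (i : I) : WI D sp ℓ (pinv D sp i) :=
  fun Ψ hΨ τ => pinv_intg D hD sp ℓ Ψ hΨ i τ


theorem kin_intg {S : Type} (D : Species S) {I : Type} [Fintype I] [DecidableEq I]
    (sp : I → S) (ℓ : ℝ) (Ψ : Wave D I) (hΨ : IsState D sp ℓ Ψ) (i : I) (τ : I → Fin D.g)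
    (f : (I → E3) → ℝ) (hf : Measurable f) (hb : ∀ x, |f x| ≤ 1) :
    Integrable (fun x => f x * kin D sp i (Ψ τ) x) := by
  have h := ((int_state D sp ℓ Ψ hΨ τ).2.1 i).bdd_mul (c := 1) hf.aestronglyMeasurable
    (Filter.Eventually.of_forall fun x => by rw [Real.norm_eq_abs]; exact hb x)
  exact h

/-- TARGET -/
theorem pen_kin {S : Type} [Fintype S] [DecidableEq S] (D : Species S) (hD : D.Valid)
    (hf : ∀ s, D.charge s < 0 → D.fermion s = true) (δ : ℝ) (hδ : 0 < δ) :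
    ∃ C : ℝ, 0 < C ∧ ∀ {I : Type} [Fintype I] [DecidableEq I] (sp : I → S) (ℓ : ℝ)
      (Ψ : Wave D I), IsState D sp ℓ Ψ → ∀ (y : E3) (r : ℝ), 0 < r → r ≤ 1 →
        wm D (pl (cy y r) (fun i => D.charge (sp i))) Ψ ≤
          δ * kb D sp y (3 * r) Ψ + C / r * wm D (nb y (3 * r)) Ψ := by
  obtain ⟨C, hC, H⟩ := pen_cube_sum D hD hf δ hδ
  refine ⟨8 * C * (1 + (gm.card : ℝ)), by positivity, ?_⟩
  intro I _ _ sp ℓ Ψ hΨ y r hr hr1
  have hs : 0 < r / 8 := by positivity
  have hs1 : r / 8 ≤ 1 := by linarith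
  have hcy : ∀ i, WI D sp ℓ (fun x => cy y r (x i) * pinv D sp i x) := fun i =>
    WI_mulm D sp ℓ (WI_pinv D hD sp ℓ i) _ ((cy_meas y r).comp (measurable_pi_apply i))
      (fun x => abs_le_one_of (cy_nonneg' y r _) (cy_le_one' y r _))
  have hiq : ∀ q s i, WI D sp ℓ (fun x => iq q s (x i) * pinv D sp i x) := fun q s i =>
    WI_mulm D sp ℓ (WI_pinv D hD sp ℓ i) _ ((iq_meas q s).comp (measurable_pi_apply i))
      (fun x => abs_le_one_of (iq_nonneg q s _) (iq_le q s _))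
  -- the penalty as a sum
  have h1 : wm D (pl (cy y r) (fun i => D.charge (sp i))) Ψ =
      ∑ i, (if D.charge (sp i) < 0 then wm D (fun x => cy y r (x i) * pinv D sp i x) Ψ
        else 0) := by
    have e : pl (I := I) (cy y r) (fun i => D.charge (sp i)) = fun x => ∑ i, (fun (i : I)
        (x : I → E3) => if D.charge (sp i) < 0 then cy y r (x i) * pinv D sp i x else 0) i x := by
      funext x
      rfl
    rw [e, wm_sum D sp ℓ Finset.univ _ _ Ψ hΨ]
    · refine Finset.sum_congr rfl fun i _ => ?_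
      by_cases hi : D.charge (sp i) < 0
      · simp only [if_pos hi]
      · simp only [if_neg hi]
        unfold wm
        simp
    · intro i _
      by_cases hi : D.charge (sp i) < 0
      · simp only [if_pos hi]
        exact hcy i
      · simp only [if_neg hi]
        exact WI_zero D sp ℓ
  -- the cover
  have h2 : ∀ i, wm D (fun x => cy y r (x i) * pinv D sp i x) Ψ ≤
      ∑ m ∈ gf y r, wm D (fun x => iq (gc y (r / 8) m) (r / 8) (x i) * pinv D sp i x) Ψ := by
    intro i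
    rw [← wm_sum D sp ℓ (gf y r) (fun m x => iq (gc y (r / 8) m) (r / 8) (x i) *
      pinv D sp i x) (fun m _ => hiq _ _ i) Ψ hΨ]
    refine wm_mono D sp ℓ (hcy i) (WI_sum D sp ℓ _ _ fun m _ => hiq _ _ i) Ψ hΨ
      (Filter.Eventually.of_forall fun x => ?_)
    rw [← Finset.sum_mul]
    exact mul_le_mul_of_nonneg_right (cy_le_sum y r hr _) (pinv_nonneg D sp i x)
  have h3 : ∑ i, (if D.charge (sp i) < 0 then
      wm D (fun x => cy y r (x i) * pinv D sp i x) Ψ else 0) ≤
      ∑ m ∈ gf y r, ∑ i, (if D.charge (sp i) < 0 then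
        wm D (fun x => iq (gc y (r / 8) m) (r / 8) (x i) * pinv D sp i x) Ψ else 0) := by
    rw [Finset.sum_comm]
    refine Finset.sum_le_sum fun i _ => ?_
    by_cases hi : D.charge (sp i) < 0
    · simp only [if_pos hi]
      exact h2 i
    · simp only [if_neg hi]
      simp
  have h4 := Finset.sum_le_sum fun m (_ : m ∈ gf y r) =>
    H sp ℓ Ψ hΨ (gc y (r / 8) m) (r / 8) hs hs1
  rw [Finset.sum_add_distrib, ← Finset.mul_sum, ← Finset.mul_sum, Finset.sum_add_distrib] at h4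
  -- kinetic energy
  have h5 : ∑ m ∈ gf y r, ∑ i, kf D sp (iq (gc y (r / 8) m) (r / 8)) i Ψ ≤
      kb D sp y (3 * r) Ψ := by
    unfold kf kb
    rw [Finset.sum_comm]
    have e1 : ∀ i, ∑ m ∈ gf y r, ∑ τ, ∫ x, iq (gc y (r / 8) m) (r / 8) (x i) *
        kin D sp i (Ψ τ) x = ∑ τ, ∫ x, (∑ m ∈ gf y r, iq (gc y (r / 8) m) (r / 8) (x i)) *
        kin D sp i (Ψ τ) x := by
      intro i
      rw [Finset.sum_comm]
      refine Finset.sum_congr rfl fun τ _ => ?_
      rw [← integral_finsetSum]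
      · congr 1
        funext x
        rw [Finset.sum_mul]
      · intro m _
        exact kin_intg D sp ℓ Ψ hΨ i τ _ ((iq_meas _ _).comp (measurable_pi_apply i))
          (fun x => abs_le_one_of (iq_nonneg _ _ _) (iq_le _ _ _))
    simp only [e1]
    rw [Finset.sum_comm]
    refine Finset.sum_le_sum fun τ _ => ?_
    have hm1 : ∀ i, Measurable (fun x : I → E3 => ∑ m ∈ gf y r,
        iq (gc y (r / 8) m) (r / 8) (x i)) := fun i =>
      Finset.measurable_sum _ fun m _ => (iq_meas _ _).comp (measurable_pi_apply i)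
    have hb1 : ∀ (i : I) (x : I → E3), |∑ m ∈ gf y r, iq (gc y (r / 8) m) (r / 8) (x i)| ≤ 1 := by
      intro i x
      refine abs_le_one_of (Finset.sum_nonneg fun m _ => iq_nonneg _ _ _) ?_
      refine (gf_le y r hr _).trans ?_
      split_ifs <;> norm_num
    have hm2 : ∀ i, Measurable (fun x : I → E3 => if ‖x i - y‖ < 3 * r then (1 : ℝ) else 0) := by
      intro i
      refine Measurable.ite (measurableSet_lt ?_ measurable_const) measurable_const
        measurable_const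
      exact ((measurable_pi_apply i).sub measurable_const).norm
    have hb2 : ∀ (i : I) (x : I → E3), |if ‖x i - y‖ < 3 * r then (1 : ℝ) else 0| ≤ 1 := by
      intro i x
      split_ifs <;> simp
    have e2 : ∀ (j : I) (x : I → E3), (if ‖x j - y‖ < 3 * r then kin D sp j (Ψ τ) x else 0) =
        (if ‖x j - y‖ < 3 * r then (1 : ℝ) else 0) * kin D sp j (Ψ τ) x := by
      intro j x
      split_ifs <;> simp
    simp only [e2]
    rw [integral_finsetSum _ (fun j _ => kin_intg D sp ℓ Ψ hΨ j τ _ (hm2 j) (hb2 j))]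
    refine Finset.sum_le_sum fun i _ => ?_
    refine integral_mono (kin_intg D sp ℓ Ψ hΨ i τ _ (hm1 i) (hb1 i))
      (kin_intg D sp ℓ Ψ hΨ i τ _ (hm2 i) (hb2 i)) fun x => ?_
    exact mul_le_mul_of_nonneg_right (gf_le y r hr _) (pen_kin_nonneg D hD sp i _ x)
  -- numbers
  have hnb := WI_nb D sp ℓ y (3 * r)
  have h6 : ∑ m ∈ gf y r, ∑ i, wm D (fun x => iq (gc y (r / 8) m) (r / 8) (x i)) Ψ ≤
      wm D (nb y (3 * r)) Ψ := by
    have e1 : ∀ m, ∑ i, wm D (fun x => iq (gc y (r / 8) m) (r / 8) (x i)) Ψ =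
        wm D (fun x => ∑ i, iq (gc y (r / 8) m) (r / 8) (x i)) Ψ := by
      intro m
      rw [wm_sum D sp ℓ Finset.univ (fun i x => iq (gc y (r / 8) m) (r / 8) (x i))
        (fun i _ => WI_iq D sp ℓ _ _ i) Ψ hΨ]
    have w1 : ∀ m, WI D sp ℓ (fun x => ∑ i, iq (gc y (r / 8) m) (r / 8) (x i)) := fun m =>
      WI_sum D sp ℓ _ _ fun i _ => WI_iq D sp ℓ _ _ i
    simp only [e1]
    rw [← wm_sum D sp ℓ (gf y r) (fun m x => ∑ i, iq (gc y (r / 8) m) (r / 8) (x i))
      (fun m _ => w1 m) Ψ hΨ]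
    refine wm_mono D sp ℓ (WI_sum D sp ℓ _ _ fun m _ => w1 m) hnb Ψ hΨ
      (Filter.Eventually.of_forall fun x => ?_)
    rw [Finset.sum_comm]
    unfold nb
    refine Finset.sum_le_sum fun i _ => (gf_le y r hr _).trans ?_
    by_cases h : ‖x i - y‖ < 3 * r
    · rw [if_pos h, if_pos h.le]
    · rw [if_neg h]
      split_ifs <;> norm_num
  have h7 : ∑ m ∈ gf y r, wm D (npl D sp (Qp (gc y (r / 8) m) (r / 8))) Ψ ≤
      (gm.card : ℝ) * wm D (nb y (3 * r)) Ψ := by
    have hn0 : 0 ≤ wm D (nb y (3 * r)) Ψ := by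
      refine pen_wm_nonneg D _ (fun x => ?_) Ψ
      unfold nb
      refine Finset.sum_nonneg fun i _ => ?_
      split_ifs <;> norm_num
    have h8 : ∀ m ∈ gf y r, wm D (npl D sp (Qp (gc y (r / 8) m) (r / 8))) Ψ ≤
        wm D (nb y (3 * r)) Ψ := by
      intro m hm
      refine wm_mono D sp ℓ (WI_npl D sp ℓ _ _) hnb Ψ hΨ
        (Filter.Eventually.of_forall fun x => ?_)
      unfold npl nb
      refine Finset.sum_le_sum fun i _ => ?_
      by_cases h : 0 < D.charge (sp i) ∧ x i ∈ Qp (gc y (r / 8) m) (r / 8)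
      · rw [if_pos h, if_pos (gf_in y r hr m hm _ h.2).le]
      · rw [if_neg h]
        split_ifs <;> norm_num
    refine (Finset.sum_le_sum h8).trans ?_
    rw [Finset.sum_const, nsmul_eq_mul]
    refine mul_le_mul_of_nonneg_right ?_ hn0
    have h9 : (gf y r).card ≤ gm.card := gf_card y r
    exact_mod_cast h9
  rw [h1]
  refine (h3.trans h4).trans ?_
  have h10 := mul_le_mul_of_nonneg_left h5 hδ.le
  have h11 : C / (r / 8) * (∑ m ∈ gf y r, ∑ i, wm D (fun x =>
      iq (gc y (r / 8) m) (r / 8) (x i)) Ψ +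
      ∑ m ∈ gf y r, wm D (npl D sp (Qp (gc y (r / 8) m) (r / 8))) Ψ) ≤
      C / (r / 8) * (wm D (nb y (3 * r)) Ψ + (gm.card : ℝ) * wm D (nb y (3 * r)) Ψ) :=
    mul_le_mul_of_nonneg_left (add_le_add h6 h7) (by positivity)
  have e : C / (r / 8) * (wm D (nb y (3 * r)) Ψ + (gm.card : ℝ) * wm D (nb y (3 * r)) Ψ) =
      8 * C * (1 + (gm.card : ℝ)) / r * wm D (nb y (3 * r)) Ψ := by
    field_simp
  rw [← e]
  exact add_le_add h10 h11

end Run7.h213.P.K.RPEN
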