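import Pool.Agent.Helper780_CP.ROS
import Pool.Agent.Run7.h213.P.KLLDefs2
import Pool.Agent.Run7.h213.P.KLLDefs3
import Pool.Agent.Run7.h213.P.KRWT
import Pool.Agent.Run7.h213.P.KRNL
import Pool.Agent.Run7.h213.P.KRSL
import Pool.Agent.Run7.h213.P.KRL2c
import Pool.Agent.Run7.h213.P.KRQ10
import Pool.Agent.Run7.h213.P.KRQ11
import Pool.Agent.Run7.h213.P.KRL1
import Pool.Agent.Run7.h213.P.KRPEN
import Pool.Agent.Run7.h213.P.KRVB
import Pool.Agent.Run7.h213.P.CBase

set_option autoImplicit false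

open MeasureTheory
open scoped Topology

namespace Run7.h213.P.K.ROS

open Pool.Agent.Helper985.CP hiding IsState Ortho QQ31988 QQ_ins0_31988 QQ_mul31988 QQ_perm31988 QQ_sum31988 cube energy idjT_act idjT_compact idjT_smooth idj_W0_act idj_W0_bound idj_W0_smooth idj_int idj_sum ims_state ins0_num ins0_swap31988 ins_disj ins_state int_state kin kinE nrm2_pos pe pe_symm peierls peierls_relabel prl_kin prl_sub psl_deriv psl_nrm psl_slice psl_state psl_weight pw_parseval pwaux_parseval q985_point rb833_X rb833_state rbX rb_act_X rb_bessel rb_bessel0 rb_ip_X rb_ip_XX rb_ip_XX_meas rb_ip_XX_one rb_ip_XX_vol rb_ip_swap rb_nice_X rb_nice_state relabel_num relabel_state relaux_kin remove_none_aux row_bound slice_basic slice_energy slice_state sm_ins0_31988 sphK sph_K sph_energy sph_isState sph_kin sph_sum spin_ins0_31988 stable_any state_comb sum_pe_half term_A31988 term_B31988 term_swap31988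
open Pool.Agent.Helper780_CP hiding MM WI WI_add WI_const WI_coul WI_mul WI_near2 WI_one WI_pair WI_phi WI_smul WI_sum WI_wW WI_zero cost_avg icb kb klc ms_qf mulW_state multiC phb pinv_intg qf qf_int qf_one qf_split qf_wa rest_lower vb wm_add wm_mono wm_sum wm_tendsto
open Pool.Agent.Helper780_CP.ROS hiding os_WI_nb os_WI_sub os_kb_mono os_key os_kin_nonneg os_phbQ_bdd os_phbQ_cont os_wm_sub

variable [Env]

open Run7.h213.P.K
open Run7.h213.P.K.RWT (wt_facts)
open Run7.h213.P.K.RNL (num_law)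
open Run7.h213.P.K.RSL (scales_law)
open Pool.Agent.Helper780_CP.RL2c (loc_energy)
open Pool.Agent.Helper780_CP.RDEC (dec)
open Pool.Agent.Helper780_CP.RQ10 (main_term)
open Pool.Agent.Helper780_CP.RQ11 (scale_term)
open Pool.Agent.Helper780_CP.RL1 (FL_near_min)
open Run7.h213.P.K.RPEN (pen_kin)
open Run7.h213.P.K.RVB (vb_props)

open Run7.h213.P.K

section aux

variable {S : Type} (D : Species S) {I : Type} [Fintype I] [DecidableEq I] (sp : I → S)


theorem os_kin_nonneg (hD : D.Valid) (i : I) (u : (I → E3) → ℂ) (x : I → E3) :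
    0 ≤ kin D sp i u x := by
  exact kinP_nn D sp hD i u x

theorem os_kb_mono (hD : D.Valid) (ℓ : ℝ) (Ψ : Wave D I) (hΨ : IsState D sp ℓ Ψ) (y : E3)
    {R R' : ℝ} (h : R ≤ R') : kb D sp y R Ψ ≤ kb D sp y R' Ψ := by
  have hint : ∀ (R : ℝ) (τ : I → Fin D.g), Integrable (fun x : I → E3 =>
      ∑ j, if ‖x j - y‖ < R then kin D sp j (Ψ τ) x else 0) := by
    intro R τ
    refine integrable_finsetSum _ fun j _ => ?_
    have h1 := (int_state D sp ℓ Ψ hΨ τ).2.1 j
    have hm : MeasurableSet {x : I → E3 | ‖x j - y‖ < R} := by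
      refine measurableSet_lt ?_ measurable_const
      fun_prop
    refine (h1.indicator hm).congr (Filter.Eventually.of_forall fun x => ?_)
    simp only [Set.indicator_apply, Set.mem_ofPred_eq]
  unfold kb
  refine Finset.sum_le_sum fun τ _ => ?_
  refine integral_mono (hint R τ) (hint R' τ) fun x => ?_
  refine Finset.sum_le_sum fun j _ => ?_
  by_cases h1 : ‖x j - y‖ < R
  · rw [if_pos h1, if_pos (h1.trans_le h)]
  · rw [if_neg h1]
    split_ifs
    · exact os_kin_nonneg D sp hD j _ x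
    · exact le_rfl


theorem os_WI_sub (ℓ : ℝ) {V W : (I → E3) → ℝ} (hV : WI D sp ℓ V) (hW : WI D sp ℓ W) :
    WI D sp ℓ (fun x => V x - W x) := by
  have h := WI_add D sp ℓ hV (WI_smul D sp ℓ hW (-1))
  have e : (fun x => V x - W x) = fun x => V x + -1 * W x := by
    funext x
    ring
  rw [e]
  exact h

theorem os_wm_sub (ℓ : ℝ) {V W : (I → E3) → ℝ} (hV : WI D sp ℓ V) (hW : WI D sp ℓ W)
    (Ψ : Wave D I) (hΨ : IsState D sp ℓ Ψ) :
    wm D (fun x => V x - W x) Ψ = wm D V Ψ - wm D W Ψ := by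
  have e : (fun x => V x - W x) = fun x => V x + -1 * W x := by
    funext x
    ring
  rw [e, wm_add D sp ℓ hV (WI_smul D sp ℓ hW (-1)) Ψ hΨ, wm_smul]
  ring


end aux

section wts

variable {S : Type} [Fintype S] [DecidableEq S] (D : Species S) (hD : D.Valid) {I : Type}
  [Fintype I] [DecidableEq I] (sp : I → S)

include hD

theorem os_WI_nb (ℓ : ℝ) (y : E3) (R : ℝ) : WI D sp ℓ (nb y R) := by
  refine (wt_facts D hD sp ℓ).1 _ (os_nb_meas y R) (Fintype.card I) fun x => ?_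
  rw [abs_of_nonneg (os_nb_nonneg y R x)]
  exact os_nb_card y R x


end wts

section wts2

variable {S : Type} [Fintype S] [DecidableEq S] (D : Species S) (hD : D.Valid) {I : Type}
  [Fintype I] [DecidableEq I] (sp : I → S)

omit [Fintype S] [DecidableEq S] [DecidableEq I] in
theorem os_phbQ_cont (ℓ : ℝ) (hv : Continuous (vb ℓ)) (y : E3) (r : ℝ) :
    Continuous (fun x => phb D sp ℓ x * os_Q D sp y r x) := by
  have hc := os_cy_cont y r
  unfold phb os_Q
  fun_prop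

omit [Fintype S] [DecidableEq S] [DecidableEq I] in
theorem os_phbQ_bdd (ℓ B : ℝ) (hB : ∀ w, 0 ≤ vb ℓ w ∧ vb ℓ w ≤ B) (y : E3) (r : ℝ)
    (x : I → E3) : |phb D sp ℓ x * os_Q D sp y r x| ≤
      (∑ i, |D.charge (sp i)| * B) * ∑ i, |D.charge (sp i)| := by
  rw [abs_mul]
  have hB0 : 0 ≤ B := (hB 0).1.trans (hB 0).2
  refine mul_le_mul ?_ ?_ (abs_nonneg _) (Finset.sum_nonneg fun i _ => by positivity)
  · unfold phb
    refine (Finset.abs_sum_le_sum_abs _ _).trans (Finset.sum_le_sum fun i _ => ?_)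
    rw [abs_mul, abs_of_nonneg (hB (x i)).1]
    exact mul_le_mul_of_nonneg_left (hB (x i)).2 (abs_nonneg _)
  · unfold os_Q
    refine (Finset.abs_sum_le_sum_abs _ _).trans (Finset.sum_le_sum fun i _ => ?_)
    rw [abs_mul, abs_of_nonneg (sq_nonneg (cy y r (x i)))]
    have h1 : cy y r (x i) ^ 2 ≤ 1 := pow_le_one₀ (os_cy_nonneg y r _) (os_cy_le y r _)
    calc _ ≤ |D.charge (sp i)| * 1 := mul_le_mul_of_nonneg_left h1 (abs_nonneg _)
      _ = _ := mul_one _


include hD in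
theorem os_key (ℓ : ℝ) (hv : Continuous (vb ℓ)) (Bv : ℝ) (hBv : ∀ w, 0 ≤ vb ℓ w ∧ vb ℓ w ≤ Bv)
    (l : E3 → ℝ) (hl : Continuous l) (hl1 : ∀ w, 1 ≤ ‖w‖ → l w = 1 / ‖w‖) (Cd : ℝ) (y : E3)
    (r : ℝ) (k0 k1 : ℕ)
    (hdec : ∀ x : I → E3, (∀ i j, i ≠ j → x i ≠ x j) → |os_T D sp y r x -
      vl (cy y r) (fun i => D.charge (sp i)) x - os_M D sp l y r k0 x -
      ∑ k ∈ Finset.Ico k0 k1, os_P D sp l y r k x| ≤ Cd * nb y (3 * r) x)
    (Ψ : Wave D I) (hΨ : IsState D sp ℓ Ψ) :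
    wm D (vl (cy y r) (fun i => D.charge (sp i))) Ψ +
      wm D (fun x => os_M D sp l y r k0 x - phb D sp ℓ x * os_Q D sp y r x) Ψ +
      ∑ k ∈ Finset.Ico k0 k1, wm D (os_P D sp l y r k) Ψ - Cd * wm D (nb y (3 * r)) Ψ ≤
    wm D (fun x => os_T D sp y r x - phb D sp ℓ x * os_Q D sp y r x) Ψ := by
  obtain ⟨w1, w2, w3, w4, w5, w6, w7⟩ := wt_facts D hD sp ℓ
  obtain ⟨B, hB0, hB⟩ := os_l_bdd l hl hl1
  have iPQ : WI D sp ℓ (fun x => phb D sp ℓ x * os_Q D sp y r x) :=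
    w1 _ (os_phbQ_cont D sp ℓ hv y r).measurable _ (os_phbQ_bdd D sp ℓ Bv hBv y r)
  have iM : WI D sp ℓ (os_M D sp l y r k0) :=
    w1 _ (os_M_cont D sp l hl y r k0).measurable _ (os_M_bdd D sp l B hB0 hB y r k0)
  have iP : ∀ k, WI D sp ℓ (os_P D sp l y r k) := fun k =>
    w1 _ (os_P_cont D sp l hl y r k).measurable _ (os_P_bdd D sp l B hB0 hB y r k)
  have iT : WI D sp ℓ (os_T D sp y r) := w6 y r
  have iV := w3 y r
  have iN := os_WI_nb D hD sp ℓ y (3 * r)
  have iMQ := os_WI_sub D sp ℓ iM iPQ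
  have iS := WI_sum D sp ℓ (Finset.Ico k0 k1) (fun k => os_P D sp l y r k) (fun k _ => iP k)
  have iN' := WI_smul D sp ℓ iN Cd
  have iVM := WI_add D sp ℓ iV iMQ
  have iVMS := WI_add D sp ℓ iVM iS
  have iL := os_WI_sub D sp ℓ iVMS iN'
  have iR := os_WI_sub D sp ℓ iT iPQ
  have e : wm D (vl (cy y r) (fun i => D.charge (sp i))) Ψ +
      wm D (fun x => os_M D sp l y r k0 x - phb D sp ℓ x * os_Q D sp y r x) Ψ +
      ∑ k ∈ Finset.Ico k0 k1, wm D (os_P D sp l y r k) Ψ - Cd * wm D (nb y (3 * r)) Ψ =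
      wm D (fun x => vl (cy y r) (fun i => D.charge (sp i)) x +
        (os_M D sp l y r k0 x - phb D sp ℓ x * os_Q D sp y r x) +
        ∑ k ∈ Finset.Ico k0 k1, os_P D sp l y r k x - Cd * nb y (3 * r) x) Ψ := by
    rw [os_wm_sub D sp ℓ iVMS iN' Ψ hΨ, wm_add D sp ℓ iVM iS Ψ hΨ, wm_add D sp ℓ iV iMQ Ψ hΨ,
      wm_sum D sp ℓ (Finset.Ico k0 k1) (fun k => os_P D sp l y r k) (fun k _ => iP k) Ψ hΨ,
      wm_smul]
  rw [e]
  refine wm_mono D sp ℓ iL iR Ψ hΨ ?_
  filter_upwards [ae_distinct (I := I)] with x hx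
  have h1 := (abs_le.1 (hdec x hx)).1
  linarith

end wts2


end Run7.h213.P.K.ROS
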