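import Pool.Agent.Helper780_CP.RH9
import Pool.Agent.Run7.h213.P.KLLDefs2
import Pool.Agent.Run7.h213.P.KLPDefs
import Pool.Agent.Run7.h213.P.KROS
import Pool.Agent.Run7.h213.P.KRH7
import Pool.Agent.Run7.h213.P.KRH8
import Pool.Agent.Run7.h213.P.KRG8
import Pool.Agent.Run7.h213.P.KRG9
import Pool.Agent.Run7.h213.P.CBase

set_option autoImplicit false

open MeasureTheory
open scoped Topology

namespace Run7.h213.P.K.RH9

open Pool.Agent.Helper985.CP hiding IsState MT_core MT_energy_smul MT_psl_lin MT_slice_int MT_state_smul MT_zero Ortho QQ31988 QQ_ins0_31988 QQ_mul31988 QQ_perm31988 QQ_sum31988 cl_energy_zero cl_kinE_zero cl_kin_zero cl_pe_zero cl_zero cube energy idjT_act idjT_compact idjT_smooth idj_W0_act idj_W0_bound idj_W0_smooth idj_int idj_sum ims_state ins0_num ins0_swap31988 insN_props insNp_energy insNp_kin insNp_state ins_disj ins_state int_state kin kinE moveT_any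 moveT_none nrm2_pos pe pe_symm peierls peierls_relabel prl_kin prl_sub psl_deriv psl_energy psl_energy_k psl_energy_kint psl_energy_vint psl_energy_w psl_nrm psl_slice psl_state psl_weight pw_parseval pwaux_parseval q985_point rb833_X rb833_state rbX rb_act_X rb_bessel rb_bessel0 rb_ip_X rb_ip_XX rb_ip_XX_meas rb_ip_XX_one rb_ip_XX_vol rb_ip_swap rb_nice_X rb_nice_state relabel_num relabel_state relaux_kin remove_none_aux row_bound slice_basic slice_energy slice_state sm_ins0_31988 sphK sph_K sph_energy sph_isState sph_kin sph_sum spin_ins0_31988 stable_any state_comb sum_pe_half term_A31988 term_B31988 term_swap31988 trace_bound trace_bound_dens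
open Pool.Agent.Helper780_CP hiding FLT MM NE WI WI_add WI_const WI_coul WI_mul WI_near2 WI_one WI_pair WI_phi WI_smul WI_sum WI_wW WI_zero cost_avg icb kb kcy klc ms_qf mulW_nrm_le mulW_state multiC phb pinv_intg qf qf_int qf_one qf_split qf_wa rest_lower vb wm_add wm_mono wm_sum wm_tendsto
open Pool.Agent.Helper780_CP.RH9 hiding one_stepT

variable [Env]

open Run7.h213.P.K
open Run7.h213.P.K.RH7 (loc_energyT)
open Run7.h213.P.K.RH8 (flt_mix)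
open Run7.h213.P.K.RG8 (main_termT)
open Run7.h213.P.K.RG9 (scale_termT)

open Run7.h213.P.K

section mix

variable {k : ℕ} (p : Fin k → ℝ)


end mix

open Run7.h213.P.K.RWT (wt_facts)
open Run7.h213.P.K.RNL (num_law)
open Run7.h213.P.K.RSL (scales_law)
open Pool.Agent.Helper780_CP.RDEC (dec)
open Run7.h213.P.K.RPEN (pen_kin)
open Run7.h213.P.K.RVB (vb_props)
open Pool.Agent.Helper780_CP.ROS hiding os_WI_nb os_WI_sub os_kb_mono os_key os_kin_nonneg os_phbQ_bdd os_phbQ_cont os_wm_sub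
open Run7.h213.P.K.ROS


/-- TARGET -/
theorem one_stepT {S : Type} [Fintype S] [DecidableEq S] (D : Species S) (hD : D.Valid)
    (hst : HStable D) (hf : ∀ s, D.charge s < 0 → D.fermion s = true) (z cm K₁ C₁ : ℝ)
    (hcm : 0 < cm) (hz : ∀ s, cm ≤ |D.charge s| ∧ |D.charge s| ≤ z) (hK₁ : 0 < K₁) (hC₁ : 0 < C₁)
    (h : RB z K₁ C₁) (F : Finset E3) (hF : ∀ v : E3, ‖v‖ ≤ 12 → ∃ p ∈ F, ‖v - p‖ < 1 / 64)
    (T V ρ : ℝ) (hT : 0 < T) (hV : 0 < V) (hρ : 0 < ρ) (a b l : E3 → ℝ) (hK : Ker a b l) :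
    ∃ m : ℕ, ∀ δ : ℝ, 0 < δ → ∃ C : ℝ, 0 < C ∧
    ∀ {I : Type} [Fintype I] [DecidableEq I] (sp : I → S) (ℓ : ℝ), 4 ≤ ℓ →
      ℓ ^ 3 ≤ V * (Fintype.card I : ℝ) → (Fintype.card I : ℝ) ≤ ρ * ℓ ^ 3 →
      (∑ i, D.charge (sp i) = 0) → ∀ η Z : ℝ, 0 ≤ η →
      η * (1 + (Fintype.card I : ℝ)) ^ 2 ≤ 1 → ∀ {k : ℕ} (p : Fin k → ℝ)
      (ψ : Fin k → Wave D I), NE D sp ℓ T η Z p ψ →
      ∀ (y : E3) (r : ℝ), 0 < r → r ≤ 1 → Metric.closedBall y (4 * r) ⊆ cube ℓ →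
      ∑ j, p j * MM D sp K₁ y r (ψ j) ≤
        C / r ^ m * (1 + wx D p ψ (fun x => nb y (12 * r) x ^ ((4 : ℝ) / 3))) +
        δ * ∑ q ∈ F, ∑ j, p j * MM D sp K₁ (y + r • q) (r / 4) (ψ j) := by
  obtain ⟨Cn, hCn, hn⟩ := num_law D hD hf z cm K₁ C₁ hcm hz hK₁ hC₁ h F hF
  obtain ⟨Cs, hCs, hs⟩ := scales_law D hD hf z cm K₁ C₁ hcm hz hK₁ hC₁ h F hF
  obtain ⟨Ce, hCe, he⟩ := loc_energyT D hD hst T ρ hT hρ.le
  obtain ⟨Cd, hCd, hd⟩ := dec (max z 0) (le_max_right _ _) l hK.l_smooth hK.l_out hK.l_even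
  obtain ⟨Cf, hCf, hfl⟩ := flt_mix D hD hst T V ρ hT hV hρ
  obtain ⟨Cm, mm, hCm, hm⟩ := main_termT (max z 0) Cf (le_max_right _ _) hCf.le a b l hK
  obtain ⟨Ct, mt, hCt, ht⟩ := scale_termT (max z 0) Cf (le_max_right _ _) hCf.le l hK.l_smooth
    hK.l_out
  obtain ⟨hvc, Cv, hCv, hvb⟩ := vb_props
  refine ⟨(mt + 2) * mm + mt + (mt + 2) + 2, fun δ₀ hδ₀ => ?_⟩
  obtain ⟨δ, hδe⟩ : ∃ δ : ℝ, δ = δ₀ / 2 := ⟨_, rfl⟩
  have hδ : 0 < δ := by rw [hδe]; positivity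
  have hδ2 : δ₀ = 2 * δ := by rw [hδe]; ring
  obtain ⟨Cp, hCp, hpk⟩ := pen_kin D hD hf (δ / (4 * K₁)) (by positivity)
  obtain ⟨c₀, hc₀⟩ : ∃ c₀ : ℝ, c₀ = 100 + 4 * Ct * Cs / δ := ⟨_, rfl⟩
  have hc₀pos : 0 < c₀ := by rw [hc₀]; positivity
  have hc₀100 : 100 ≤ c₀ := by
    rw [hc₀]
    have : 0 ≤ 4 * Ct * Cs / δ := by positivity
    linarith
  refine ⟨4 * (Ce + Ce + Cd + Cm * (2 * c₀) ^ mm + Ct * (Cs + 2 + 4 * c₀) + K₁ * Cp),
    by positivity, ?_⟩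
  intro I _ _ sp ℓ hℓ hVℓ hρℓ hneu η Z₀ hη hη2 k p ψ hne y r hr hr1 hball
  have hℓ0 : 0 < ℓ := by linarith
  have hΨ := hne.state
  have hn1 := hne.nrm
  have hp0 := hne.p0
  have hp1 := hne.p1
  -- abbreviations
  obtain ⟨N, hN⟩ : ∃ N : ℝ, N = (Fintype.card I : ℝ) := ⟨_, rfl⟩
  obtain ⟨Zj, hZj⟩ : ∃ Zj : Fin k → ℝ, Zj = fun j =>
    wm D (fun x => nb y (12 * r) x ^ ((4 : ℝ) / 3)) (ψ j) := ⟨_, rfl⟩
  obtain ⟨Xj, hXj⟩ : ∃ Xj : Fin k → ℝ, Xj = fun j =>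
    ∑ q ∈ F, MM D sp K₁ (y + r • q) (r / 4) (ψ j) := ⟨_, rfl⟩
  obtain ⟨Z, hZ⟩ : ∃ Z : ℝ, Z = ∑ j, p j * Zj j := ⟨_, rfl⟩
  obtain ⟨X, hX⟩ : ∃ X : ℝ, X = ∑ j, p j * Xj j := ⟨_, rfl⟩
  have hZt : wx D p ψ (fun x => nb y (12 * r) x ^ ((4 : ℝ) / 3)) = Z := by
    rw [hZ, hZj]
    rfl
  have hXt : ∑ q ∈ F, ∑ j, p j * MM D sp K₁ (y + r • q) (r / 4) (ψ j) = X := by
    rw [hX, hXj]
    exact (mx_sum p F (fun q j => MM D sp K₁ (y + r • q) (r / 4) (ψ j))).symm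
  have hVℓ' := hVℓ
  have hρℓ' := hρℓ
  rw [← hN] at hρℓ hη2
  rw [hZt, hXt]
  have hN0 : 0 ≤ N := by rw [hN]; positivity
  have hη1 : η * (1 + N) ≤ 1 := by
    refine le_trans ?_ hη2
    refine mul_le_mul_of_nonneg_left ?_ hη
    nlinarith
  have hη3 : η ≤ 1 := by
    refine le_trans ?_ hη1
    exact le_mul_of_one_le_right hη (by linarith)
  obtain ⟨w1, w2, w3, w4, w5, w6, w7⟩ := wt_facts D hD sp ℓ
  have iZ : WI D sp ℓ (fun x => nb y (12 * r) x ^ ((4 : ℝ) / 3)) := w2 y (12 * r) _ (by norm_num)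
  have hnumj : ∀ R, R ≤ 12 * r → ∀ j, wm D (nb y R) (ψ j) ≤ Zj j := fun R hR j => by
    rw [hZj]
    exact wm_mono D sp ℓ (os_WI_nb D hD sp ℓ y R) iZ (ψ j) (hΨ j)
      (Filter.Eventually.of_forall fun x => os_nb_le y hR x)
  have hnumn : ∀ R j, 0 ≤ wm D (nb y R) (ψ j) := fun R j => by
    unfold wm
    exact Finset.sum_nonneg fun τ _ => integral_nonneg fun x =>
      mul_nonneg (os_nb_nonneg y R x) (sq_nonneg _)
  have hnum : ∀ R, R ≤ 12 * r → wx D p ψ (nb y R) ≤ Z := fun R hR => by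
    rw [hZ]
    exact mx_mono p hp0 (hnumj R hR)
  have hZj0 : ∀ j, 0 ≤ Zj j := fun j => (hnumn 0 j).trans (hnumj 0 (by positivity) j)
  have hZ0 : 0 ≤ Z := by rw [hZ]; exact mx_nonneg p hp0 hZj0
  have hnumR : ∀ R, R ≤ 12 * r → wx D p ψ (fun x => nb y R x ^ ((4 : ℝ) / 3)) ≤ Z := fun R hR => by
    rw [hZ, hZj]
    exact mx_mono p hp0 fun j => wm_mono D sp ℓ (w2 y R _ (by norm_num)) iZ (ψ j) (hΨ j)
      (Filter.Eventually.of_forall fun x => os_nb_pow_le y hR x)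
  have hone : wx D p ψ (fun x => 1 + nb y (8 * r) x) ≤ 1 + Z := by
    have h1 : ∀ j, wm D (fun x => 1 + nb y (8 * r) x) (ψ j) ≤ 1 + Zj j := fun j => by
      rw [wm_add D sp ℓ (WI_const D sp ℓ 1) (os_WI_nb D hD sp ℓ y (8 * r)) (ψ j) (hΨ j), wm_one,
        hn1 j]
      linarith [hnumj (8 * r) (by linarith) j]
    have h2 := mx_mono p hp0 h1
    rw [mx_add p (fun _ => 1) Zj, mx_one p hp1, ← hZ] at h2
    exact h2
  -- positivity of the local energies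
  have hloc : ∀ (y : E3) (r : ℝ) (j : Fin k), 0 < r → r ≤ 1 → 0 ≤ klc D sp y r (ψ j) ∧
      0 ≤ wm D (mx D sp K₁ y r) (ψ j) := fun y r j h1 h2 =>
    ⟨(hn sp ℓ (ψ j) (hΨ j) (hn1 j) y r h1 h2).1, (hn sp ℓ (ψ j) (hΨ j) (hn1 j) y r h1 h2).2.1⟩
  have hmx0 : 0 ≤ ∑ j, p j * wm D (mx D sp K₁ y r) (ψ j) :=
    mx_nonneg p hp0 fun j => (hloc y r j hr hr1).2
  have hkb : ∀ j, kb D sp y (12 * r) (ψ j) ≤ ∑ q ∈ F, klc D sp (y + r • q) (r / 4) (ψ j) :=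
    fun j => (hn sp ℓ (ψ j) (hΨ j) (hn1 j) y r hr hr1).2.2.2.2.2
  have hkX : ∀ j, ∑ q ∈ F, klc D sp (y + r • q) (r / 4) (ψ j) ≤ Xj j := fun j => by
    rw [hXj]
    refine Finset.sum_le_sum fun q _ => ?_
    have := (hloc (y + r • q) (r / 4) j (by positivity) (by linarith)).2
    unfold MM
    linarith
  have hXj0 : ∀ j, 0 ≤ Xj j := fun j => by
    refine le_trans (Finset.sum_nonneg fun q _ => ?_) (hkX j)
    exact (hloc (y + r • q) (r / 4) j (by positivity) (by linarith)).1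
  have hX0 : 0 ≤ X := by rw [hX]; exact mx_nonneg p hp0 hXj0
  -- the choice of scales
  obtain ⟨k0, hk0a, hk0b⟩ := os_pow (c₀ / r ^ (mt + 2)) (by
    rw [one_le_div (by positivity)]
    have : r ^ (mt + 2) ≤ 1 := pow_le_one₀ hr.le hr1
    linarith)
  obtain ⟨K', hK'a, hK'b⟩ := os_pow (1 + N) (by linarith)
  have hp2 : ∀ k : ℕ, (0 : ℝ) < 2 ^ k := fun k => by positivity
  have hr2 : c₀ / r ^ 2 ≤ 2 ^ k0 := by
    refine le_trans ?_ hk0a
    have : r ^ (mt + 2) ≤ r ^ 2 := pow_le_pow_of_le_one hr.le hr1 (by omega)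
    gcongr
  have hr2' : 100 ≤ 2 ^ k0 * r ^ 2 := by
    rw [div_le_iff₀ (by positivity)] at hr2
    linarith
  have hr1' : 100 ≤ 2 ^ k0 * r := by
    refine hr2'.trans ?_
    have : r ^ 2 ≤ r := by nlinarith
    exact mul_le_mul_of_nonneg_left this (hp2 _).le
  have h1N : 1 + N ≤ 2 ^ (k0 + K') * r ^ 2 := by
    rw [pow_add]
    calc 1 + N ≤ 2 ^ K' := hK'a
      _ = 1 * 2 ^ K' := (one_mul _).symm
      _ ≤ (2 ^ k0 * r ^ 2) * 2 ^ K' := by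
          refine mul_le_mul_of_nonneg_right ?_ (hp2 _).le
          linarith
      _ = 2 ^ k0 * 2 ^ K' * r ^ 2 := by ring
  -- (i) local energy
  have s1 := he sp ℓ hℓ hρℓ' η Z₀ hη p ψ hne y r hr hr1
  -- (ii) decomposition
  have hcz : ∀ i, |D.charge (sp i)| ≤ max z 0 := fun i => (hz (sp i)).2.trans (le_max_left _ _)
  have s2j := fun j => os_key D hD sp ℓ (hvc ℓ hℓ0) (Cv / ℓ) (fun w => hvb ℓ w hℓ0) l
    hK.l_smooth.continuous hK.l_out Cd y r k0 (k0 + K')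
    (fun x hx => hd (fun i => D.charge (sp i)) x hcz hx y r k0 (k0 + K') hr hr1
      (by linarith) (Nat.le_add_right _ _) (by rw [← hN]; exact h1N)) (ψ j) (hΨ j)
  have s2 := mx_mono p hp0 s2j
  rw [mx_sub p (fun j => wm D (vl (cy y r) (fun i => D.charge (sp i))) (ψ j) +
      wm D (fun x => os_M D sp l y r k0 x - phb D sp ℓ x * os_Q D sp y r x) (ψ j) +
      ∑ k ∈ Finset.Ico k0 (k0 + K'), wm D (os_P D sp l y r k) (ψ j))
      (fun j => Cd * wm D (nb y (3 * r)) (ψ j)),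
    mx_add p (fun j => wm D (vl (cy y r) (fun i => D.charge (sp i))) (ψ j) +
      wm D (fun x => os_M D sp l y r k0 x - phb D sp ℓ x * os_Q D sp y r x) (ψ j))
      (fun j => ∑ k ∈ Finset.Ico k0 (k0 + K'), wm D (os_P D sp l y r k) (ψ j)),
    mx_add p (fun j => wm D (vl (cy y r) (fun i => D.charge (sp i))) (ψ j))
      (fun j => wm D (fun x => os_M D sp l y r k0 x - phb D sp ℓ x * os_Q D sp y r x) (ψ j)),
    mx_smul p Cd (fun j => wm D (nb y (3 * r)) (ψ j)),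
    mx_sum p (Finset.Ico k0 (k0 + K')) (fun k j => wm D (os_P D sp l y r k) (ψ j))] at s2
  -- (iii) main term
  obtain ⟨D', Φ, hch, hΦ, hΦ1, hwx, -, -, hFL⟩ := hfl sp ℓ hℓ hVℓ' hρℓ' hneu η Z₀ hη hη3 p ψ hne
  have hphc : Continuous (phb D sp ℓ) := by
    have := hvc ℓ hℓ0
    unfold phb
    fun_prop
  have hzD' : ∀ s, |D'.charge s| ≤ max z 0 := fun s => by
    rw [hch]
    exact (hz s).2.trans (le_max_left _ _)
  have s3 := hm D' sp ℓ (phb D sp ℓ) hphc hzD' η hη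
    (by rw [← hN]; exact hη1) Φ hΦ hΦ1 hFL y r k0 hr hr1 (by linarith) hball
  simp only [hwx, hch] at s3
  -- (iv) scales
  have s4 : ∀ k ∈ Finset.Ico k0 (k0 + K'), |wx D p ψ (os_P D sp l y r k)| ≤
      Ct / r ^ mt * (wx D p ψ (fun x => bt y r k x ^ 2 * ∑ i, (if ‖x i - y‖ < 6 * r then
              nk x k i ^ ((2 : ℝ) / 3) else 0)) +
            1 / 2 ^ k * wx D p ψ (fun x => 1 + nb y (8 * r) x) +
            (1 + (Fintype.card I : ℝ)) * 2 ^ k * η) := fun k hk => by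
    have h2 := ht D' sp ℓ (phb D sp ℓ) hphc hzD' η hη Φ hΦ hΦ1 hFL y r k hr hr1 (by
      have h1 : (2 : ℝ) ^ k0 ≤ 2 ^ k :=
        pow_le_pow_right₀ (by norm_num) (Finset.mem_Ico.1 hk).1
      calc (1 : ℝ) ≤ 2 ^ k0 * r := by linarith
        _ ≤ 2 ^ k * r := mul_le_mul_of_nonneg_right h1 hr.le) hball
    simp only [hwx, hch] at h2
    exact h2
  have s5 : ∑ k ∈ Finset.Ico k0 (k0 + K'), wx D p ψ (fun x => bt y r k x ^ 2 *
        ∑ i, (if ‖x i - y‖ < 6 * r then nk x k i ^ ((2 : ℝ) / 3) else 0)) ≤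
      Cs / 2 ^ k0 * X + Cs / r * (1 + Z) := by
    have h1 : ∀ j, ∑ k ∈ Finset.Ico k0 (k0 + K'), wm D (fun x => bt y r k x ^ 2 *
        ∑ i, (if ‖x i - y‖ < 6 * r then nk x k i ^ ((2 : ℝ) / 3) else 0)) (ψ j) ≤
      Cs / 2 ^ k0 * Xj j + Cs / r * (1 + Zj j) := fun j => by
      rw [hXj, hZj]
      exact hs sp ℓ (ψ j) (hΨ j) (hn1 j) y r k0 (k0 + K') hr hr1 hr1' (hkb j)
    have h2 := mx_mono p hp0 h1
    rw [mx_sum p (Finset.Ico k0 (k0 + K')) (fun k j => wm D (fun x => bt y r k x ^ 2 *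
        ∑ i, (if ‖x i - y‖ < 6 * r then nk x k i ^ ((2 : ℝ) / 3) else 0)) (ψ j)),
      mx_add p (fun j => Cs / 2 ^ k0 * Xj j) (fun j => Cs / r * (1 + Zj j)),
      mx_smul p (Cs / 2 ^ k0) Xj, mx_smul p (Cs / r) (fun j => 1 + Zj j),
      mx_add p (fun _ => 1) Zj, mx_one p hp1, ← hZ, ← hX] at h2
    exact h2
  have s6 : -(Ct / r ^ mt * (Cs / 2 ^ k0 * X + Cs / r * (1 + Z) + 2 / 2 ^ k0 * (1 + Z) +
      (1 + N) * 2 ^ (k0 + K') * η)) ≤
      ∑ k ∈ Finset.Ico k0 (k0 + K'), wx D p ψ (os_P D sp l y r k) := by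
    have h1 : |∑ k ∈ Finset.Ico k0 (k0 + K'), wx D p ψ (os_P D sp l y r k)| ≤
        Ct / r ^ mt * (Cs / 2 ^ k0 * X + Cs / r * (1 + Z) + 2 / 2 ^ k0 * (1 + Z) +
      (1 + N) * 2 ^ (k0 + K') * η) := by
      refine (Finset.abs_sum_le_sum_abs _ _).trans ((Finset.sum_le_sum s4).trans ?_)
      rw [← Finset.mul_sum]
      refine mul_le_mul_of_nonneg_left ?_ (by positivity)
      rw [Finset.sum_add_distrib, Finset.sum_add_distrib]
      refine add_le_add (add_le_add s5 ?_) ?_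
      · rw [← Finset.sum_mul]
        have hwn : 0 ≤ wx D p ψ (fun x => 1 + nb y (8 * r) x) := by
          refine mx_nonneg p hp0 fun j => ?_
          unfold wm
          exact Finset.sum_nonneg fun τ _ => integral_nonneg fun x =>
            mul_nonneg (add_nonneg zero_le_one (os_nb_nonneg y _ x)) (sq_nonneg _)
        exact mul_le_mul (os_geo _ _) hone hwn (by positivity)
      · rw [← hN, ← Finset.sum_mul, ← Finset.mul_sum]
        refine mul_le_mul_of_nonneg_right ?_ hη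
        exact mul_le_mul_of_nonneg_left (os_geo2 _ _) (by linarith)
    linarith [neg_abs_le (∑ k ∈ Finset.Ico k0 (k0 + K'), wx D p ψ (os_P D sp l y r k))]
  -- (v) penalty
  have s7 : ∑ j, p j * wm D (pl (cy y r) (fun i => D.charge (sp i))) (ψ j) ≤
      δ / (4 * K₁) * (∑ j, p j * kb D sp y (3 * r) (ψ j)) +
        Cp / r * wx D p ψ (nb y (3 * r)) := by
    have h2 := mx_mono p hp0 fun j => hpk sp ℓ (ψ j) (hΨ j) y r hr hr1
    rw [mx_add p (fun j => δ / (4 * K₁) * kb D sp y (3 * r) (ψ j))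
      (fun j => Cp / r * wm D (nb y (3 * r)) (ψ j)),
      mx_smul p (δ / (4 * K₁)) (fun j => kb D sp y (3 * r) (ψ j)),
      mx_smul p (Cp / r) (fun j => wm D (nb y (3 * r)) (ψ j))] at h2
    exact h2
  have s8 : ∑ j, p j * kb D sp y (3 * r) (ψ j) ≤ X := by
    rw [hX]
    exact mx_mono p hp0 fun j => (os_kb_mono D sp hD ℓ (ψ j) (hΨ j) y (by linarith)).trans
      ((hkb j).trans (hkX j))
  -- energy
  have s9 : ∑ j, p j * wm D (mx D sp K₁ y r) (ψ j) =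
      ∑ j, p j * wm D (vl (cy y r) (fun i => D.charge (sp i))) (ψ j) +
      K₁ * ∑ j, p j * wm D (pl (cy y r) (fun i => D.charge (sp i))) (ψ j) := by
    rw [← mx_smul p K₁ (fun j => wm D (pl (cy y r) (fun i => D.charge (sp i))) (ψ j)), ← mx_add p
      (fun j => wm D (vl (cy y r) (fun i => D.charge (sp i))) (ψ j))
      (fun j => K₁ * wm D (pl (cy y r) (fun i => D.charge (sp i))) (ψ j))]
    refine Finset.sum_congr rfl fun j _ => ?_
    have := wm_add D sp ℓ (w3 y r) (WI_smul D sp ℓ (w4 y r) K₁) (ψ j) (hΨ j)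
    rw [wm_smul] at this
    rw [← this]
    rfl
  have s10 : ∑ j, p j * MM D sp K₁ y r (ψ j) = ∑ j, p j * klc D sp y r (ψ j) +
      ∑ j, p j * wm D (mx D sp K₁ y r) (ψ j) :=
    mx_add p (fun j => klc D sp y r (ψ j)) (fun j => wm D (mx D sp K₁ y r) (ψ j))
  -- arithmetic
  have hrM : ∀ e : ℕ, e ≤ (mt + 2) * mm + mt + (mt + 2) + 2 →
      1 / r ^ e ≤ 1 / r ^ ((mt + 2) * mm + mt + (mt + 2) + 2) := fun e he' => by
    refine one_div_le_one_div_of_le (by positivity) ?_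
    exact pow_le_pow_of_le_one hr.le hr1 he'
  obtain ⟨W, hW⟩ : ∃ W : ℝ, W = 1 / r ^ ((mt + 2) * mm + mt + (mt + 2) + 2) := ⟨_, rfl⟩
  rw [← hW] at hrM
  have hW1 : 1 ≤ W := by simpa using hrM 0 (by omega)
  have g1 : Ce / r ^ 2 * (1 + wx D p ψ (fun x => nb y (2 * r) x ^ ((4 : ℝ) / 3))) ≤
      Ce * W * (1 + Z) := by
    rw [div_eq_mul_one_div]
    have h1 := hrM 2 (by omega)
    have h2 := hnumR (2 * r) (by linarith)
    have h3 : 0 ≤ wx D p ψ (fun x => nb y (2 * r) x ^ ((4 : ℝ) / 3)) := by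
      refine mx_nonneg p hp0 fun j => ?_
      unfold wm
      exact Finset.sum_nonneg fun τ _ => integral_nonneg fun x =>
        mul_nonneg (Real.rpow_nonneg (os_nb_nonneg y _ x) _) (sq_nonneg _)
    gcongr
  have g2 : Ce * (1 + (Fintype.card I : ℝ)) * η ≤ Ce := by
    rw [← hN, mul_assoc, mul_comm (1 + N) η]
    exact mul_le_of_le_one_right hCe.le hη1
  have g3 : Cd * wx D p ψ (nb y (3 * r)) ≤ Cd * Z :=
    mul_le_mul_of_nonneg_left (hnum (3 * r) (by linarith)) hCd.le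
  have g4 : Cm * (2 ^ k0) ^ mm * (1 + wx D p ψ (fun x => nb y (8 * r) x ^ ((4 : ℝ) / 3))) ≤
      Cm * (2 * c₀) ^ mm * W * (1 + Z) := by
    have h1 : ((2 : ℝ) ^ k0) ^ mm ≤ (2 * c₀) ^ mm * W := by
      calc ((2 : ℝ) ^ k0) ^ mm ≤ (2 * (c₀ / r ^ (mt + 2))) ^ mm := by gcongr
        _ = (2 * c₀) ^ mm * (1 / r ^ ((mt + 2) * mm)) := by
            rw [pow_mul, ← div_eq_mul_one_div, ← mul_div_assoc, div_pow]
        _ ≤ (2 * c₀) ^ mm * W := by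
            refine mul_le_mul_of_nonneg_left (hrM _ ?_) (by positivity)
            omega
    have h8 : 0 ≤ 1 + Z := by linarith
    have h9 := hnumR (8 * r) (by linarith)
    calc Cm * (2 ^ k0) ^ mm * (1 + wx D p ψ (fun x => nb y (8 * r) x ^ ((4 : ℝ) / 3)))
        ≤ Cm * (2 ^ k0) ^ mm * (1 + Z) := by
          refine mul_le_mul_of_nonneg_left ?_ (by positivity)
          linarith
      _ ≤ Cm * ((2 * c₀) ^ mm * W) * (1 + Z) := by gcongr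
      _ = _ := by ring
  have g5 : Ct / r ^ mt * (Cs / 2 ^ k0 * X) ≤ δ / 4 * X :=
    os_g5 Ct Cs c₀ δ X r (2 ^ k0) mt hCt hCs hδ hX0 hr hr1 (hp2 k0) hc₀ hc₀pos hk0a
  have g6 : Ct / r ^ mt * (Cs / r * (1 + Z)) ≤ Ct * Cs * W * (1 + Z) :=
    os_g6 Ct Cs Z r W mt hCt hCs hZ0 hr (hrM (mt + 1) (by omega))
  have g7 : Ct / r ^ mt * (2 / 2 ^ k0 * (1 + Z)) ≤ Ct * 2 * W * (1 + Z) :=
    os_g7 Ct Z r W (2 ^ k0) mt hCt (one_le_pow₀ (by norm_num)) hZ0 hr (hrM mt (by omega))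
  have g8 : Ct / r ^ mt * ((1 + N) * 2 ^ (k0 + K') * η) ≤ Ct * (4 * c₀) * W := by
    rw [pow_add 2 k0 K']
    exact os_g8 Ct c₀ N η r W (2 ^ k0) (2 ^ K') mt hCt (hp2 k0) hc₀pos hN0 hη hη2 hr hk0b hK'b
      (hrM (mt + (mt + 2)) (by omega))
  have g9 : K₁ * ∑ j, p j * wm D (pl (cy y r) (fun i => D.charge (sp i))) (ψ j) ≤
      δ / 4 * X + K₁ * Cp * W * Z := by
    have h1 := hrM 1 (by omega)
    rw [pow_one] at h1
    exact os_g9 K₁ Cp δ r W X Z _ _ _ hK₁ hCp hδ hr h1 (hnum (3 * r) (by linarith)) hZ0 s7 s8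
  -- the sum
  have t3 := (abs_le.1 s3).1
  have t3' : -(Cm * (2 * c₀) ^ mm * W * (1 + Z)) ≤
      wx D p ψ (fun x => os_M D sp l y r k0 x - phb D sp ℓ x * os_Q D sp y r x) := by
    have : -(Cm * (2 ^ k0) ^ mm * (1 + wx D p ψ (fun x => nb y (8 * r) x ^ ((4 : ℝ) / 3)))) ≤
      wx D p ψ (fun x => os_M D sp l y r k0 x - phb D sp ℓ x * os_Q D sp y r x) := t3
    linarith
  have s1' : 1 / 4 * (∑ j, p j * klc D sp y r (ψ j)) +
      wx D p ψ (fun x => os_T D sp y r x - phb D sp ℓ x * os_Q D sp y r x) ≤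
      Ce / r ^ 2 * (1 + wx D p ψ (fun x => nb y (2 * r) x ^ ((4 : ℝ) / 3))) +
        Ce * (1 + (Fintype.card I : ℝ)) * η := s1
  have s6' : -(δ / 4 * X + Ct * Cs * W * (1 + Z) + Ct * 2 * W * (1 + Z) + Ct * (4 * c₀) * W) ≤
      ∑ k ∈ Finset.Ico k0 (k0 + K'), wx D p ψ (os_P D sp l y r k) := by
    refine le_trans ?_ s6
    have : Ct / r ^ mt * (Cs / 2 ^ k0 * X + Cs / r * (1 + Z) + 2 / 2 ^ k0 * (1 + Z) +
      (1 + N) * 2 ^ (k0 + K') * η) = Ct / r ^ mt * (Cs / 2 ^ k0 * X) +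
      Ct / r ^ mt * (Cs / r * (1 + Z)) + Ct / r ^ mt * (2 / 2 ^ k0 * (1 + Z)) +
      Ct / r ^ mt * ((1 + N) * 2 ^ (k0 + K') * η) := by ring
    rw [this]
    linarith
  have e6 : 4 * (Ce + Ce + Cd + Cm * (2 * c₀) ^ mm + Ct * (Cs + 2 + 4 * c₀) + K₁ * Cp) /
      r ^ ((mt + 2) * mm + mt + (mt + 2) + 2) =
      4 * (Ce + Ce + Cd + Cm * (2 * c₀) ^ mm + Ct * (Cs + 2 + 4 * c₀) + K₁ * Cp) * W := by
    rw [hW]
    exact div_eq_mul_one_div _ _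
  rw [e6, s10, hδ2]
  exact os_finT Ce Cd (Cm * (2 * c₀) ^ mm) Ct Cs c₀ K₁ Cp W Z X δ _ _ _ _ _ _ _ _ _ _ hCe hCd hCt
    hc₀pos hK₁ hCp hW1 hZ0 hmx0 s1' s2 g1 g2 g3 t3' s6' s9 g9

end Run7.h213.P.K.RH9
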