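import Pool.Agent.Helper780_CP.RH10
import Pool.Agent.Run7.h213.P.KLLDefs2
import Pool.Agent.Run7.h213.P.KLPDefs
import Pool.Agent.Run7.h213.P.KRH9
import Pool.Agent.Run7.h213.P.CBase
import Pool.Agent.Run7.h213.P.KLLDefs3
import Pool.Agent.Run7.h213.P.KRWT
import Pool.Agent.Run7.h213.P.KRNL
import Pool.Agent.Run7.h213.P.KROS

set_option autoImplicit false

open MeasureTheory
open scoped Topology

namespace Run7.h213.P.K.RH10

open Pool.Agent.Helper985.CP hiding IsState MT_core MT_energy_smul MT_psl_lin MT_slice_int MT_state_smul MT_zero Ortho QQ31988 QQ_ins0_31988 QQ_mul31988 QQ_perm31988 QQ_sum31988 cl_energy_zero cl_kinE_zero cl_kin_zero cl_pe_zero cl_zero cube energy idjT_act idjT_compact idjT_smooth idj_W0_act idj_W0_bound idj_W0_smooth idj_int idj_sum ims_state ins0_num ins0_swap31988 insN_props insNp_energy insNp_kin insNp_state ins_disj ins_state int_state kin kinE moveT_any moveT_none nrm2_pos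 pe pe_symm peierls peierls_relabel prl_kin prl_sub psl_deriv psl_energy psl_energy_k psl_energy_kint psl_energy_vint psl_energy_w psl_nrm psl_slice psl_state psl_weight pw_parseval pwaux_parseval q985_point rb833_X rb833_state rbX rb_act_X rb_bessel rb_bessel0 rb_ip_X rb_ip_XX rb_ip_XX_meas rb_ip_XX_one rb_ip_XX_vol rb_ip_swap rb_nice_X rb_nice_state relabel_num relabel_state relaux_kin remove_none_aux row_bound slice_basic slice_energy slice_state sm_ins0_31988 sphK sph_K sph_energy sph_isState sph_kin sph_sum spin_ins0_31988 stable_any state_comb sum_pe_half term_A31988 term_B31988 term_swap31988 trace_bound trace_bound_dens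
open Pool.Agent.Helper780_CP hiding FLT MM NE WI WI_add WI_const WI_coul WI_mul WI_near2 WI_one WI_pair WI_phi WI_smul WI_sum WI_wW WI_zero cost_avg icb kb kcy klc ms_qf mulW_nrm_le mulW_state multiC phb pinv_intg qf qf_int qf_one qf_split qf_wa rest_lower vb wm_add wm_mono wm_sum wm_tendsto
open Pool.Agent.Helper780_CP.RH10 hiding lawT

variable [Env]

open Run7.h213.P.K
open Run7.h213.P.K.RH9 (one_stepT)

open Run7.h213.P.K
open Run7.h213.P.K.RWT (wt_facts)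
open Run7.h213.P.K.RNL (num_law)
open Pool.Agent.Helper780_CP.RLAW (law404_young law404_nb_nonneg)

/-- TARGET -/
theorem lawT {S : Type} [Fintype S] [DecidableEq S] (D : Species S) (hD : D.Valid)
    (hst : HStable D) (hf : ∀ s, D.charge s < 0 → D.fermion s = true) (z cm K₁ C₁ : ℝ)
    (hcm : 0 < cm) (hz : ∀ s, cm ≤ |D.charge s| ∧ |D.charge s| ≤ z) (hK₁ : 0 < K₁) (hC₁ : 0 < C₁)
    (h : RB z K₁ C₁) (F : Finset E3) (hF : ∀ v : E3, ‖v‖ ≤ 12 → ∃ p ∈ F, ‖v - p‖ < 1 / 64)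
    (hF2 : ∀ p ∈ F, ‖p‖ ≤ 12) (T V ρ : ℝ) (hT : 0 < T) (hV : 0 < V) (hρ : 0 < ρ)
    (a b l : E3 → ℝ) (hK : Ker a b l) :
    ∃ (C : ℝ) (m : ℕ), 0 < C ∧
    ∀ {I : Type} [Fintype I] [DecidableEq I] (sp : I → S) (ℓ : ℝ), 4 ≤ ℓ →
      ℓ ^ 3 ≤ V * (Fintype.card I : ℝ) → (Fintype.card I : ℝ) ≤ ρ * ℓ ^ 3 →
      (∑ i, D.charge (sp i) = 0) → ∀ η Z : ℝ, 0 ≤ η →
      η * (1 + (Fintype.card I : ℝ)) ^ 2 ≤ 1 → ∀ {k : ℕ} (p : Fin k → ℝ)
      (ψ : Fin k → Wave D I), NE D sp ℓ T η Z p ψ →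
      ∀ (y : E3) (r : ℝ), 0 < r → r ≤ 1 → Metric.closedBall y (16 * r) ⊆ cube ℓ →
      0 ≤ ∑ j, p j * MM D sp K₁ y r (ψ j) ∧ ∑ j, p j * MM D sp K₁ y r (ψ j) ≤ C / r ^ m := by
  classical
  obtain ⟨m, hm⟩ := one_stepT D hD hst hf z cm K₁ C₁ hcm hz hK₁ hC₁ (@h) F hF T V ρ hT hV hρ a b l hK
  obtain ⟨C₂, hC₂, hn⟩ := num_law D hD hf z cm K₁ C₁ hcm hz hK₁ hC₁ (@h) F hF
  obtain ⟨fc, hfc⟩ : ∃ fc : ℝ, fc = (F.card : ℝ) := ⟨_, rfl⟩
  have hfc0 : 0 ≤ fc := by rw [hfc]; positivity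
  obtain ⟨bb, hbb⟩ : ∃ bb : ℕ, bb = 5 * m := ⟨_, rfl⟩
  obtain ⟨δ, hδe⟩ : ∃ δ : ℝ, δ = 1 / (4 * (fc + 1) * 4 ^ bb) := ⟨_, rfl⟩
  have hδ : 0 < δ := by rw [hδe]; positivity
  have hδ2 : 2 * δ * (4 ^ bb * (fc + 1)) = 1 / 2 := by
    rw [hδe]
    field_simp
    norm_num
  obtain ⟨C, hC, hone⟩ := hm δ hδ
  obtain ⟨κ, hκe⟩ : ∃ κ : ℝ, κ = min 1 (δ / (C * C₂)) := ⟨_, rfl⟩
  have hκ : 0 < κ := by rw [hκe]; exact lt_min one_pos (by positivity)
  have hκ1 : κ ≤ 1 := by rw [hκe]; exact min_le_left _ _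
  have hκ2 : C * κ * C₂ ≤ δ := by
    have h1 : κ ≤ δ / (C * C₂) := by rw [hκe]; exact min_le_right _ _
    rw [le_div_iff₀ (by positivity)] at h1
    linarith
  obtain ⟨C', hC'e⟩ : ∃ C' : ℝ, C' = C * (1 + (κ⁻¹) ^ 4) + δ := ⟨_, rfl⟩
  have hC' : 0 < C' := by rw [hC'e]; positivity
  refine ⟨2 * C', bb, by positivity, ?_⟩
  intro I _ _ sp ℓ hℓ hVc hcard hneu η Z hη hη2 k p ψ hNE
  obtain ⟨-, hWn, -, -, -, -, hB⟩ := wt_facts D hD sp ℓ
  choose Bj hBj using fun j => hB (ψ j) (hNE.state j) K₁ hK₁.le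
  obtain ⟨M, hMe⟩ : ∃ M : E3 → ℝ → ℝ, M = fun y r => ∑ j, p j * MM D sp K₁ y r (ψ j) := ⟨_, rfl⟩
  have hMv : ∀ (y : E3) (r : ℝ), ∑ j, p j * MM D sp K₁ y r (ψ j) = M y r := by
    intro y r; rw [hMe]
  have hnnj : ∀ (j : Fin k) (y : E3) (r : ℝ), 0 < r → r ≤ 1 → 0 ≤ MM D sp K₁ y r (ψ j) := by
    intro j y r hr hr1
    obtain ⟨h1, h2, -⟩ := hn sp ℓ (ψ j) (hNE.state j) (hNE.nrm j) y r hr hr1
    unfold MM
    exact add_nonneg h1 h2
  have hnn : ∀ (y : E3) (r : ℝ), 0 < r → r ≤ 1 → 0 ≤ M y r := by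
    intro y r hr hr1
    rw [← hMv]
    exact Finset.sum_nonneg fun j _ => mul_nonneg (hNE.p0 j) (hnnj j y r hr hr1)
  have hBM : ∀ (y : E3) (r : ℝ), M y r ≤ ∑ j, p j * Bj j := by
    intro y r
    rw [← hMv]
    exact Finset.sum_le_sum fun j _ => mul_le_mul_of_nonneg_left (hBj j y r) (hNE.p0 j)
  -- the recursive inequality
  have hstep : ∀ (y : E3) (r : ℝ), 0 < r → r ≤ 1 → Metric.closedBall y (16 * r) ⊆ cube ℓ →
      r ^ bb * M y r ≤
        C' + 2 * δ * (r ^ bb * ∑ q ∈ F, M (y + r • q) (r / 4)) := by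
    intro y r hr hr1 hball
    have h4ball : Metric.closedBall y (4 * r) ⊆ cube ℓ :=
      (Metric.closedBall_subset_closedBall (by linarith)).trans hball
    have h1 := hone sp ℓ hℓ hVc hcard hneu η Z hη hη2 p ψ hNE y r hr hr1 h4ball
    simp only [hMv] at h1
    have h2 : wx D p ψ (fun x => nb y (12 * r) x ^ ((5 : ℝ) / 3)) ≤
        C₂ * (1 + ∑ q ∈ F, M (y + r • q) (r / 4)) := by
      have a1 : wx D p ψ (fun x => nb y (12 * r) x ^ ((5 : ℝ) / 3)) ≤
          ∑ j, p j * (C₂ * (1 + ∑ q ∈ F, MM D sp K₁ (y + r • q) (r / 4) (ψ j))) := by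
        unfold wx
        refine Finset.sum_le_sum fun j _ => mul_le_mul_of_nonneg_left ?_ (hNE.p0 j)
        obtain ⟨-, -, -, -, h2, -⟩ := hn sp ℓ (ψ j) (hNE.state j) (hNE.nrm j) y r hr hr1
        exact h2
      refine a1.trans (le_of_eq ?_)
      have a2 : ∑ q ∈ F, M (y + r • q) (r / 4) =
          ∑ j, p j * ∑ q ∈ F, MM D sp K₁ (y + r • q) (r / 4) (ψ j) := by
        simp only [← hMv, Finset.mul_sum]
        exact Finset.sum_comm
      rw [a2, mul_add, mul_one, Finset.mul_sum]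
      have a3 : C₂ = ∑ j, p j * C₂ := by rw [← Finset.sum_mul, hNE.p1, one_mul]
      conv_rhs => rw [a3]
      rw [← Finset.sum_add_distrib]
      refine Finset.sum_congr rfl fun j _ => ?_
      rw [← a3]
      ring
    have hX : 0 ≤ ∑ q ∈ F, M (y + r • q) (r / 4) :=
      Finset.sum_nonneg fun q _ => hnn _ _ (by linarith) (by linarith)
    generalize ∑ q ∈ F, M (y + r • q) (r / 4) = X at h1 h2 hX ⊢
    obtain ⟨lam, hlam⟩ : ∃ lam : ℝ, lam = κ * r ^ m := ⟨_, rfl⟩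
    have hrm : 0 < r ^ m := by positivity
    have hl0 : 0 < lam := by rw [hlam]; positivity
    have h3 : wx D p ψ (fun x => nb y (12 * r) x ^ ((4 : ℝ) / 3)) ≤
        (lam⁻¹) ^ 4 + lam * wx D p ψ (fun x => nb y (12 * r) x ^ ((5 : ℝ) / 3)) := by
      have hVW := hWn y (12 * r) (4 / 3) (by norm_num)
      have hW := hWn y (12 * r) (5 / 3) (by norm_num)
      have hc : WI D sp ℓ (fun _ : I → E3 => (lam⁻¹) ^ 4 * 1) := WI_const D sp ℓ _
      have hW2 := WI_smul D sp ℓ hW lam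
      have a1 : ∀ j : Fin k, wm D (fun x => nb y (12 * r) x ^ ((4 : ℝ) / 3)) (ψ j) ≤
          (lam⁻¹) ^ 4 + lam * wm D (fun x => nb y (12 * r) x ^ ((5 : ℝ) / 3)) (ψ j) := by
        intro j
        have h5 := wm_mono D sp ℓ hVW (WI_add D sp ℓ hc hW2) (ψ j) (hNE.state j)
          (Filter.Eventually.of_forall fun x =>
            law404_young (nb y (12 * r) x) lam (law404_nb_nonneg _ _ _) hl0)
        rw [wm_add D sp ℓ hc hW2 (ψ j) (hNE.state j), wm_smul, wm_smul, wm_one, hNE.nrm j,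
          mul_one] at h5
        exact h5
      unfold wx
      refine (Finset.sum_le_sum fun j _ => mul_le_mul_of_nonneg_left (a1 j) (hNE.p0 j)).trans
        (le_of_eq ?_)
      have a3 : (lam⁻¹) ^ 4 = ∑ j, p j * (lam⁻¹) ^ 4 := by
        rw [← Finset.sum_mul, hNE.p1, one_mul]
      rw [Finset.mul_sum]
      conv_rhs => rw [a3]
      rw [← Finset.sum_add_distrib]
      refine Finset.sum_congr rfl fun j _ => ?_
      ring
    have h6 : wx D p ψ (fun x => nb y (12 * r) x ^ ((4 : ℝ) / 3)) ≤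
        (lam⁻¹) ^ 4 + lam * (C₂ * (1 + X)) :=
      h3.trans (by
        have := mul_le_mul_of_nonneg_left h2 hl0.le
        linarith)
    have h7 : M y r ≤ C / r ^ m * (1 + ((lam⁻¹) ^ 4 + lam * (C₂ * (1 + X)))) + δ * X := by
      refine h1.trans ?_
      have h8 : 0 ≤ C / r ^ m := by positivity
      have := mul_le_mul_of_nonneg_left h6 h8
      linarith
    have h9 : C / r ^ m * (1 + ((lam⁻¹) ^ 4 + lam * (C₂ * (1 + X)))) =
        C / r ^ m * (1 + (lam⁻¹) ^ 4) + (C * κ * C₂) * (1 + X) := by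
      rw [hlam]
      field_simp
      ring
    have hrbb : 0 < r ^ bb := by positivity
    have hrb1 : r ^ bb ≤ 1 := pow_le_one₀ hr.le hr1
    have h10 : r ^ bb * (C / r ^ m * (1 + (lam⁻¹) ^ 4)) ≤ C * (1 + (κ⁻¹) ^ 4) := by
      have e1 : r ^ bb = r ^ m * (r ^ m) ^ 4 := by rw [hbb, ← pow_mul, ← pow_add]; congr 1; ring
      have hrm1 : (r ^ m) ^ 4 ≤ 1 := pow_le_one₀ hrm.le (pow_le_one₀ hr.le hr1)
      have e2 : r ^ bb * (C / r ^ m * (1 + (lam⁻¹) ^ 4)) = C * ((r ^ m) ^ 4 + (κ⁻¹) ^ 4) := by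
        rw [e1, hlam]
        field_simp
      rw [e2]
      exact mul_le_mul_of_nonneg_left (by linarith) hC.le
    have h11 : r ^ bb * ((C * κ * C₂) * (1 + X)) ≤ δ + δ * (r ^ bb * X) := by
      have e1 : (C * κ * C₂) * (1 + X) ≤ δ * (1 + X) :=
        mul_le_mul_of_nonneg_right hκ2 (by linarith)
      have e2 : r ^ bb * ((C * κ * C₂) * (1 + X)) ≤ r ^ bb * (δ * (1 + X)) :=
        mul_le_mul_of_nonneg_left e1 hrbb.le
      have e3 : r ^ bb * δ ≤ δ := mul_le_of_le_one_left hδ.le hrb1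
      have e4 : r ^ bb * (δ * (1 + X)) = r ^ bb * δ + δ * (r ^ bb * X) := by ring
      linarith
    have h12 := mul_le_mul_of_nonneg_left h7 hrbb.le
    rw [h9, mul_add, mul_add] at h12
    have e5 : r ^ bb * (δ * X) = δ * (r ^ bb * X) := by ring
    rw [hC'e]
    linarith
  -- the supremum
  intro y₀ r₀ hr₀ hr₀1 hball₀
  rw [hMv]
  refine ⟨hnn y₀ r₀ hr₀ hr₀1, ?_⟩
  obtain ⟨A, hA⟩ : ∃ A : Set ℝ, A = {s | ∃ (y : E3) (r : ℝ), 0 < r ∧ r ≤ 1 ∧
    Metric.closedBall y (16 * r) ⊆ cube ℓ ∧ s = r ^ bb * M y r} := ⟨_, rfl⟩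
  have hAb : BddAbove A := by
    refine ⟨max (∑ j, p j * Bj j) 0, ?_⟩
    rw [hA]
    rintro s ⟨y, r, hr, hr1, -, rfl⟩
    have h1 : r ^ bb * M y r ≤ M y r :=
      mul_le_of_le_one_left (hnn y r hr hr1) (pow_le_one₀ hr.le hr1)
    exact (h1.trans (hBM y r)).trans (le_max_left _ _)
  have hmem₀ : r₀ ^ bb * M y₀ r₀ ∈ A := by
    rw [hA]
    exact ⟨y₀, r₀, hr₀, hr₀1, hball₀, rfl⟩
  have hle₀ := le_csSup hAb hmem₀
  have hS0 : 0 ≤ sSup A := (mul_nonneg (by positivity) (hnn y₀ r₀ hr₀ hr₀1)).trans hle₀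
  have hS : sSup A ≤ C' + 1 / 2 * sSup A := by
    refine csSup_le ⟨_, hmem₀⟩ ?_
    intro s hs
    rw [hA] at hs
    obtain ⟨y, r, hr, hr1, hball, rfl⟩ := hs
    refine (hstep y r hr hr1 hball).trans ?_
    have h1 : r ^ bb * ∑ q ∈ F, M (y + r • q) (r / 4) ≤ 4 ^ bb * (fc + 1) * sSup A := by
      have h2 : ∀ q ∈ F, r ^ bb * M (y + r • q) (r / 4) ≤ 4 ^ bb * sSup A := by
        intro q hq
        have h3 : (r / 4) ^ bb * M (y + r • q) (r / 4) ∈ A := by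
          rw [hA]
          refine ⟨y + r • q, r / 4, by linarith, by linarith, ?_, rfl⟩
          refine Set.Subset.trans ?_ hball
          refine Metric.closedBall_subset_closedBall' ?_
          have h4 : dist (y + r • q) y = ‖r • q‖ := by
            rw [dist_eq_norm, add_sub_cancel_left]
          rw [h4, norm_smul, Real.norm_eq_abs, abs_of_pos hr]
          have h5 := mul_le_mul_of_nonneg_left (hF2 q hq) hr.le
          linarith
        have h6 := le_csSup hAb h3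
        have h7 : r ^ bb = 4 ^ bb * (r / 4) ^ bb := by
          rw [← mul_pow]; congr 1; ring
        rw [h7, mul_assoc]
        exact mul_le_mul_of_nonneg_left h6 (by positivity)
      rw [Finset.mul_sum]
      have h8 := Finset.sum_le_sum h2
      rw [Finset.sum_const, nsmul_eq_mul, ← hfc] at h8
      refine h8.trans ?_
      have h9 : 0 ≤ (4 : ℝ) ^ bb * sSup A := by positivity
      have h10 : 4 ^ bb * (fc + 1) * sSup A = fc * (4 ^ bb * sSup A) + 4 ^ bb * sSup A := by ring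
      linarith
    have h10 := mul_le_mul_of_nonneg_left h1 (show 0 ≤ 2 * δ by positivity)
    have h11 : 2 * δ * (4 ^ bb * (fc + 1) * sSup A) = 1 / 2 * sSup A := by
      rw [← mul_assoc, hδ2]
    linarith
  have hfin : r₀ ^ bb * M y₀ r₀ ≤ 2 * C' := by linarith
  rw [le_div_iff₀ (by positivity), mul_comm]
  exact hfin

end Run7.h213.P.K.RH10
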